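import Pool.Agent.K3D.Stmts
import Pool.Agent.DRB.EXP

/-!
# K3: exponentials
-/

open scoped BigOperators
open Matrix

namespace Pool.Agent.K3D

open Pool.Agent.DRB

attribute [local instance] Matrix.linftyOpNormedAddCommGroup Matrix.linftyOpNormedRing
  Matrix.linftyOpNormedAlgebra

theorem K3X.hasDerivAt_entry {ι : Type} [Fintype ι] [DecidableEq ι] (X : Matrix ι ι ℂ) (s : ℝ) (i j : ι) :
    HasDerivAt (fun r : ℝ => NormedSpace.exp (r • X) i j) ((X * NormedSpace.exp (s • X)) i j) s := by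
  have h := hasDerivAt_exp_smul_const' (𝕂 := ℝ) X s
  have h1 := (hasDerivAt_pi.1 (hasDerivAt_pi.1 h i) j)
  exact h1

theorem k3_proof : Stmt_K3 := by
  intro ι _ _ t X ξ D hD
  rintro _ ⟨u, hu, rfl⟩
  have h1 : ∀ s : ℝ, HasDerivAt (fun r : ℝ => TAct t (NormedSpace.exp (r • X)) (Complex.exp (r * ξ)) u)
      (DAct t X ξ (TAct t (NormedSpace.exp (s • X)) (Complex.exp (s * ξ)) u)) s := by
    intro s
    refine EXP.hasDerivAt_TAct t (fun r : ℝ => NormedSpace.exp (r • X)) (fun r : ℝ => Complex.exp (r * ξ))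
      X ξ s (fun i j => K3X.hasDerivAt_entry X s i j) ?_ (Complex.exp_ne_zero _) u
    have h2 : HasDerivAt (fun r : ℝ => (r : ℂ) * ξ) ξ s := by
      have := (Complex.ofRealCLM.hasDerivAt (x := s)).mul_const ξ
      simpa using this
    have h3 := h2.cexp
    refine h3.congr_deriv ?_
    ring
  have h0 : TAct t (NormedSpace.exp ((0 : ℝ) • X)) (Complex.exp (((0 : ℝ) : ℂ) * ξ)) u ∈ D := by
    rw [zero_smul, NormedSpace.exp_zero, Complex.ofReal_zero, zero_mul, Complex.exp_zero, TAct_one]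
    exact hu
  have h4 := EXP.stay D (DAct t X ξ) hD _ h1 h0 1
  rw [one_smul, Complex.ofReal_one, one_mul] at h4
  exact h4

end Pool.Agent.K3D
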