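import Pool.Agent.K3D.K2
import Pool.Agent.K3D.K3

/-!
# K2c, K2d: the Lie algebra commutes with the endomorphisms, consists of infinitesimal similitudes, and
preserves `T`
-/

open scoped BigOperators
open Matrix

namespace Pool.Agent.K3D

open Pool.Agent.DRB

noncomputable section

namespace K2Y

attribute [local instance] Matrix.linftyOpNormedAddCommGroup Matrix.linftyOpNormedRing
  Matrix.linftyOpNormedAlgebra

variable {ι : Type} [Fintype ι] [DecidableEq ι]

/-- the invertible matrix `exp X` -/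
def eX (X : Matrix ι ι ℂ) : GL ι ℂ where
  val := NormedSpace.exp X
  inv := NormedSpace.exp (-X)
  val_inv := by
    rw [← Matrix.exp_add_of_commute _ _ (Commute.neg_right (Commute.refl X)), add_neg_cancel,
      NormedSpace.exp_zero]
  inv_val := by
    rw [← Matrix.exp_add_of_commute _ _ (Commute.neg_left (Commute.refl X)), neg_add_cancel,
      NormedSpace.exp_zero]

theorem eX_val (X : Matrix ι ι ℂ) : (eX X).val = NormedSpace.exp X := rfl

theorem eX_inv (X : Matrix ι ι ℂ) : ((eX X)⁻¹).val = NormedSpace.exp (-X) := rfl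

theorem inLie_smul (hK2a : Stmt_K2a) {Γ : Subgroup (GL ι ℂ × ℂˣ)} {X : Matrix ι ι ℂ} {ξ : ℂ}
    (h : InLie Γ X ξ) (c : ℂ) : InLie Γ (c • X) (c * ξ) := by
  have h1 := (hK2a ι Γ).1 0 X 0 ξ c (hK2a ι Γ).2.1 h
  rwa [zero_add, zero_add] at h1

/-- `exp` of an element of the Lie algebra preserves the stable subspaces -/
theorem exp_stab {Γ : Subgroup (GL ι ℂ × ℂˣ)} {X : Matrix ι ι ℂ} {ξ : ℂ}
    (h : InLie Γ X ξ) (t : TData) (D : Submodule ℂ (TIdx t ι → ℂ)) (hD : StabG Γ t D) :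
    D.map (TAct t (eX X).val (Complex.exp ξ)) ≤ D :=
  k3_proof ι t X ξ D (h t D hD)

theorem exp_stab_eq (hK2a : Stmt_K2a) {Γ : Subgroup (GL ι ℂ × ℂˣ)} {X : Matrix ι ι ℂ} {ξ : ℂ}
    (h : InLie Γ X ξ) (t : TData) (D : Submodule ℂ (TIdx t ι → ℂ)) (hD : StabG Γ t D) :
    D.map (TAct t (eX X).val (Complex.exp ξ)) = D := by
  apply le_antisymm (exp_stab h t D hD)
  intro u hu
  have h1 : InLie Γ (-X) (-ξ) := by
    have := inLie_smul hK2a h (-1)
    rwa [neg_one_smul, neg_one_mul] at this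
  have h2 := exp_stab h1 t D hD ⟨u, hu, rfl⟩
  refine ⟨_, h2, ?_⟩
  have h3 := TAct_comp t (eX X).val (eX (-X)).val (Complex.exp ξ) (Complex.exp (-ξ))
  have h4 : (eX X).val * (eX (-X)).val = 1 := (eX X).val_inv
  rw [h4, ← Complex.exp_add, add_neg_cancel, Complex.exp_zero, TAct_one] at h3
  rw [← LinearMap.comp_apply, ← h3, LinearMap.id_apply]

/-- derivative of a curve of exponentials -/
theorem hasDerivAt_e (X : Matrix ι ι ℂ) (s : ℝ) :
    HasDerivAt (fun r : ℝ => NormedSpace.exp (r • X)) (X * NormedSpace.exp (s • X)) s :=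
  hasDerivAt_exp_smul_const' (𝕂 := ℝ) X s

/-- if `exp (s X)` commutes with `Y` for all `s` then so does `X` -/
theorem comm_of_exp (X Y : Matrix ι ι ℂ)
    (h : ∀ s : ℝ, NormedSpace.exp (s • X) * Y = Y * NormedSpace.exp (s • X)) : X * Y = Y * X := by
  have h1 := (hasDerivAt_e X 0).mul_const Y
  have h2 := (hasDerivAt_e X 0).const_mul Y
  have h3 : (fun r : ℝ => NormedSpace.exp (r • X) * Y) = fun r : ℝ => Y * NormedSpace.exp (r • X) :=
    funext h
  rw [h3] at h1
  have h4 := h1.unique h2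
  simpa [zero_smul, NormedSpace.exp_zero] using h4

theorem sim_of_exp (X R : Matrix ι ι ℂ) (ξ : ℂ)
    (h : ∀ s : ℝ, (NormedSpace.exp (s • X))ᵀ * R * NormedSpace.exp (s • X) =
      Complex.exp (s * ξ) • R) : Xᵀ * R + R * X = ξ • R := by
  have h0 : ∀ (i j : ι), HasDerivAt (fun r : ℝ => ((NormedSpace.exp (r • X))ᵀ * R * NormedSpace.exp (r • X)) i j)
      ((Xᵀ * R + R * X) i j) 0 := by
    intro i j
    have e : ∀ a b : ι, HasDerivAt (fun r : ℝ => NormedSpace.exp (r • X) a b) (X a b) 0 := by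
      intro a b
      have := K3X.hasDerivAt_entry X 0 a b
      simpa [zero_smul, NormedSpace.exp_zero] using this
    have e0 : ∀ a b : ι, NormedSpace.exp ((0 : ℝ) • X) a b = (1 : Matrix ι ι ℂ) a b := by
      intro a b
      rw [zero_smul, NormedSpace.exp_zero]
    have h1 : HasDerivAt (fun r : ℝ => ∑ b, (∑ a, NormedSpace.exp (r • X) a i * R a b) *
        NormedSpace.exp (r • X) b j)
        (∑ b, ((∑ a, X a i * R a b) * (1 : Matrix ι ι ℂ) b j +
          (∑ a, (1 : Matrix ι ι ℂ) a i * R a b) * X b j)) 0 := by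
      apply HasDerivAt.fun_sum
      intro b _
      have h2 : HasDerivAt (fun r : ℝ => ∑ a, NormedSpace.exp (r • X) a i * R a b)
          (∑ a, X a i * R a b) 0 := by
        apply HasDerivAt.fun_sum
        intro a _
        exact (e a i).mul_const _
      have h3 := h2.mul (e b j)
      simp only [e0] at h3
      exact h3
    have h4 : (∑ b, ((∑ a, X a i * R a b) * (1 : Matrix ι ι ℂ) b j +
          (∑ a, (1 : Matrix ι ι ℂ) a i * R a b) * X b j)) = (Xᵀ * R + R * X) i j := by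
      rw [Finset.sum_add_distrib, Matrix.add_apply, Matrix.mul_apply, Matrix.mul_apply]
      congr 1
      · rw [Finset.sum_eq_single j]
        · simp [Matrix.transpose_apply]
        · intro b _ hb
          simp [Matrix.one_apply_ne hb]
        · simp
      · refine Finset.sum_congr rfl fun b _ => ?_
        congr 1
        rw [Finset.sum_eq_single i]
        · simp
        · intro a _ ha
          simp [Matrix.one_apply_ne ha]
        · simp
    rw [← h4]
    exact h1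
  ext i j
  have h1 := h0 i j
  have h2 : HasDerivAt (fun r : ℝ => (Complex.exp (r * ξ) • R) i j) ((ξ • R) i j) 0 := by
    have h3 : HasDerivAt (fun r : ℝ => (r : ℂ) * ξ) ξ 0 := by
      have := (Complex.ofRealCLM.hasDerivAt (x := 0)).mul_const ξ
      simpa using this
    have h4 := (h3.cexp).mul_const (R i j)
    simpa using h4
  have h3 : (fun r : ℝ => ((NormedSpace.exp (r • X))ᵀ * R * NormedSpace.exp (r • X)) i j) =
      fun r : ℝ => (Complex.exp (r * ξ) • R) i j := by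
    funext r
    rw [h r]
  rw [h3] at h1
  exact h1.unique h2

/-- if `exp (s X) Y exp (- s X)` belongs to `T` for all `s` then so does `X Y - Y X` -/
theorem ad_of_exp (X Y : Matrix ι ι ℂ) (T : Submodule ℂ (Matrix ι ι ℂ))
    (h : ∀ s : ℝ, NormedSpace.exp (s • X) * Y * NormedSpace.exp (-(s • X)) ∈ T) :
    X * Y - Y * X ∈ T := by
  have h1 : HasDerivAt (fun r : ℝ => NormedSpace.exp (r • X) * Y) (X * Y) 0 := by
    refine ((hasDerivAt_e X 0).mul_const Y).congr_deriv ?_
    rw [zero_smul, NormedSpace.exp_zero, mul_one]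
  have h2 : HasDerivAt (fun r : ℝ => NormedSpace.exp (-(r • X))) (-X) 0 := by
    have h := hasDerivAt_e (-X) 0
    simp only [smul_neg] at h
    refine h.congr_deriv ?_
    rw [zero_smul, neg_zero, NormedSpace.exp_zero, mul_one]
  have h3 := h1.mul h2
  have h4 : HasDerivAt (fun r : ℝ => NormedSpace.exp (r • X) * Y * NormedSpace.exp (-(r • X)))
      (X * Y - Y * X) 0 := by
    refine h3.congr_deriv ?_
    simp [zero_smul, NormedSpace.exp_zero]
    abel
  have hcl : IsClosed (T : Set (Matrix ι ι ℂ)) := Submodule.closed_of_finiteDimensional T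
  have h5 := h4.hasDerivWithinAt (s := Set.univ)
  -- the difference quotients are in T
  have h6 := h4.tendsto_slope
  refine hcl.mem_of_tendsto h6 ?_
  filter_upwards [self_mem_nhdsWithin] with r _
  rw [slope_def_module]
  have h7 : NormedSpace.exp ((0 : ℝ) • X) * Y * NormedSpace.exp (-((0 : ℝ) • X)) ∈ T := h 0
  have h8 := T.sub_mem (h r) h7
  have h9 : ∀ (c : ℝ) (Z : Matrix ι ι ℂ), Z ∈ T → c • Z ∈ T := by
    intro c Z hZ
    have : c • Z = (c : ℂ) • Z := by
      ext i j; simp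
    rw [this]
    exact T.smul_mem _ hZ
  exact h9 _ _ h8

/-! ### The tensor space `V ⊗ V (-1)` -/

/-- the tensor space `V ⊗ V (-1)` -/
abbrev tT : TData := ⟨1, fun _ => 2, fun _ => -1⟩

/-- the matrix of a tensor -/
def UU : (TIdx tT ι → ℂ) →ₗ[ℂ] Matrix ι ι ℂ where
  toFun u := Matrix.of fun i j => u ⟨(0 : Fin 1), ![i, j]⟩
  map_add' u v := by ext i j; rfl
  map_smul' c u := by ext i j; rfl

/-- the tensor of a matrix -/
def VV (Y : Matrix ι ι ℂ) : TIdx tT ι → ℂ := fun p => Y (p.2 (0 : Fin 2)) (p.2 (1 : Fin 2))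

theorem UU_VV (Y : Matrix ι ι ℂ) : UU (VV Y) = Y := by
  ext i j
  rfl

theorem UU_TAct (x : Matrix ι ι ℂ) (ν : ℂ) (u : TIdx tT ι → ℂ) :
    UU (TAct tT x ν u) = ν⁻¹ • (x * UU u * xᵀ) := by
  ext i j
  show TAct tT x ν u ⟨(0 : Fin 1), ![i, j]⟩ = _
  rw [TAct_apply]
  show ν ^ (-1 : ℤ) * ∑ J : Fin 2 → ι, (∏ s : Fin 2, x (![i, j] s) (J s)) * u ⟨(0 : Fin 1), J⟩ = _
  simp only [Fin.prod_univ_two]
  have h1 : ∑ J : Fin 2 → ι, x (![i, j] 0) (J 0) * x (![i, j] 1) (J 1) * u ⟨(0 : Fin 1), J⟩ =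
      ∑ ab : ι × ι, x i ab.1 * x j ab.2 * UU u ab.1 ab.2 := by
    refine Fintype.sum_equiv (finTwoArrowEquiv ι) _ _ fun J => ?_
    have hJ : J = ![J 0, J 1] := by
      funext s
      fin_cases s <;> rfl
    have : u ⟨(0 : Fin 1), J⟩ = UU u (J 0) (J 1) := by
      conv_lhs => rw [hJ]
      rfl
    rw [this]
    rfl
  rw [h1, Fintype.sum_prod_type, _root_.zpow_neg_one, Matrix.smul_apply, smul_eq_mul, Matrix.mul_apply]
  congr 1
  simp only [Matrix.mul_apply, Matrix.transpose_apply, Finset.sum_mul]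
  rw [Finset.sum_comm]
  exact Finset.sum_congr rfl fun k _ => Finset.sum_congr rfl fun j _ => by ring

/-- the tensors corresponding to `T` -/
def DT (R : Matrix ι ι ℂ) (T : Submodule ℂ (Matrix ι ι ℂ)) : Submodule ℂ (TIdx tT ι → ℂ) :=
  T.comap ((LinearMap.mulRight ℂ R).comp UU)

theorem mem_DT (R : Matrix ι ι ℂ) (T : Submodule ℂ (Matrix ι ι ℂ)) (u : TIdx tT ι → ℂ) :
    u ∈ DT R T ↔ UU u * R ∈ T := Iff.rfl

theorem act_T (R : Matrix ι ι ℂ) (x : GL ι ℂ) (ν : ℂ) (hν : ν ≠ 0)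
    (hs : x.valᵀ * R * x.val = ν • R) (u : TIdx tT ι → ℂ) :
    UU (TAct tT x.val ν u) * R = x.val * (UU u * R) * (x⁻¹).val := by
  have h1 : x.val * (x⁻¹).val = 1 := by rw [← Units.val_mul]; simp
  have h2 : x.valᵀ * R = ν • (R * (x⁻¹).val) := by
    calc x.valᵀ * R = x.valᵀ * R * (x.val * (x⁻¹).val) := by rw [h1, mul_one]
      _ = (x.valᵀ * R * x.val) * (x⁻¹).val := by simp only [mul_assoc]
      _ = _ := by rw [hs, Matrix.smul_mul]
  rw [UU_TAct, Matrix.smul_mul]
  calc ν⁻¹ • (x.val * UU u * x.valᵀ * R) = ν⁻¹ • (x.val * UU u * (x.valᵀ * R)) := by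
        simp only [mul_assoc]
    _ = _ := by
        rw [h2, Matrix.mul_smul, smul_smul, inv_mul_cancel₀ hν, one_smul]
        simp only [mul_assoc]

end K2Y

open K2Y

/-- the exponentials of the Lie algebra belong to the de Rham-Betti group -/
theorem exp_inGdRB (hK2a : Stmt_K2a) (hG2 : Stmt_Gb2) {g : ℕ} {A : AbVar g} {X : Matrix (Idx g) (Idx g) ℂ}
    {ξ : ℂ} (h : InLie (Gam A) X ξ) :
    InGdRB A (eX X) (Units.mk0 (Complex.exp ξ) (Complex.exp_ne_zero ξ)) := by
  intro t D hD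
  exact exp_stab_eq hK2a h t D (fun p hp => hG2 g A t D hD p hp)

theorem k2c_proof (hK2a : Stmt_K2a) (hG2 : Stmt_Gb2) (hRev : Stmt_Rev) : Stmt_K2c := by
  intro g A X ξ h
  have h1 : ∀ s : ℝ, InLie (Gam A) (s • X) (s * ξ) := by
    intro s
    have := inLie_smul hK2a h (s : ℂ)
    have e : (s : ℂ) • X = s • X := by
      ext i j; simp
    rwa [e] at this
  refine ⟨fun α hα => ?_, ?_⟩
  · refine comm_of_exp X _ fun s => ?_
    exact (hRev g A _ _ (exp_inGdRB hK2a hG2 (h1 s))).1 α hα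
  · refine sim_of_exp X A.riem ξ fun s => ?_
    exact (hRev g A _ _ (exp_inGdRB hK2a hG2 (h1 s))).2

/-- an element preserving all stable subspaces preserves `T` -/
theorem T_of_stab {g n : ℕ} {A : AbVar g} (K : KSat A n) (hG1 : Stmt_Gb1) (hL : Stmt_Leg)
    (hT : ∀ p ∈ Gam A, ∀ Y ∈ K.TC, p.1.val * Y * (p.1⁻¹).val ∈ K.TC) (x : GL (Idx g) ℂ) (ν : ℂ)
    (hν : ν ≠ 0) (hs : x.valᵀ * A.riem * x.val = ν • A.riem)
    (hx : ∀ (t : TData) (D : Submodule ℂ (TIdx t (Idx g) → ℂ)), StabG (Gam A) t D →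
      D.map (TAct t x.val ν) ≤ D) (Y : Matrix (Idx g) (Idx g) ℂ) (hY : Y ∈ K.TC) :
    x.val * Y * (x⁻¹).val ∈ K.TC := by
  have hdet := (hL g A).2.2.1
  have hD : StabG (Gam A) tT (DT A.riem K.TC) := by
    rintro p hp _ ⟨u, hu, rfl⟩
    rw [mem_DT, act_T A.riem p.1 p.2.val (Units.ne_zero _) (hG1 g A p hp).2]
    exact hT p hp _ hu
  have hu : VV (Y * A.riem⁻¹) ∈ DT A.riem K.TC := by
    rw [mem_DT, UU_VV, Matrix.mul_assoc, Matrix.nonsing_inv_mul _ hdet, Matrix.mul_one]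
    exact hY
  have h1 := hx tT _ hD ⟨_, hu, rfl⟩
  have h2 : Y * A.riem⁻¹ * A.riem = Y := by
    rw [Matrix.mul_assoc, Matrix.nonsing_inv_mul _ hdet, Matrix.mul_one]
  rw [mem_DT, act_T A.riem x ν hν hs, UU_VV, h2] at h1
  exact h1

theorem map_TC {g n : ℕ} {A : AbVar g} (K : KSat A n) (σ : ℂ ≃ₐ[ℚ] ℂ) (Y : Matrix (Idx g) (Idx g) ℂ)
    (hY : Y ∈ K.TC) : Y.map σ ∈ K.TC := by
  unfold KSat.TC at hY ⊢
  refine Submodule.span_induction (p := fun Y _ => Y.map σ ∈ Submodule.span ℂ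
    (Set.range fun j => AbVar.toC (K.t j))) ?_ ?_ ?_ ?_ hY
  · rintro _ ⟨j, rfl⟩
    have : (AbVar.toC (K.t j)).map σ = AbVar.toC (K.t j) := by
      ext a b
      simp [AbVar.toC]
    show (AbVar.toC (K.t j)).map σ ∈ _
    rw [this]
    exact Submodule.subset_span ⟨j, rfl⟩
  · have : (0 : Matrix (Idx g) (Idx g) ℂ).map σ = 0 := by
      ext a b; simp
    rw [this]
    exact Submodule.zero_mem _
  · intro Y Z _ _ h1 h2
    have : (Y + Z).map σ = Y.map σ + Z.map σ := by
      ext a b; simp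
    rw [this]
    exact Submodule.add_mem _ h1 h2
  · intro c Y _ h1
    have : (c • Y).map σ = σ c • Y.map σ := by
      ext a b; simp
    rw [this]
    exact Submodule.smul_mem _ _ h1

theorem coc_TC {g n : ℕ} {A : AbVar g} (K : KSat A n) {τ : ℂ ≃ₐ[ℚ] ℂ} (hτ : τ ∈ GalA)
    (p : GL (Idx g) ℂ) (hp : p.val = A.per⁻¹ * A.per.map τ) (Y : Matrix (Idx g) (Idx g) ℂ)
    (hY : Y ∈ K.TC) : p.val * Y * (p⁻¹).val ∈ K.TC := by
  have hPP : A.per⁻¹ * A.per = 1 := Matrix.nonsing_inv_mul _ A.nondeg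
  have hPP' : A.per * A.per⁻¹ = 1 := Matrix.mul_nonsing_inv _ A.nondeg
  have e3 : A.per.map τ * (A.per⁻¹).map τ = 1 := by
    rw [← FinX.map_mul', hPP']
    ext i j
    by_cases hij : i = j
    · subst hij; simp
    · simp [Matrix.one_apply_ne hij]
  have e4 : (p⁻¹).val = (A.per⁻¹).map τ * A.per := by
    have h3 : p.val * ((A.per⁻¹).map τ * A.per) = 1 := by
      rw [hp]
      calc _ = A.per⁻¹ * (A.per.map τ * (A.per⁻¹).map τ) * A.per := by simp only [mul_assoc]
        _ = 1 := by rw [e3, mul_one, hPP]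
    have hppi' : (p⁻¹).val * p.val = 1 := by rw [← Units.val_mul]; simp
    calc (p⁻¹).val = (p⁻¹).val * (p.val * ((A.per⁻¹).map τ * A.per)) := by rw [h3, mul_one]
      _ = _ := by rw [← mul_assoc, hppi', one_mul]
  -- it suffices to consider a rational Y
  have key : ∀ j, p.val * AbVar.toC (K.t j) * (p⁻¹).val ∈ K.TC := by
    intro j
    have h1 : p.val * AbVar.toC (K.t j) * (p⁻¹).val =
        A.per⁻¹ * ((A.per * AbVar.toC (K.t j) * A.per⁻¹).map τ) * A.per := by
      have e2 : (AbVar.toC (K.t j)).map τ = AbVar.toC (K.t j) := by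
        ext a b
        simp [AbVar.toC]
      rw [FinX.map_mul', FinX.map_mul', e2, e4, hp]
      simp only [mul_assoc]
    rw [h1]
    refine Submodule.span_induction (p := fun Z _ => A.per⁻¹ * Z.map τ * A.per ∈ K.TC) ?_ ?_ ?_ ?_
      (K.drb j)
    · rintro Z ⟨hZ, hZ2⟩
      have : Z.map τ = Z := by
        ext a b
        exact hτ _ (hZ a b)
      rw [this]
      exact hZ2
    · have : (0 : Matrix (Idx g) (Idx g) ℂ).map τ = 0 := by
        ext a b; simp
      rw [this, mul_zero, zero_mul]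
      exact Submodule.zero_mem _
    · intro Y Z _ _ h1 h2
      have : (Y + Z).map τ = Y.map τ + Z.map τ := by
        ext a b; simp
      rw [this, mul_add, add_mul]
      exact Submodule.add_mem _ h1 h2
    · intro c Y _ h1
      have : (c • Y).map τ = τ c • Y.map τ := by
        ext a b; simp
      rw [this, Matrix.mul_smul, Matrix.smul_mul]
      exact Submodule.smul_mem _ _ h1
  unfold KSat.TC at hY
  refine Submodule.span_induction (p := fun Y _ => p.val * Y * (p⁻¹).val ∈ K.TC) ?_ ?_ ?_ ?_ hY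
  · rintro _ ⟨j, rfl⟩
    exact key j
  · rw [mul_zero, zero_mul]
    exact Submodule.zero_mem _
  · intro Y Z _ _ h1 h2
    rw [mul_add, add_mul]
    exact Submodule.add_mem _ h1 h2
  · intro c Y _ h1
    rw [Matrix.mul_smul, Matrix.smul_mul]
    exact Submodule.smul_mem _ _ h1

theorem gam_TC {g n : ℕ} {A : AbVar g} (K : KSat A n) : ∀ p ∈ Gam A, ∀ Y ∈ K.TC,
    p.1.val * Y * (p.1⁻¹).val ∈ K.TC := by
  intro p hp
  unfold Gam at hp
  refine Subgroup.closure_induction (p := fun (x : GL (Idx g) ℂ × ℂˣ) _ =>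
    ∀ Y ∈ K.TC, x.1.val * Y * (x.1⁻¹).val ∈ K.TC) ?_ ?_ ?_ ?_ hp
  · rintro x ⟨σ, τ, hτ, hx1, -⟩ Y hY
    obtain ⟨p, hp, hpe⟩ := FinX.exists_elt A τ hτ
    have h1 := coc_TC K hτ p.1 hpe (Y.map σ.symm) (map_TC K σ.symm Y hY)
    have h2 := map_TC K σ _ h1
    have h3 : x.1.val = p.1.val.map σ := by rw [hx1, hpe]
    have h4 : (x.1⁻¹).val = ((p.1⁻¹).val).map σ := by
      have e1 : p.1.val.map σ * ((p.1⁻¹).val).map σ = 1 := by
        rw [← FinX.map_mul', ← Units.val_mul, mul_inv_cancel]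
        ext i j
        by_cases hij : i = j
        · subst hij; simp
        · simp [Matrix.one_apply_ne hij]
      have e2 : (x.1⁻¹).val * x.1.val = 1 := by rw [← Units.val_mul]; simp
      calc (x.1⁻¹).val = (x.1⁻¹).val * (x.1.val * ((p.1⁻¹).val).map σ) := by
            rw [h3, e1, mul_one]
        _ = _ := by rw [← mul_assoc, e2, one_mul]
    rw [FinX.map_mul', FinX.map_mul', FinX.map_map_symm, ← h3, ← h4] at h2
    exact h2
  · intro Y hY
    simpa using hY
  · intro x y _ _ hx hy Y hY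
    have h1 := hx _ (hy Y hY)
    have e1 : ((x * y).1⁻¹).val = (y.1⁻¹).val * (x.1⁻¹).val := by
      show ((x.1 * y.1)⁻¹).val = _
      rw [_root_.mul_inv_rev, Units.val_mul]
    have e2 : (x * y).1.val = x.1.val * y.1.val := rfl
    rw [e1, e2]
    have e3 : x.1.val * y.1.val * Y * ((y.1⁻¹).val * (x.1⁻¹).val) =
        x.1.val * (y.1.val * Y * (y.1⁻¹).val) * (x.1⁻¹).val := by simp only [mul_assoc]
    rw [e3]
    exact h1
  · intro x _ hx Y hY
    -- conjugation by x is injective on the finite dimensional space TC, hence surjective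
    let f : K.TC →ₗ[ℂ] K.TC :=
      { toFun := fun Z => ⟨x.1.val * Z.1 * (x.1⁻¹).val, hx Z.1 Z.2⟩
        map_add' := by
          intro Z W
          apply Subtype.ext
          simp only [Submodule.coe_add, mul_add, add_mul]
        map_smul' := by
          intro c Z
          apply Subtype.ext
          simp only [Submodule.coe_smul, Matrix.mul_smul, Matrix.smul_mul, RingHom.id_apply] }
    have e1 : x.1.val * (x.1⁻¹).val = 1 := by rw [← Units.val_mul]; simp
    have e2 : (x.1⁻¹).val * x.1.val = 1 := by rw [← Units.val_mul]; simp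
    have hinj : Function.Injective f := by
      intro Z W hZW
      have h1 : x.1.val * Z.1 * (x.1⁻¹).val = x.1.val * W.1 * (x.1⁻¹).val :=
        congrArg Subtype.val hZW
      apply Subtype.ext
      calc Z.1 = ((x.1⁻¹).val * x.1.val) * Z.1 * ((x.1⁻¹).val * x.1.val) := by
            rw [e2, one_mul, mul_one]
        _ = (x.1⁻¹).val * (x.1.val * Z.1 * (x.1⁻¹).val) * x.1.val := by simp only [mul_assoc]
        _ = (x.1⁻¹).val * (x.1.val * W.1 * (x.1⁻¹).val) * x.1.val := by rw [h1]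
        _ = ((x.1⁻¹).val * x.1.val) * W.1 * ((x.1⁻¹).val * x.1.val) := by simp only [mul_assoc]
        _ = W.1 := by rw [e2, one_mul, mul_one]
    obtain ⟨Z, hZ⟩ := (LinearMap.injective_iff_surjective.1 hinj) ⟨Y, hY⟩
    have h1 : x.1.val * Z.1 * (x.1⁻¹).val = Y := congrArg Subtype.val hZ
    have e3 : ((x⁻¹).1⁻¹).val = x.1.val := by
      show ((x.1⁻¹)⁻¹).val = _
      rw [inv_inv]
    have e4 : (x⁻¹).1.val = (x.1⁻¹).val := rfl
    rw [e3, e4, ← h1]
    have e5 : (x.1⁻¹).val * (x.1.val * Z.1 * (x.1⁻¹).val) * x.1.val = Z.1 := by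
      calc _ = ((x.1⁻¹).val * x.1.val) * Z.1 * ((x.1⁻¹).val * x.1.val) := by simp only [mul_assoc]
        _ = Z.1 := by rw [e2, one_mul, mul_one]
    rw [e5]
    exact Z.2

theorem k2d_proof (hK2a : Stmt_K2a) (hG1 : Stmt_Gb1) (hG2 : Stmt_Gb2) (hRev : Stmt_Rev)
    (hL : Stmt_Leg) : Stmt_K2d := by
  intro g A n K
  refine ⟨gam_TC K, ?_⟩
  intro X ξ h Y hY
  have h1 : ∀ s : ℝ, InLie (Gam A) (s • X) (s * ξ) := by
    intro s
    have := inLie_smul hK2a h (s : ℂ)
    have e : (s : ℂ) • X = s • X := by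
      ext i j; simp
    rwa [e] at this
  refine ad_of_exp X Y K.TC fun s => ?_
  exact T_of_stab K hG1 hL (gam_TC K) (eX (s • X)) _ (Complex.exp_ne_zero _)
    (hRev g A _ _ (exp_inGdRB hK2a hG2 (h1 s))).2 (fun t D hD => exp_stab (h1 s) t D hD) Y hY

end

end Pool.Agent.K3D
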