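import Pool.Agent.K3D.Stmts
import Pool.Agent.DRB.Fin

/-!
# K4: matrices commuting with the Lie algebra of `Gam A` are combinations of endomorphisms
-/

open scoped BigOperators
open Matrix

namespace Pool.Agent.K3D

open Pool.Agent.DRB

namespace K4X

/-! ### Elements of finite order -/

theorem root_pow {V : Type*} [AddCommGroup V] [Module ℂ V] [FiniteDimensional ℂ V] (f : V →ₗ[ℂ] V)
    (m : ℕ) (hf : f ^ m = 1) (z : ℂ) (hz : z ∈ f.charpoly.roots) : z ^ m = 1 := by
  have h1 : Module.End.HasEigenvalue f z := by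
    rw [Module.End.hasEigenvalue_iff_isRoot_charpoly]
    exact (Polynomial.mem_roots f.charpoly_monic.ne_zero).1 hz
  obtain ⟨v, hv⟩ := h1.exists_hasEigenvector
  have h2 : ∀ k : ℕ, (f ^ k) v = z ^ k • v := by
    intro k
    induction k with
    | zero => simp
    | succ k ih =>
      rw [pow_succ, Module.End.mul_apply, hv.apply_eq_smul, map_smul, ih, smul_smul, pow_succ, mul_comm]
  have h3 := h2 m
  rw [hf] at h3
  have h4 : (z ^ m - 1) • v = 0 := by
    rw [sub_smul, ← h3]; simp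
  rcases smul_eq_zero.1 h4 with h5 | h5
  · exact sub_eq_zero.1 h5
  · exact absurd h5 hv.2

theorem trace_eq {V : Type*} [AddCommGroup V] [Module ℂ V] [FiniteDimensional ℂ V] (f : V →ₗ[ℂ] V) :
    LinearMap.trace ℂ V f = f.charpoly.roots.sum := by
  classical
  let b := Module.finBasis ℂ V
  rw [LinearMap.trace_eq_matrix_trace ℂ b, Matrix.trace_eq_sum_roots_charpoly,
    LinearMap.charpoly_toMatrix]

theorem alg_trace {V : Type*} [AddCommGroup V] [Module ℂ V] [FiniteDimensional ℂ V] (f : V →ₗ[ℂ] V)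
    (m : ℕ) (hm : 1 ≤ m) (hf : f ^ m = 1) : IsAlgebraic ℚ (LinearMap.trace ℂ V f) := by
  rw [trace_eq]
  have h : ∀ z ∈ f.charpoly.roots, z ∈ algebraicClosure ℚ ℂ := by
    intro z hz
    have h1 := root_pow f m hf z hz
    rw [mem_algebraicClosure_iff]
    have : IsIntegral ℚ (z ^ m) := by rw [h1]; exact isIntegral_one
    exact (IsIntegral.of_pow (by omega) this).isAlgebraic
  exact mem_algebraicClosure_iff.1 (multiset_sum_mem _ h)

theorem eq_one_of_trace {V : Type*} [AddCommGroup V] [Module ℂ V] [FiniteDimensional ℂ V] (f : V →ₗ[ℂ] V)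
    (m : ℕ) (hm : 1 ≤ m) (hf : f ^ m = 1) (ht : LinearMap.trace ℂ V f = Module.finrank ℂ V) : f = 1 := by
  classical
  have hcard : Multiset.card f.charpoly.roots = Module.finrank ℂ V := by
    rw [← f.charpoly_natDegree]
    exact (IsAlgClosed.splits f.charpoly).natDegree_eq_card_roots.symm
  have hnorm : ∀ z ∈ f.charpoly.roots, ‖z‖ = 1 := by
    intro z hz
    have h1 := root_pow f m hf z hz
    have h2 : ‖z‖ ^ m = 1 := by rw [← norm_pow, h1, norm_one]
    exact (pow_eq_one_iff_of_nonneg (norm_nonneg z) (by omega)).1 h2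
  have hre : ∀ z ∈ f.charpoly.roots, 0 ≤ 1 - z.re := by
    intro z hz
    have := Complex.re_le_norm z
    rw [hnorm z hz] at this
    linarith
  have hsum : (f.charpoly.roots.map fun z => 1 - z.re).sum = 0 := by
    have h1 : (f.charpoly.roots.map fun z => z.re).sum = Module.finrank ℂ V := by
      have h2 : (f.charpoly.roots.map fun z => z.re).sum = (f.charpoly.roots.sum).re := by
        have := (map_multiset_sum Complex.reAddGroupHom f.charpoly.roots)
        simpa using this.symm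
      rw [h2, ← trace_eq, ht]
      simp
    have h3 : (f.charpoly.roots.map fun z => 1 - z.re).sum =
        (Multiset.card f.charpoly.roots : ℝ) - (f.charpoly.roots.map fun z => z.re).sum := by
      rw [Multiset.sum_map_sub]
      simp
    rw [h3, h1, hcard, sub_self]
  have hall : ∀ z ∈ f.charpoly.roots, z = 1 := by
    intro z hz
    have h1 : 1 - z.re = 0 := by
      have h2 : ∀ x ∈ (f.charpoly.roots.map fun z => 1 - z.re), (0 : ℝ) ≤ x := by
        intro x hx
        obtain ⟨w, hw, rfl⟩ := Multiset.mem_map.1 hx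
        exact hre w hw
      exact (Multiset.all_zero_of_le_zero_le_of_sum_eq_zero h2 hsum) _
        (Multiset.mem_map_of_mem (fun z : ℂ => 1 - z.re) hz)
    have h4 : z.re = 1 := by linarith
    have h5 := hnorm z hz
    have h6 : z.im = 0 := by
      have h7 : z.re ^ 2 + z.im ^ 2 = 1 := by
        have := Complex.sq_norm z
        rw [Complex.normSq_apply, h5] at this
        nlinarith
      rw [h4] at h7
      nlinarith
    exact Complex.ext (by simpa using h4) (by simpa using h6)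
  -- the minimal polynomial
  have hmin : minpoly ℂ f ∣ Polynomial.X ^ m - 1 := by
    apply minpoly.dvd
    simp [hf]
  have hsq : (Polynomial.X ^ m - 1 : Polynomial ℂ).Separable := by
    rw [show (Polynomial.X ^ m - 1 : Polynomial ℂ) = Polynomial.X ^ m - Polynomial.C 1 by simp]
    exact Polynomial.separable_X_pow_sub_C 1 (by exact_mod_cast (by omega : m ≠ 0)) one_ne_zero
  have hsep : (minpoly ℂ f).Separable := Polynomial.Separable.of_dvd hsq hmin
  have hroots : ∀ z ∈ (minpoly ℂ f).roots, z = 1 := by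
    intro z hz
    apply hall
    rw [Polynomial.mem_roots f.charpoly_monic.ne_zero]
    have h1 : (minpoly ℂ f).IsRoot z := by
      have h0 : minpoly ℂ f ≠ 0 := minpoly.ne_zero (Algebra.IsIntegral.isIntegral f)
      exact (Polynomial.mem_roots h0).1 hz
    exact h1.dvd (LinearMap.minpoly_dvd_charpoly f)
  have hdvd : minpoly ℂ f ∣ Polynomial.X - Polynomial.C 1 := by
    have h0 : (minpoly ℂ f).Monic := minpoly.monic (Algebra.IsIntegral.isIntegral f)
    have h1 : minpoly ℂ f = ((minpoly ℂ f).roots.map fun a => Polynomial.X - Polynomial.C a).prod :=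
      ((IsAlgClosed.splits (minpoly ℂ f)).eq_prod_roots_of_monic h0)
    have h2 : (minpoly ℂ f).roots.Nodup := Polynomial.nodup_roots hsep
    have h3 : (minpoly ℂ f).roots ≤ {1} := by
      rw [Multiset.le_iff_subset h2]
      intro z hz
      rw [hroots z hz]
      simp
    rw [h1]
    have h4 := Multiset.prod_dvd_prod_of_le (Multiset.map_le_map (f := fun a : ℂ =>
      (Polynomial.X - Polynomial.C a : Polynomial ℂ)) h3)
    simpa using h4
  have h8 : Polynomial.aeval f (Polynomial.X - Polynomial.C (1 : ℂ)) = 0 := by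
    obtain ⟨r, hr⟩ := hdvd
    rw [hr, map_mul, minpoly.aeval, zero_mul]
  simp only [map_sub, Polynomial.aeval_X, map_one] at h8
  exact sub_eq_zero.1 h8

/-! ### The commutant -/

section comm

variable {ι : Type} [Fintype ι] [DecidableEq ι]

/-- additive functions detect torsion -/
theorem tors_of_L (hH : Stmt_Homx) (z : ℂˣ) (h : ∀ L : Additive ℂˣ →+ ℂ, L (Additive.ofMul z) = 0) :
    ∃ N : ℕ, 1 ≤ N ∧ z ^ N = 1 := by
  by_contra hcon
  push Not at hcon
  have h1 := hH 1 (fun _ => z) (fun _ => 1) (by intro L; simp [h L])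
  have h2 : Submodule.span ℂ {v : Fin 1 → ℂ | ∃ n : Fin 1 → ℤ, (∀ j, v j = n j) ∧
      ∃ N : ℕ, 1 ≤ N ∧ (∏ j, (fun _ : Fin 1 => z) j ^ n j) ^ N = 1} ≤ ⊥ := by
    rw [Submodule.span_le]
    rintro v ⟨n, hn, N, hN, hz⟩
    have h3 : n 0 = 0 := by
      by_contra h0
      have h4 : z ^ (n 0 * N) = 1 := by
        rw [_root_.zpow_mul, zpow_natCast]
        simpa using hz
      have h5 : z ^ ((n 0).natAbs * N) = 1 := by
        rcases Int.natAbs_eq (n 0) with h6 | h6
        · rw [h6] at h4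
          have h7 : z ^ ((((n 0).natAbs * N : ℕ)) : ℤ) = 1 := by
            rw [← h4]; push_cast; rfl
          exact_mod_cast h7
        · rw [h6] at h4
          have h7 : z ^ (-((((n 0).natAbs * N : ℕ)) : ℤ)) = 1 := by
            rw [← h4]; push_cast; ring_nf
          rw [_root_.zpow_neg, inv_eq_one] at h7
          exact_mod_cast h7
      exact hcon _ (Nat.one_le_iff_ne_zero.2 (Nat.mul_ne_zero (Int.natAbs_ne_zero.2 h0) (by omega))) h5
    show v ∈ (⊥ : Submodule ℂ (Fin 1 → ℂ))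
    rw [Submodule.mem_bot]
    funext j
    rw [hn j, Subsingleton.elim j 0, h3]
    simp
  have h3 := h2 h1
  rw [Submodule.mem_bot] at h3
  have := congrFun h3 0
  simp at this

/-- an element of the group acts on the commutant of the Lie algebra with finite order -/
theorem fin_ord (hH : Stmt_Homx) (hK1 : Stmt_K1) (Γ : Subgroup (GL ι ℂ × ℂˣ)) (p : GL ι ℂ × ℂˣ)
    (hp : ∀ (t : TData) (D : Submodule ℂ (TIdx t ι → ℂ)), StabG Γ t D →
      D.map (TAct t p.1.val p.2.val) ≤ D) :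
    ∃ m : ℕ, 1 ≤ m ∧ ∀ Y : Matrix ι ι ℂ, (∀ X ξ, InLie Γ X ξ → X * Y = Y * X) →
      p.1.val ^ m * Y = Y * p.1.val ^ m := by
  classical
  obtain ⟨S, α, N, M, hN, hdN, hx, hMN, hst⟩ := hK1 ι p.1
  set d : Matrix ι ι ℂ := Matrix.diagonal fun i => (α i).val with hd
  have hSS : (S⁻¹).val * S.val = 1 := by rw [← Units.val_mul]; simp
  have hSS' : S.val * (S⁻¹).val = 1 := by rw [← Units.val_mul]; simp
  -- torsion orders
  have hch : ∀ i j, ∃ N : ℕ, 1 ≤ N ∧ ((∃ N' : ℕ, 1 ≤ N' ∧ (α i / α j) ^ N' = 1) → (α i / α j) ^ N = 1) := by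
    intro i j
    by_cases h : ∃ N' : ℕ, 1 ≤ N' ∧ (α i / α j) ^ N' = 1
    · obtain ⟨N', h1, h2⟩ := h
      exact ⟨N', h1, fun _ => h2⟩
    · exact ⟨1, le_rfl, fun h' => absurd h' h⟩
  choose ord ho1 ho2 using hch
  refine ⟨∏ i, ∏ j, ord i j, ?_, fun Y hY => ?_⟩
  · exact Nat.one_le_iff_ne_zero.2 (Finset.prod_ne_zero_iff.2 fun i _ => Finset.prod_ne_zero_iff.2
      fun j _ => by have := ho1 i j; omega)
  set m := ∏ i, ∏ j, ord i j with hm
  set Y' : Matrix ι ι ℂ := (S⁻¹).val * Y * S.val with hY'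
  have hYS : Y = S.val * Y' * (S⁻¹).val := by
    rw [hY']
    calc Y = (S.val * (S⁻¹).val) * Y * (S.val * (S⁻¹).val) := by rw [hSS', one_mul, mul_one]
      _ = _ := by simp only [mul_assoc]
  -- conjugation of commutation relations
  have hconj : ∀ Z : Matrix ι ι ℂ, (S.val * Z * (S⁻¹).val) * Y = Y * (S.val * Z * (S⁻¹).val) →
      Y' * Z = Z * Y' := by
    intro Z hZ
    have h1 : (S⁻¹).val * ((S.val * Z * (S⁻¹).val) * Y) * S.val =
        (S⁻¹).val * (Y * (S.val * Z * (S⁻¹).val)) * S.val := by rw [hZ]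
    have h2 : (S⁻¹).val * ((S.val * Z * (S⁻¹).val) * Y) * S.val = Z * Y' := by
      rw [hY']
      calc _ = ((S⁻¹).val * S.val) * Z * ((S⁻¹).val * Y * S.val) := by simp only [mul_assoc]
        _ = _ := by rw [hSS, one_mul]
    have h3 : (S⁻¹).val * (Y * (S.val * Z * (S⁻¹).val)) * S.val = Y' * Z := by
      rw [hY']
      calc _ = ((S⁻¹).val * Y * S.val) * Z * ((S⁻¹).val * S.val) := by simp only [mul_assoc]
        _ = _ := by rw [hSS, mul_one]
    rw [h2, h3] at h1
    exact h1.symm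
  have hM : InLie Γ (S.val * M * (S⁻¹).val) 0 := fun t D hD => (hst p.2 t D (hp t D hD)).2
  have hL : ∀ L : Additive ℂˣ →+ ℂ, InLie Γ (S.val * Matrix.diagonal (fun i =>
      L (Additive.ofMul (α i))) * (S⁻¹).val) (L (Additive.ofMul p.2)) :=
    fun L t D hD => (hst p.2 t D (hp t D hD)).1 L
  have hYN : Y' * N = N * Y' := hMN Y' (hconj M (hY _ _ hM))
  have hYd : Y' * d ^ m = d ^ m * Y' := by
    ext i j
    rw [hd, Matrix.diagonal_pow, Matrix.mul_diagonal, Matrix.diagonal_mul]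
    by_cases h0 : Y' i j = 0
    · rw [h0, zero_mul, mul_zero]
    · have h1 : ∀ L : Additive ℂˣ →+ ℂ, L (Additive.ofMul (α i / α j)) = 0 := by
        intro L
        have h2 := congrFun (congrFun (hconj _ (hY _ _ (hL L))) i) j
        rw [Matrix.mul_diagonal, Matrix.diagonal_mul] at h2
        have h3 : (L (Additive.ofMul (α i)) - L (Additive.ofMul (α j))) * Y' i j = 0 := by
          linear_combination (-1 : ℂ) * h2
        rcases mul_eq_zero.1 h3 with h4 | h4
        · rw [ofMul_div, map_sub, h4]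
        · exact absurd h4 h0
      have h5 := ho2 i j (tors_of_L hH _ h1)
      have h6 : (α i / α j) ^ m = 1 := by
        have h7 : ord i j ∣ m := by
          rw [hm]
          exact (Finset.dvd_prod_of_mem (fun j => ord i j) (Finset.mem_univ j)).trans
            (Finset.dvd_prod_of_mem (fun i => ∏ j, ord i j) (Finset.mem_univ i))
        obtain ⟨k, hk⟩ := h7
        rw [hk, pow_mul, h5, one_pow]
      have h8 : α i ^ m = α j ^ m := by
        rw [div_pow, div_eq_one] at h6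
        exact h6
      have h9 : (α i).val ^ m = (α j).val ^ m := by
        rw [← Units.val_pow_eq_pow_val, ← Units.val_pow_eq_pow_val, h8]
      simp only [Pi.pow_apply]
      rw [h9, mul_comm]
  have hpow : ∀ k : ℕ, p.1.val ^ k = S.val * (d ^ k * (1 + N) ^ k) * (S⁻¹).val := by
    intro k
    have hc : Commute d (1 + N) := by
      show d * (1 + N) = (1 + N) * d
      rw [mul_add, add_mul, mul_one, one_mul, hdN]
    rw [← hc.mul_pow]
    induction k with
    | zero => simp
    | succ k ih =>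
      rw [pow_succ, ih, hx]
      calc _ = S.val * (d * (1 + N)) ^ k * ((S⁻¹).val * S.val) * d * (1 + N) * (S⁻¹).val := by
            simp only [mul_assoc]
        _ = _ := by rw [hSS, mul_one, pow_succ]; simp only [mul_assoc]
  have hYN' : Y' * (1 + N) ^ m = (1 + N) ^ m * Y' := by
    have hc : Commute Y' (1 + N) := by
      show Y' * (1 + N) = (1 + N) * Y'
      rw [mul_add, add_mul, mul_one, one_mul, hYN]
    exact hc.pow_right m
  rw [hpow m]
  conv_lhs => rw [hYS]
  conv_rhs => rw [hYS]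
  calc S.val * (d ^ m * (1 + N) ^ m) * (S⁻¹).val * (S.val * Y' * (S⁻¹).val) =
      S.val * (d ^ m * (1 + N) ^ m) * ((S⁻¹).val * S.val) * Y' * (S⁻¹).val := by
        simp only [mul_assoc]
    _ = S.val * (d ^ m * ((1 + N) ^ m * Y')) * (S⁻¹).val := by
        rw [hSS, mul_one]; simp only [mul_assoc]
    _ = S.val * ((d ^ m * Y') * (1 + N) ^ m) * (S⁻¹).val := by
        rw [← hYN']; simp only [mul_assoc]
    _ = S.val * (Y' * (d ^ m * (1 + N) ^ m)) * (S⁻¹).val := by
        rw [← hYd]; simp only [mul_assoc]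
    _ = S.val * Y' * ((S⁻¹).val * S.val) * (d ^ m * (1 + N) ^ m) * (S⁻¹).val := by
        rw [hSS, mul_one]; simp only [mul_assoc]
    _ = _ := by simp only [mul_assoc]

end comm

/-! ### The trace argument -/

section tr

variable {g : ℕ} (A : AbVar g)

open FinX (L)

/-- the commutant of the Lie algebra, as a space of functions -/
def R0 : Submodule ℂ (Idx g × Idx g → ℂ) where
  carrier := {v | ∀ X ξ, InLie (Gam A) X ξ → X * L v = L v * X}
  add_mem' := by
    intro v w hv hw X ξ hX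
    rw [map_add, mul_add, add_mul, hv X ξ hX, hw X ξ hX]
  zero_mem' := by
    intro X ξ _
    rw [map_zero, mul_zero, zero_mul]
  smul_mem' := by
    intro c v hv X ξ hX
    rw [map_smul, Matrix.mul_smul, Matrix.smul_mul, hv X ξ hX]

/-- a matrix as a function -/
def fl (Y : Matrix (Idx g) (Idx g) ℂ) : Idx g × Idx g → ℂ := fun k => Y k.1 k.2

theorem L_fl (Y : Matrix (Idx g) (Idx g) ℂ) : L (fl Y) = Y := by
  ext i j; rfl

theorem fl_L (v : Idx g × Idx g → ℂ) : fl (L v) = v := by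
  funext k; rfl

theorem fl_mem {Y : Matrix (Idx g) (Idx g) ℂ} (hY : ∀ X ξ, InLie (Gam A) X ξ → X * Y = Y * X) :
    fl Y ∈ R0 A := by
  intro X ξ hX
  rw [L_fl]
  exact hY X ξ hX

theorem R0_rat (hD : Stmt_DescQ) (hG4 : Stmt_Gb4) (hK2b : Stmt_K2b) : RatSpan (R0 A) := by
  apply hD
  intro σ v hv X ξ hX
  have h1 : InLie (Gam A) (X.map σ.symm) (σ.symm ξ) :=
    hK2b (Idx g) (Gam A) (fun σ p hp q h1 h2 => hG4 g A σ p hp q h1 h2) σ.symm X ξ hX
  have h2 := hv _ _ h1
  have h3 := congrArg (fun Z : Matrix (Idx g) (Idx g) ℂ => Z.map σ) h2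
  rw [FinX.map_mul', FinX.map_mul', FinX.map_map_symm] at h3
  exact h3

theorem conj_mem (hK2a : Stmt_K2a) (p : GL (Idx g) ℂ × ℂˣ) (hp : p ∈ Gam A)
    (v : Idx g × Idx g → ℂ) (hv : v ∈ R0 A) : fl (p.1.val * L v * (p.1⁻¹).val) ∈ R0 A := by
  intro X ξ hX
  rw [L_fl]
  have h1 := (hK2a (Idx g) (Gam A)).2.2.2 X ξ hX p⁻¹ (inv_mem hp)
  have h2 := hv _ _ h1
  have e1 : (p⁻¹).1.val = (p.1⁻¹).val := rfl
  have e2 : ((p⁻¹).1⁻¹).val = p.1.val := by
    show ((p.1⁻¹)⁻¹).val = _
    rw [inv_inv]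
  rw [e1, e2] at h2
  have hpp : p.1.val * (p.1⁻¹).val = 1 := by rw [← Units.val_mul]; simp
  have hpp' : (p.1⁻¹).val * p.1.val = 1 := by rw [← Units.val_mul]; simp
  calc X * (p.1.val * L v * (p.1⁻¹).val) =
      (p.1.val * (p.1⁻¹).val) * X * (p.1.val * L v * (p.1⁻¹).val) := by rw [hpp, one_mul]
    _ = p.1.val * (((p.1⁻¹).val * X * p.1.val) * L v) * (p.1⁻¹).val := by simp only [mul_assoc]
    _ = p.1.val * (L v * ((p.1⁻¹).val * X * p.1.val)) * (p.1⁻¹).val := by rw [h2]
    _ = p.1.val * L v * (p.1⁻¹).val * X * (p.1.val * (p.1⁻¹).val) := by simp only [mul_assoc]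
    _ = _ := by rw [hpp, mul_one]

/-- the action on the commutant -/
def adR (hK2a : Stmt_K2a) (p : GL (Idx g) ℂ × ℂˣ) (hp : p ∈ Gam A) : R0 A →ₗ[ℂ] R0 A where
  toFun v := ⟨fl (p.1.val * L v.1 * (p.1⁻¹).val), conj_mem A hK2a p hp v.1 v.2⟩
  map_add' v w := by
    apply Subtype.ext
    funext k
    simp only [Submodule.coe_add, map_add, mul_add, add_mul, fl, Matrix.add_apply, Pi.add_apply]
  map_smul' c v := by
    apply Subtype.ext
    funext k
    simp only [Submodule.coe_smul, map_smul, Matrix.mul_smul, Matrix.smul_mul, fl, Matrix.smul_apply,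
      Pi.smul_apply, RingHom.id_apply]

theorem adR_apply (hK2a : Stmt_K2a) (p : GL (Idx g) ℂ × ℂˣ) (hp : p ∈ Gam A) (v : R0 A) :
    ((adR A hK2a p hp v : R0 A) : Idx g × Idx g → ℂ) = fl (p.1.val * L v.1 * (p.1⁻¹).val) := rfl

theorem adR_pow (hK2a : Stmt_K2a) (p : GL (Idx g) ℂ × ℂˣ) (hp : p ∈ Gam A) (m : ℕ)
    (hm : ∀ Y : Matrix (Idx g) (Idx g) ℂ, (∀ X ξ, InLie (Gam A) X ξ → X * Y = Y * X) →
      p.1.val ^ m * Y = Y * p.1.val ^ m) : (adR A hK2a p hp) ^ m = 1 := by
  have h1 : ∀ (k : ℕ) (v : R0 A), L (((adR A hK2a p hp ^ k) v : R0 A) : Idx g × Idx g → ℂ) =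
      p.1.val ^ k * L v.1 * (p.1⁻¹).val ^ k := by
    intro k
    induction k with
    | zero => intro v; simp
    | succ k ih =>
      intro v
      rw [pow_succ, Module.End.mul_apply, ih, adR_apply, L_fl, pow_succ, pow_succ']
      simp only [mul_assoc]
  have hc : Commute p.1.val (p.1⁻¹).val := by
    show p.1.val * (p.1⁻¹).val = (p.1⁻¹).val * p.1.val
    rw [← Units.val_mul, ← Units.val_mul]; simp
  have hpp : p.1.val * (p.1⁻¹).val = 1 := by rw [← Units.val_mul]; simp
  refine LinearMap.ext fun v => Subtype.ext ?_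
  have h2 := h1 m v
  rw [hm (L v.1) v.2, mul_assoc, ← hc.mul_pow, hpp, one_pow, mul_one] at h2
  have h3 := congrArg fl h2
  rw [fl_L, fl_L] at h3
  simpa using h3

theorem trace_const (hLdp : Stmt_Ldp) (hK2a : Stmt_K2a) (hR : RatSpan (R0 A))
    (halg : ∀ (p : GL (Idx g) ℂ × ℂˣ) (hp : p ∈ Gam A),
      IsAlgebraic ℚ (LinearMap.trace ℂ (R0 A) (adR A hK2a p hp)))
    (τ : ℂ ≃ₐ[ℚ] ℂ) (hτ : τ ∈ GalA) (p : GL (Idx g) ℂ × ℂˣ) (hp : p ∈ Gam A)
    (hpe : p.1.val = A.per⁻¹ * A.per.map τ) :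
    LinearMap.trace ℂ (R0 A) (adR A hK2a p hp) = Module.finrank ℂ (R0 A) := by
  classical
  have hPP : A.per⁻¹ * A.per = 1 := Matrix.nonsing_inv_mul _ A.nondeg
  have hPP' : A.per * A.per⁻¹ = 1 := Matrix.mul_nonsing_inv _ A.nondeg
  -- a rational basis
  set s : Set (Idx g × Idx g → ℂ) := {v | v ∈ R0 A ∧ ∀ k, ∃ q : ℚ, v k = q} with hs
  obtain ⟨b, hbs, hbspan, hbi⟩ := exists_linearIndependent ℂ s
  have hspan : Submodule.span ℂ s = R0 A := by
    apply le_antisymm
    · rw [Submodule.span_le]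
      rintro v ⟨hv, -⟩
      exact hv
    · exact hR
  have hb : Submodule.span ℂ (Set.range ((↑) : b → (Idx g × Idx g → ℂ))) = R0 A := by
    rw [Subtype.range_coe, hbspan, hspan]
  have : Finite b := hbi.finite
  have : Fintype b := Fintype.ofFinite b
  let B : Module.Basis b ℂ (R0 A) := (Module.Basis.span hbi).map (LinearEquiv.ofEq _ _ hb)
  have hB : ∀ k : b, ((B k : R0 A) : Idx g × Idx g → ℂ) = k.1 := by
    intro k
    simp [B, Module.Basis.span_apply]
  have hext : ∀ k : b, ∃ φ : (Idx g × Idx g → ℂ) →ₗ[ℂ] ℂ, ∀ v : R0 A, φ v.1 = B.coord k v := by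
    intro k
    obtain ⟨φ, hφ⟩ := LinearMap.exists_extend (B.coord k)
    exact ⟨φ, fun v => by rw [← hφ]; rfl⟩
  choose φ hφ using hext
  let e := Fintype.equivFin (b × Idx g × Idx g)
  let x : b × Idx g × Idx g → ℂ := fun m =>
    φ m.1 (fl (A.per⁻¹ * Matrix.single m.2.1 m.2.2 1 * A.per))
  let y : b × Idx g × Idx g → ℂ := fun m => (A.per * L m.1.1 * A.per⁻¹) m.2.1 m.2.2
  -- the trace
  have hlin : ∀ (k : b) (Z : Matrix (Idx g) (Idx g) ℂ), φ k (fl (A.per⁻¹ * Z * A.per)) =
      ∑ i, ∑ j, x (k, i, j) * Z i j := by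
    intro k Z
    let T : Matrix (Idx g) (Idx g) ℂ →ₗ[ℂ] ℂ :=
      { toFun := fun Z => φ k (fl (A.per⁻¹ * Z * A.per))
        map_add' := by
          intro Z W
          rw [← map_add]
          congr 1
          funext q
          simp only [mul_add, add_mul, fl, Matrix.add_apply, Pi.add_apply]
        map_smul' := by
          intro c Z
          rw [RingHom.id_apply, ← map_smul]
          congr 1
          funext q
          simp only [Matrix.mul_smul, Matrix.smul_mul, fl, Matrix.smul_apply, Pi.smul_apply] }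
    have h1 : Z = ∑ i, ∑ j, Z i j • Matrix.single i j (1 : ℂ) := by
      conv_lhs => rw [Matrix.matrix_eq_sum_single Z]
      refine Finset.sum_congr rfl fun i _ => Finset.sum_congr rfl fun j _ => ?_
      rw [Matrix.smul_single, smul_eq_mul, mul_one]
    show T Z = _
    conv_lhs => rw [h1]
    rw [map_sum]
    refine Finset.sum_congr rfl fun i _ => ?_
    rw [map_sum]
    refine Finset.sum_congr rfl fun j _ => ?_
    rw [map_smul, smul_eq_mul, mul_comm]
    rfl
  have htr : ∀ (τ : ℂ ≃ₐ[ℚ] ℂ) (_ : τ ∈ GalA) (p : GL (Idx g) ℂ × ℂˣ) (hp : p ∈ Gam A)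
      (_ : p.1.val = A.per⁻¹ * A.per.map τ),
      LinearMap.trace ℂ (R0 A) (adR A hK2a p hp) = ∑ m, x m * τ (y m) := by
    intro τ hτ p hp hpe
    rw [LinearMap.trace_eq_matrix_trace ℂ B, Matrix.trace, Fintype.sum_prod_type]
    refine Finset.sum_congr rfl fun k _ => ?_
    rw [Matrix.diag_apply, LinearMap.toMatrix_apply]
    have h1 : (B.repr (adR A hK2a p hp (B k))) k = B.coord k (adR A hK2a p hp (B k)) := rfl
    rw [h1, ← hφ, adR_apply, hB]
    have h2 : p.1.val * L k.1 * (p.1⁻¹).val =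
        A.per⁻¹ * ((A.per * L k.1 * A.per⁻¹).map τ) * A.per := by
      obtain ⟨q, hq⟩ : ∃ q : Idx g × Idx g → ℚ, ∀ i, k.1 i = q i :=
        ⟨fun i => (hbs k.2).2 i |>.choose, fun i => (hbs k.2).2 i |>.choose_spec⟩
      have e2 : (L k.1).map τ = L k.1 := by
        ext i j
        show τ (k.1 (i, j)) = k.1 (i, j)
        rw [hq]
        simp
      have hppi : p.1.val * (p.1⁻¹).val = 1 := by rw [← Units.val_mul]; simp
      have e3 : A.per.map τ * (A.per⁻¹).map τ = 1 := by
        rw [← FinX.map_mul', hPP']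
        ext i j
        by_cases hij : i = j
        · subst hij; simp
        · simp [Matrix.one_apply_ne hij]
      have e4 : (p.1⁻¹).val = (A.per⁻¹).map τ * A.per := by
        have h3 : p.1.val * ((A.per⁻¹).map τ * A.per) = 1 := by
          rw [hpe]
          calc _ = A.per⁻¹ * (A.per.map τ * (A.per⁻¹).map τ) * A.per := by simp only [mul_assoc]
            _ = 1 := by rw [e3, mul_one, hPP]
        have hppi' : (p.1⁻¹).val * p.1.val = 1 := by rw [← Units.val_mul]; simp
        calc (p.1⁻¹).val = (p.1⁻¹).val * (p.1.val * ((A.per⁻¹).map τ * A.per)) := by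
              rw [h3, mul_one]
          _ = _ := by rw [← mul_assoc, hppi', one_mul]
      rw [FinX.map_mul', FinX.map_mul', e2, e4, hpe]
      simp only [mul_assoc]
    rw [h2, hlin k]
    rw [Fintype.sum_prod_type]
    rfl
  have hfin : ∑ m, x m * y m = Module.finrank ℂ (R0 A) := by
    rw [Fintype.sum_prod_type]
    have h1 : ∀ k : b, ∑ q : Idx g × Idx g, x (k, q) * y (k, q) = 1 := by
      intro k
      rw [Fintype.sum_prod_type]
      have h2 := hlin k (A.per * L k.1 * A.per⁻¹)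
      have h3 : A.per⁻¹ * (A.per * L k.1 * A.per⁻¹) * A.per = L k.1 := by
        calc _ = (A.per⁻¹ * A.per) * L k.1 * (A.per⁻¹ * A.per) := by simp only [mul_assoc]
          _ = _ := by rw [hPP, one_mul, mul_one]
      rw [h3, fl_L] at h2
      have h4 : φ k k.1 = 1 := by
        rw [← hB k, hφ k (B k)]
        simp
      rw [h4] at h2
      exact h2.symm
    rw [Finset.sum_congr rfl fun k _ => h1 k]
    rw [Module.finrank_eq_card_basis B]
    simp
  -- application of Ldp
  have hl := hLdp (Fintype.card (b × Idx g × Idx g)) (fun m => x (e.symm m)) (fun m => y (e.symm m))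
    (by
      intro τ hτ
      obtain ⟨p, hp, hpe⟩ := FinX.exists_elt A τ hτ
      have h1 := htr τ hτ p hp hpe
      have h2 : ∑ m, x (e.symm m) * τ (y (e.symm m)) = ∑ m, x m * τ (y m) :=
        Equiv.sum_comp e.symm (fun m => x m * τ (y m))
      rw [h2, ← h1]
      exact halg p hp) τ hτ
  have h3 : ∑ m, x (e.symm m) * τ (y (e.symm m)) = ∑ m, x m * τ (y m) :=
    Equiv.sum_comp e.symm (fun m => x m * τ (y m))
  have h4 : ∑ m, x (e.symm m) * y (e.symm m) = ∑ m, x m * y m :=
    Equiv.sum_comp e.symm (fun m => x m * y m)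
  rw [htr τ hτ p hp hpe, ← h3, hl, h4, hfin]

end tr

end K4X

/-- K4 -/
theorem k4_proof (hK1 : Stmt_K1) (hK2a : Stmt_K2a) (hK2b : Stmt_K2b) (hH : Stmt_Homx) (hLdp : Stmt_Ldp)
    (hD : Stmt_DescQ) (hFin : Stmt_Fin) (hG4 : Stmt_Gb4) : Stmt_K4 := by
  intro g A Y hY
  have hR := K4X.R0_rat A hD hG4 hK2b
  have hord : ∀ (p : GL (Idx g) ℂ × ℂˣ) (hp : p ∈ Gam A), ∃ m : ℕ, 1 ≤ m ∧
      (K4X.adR A hK2a p hp) ^ m = 1 := by
    intro p hp
    obtain ⟨m, hm, h1⟩ := K4X.fin_ord hH hK1 (Gam A) p (fun t D hD => hD p hp)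
    exact ⟨m, hm, K4X.adR_pow A hK2a p hp m h1⟩
  have halg : ∀ (p : GL (Idx g) ℂ × ℂˣ) (hp : p ∈ Gam A),
      IsAlgebraic ℚ (LinearMap.trace ℂ (K4X.R0 A) (K4X.adR A hK2a p hp)) := by
    intro p hp
    obtain ⟨m, hm, h1⟩ := hord p hp
    exact K4X.alg_trace _ m hm h1
  -- the cocycle elements commute with the commutant
  have hcoc : ∀ τ ∈ GalA, ∀ Z : Matrix (Idx g) (Idx g) ℂ, (∀ X ξ, InLie (Gam A) X ξ → X * Z = Z * X) →
      (A.per⁻¹ * A.per.map τ) * Z = Z * (A.per⁻¹ * A.per.map τ) := by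
    intro τ hτ Z hZ
    obtain ⟨p, hp, hpe⟩ := FinX.exists_elt A τ hτ
    obtain ⟨m, hm, h1⟩ := hord p hp
    have h2 := K4X.trace_const A hLdp hK2a hR halg τ hτ p hp hpe
    have h3 := K4X.eq_one_of_trace _ m hm h1 h2
    have h4 : K4X.adR A hK2a p hp ⟨K4X.fl Z, K4X.fl_mem A hZ⟩ = ⟨K4X.fl Z, K4X.fl_mem A hZ⟩ := by
      rw [h3]; rfl
    have h5 := congrArg (fun v : K4X.R0 A => FinX.L v.1) h4
    simp only [K4X.adR_apply, K4X.L_fl] at h5
    have hpp : (p.1⁻¹).val * p.1.val = 1 := by rw [← Units.val_mul]; simp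
    rw [← hpe]
    calc p.1.val * Z = p.1.val * Z * ((p.1⁻¹).val * p.1.val) := by rw [hpp, mul_one]
      _ = (p.1.val * Z * (p.1⁻¹).val) * p.1.val := by simp only [mul_assoc]
      _ = _ := by rw [h5]
  -- the whole group commutes with the commutant
  have hall : ∀ p ∈ Gam A, ∀ Z : Matrix (Idx g) (Idx g) ℂ,
      (∀ X ξ, InLie (Gam A) X ξ → X * Z = Z * X) → p.1.val * Z = Z * p.1.val := by
    intro p hp
    unfold Gam at hp
    refine Subgroup.closure_induction (p := fun (x : GL (Idx g) ℂ × ℂˣ) _ =>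
      ∀ Z : Matrix (Idx g) (Idx g) ℂ, (∀ X ξ, InLie (Gam A) X ξ → X * Z = Z * X) →
        x.1.val * Z = Z * x.1.val) ?_ ?_ ?_ ?_ hp
    · rintro x ⟨σ, τ, hτ, hx1, hx2⟩ Z hZ
      have h1 : ∀ X ξ, InLie (Gam A) X ξ → X * Z.map σ.symm = Z.map σ.symm * X := by
        intro X ξ hX
        have h2 := hZ _ _ (hK2b (Idx g) (Gam A) (fun σ p hp q h1 h2 => hG4 g A σ p hp q h1 h2) σ X ξ hX)
        have h3 := congrArg (fun W : Matrix (Idx g) (Idx g) ℂ => W.map σ.symm) h2
        rw [FinX.map_mul', FinX.map_mul'] at h3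
        have h4 : (X.map σ).map σ.symm = X := by
          ext i j
          simp
        rw [h4] at h3
        exact h3
      have h2 := hcoc τ hτ _ h1
      have h3 := congrArg (fun W : Matrix (Idx g) (Idx g) ℂ => W.map σ) h2
      have h5 := FinX.map_mul' σ (A.per⁻¹ * A.per.map τ) (Z.map σ.symm)
      have h6 := FinX.map_mul' σ (Z.map σ.symm) (A.per⁻¹ * A.per.map τ)
      rw [FinX.map_map_symm] at h5 h6
      rw [hx1, ← h5, ← h6, h3]
    · intro Z _
      simp
    · intro x y _ _ hx hy Z hZ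
      show (x.1 * y.1).val * Z = Z * (x.1 * y.1).val
      rw [Units.val_mul, mul_assoc, hy Z hZ, ← mul_assoc, hx Z hZ, mul_assoc]
    · intro x _ hx Z hZ
      show (x.1⁻¹).val * Z = Z * (x.1⁻¹).val
      have h1 := hx Z hZ
      have e1 : x.1.val * (x.1⁻¹).val = 1 := by rw [← Units.val_mul]; simp
      have e2 : (x.1⁻¹).val * x.1.val = 1 := by rw [← Units.val_mul]; simp
      calc (x.1⁻¹).val * Z = (x.1⁻¹).val * (Z * x.1.val) * (x.1⁻¹).val := by
            rw [mul_assoc, mul_assoc, e1, mul_one]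
        _ = (x.1⁻¹).val * (x.1.val * Z) * (x.1⁻¹).val := by rw [h1]
        _ = _ := by rw [← mul_assoc, e2, one_mul]
  apply hFin g A Y
  refine Set.Finite.subset (Set.finite_singleton Y) ?_
  rintro Z ⟨p, hp, rfl⟩
  have e1 : p.1.val * (p.1⁻¹).val = 1 := by rw [← Units.val_mul]; simp
  rw [Set.mem_singleton_iff, hall p hp Y hY, mul_assoc, e1, mul_one]

end Pool.Agent.K3D
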