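import Pool.Agent.K3D.K2c
import Pool.Agent.K3D.K4

/-!
# K9: the conclusion
-/

open scoped BigOperators
open Matrix

namespace Pool.Agent.K3D

open Pool.Agent.DRB

noncomputable section

/-- The projection onto `H^{-1,0}`. -/
def Stmt_PI : Prop :=
  ∀ (g : ℕ) (A : AbVar g), ∃ π : Matrix (Idx g) (Idx g) ℂ, π * π = π ∧
    (∀ (z : ℂˣ) (x : GL (Idx g) ℂ), A.IsMu z x ↔ x.val = 1 + (z.val - 1) • π) ∧
    (∀ z : ℂˣ, ∃ x : GL (Idx g) ℂ, A.IsMu z x) ∧
    (∀ α, A.IsEnd α → π * AbVar.toC α = AbVar.toC α * π) ∧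
    πᵀ * A.riem + A.riem * π = A.riem

/-- There is an element of `Gam A` which is not torsion on the Tate object. -/
def Stmt_TAU : Prop :=
  ∀ (g : ℕ) (A : AbVar g), ∃ p ∈ Gam A, ∀ N : ℕ, 1 ≤ N → p.2 ^ N ≠ 1

namespace K9X

variable {g n : ℕ} {A : AbVar g} (K : KSat A n)

theorem toC_comm (i j : Fin n) (α : Matrix (Idx g) (Idx g) ℚ) (hα : A.IsEnd α) :
    AbVar.toC (K.t i) * AbVar.toC (K.t j) * AbVar.toC α =
      AbVar.toC α * (AbVar.toC (K.t i) * AbVar.toC (K.t j)) := by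
  have h1 : K.t i * K.t j ∈ Algebra.adjoin ℚ (Set.range fun p : Fin n × Fin n => K.t p.1 * K.t p.2) :=
    Algebra.subset_adjoin ⟨(i, j), rfl⟩
  have h2 := (K.comm (K.t i * K.t j)).2 h1 α hα
  rw [← AbVar.toC_mul, ← AbVar.toC_mul, h2, AbVar.toC_mul]

theorem cl_single (i : Fin n) : K.cl (Pi.single i 1) = AbVar.toC (K.t i) := by
  unfold KSat.cl
  rw [Finset.sum_eq_single i]
  · simp
  · intro j _ hj
    simp [Pi.single_eq_of_ne hj]
  · simp

theorem cl_add (v w : Fin n → ℂ) : K.cl (v + w) = K.cl v + K.cl w := by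
  unfold KSat.cl
  rw [← Finset.sum_add_distrib]
  exact Finset.sum_congr rfl fun i _ => by rw [Pi.add_apply, add_smul]

theorem cl_smul (c : ℂ) (v : Fin n → ℂ) : K.cl (c • v) = c • K.cl v := by
  unfold KSat.cl
  rw [Finset.smul_sum]
  exact Finset.sum_congr rfl fun i _ => by rw [Pi.smul_apply, smul_eq_mul, mul_smul]

theorem cl_zero : K.cl 0 = 0 := by
  have := cl_smul K 0 0
  simpa using this

theorem cl_comm (v w : Fin n → ℂ) (α : Matrix (Idx g) (Idx g) ℚ) (hα : A.IsEnd α) :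
    K.cl v * K.cl w * AbVar.toC α = AbVar.toC α * (K.cl v * K.cl w) := by
  unfold KSat.cl
  simp only [Finset.sum_mul, Finset.mul_sum, Matrix.smul_mul, Matrix.mul_smul]
  refine Finset.sum_congr rfl fun i _ => Finset.sum_congr rfl fun j _ => ?_
  rw [toC_comm K j i α hα]

theorem cl_anti {i j : Fin n} (h : i ≠ j) : AbVar.toC (K.t i) * AbVar.toC (K.t j) =
    -(AbVar.toC (K.t j) * AbVar.toC (K.t i)) := by
  rw [← AbVar.toC_mul, K.anti i j h, ← AbVar.toC_mul]
  ext a b
  show algebraMap ℚ ℂ ((-(K.t j * K.t i)) a b) = -(algebraMap ℚ ℂ ((K.t j * K.t i) a b))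
  rw [Matrix.neg_apply, map_neg]

theorem cl_sq (i : Fin n) : AbVar.toC (K.t i) * AbVar.toC (K.t i) =
    (K.q i : ℂ) • (1 : Matrix (Idx g) (Idx g) ℂ) := by
  rw [← AbVar.toC_mul, K.sq i]
  ext a b
  by_cases h : a = b
  · subst h; simp [AbVar.toC]
  · simp [AbVar.toC, Matrix.one_apply_ne h]

theorem trace_tt {i j : Fin n} (h : i ≠ j) :
    (AbVar.toC (K.t i) * AbVar.toC (K.t j)).trace = 0 := by
  have h1 := congrArg Matrix.trace (cl_anti K h)
  rw [Matrix.trace_neg, Matrix.trace_mul_comm (AbVar.toC (K.t j))] at h1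
  have h2 : (2 : ℂ) * (AbVar.toC (K.t i) * AbVar.toC (K.t j)).trace = 0 := by
    linear_combination h1
  simpa using h2

theorem mem_TC_iff (Y : Matrix (Idx g) (Idx g) ℂ) : Y ∈ K.TC ↔ ∃ w, Y = K.cl w := by
  constructor
  · intro hY
    unfold KSat.TC at hY
    refine Submodule.span_induction (p := fun Y _ => ∃ w, Y = K.cl w) ?_ ?_ ?_ ?_ hY
    · rintro _ ⟨j, rfl⟩
      exact ⟨Pi.single j 1, (cl_single K j).symm⟩
    · exact ⟨0, (cl_zero K).symm⟩
    · rintro Y Z _ _ ⟨v, rfl⟩ ⟨w, rfl⟩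
      exact ⟨v + w, (cl_add K v w).symm⟩
    · rintro c Y _ ⟨v, rfl⟩
      exact ⟨c • v, (cl_smul K c v).symm⟩
  · rintro ⟨w, rfl⟩
    unfold KSat.cl KSat.TC
    exact Submodule.sum_mem _ fun j _ => Submodule.smul_mem _ _ (Submodule.subset_span ⟨j, rfl⟩)

/-- the skew real matrix of `e_i ∧ e_j` -/
def EE (i j : Fin n) : Matrix (Fin n) (Fin n) ℝ :=
  (K.q j : ℝ) • Matrix.single i j 1 - (K.q i : ℝ) • Matrix.single j i 1

theorem EE_skew (i j : Fin n) :
    (EE K i j)ᵀ * Matrix.diagonal (fun i => (K.q i : ℝ)) +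
      Matrix.diagonal (fun i => (K.q i : ℝ)) * EE K i j = 0 := by
  ext a b
  rw [Matrix.add_apply, Matrix.mul_diagonal, Matrix.diagonal_mul, Matrix.transpose_apply]
  simp only [EE, Matrix.sub_apply, Matrix.smul_apply, Matrix.single_apply, smul_eq_mul, Matrix.zero_apply]
  by_cases h1 : i = b ∧ j = a <;> by_cases h2 : j = b ∧ i = a
  · obtain ⟨rfl, rfl⟩ := h1
    obtain ⟨h3, h4⟩ := h2
    subst h3
    simp
  · obtain ⟨rfl, rfl⟩ := h1
    have h3 : ¬ (i = j ∧ j = i) := fun h => h2 ⟨h.2, h.1⟩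
    have h4 : ¬ (j = i ∧ i = j) := fun h => h3 ⟨h.2, h.1⟩
    simp [h3, h4]
  · obtain ⟨rfl, rfl⟩ := h2
    have h3 : ¬ (i = j ∧ j = i) := fun h => h1 ⟨h.1, h.2⟩
    have h4 : ¬ (j = i ∧ i = j) := fun h => h3 ⟨h.2, h.1⟩
    simp [h3, h4]
  · have h3 : ¬ (i = a ∧ j = b) := fun h => h2 ⟨h.2, h.1⟩
    have h4 : ¬ (j = a ∧ i = b) := fun h => h1 ⟨h.2, h.1⟩
    simp [h1, h2, h3, h4]

theorem EE_cl (i j : Fin n) (v : Fin n → ℂ) :
    K.cl (((EE K i j).map Complex.ofReal) *ᵥ v) =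
      ((K.q j : ℂ) * v j) • AbVar.toC (K.t i) - ((K.q i : ℂ) * v i) • AbVar.toC (K.t j) := by
  have h1 : ((EE K i j).map Complex.ofReal) *ᵥ v =
      ((K.q j : ℂ) * v j) • Pi.single i 1 - ((K.q i : ℂ) * v i) • Pi.single j 1 := by
    funext a
    simp only [Matrix.mulVec, dotProduct, EE, Matrix.map_apply, Matrix.sub_apply, Matrix.smul_apply,
      Matrix.single_apply, smul_eq_mul, Pi.sub_apply, Pi.smul_apply]
    have e1 : ∀ b : Fin n, (Complex.ofReal ((K.q j : ℝ) * (if i = a ∧ j = b then 1 else 0) -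
        (K.q i : ℝ) * (if j = a ∧ i = b then 1 else 0))) * v b =
        (if j = b then (if i = a then (K.q j : ℂ) * v j else 0) else 0) -
          (if i = b then (if j = a then (K.q i : ℂ) * v i else 0) else 0) := by
      intro b
      by_cases hb : j = b <;> by_cases hb' : i = b <;> by_cases ha : i = a <;> by_cases ha' : j = a <;>
        subst_vars <;> simp_all
    rw [Finset.sum_congr rfl fun b _ => e1 b, Finset.sum_sub_distrib, Finset.sum_ite_eq,
      Finset.sum_ite_eq]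
    simp only [Finset.mem_univ, if_true, Pi.single_apply]
    by_cases ha : i = a <;> by_cases ha' : j = a <;> simp_all [eq_comm]
  have e : ∀ (c : ℂ) (i : Fin n), K.cl (c • Pi.single i 1) = c • AbVar.toC (K.t i) := by
    intro c i
    rw [cl_smul, cl_single]
  have h2 : ∀ v w : Fin n → ℂ, K.cl (v - w) = K.cl v - K.cl w := by
    intro v w
    rw [sub_eq_add_neg, cl_add, ← neg_one_smul ℂ w, cl_smul, neg_one_smul, ← sub_eq_add_neg]
  rw [h1, h2, e, e]

/-- matrices commuting with the endomorphisms and with `T` are scalar; combined with the trace -/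
theorem scalar_of (hK5a : Stmt_K5a) (Y : Matrix (Idx g) (Idx g) ℂ)
    (h1 : ∀ α, A.IsEnd α → Y * AbVar.toC α = AbVar.toC α * Y)
    (h2 : ∀ v, Y * K.cl v = K.cl v * Y) : ∃ c : ℂ, Y = c • 1 :=
  (hK5a g A n K).2.2.2.1 Y h1 h2

theorem tt_act (i k : Fin n) (h : i ≠ k) (v : Fin n → ℂ) :
    (AbVar.toC (K.t i) * AbVar.toC (K.t k)) * K.cl v - K.cl v * (AbVar.toC (K.t i) * AbVar.toC (K.t k)) =
      (2 : ℂ) • (((K.q k : ℂ) * v k) • AbVar.toC (K.t i) - ((K.q i : ℂ) * v i) • AbVar.toC (K.t k)) := by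
  have key : ∀ l : Fin n, (AbVar.toC (K.t i) * AbVar.toC (K.t k)) * AbVar.toC (K.t l) -
      AbVar.toC (K.t l) * (AbVar.toC (K.t i) * AbVar.toC (K.t k)) =
      (if k = l then (2 * (K.q k : ℂ)) • AbVar.toC (K.t i) else 0) -
      (if i = l then (2 * (K.q i : ℂ)) • AbVar.toC (K.t k) else 0) := by
    intro l
    by_cases hk : k = l
    · subst hk
      rw [if_pos rfl, if_neg h, sub_zero]
      have e1 : AbVar.toC (K.t k) * (AbVar.toC (K.t i) * AbVar.toC (K.t k)) =
          -((K.q k : ℂ) • AbVar.toC (K.t i)) := by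
        rw [← mul_assoc, cl_anti K (Ne.symm h), neg_mul, mul_assoc, cl_sq, Matrix.mul_smul, mul_one]
      rw [e1, mul_assoc, cl_sq, Matrix.mul_smul, mul_one, sub_neg_eq_add, ← two_smul ℂ, smul_smul]
    · rw [if_neg hk]
      by_cases hi : i = l
      · subst hi
        rw [if_pos rfl, zero_sub]
        have e1 : AbVar.toC (K.t i) * AbVar.toC (K.t k) * AbVar.toC (K.t i) =
            -((K.q i : ℂ) • AbVar.toC (K.t k)) := by
          rw [cl_anti K h, neg_mul, mul_assoc, cl_sq, Matrix.mul_smul, mul_one]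
        have e2 : AbVar.toC (K.t i) * (AbVar.toC (K.t i) * AbVar.toC (K.t k)) =
            (K.q i : ℂ) • AbVar.toC (K.t k) := by
          rw [← mul_assoc, cl_sq, Matrix.smul_mul, one_mul]
        rw [e1, e2, mul_smul, two_smul]
        abel
      · rw [if_neg hi, sub_zero, sub_eq_zero, mul_assoc, cl_anti K hk, mul_neg, ← mul_assoc,
          cl_anti K hi, neg_mul, neg_neg, mul_assoc]
  unfold KSat.cl
  rw [Finset.mul_sum, Finset.sum_mul, ← Finset.sum_sub_distrib]
  have h1 : ∀ l ∈ (Finset.univ : Finset (Fin n)), (AbVar.toC (K.t i) * AbVar.toC (K.t k)) * (v l • AbVar.toC (K.t l)) -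
      (v l • AbVar.toC (K.t l)) * (AbVar.toC (K.t i) * AbVar.toC (K.t k)) =
      (if k = l then (2 * (K.q k : ℂ) * v k) • AbVar.toC (K.t i) else 0) -
      (if i = l then (2 * (K.q i : ℂ) * v i) • AbVar.toC (K.t k) else 0) := by
    intro l _
    rw [Matrix.mul_smul, Matrix.smul_mul, ← smul_sub, key l, smul_sub]
    congr 1
    · by_cases hk : k = l
      · subst hk
        rw [if_pos rfl, if_pos rfl, smul_smul, mul_comm (v k)]
      · rw [if_neg hk, if_neg hk, smul_zero]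
    · by_cases hi : i = l
      · subst hi
        rw [if_pos rfl, if_pos rfl, smul_smul, mul_comm (v i)]
      · rw [if_neg hi, if_neg hi, smul_zero]
  rw [Finset.sum_congr rfl h1, Finset.sum_sub_distrib, Finset.sum_ite_eq, Finset.sum_ite_eq]
  simp only [Finset.mem_univ, if_true]
  rw [smul_sub, smul_smul, smul_smul, mul_assoc, mul_assoc]

/-- `t_i t_k` belongs to the Lie algebra -/
theorem tt_mem (hK2a : Stmt_K2a) (hK2c : Stmt_K2c) (hK5a : Stmt_K5a) (hK8b : Stmt_K8b) (hn : 6 ≤ n)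
    (i k : Fin n) (hik : i ≠ k) :
    InLie (Gam A) (AbVar.toC (K.t i) * AbVar.toC (K.t k)) 0 := by
  obtain ⟨j, hji, hjk⟩ : ∃ j : Fin n, j ≠ i ∧ j ≠ k := by
    by_contra hcon
    push Not at hcon
    have h1 : (Finset.univ : Finset (Fin n)) ⊆ {i, k} := by
      intro j _
      by_cases h : j = i
      · simp [h]
      · simp [hcon j h]
    have h2 := Finset.card_le_card h1
    rw [Finset.card_univ, Fintype.card_fin] at h2
    have h3 : ({i, k} : Finset (Fin n)).card ≤ 2 := Finset.card_le_two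
    omega
  obtain ⟨X, ξ, hX, hXa⟩ := hK8b g A n K hn _ (EE_skew K i j)
  obtain ⟨Y, η, hY, hYa⟩ := hK8b g A n K hn _ (EE_skew K j k)
  have hW := (hK2a (Idx g) (Gam A)).2.2.1 X Y ξ η hX hY
  -- the action of the bracket
  have hq : (K.q j : ℂ) ≠ 0 := by exact_mod_cast K.q_ne j
  have hact : ∀ l : Fin n, (X * Y - Y * X) * AbVar.toC (K.t l) - AbVar.toC (K.t l) * (X * Y - Y * X) =
      ((K.q j : ℂ) / 2) • ((AbVar.toC (K.t i) * AbVar.toC (K.t k)) * AbVar.toC (K.t l) -
        AbVar.toC (K.t l) * (AbVar.toC (K.t i) * AbVar.toC (K.t k))) := by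
    intro l
    have hXl : ∀ l, X * AbVar.toC (K.t l) - AbVar.toC (K.t l) * X =
        ((K.q j : ℂ) * (Pi.single l 1 : Fin n → ℂ) j) • AbVar.toC (K.t i) -
          ((K.q i : ℂ) * (Pi.single l 1 : Fin n → ℂ) i) • AbVar.toC (K.t j) := by
      intro l
      have := hXa (Pi.single l 1)
      rwa [cl_single, EE_cl] at this
    have hYl : ∀ l, Y * AbVar.toC (K.t l) - AbVar.toC (K.t l) * Y =
        ((K.q k : ℂ) * (Pi.single l 1 : Fin n → ℂ) k) • AbVar.toC (K.t j) -
          ((K.q j : ℂ) * (Pi.single l 1 : Fin n → ℂ) j) • AbVar.toC (K.t k) := by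
      intro l
      have := hYa (Pi.single l 1)
      rwa [cl_single, EE_cl] at this
    have hjac : (X * Y - Y * X) * AbVar.toC (K.t l) - AbVar.toC (K.t l) * (X * Y - Y * X) =
        (X * (Y * AbVar.toC (K.t l) - AbVar.toC (K.t l) * Y) -
          (Y * AbVar.toC (K.t l) - AbVar.toC (K.t l) * Y) * X) -
        (Y * (X * AbVar.toC (K.t l) - AbVar.toC (K.t l) * X) -
          (X * AbVar.toC (K.t l) - AbVar.toC (K.t l) * X) * Y) := by noncomm_ring
    have hadd : ∀ (X : Matrix (Idx g) (Idx g) ℂ) (a b : ℂ) (U V : Matrix (Idx g) (Idx g) ℂ),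
        X * (a • U - b • V) - (a • U - b • V) * X = a • (X * U - U * X) - b • (X * V - V * X) := by
      intro X a b U V
      simp only [mul_sub, sub_mul, Matrix.mul_smul, Matrix.smul_mul, smul_sub]
      abel
    rw [hjac, hYl l, hXl l, hadd, hadd, hXl j, hXl k, hYl i, hYl j]
    have htt := tt_act K i k hik (Pi.single l 1)
    rw [cl_single] at htt
    rw [htt]
    simp only [Pi.single_eq_same, Pi.single_eq_of_ne hji, Pi.single_eq_of_ne hjk,
      Pi.single_eq_of_ne hik, Pi.single_eq_of_ne (Ne.symm hji), Pi.single_eq_of_ne (Ne.symm hjk),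
      Pi.single_eq_of_ne (Ne.symm hik), mul_zero, zero_smul, sub_zero, mul_one, zero_sub]
    simp only [smul_sub, smul_smul, smul_neg]
    have e1 : (K.q j : ℂ) / 2 * (2 * ((K.q k : ℂ) * (Pi.single l 1 : Fin n → ℂ) k)) =
        (K.q k : ℂ) * (Pi.single l 1 : Fin n → ℂ) k * (K.q j : ℂ) := by ring
    have e2 : (K.q j : ℂ) / 2 * (2 * ((K.q i : ℂ) * (Pi.single l 1 : Fin n → ℂ) i)) =
        (K.q i : ℂ) * (Pi.single l 1 : Fin n → ℂ) i * (K.q j : ℂ) := by ring
    rw [e1, e2]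
    simp
  set Z : Matrix (Idx g) (Idx g) ℂ := (X * Y - Y * X) -
    ((K.q j : ℂ) / 2) • (AbVar.toC (K.t i) * AbVar.toC (K.t k)) with hZ
  have hZT : ∀ v, Z * K.cl v = K.cl v * Z := by
    intro v
    have h1 : ∀ l : Fin n, Z * AbVar.toC (K.t l) = AbVar.toC (K.t l) * Z := by
      intro l
      have h2 := hact l
      rw [← sub_eq_zero]
      have h3 : Z * AbVar.toC (K.t l) - AbVar.toC (K.t l) * Z =
          ((X * Y - Y * X) * AbVar.toC (K.t l) - AbVar.toC (K.t l) * (X * Y - Y * X)) -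
          ((K.q j : ℂ) / 2) • ((AbVar.toC (K.t i) * AbVar.toC (K.t k)) * AbVar.toC (K.t l) -
          AbVar.toC (K.t l) * (AbVar.toC (K.t i) * AbVar.toC (K.t k))) := by
        rw [hZ]
        simp only [sub_mul, mul_sub, Matrix.smul_mul, Matrix.mul_smul, smul_sub]
        abel
      rw [h3, h2, sub_self]
    unfold KSat.cl
    rw [Finset.mul_sum, Finset.sum_mul]
    exact Finset.sum_congr rfl fun l _ => by rw [Matrix.mul_smul, Matrix.smul_mul, h1 l]
  have hZE : ∀ α, A.IsEnd α → Z * AbVar.toC α = AbVar.toC α * Z := by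
    intro α hα
    have h1 := (hK2c g A _ _ hW).1 α hα
    rw [hZ, sub_mul, mul_sub, h1, Matrix.smul_mul, Matrix.mul_smul, toC_comm K i k α hα]
  obtain ⟨c, hc⟩ := scalar_of K hK5a Z hZE hZT
  have htr : Z.trace = 0 := by
    rw [hZ, Matrix.trace_sub, Matrix.trace_sub, Matrix.trace_mul_comm X Y, sub_self,
      Matrix.trace_smul, trace_tt K hik, smul_zero, sub_zero]
  have hc0 : c = 0 := by
    rw [hc, Matrix.trace_smul, Matrix.trace_one, smul_eq_mul] at htr
    rcases mul_eq_zero.1 htr with h | h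
    · exact h
    · exfalso
      have h5 : Fintype.card (Idx g) = g + g := by simp
      rw [h5] at h
      have h6 : g + g = 0 := by exact_mod_cast h
      have := K.pos
      omega
  have h9 : AbVar.toC (K.t i) * AbVar.toC (K.t k) = (2 / (K.q j : ℂ)) • (X * Y - Y * X) := by
    have h7 : (X * Y - Y * X) = ((K.q j : ℂ) / 2) • (AbVar.toC (K.t i) * AbVar.toC (K.t k)) := by
      rw [hc0, zero_smul] at hc
      exact sub_eq_zero.1 hc
    rw [h7, smul_smul]
    have : (2 / (K.q j : ℂ)) * ((K.q j : ℂ) / 2) = 1 := by field_simp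
    rw [this, one_smul]
  rw [h9]
  have := K2Y.inLie_smul hK2a hW (2 / (K.q j : ℂ))
  rwa [mul_zero] at this

/-- finite sums in the Lie algebra -/
theorem sum_mem (hK2a : Stmt_K2a) {κ : Type} (s : Finset κ) (F : κ → Matrix (Idx g) (Idx g) ℂ)
    (h : ∀ k ∈ s, InLie (Gam A) (F k) 0) : InLie (Gam A) (∑ k ∈ s, F k) 0 := by
  classical
  induction s using Finset.induction_on with
  | empty => simpa using (hK2a (Idx g) (Gam A)).2.1
  | insert a s ha ih =>
    rw [Finset.sum_insert ha]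
    have h1 := (hK2a (Idx g) (Gam A)).1 (F a) (∑ k ∈ s, F k) 0 0 1 (h a (Finset.mem_insert_self a s))
      (ih fun k hk => h k (Finset.mem_insert_of_mem hk))
    rwa [one_smul, mul_zero, add_zero] at h1

/-- a matrix commuting with the endomorphisms and normalizing `T` is a scalar plus an element of the Lie
algebra -/
theorem decomp (hK2a : Stmt_K2a) (hK2c : Stmt_K2c) (hK5a : Stmt_K5a) (hK8b : Stmt_K8b) (hn : 6 ≤ n)
    (Y : Matrix (Idx g) (Idx g) ℂ) (h1 : ∀ α, A.IsEnd α → Y * AbVar.toC α = AbVar.toC α * Y)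
    (h2 : ∀ v, ∃ w, Y * K.cl v - K.cl v * Y = K.cl w) :
    ∃ (Z : Matrix (Idx g) (Idx g) ℂ) (c : ℂ), InLie (Gam A) Z 0 ∧ Y = Z + c • 1 := by
  obtain ⟨hcliff, hinj, hlift, -, -⟩ := hK5a g A n K
  choose w hw using fun i : Fin n => h2 (Pi.single i 1)
  let a : Matrix (Fin n) (Fin n) ℂ := Matrix.of fun l i => w i l
  have hai : ∀ i, a *ᵥ Pi.single i 1 = w i := by
    intro i
    funext l
    simp [a]
  have hact : ∀ v, Y * K.cl v - K.cl v * Y = K.cl (a *ᵥ v) := by
    intro v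
    have e1 : K.cl (a *ᵥ v) = ∑ i, v i • K.cl (w i) := by
      have e2 : a *ᵥ v = ∑ i, v i • w i := by
        funext l
        simp [a, Matrix.mulVec, dotProduct, mul_comm]
      rw [e2]
      have e3 : ∀ s : Finset (Fin n), K.cl (∑ i ∈ s, v i • w i) = ∑ i ∈ s, v i • K.cl (w i) := by
        intro s
        classical
        induction s using Finset.induction_on with
        | empty => simpa using cl_zero K
        | insert b s hb ih => rw [Finset.sum_insert hb, Finset.sum_insert hb, cl_add, cl_smul, ih]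
      exact e3 _
    rw [e1]
    have e4 : ∀ i, Y * AbVar.toC (K.t i) - AbVar.toC (K.t i) * Y = K.cl (w i) := by
      intro i
      have := hw i
      rwa [cl_single] at this
    rw [← Finset.sum_congr rfl fun i _ => congrArg (fun M => v i • M) (e4 i)]
    unfold KSat.cl
    rw [Finset.mul_sum, Finset.sum_mul, ← Finset.sum_sub_distrib]
    exact Finset.sum_congr rfl fun i _ => by rw [Matrix.mul_smul, Matrix.smul_mul, smul_sub]
  have hskew : ∀ v w, K.bil (a *ᵥ v) w + K.bil v (a *ᵥ w) = 0 := by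
    intro v w
    have h3 := hcliff v w
    have h4 : Y * (K.cl v * K.cl w + K.cl w * K.cl v) = (K.cl v * K.cl w + K.cl w * K.cl v) * Y := by
      rw [h3, Matrix.mul_smul, Matrix.smul_mul, mul_one, one_mul]
    have h5 : (Y * K.cl v - K.cl v * Y) * K.cl w + K.cl w * (Y * K.cl v - K.cl v * Y) +
        (K.cl v * (Y * K.cl w - K.cl w * Y) + (Y * K.cl w - K.cl w * Y) * K.cl v) = 0 := by
      have h6 : (Y * K.cl v - K.cl v * Y) * K.cl w + K.cl w * (Y * K.cl v - K.cl v * Y) +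
        (K.cl v * (Y * K.cl w - K.cl w * Y) + (Y * K.cl w - K.cl w * Y) * K.cl v) =
        Y * (K.cl v * K.cl w + K.cl w * K.cl v) - (K.cl v * K.cl w + K.cl w * K.cl v) * Y := by
        noncomm_ring
      rw [h6, h4, sub_self]
    rw [hact v, hact w, hcliff, hcliff, ← add_smul] at h5
    have h7 : 2 * K.bil (a *ᵥ v) w + 2 * K.bil v (a *ᵥ w) = 0 := by
      by_contra hne
      have h8 := (smul_eq_zero.1 h5).resolve_left hne
      have h9 := congrFun (congrFun h8 (Sum.inl ⟨0, K.pos⟩)) (Sum.inl ⟨0, K.pos⟩)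
      simp at h9
    have h8 : (2 : ℂ) * (K.bil (a *ᵥ v) w + K.bil v (a *ᵥ w)) = 0 := by linear_combination h7
    simpa using h8
  -- diagonal entries vanish
  have hdiag : ∀ i, a i i = 0 := by
    intro i
    have h3 := hskew (Pi.single i 1) (Pi.single i 1)
    have e : ∀ v : Fin n → ℂ, K.bil v (Pi.single i 1) = (K.q i : ℂ) * v i := by
      intro v
      unfold KSat.bil
      rw [Finset.sum_eq_single i]
      · simp
      · intro j _ hj
        simp [Pi.single_eq_of_ne hj]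
      · simp
    have e' : ∀ v : Fin n → ℂ, K.bil (Pi.single i 1) v = (K.q i : ℂ) * v i := by
      intro v
      unfold KSat.bil
      rw [Finset.sum_eq_single i]
      · simp
      · intro j _ hj
        simp [Pi.single_eq_of_ne hj]
      · simp
    rw [e, e', hai] at h3
    have h4 : (2 * (K.q i : ℂ)) * w i i = 0 := by linear_combination h3
    have hq : (K.q i : ℂ) ≠ 0 := by exact_mod_cast K.q_ne i
    exact (mul_eq_zero.1 h4).resolve_left (mul_ne_zero two_ne_zero hq)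
  set Z : Matrix (Idx g) (Idx g) ℂ :=
    ∑ i, ((4 * (K.q i : ℂ))⁻¹) • (K.cl (a *ᵥ Pi.single i 1) * K.cl (Pi.single i 1)) with hZ
  have hZact := hlift a hskew
  have hZmem : InLie (Gam A) Z 0 := by
    rw [hZ]
    apply sum_mem hK2a
    intro i _
    rw [hai, cl_single]
    have e1 : K.cl (w i) * AbVar.toC (K.t i) = ∑ l, (w i l) • (AbVar.toC (K.t l) * AbVar.toC (K.t i)) := by
      unfold KSat.cl
      rw [Finset.sum_mul]
      exact Finset.sum_congr rfl fun l _ => by rw [Matrix.smul_mul]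
    have h5 : InLie (Gam A) (K.cl (w i) * AbVar.toC (K.t i)) 0 := by
      rw [e1]
      apply sum_mem hK2a
      intro l _
      by_cases hl : l = i
      · subst hl
        have : w l l = 0 := hdiag l
        rw [this, zero_smul]
        exact (hK2a (Idx g) (Gam A)).2.1
      · have := K2Y.inLie_smul hK2a (tt_mem K hK2a hK2c hK5a hK8b hn l i hl) (w i l)
        rwa [mul_zero] at this
    have := K2Y.inLie_smul hK2a h5 ((4 * (K.q i : ℂ))⁻¹)
    rwa [mul_zero] at this
  obtain ⟨c, hc⟩ := scalar_of K hK5a (Y - Z)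
    (fun α hα => by rw [sub_mul, mul_sub, h1 α hα, (hK2c g A Z 0 hZmem).1 α hα])
    (fun v => by
      rw [sub_mul, mul_sub]
      have h3 := hact v
      have h4 := hZact v
      have h5 : Y * K.cl v - K.cl v * Y = Z * K.cl v - K.cl v * Z := by rw [h3, h4]
      rw [sub_eq_sub_iff_add_eq_add] at h5 ⊢
      rw [h5, add_comm])
  exact ⟨Z, c, hZmem, by rw [← hc]; abel⟩

theorem riem_ne (hL : Stmt_Leg) (hg : 0 < g) : A.riem ≠ 0 := by
  intro h
  have := (hL g A).2.2.1
  rw [h] at this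
  have : Nonempty (Idx g) := ⟨Sum.inl ⟨0, hg⟩⟩
  simp_all

/-- the weight element -/
theorem weight_mem {g n : ℕ} {A : AbVar g} (K : KSat A n) (hK1 : Stmt_K1) (hH : Stmt_Homx) (hTau : Stmt_TAU) (hL : Stmt_Leg)
    (hK2a : Stmt_K2a) (hK2c : Stmt_K2c) (hK2d : Stmt_K2d) (hK5a : Stmt_K5a) (hK8b : Stmt_K8b)
    (hn : 6 ≤ n) : InLie (Gam A) ((1 / 2 : ℂ) • (1 : Matrix (Idx g) (Idx g) ℂ)) 1 := by
  obtain ⟨p, hp, hpN⟩ := hTau g A
  obtain ⟨L, hLne⟩ : ∃ L : Additive ℂˣ →+ ℂ, L (Additive.ofMul p.2) ≠ 0 := by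
    by_contra hcon
    push Not at hcon
    obtain ⟨N, hN, h1⟩ := K4X.tors_of_L hH p.2 hcon
    exact hpN N hN h1
  obtain ⟨S, α, N, M, -, -, -, -, hst⟩ := hK1 (Idx g) p.1
  set X : Matrix (Idx g) (Idx g) ℂ := S.val * Matrix.diagonal (fun i => L (Additive.ofMul (α i))) *
    (S⁻¹).val with hX
  set ζ : ℂ := L (Additive.ofMul p.2) with hζ
  have hXm : InLie (Gam A) X ζ := fun t D hD => (hst p.2 t D (hD p hp)).1 L
  obtain ⟨Z, c, hZ, hXZ⟩ := decomp K hK2a hK2c hK5a hK8b hn X (hK2c g A X ζ hXm).1 (fun v => by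
    have h1 := (hK2d g A n K).2 X ζ hXm (K.cl v) ((mem_TC_iff K _).2 ⟨v, rfl⟩)
    exact (mem_TC_iff K _).1 h1)
  have hc : InLie (Gam A) (c • 1) ζ := by
    have h1 := (hK2a (Idx g) (Gam A)).1 X Z ζ 0 (-1) hXm hZ
    rw [mul_zero, add_zero, neg_one_smul, hXZ] at h1
    have e : Z + c • (1 : Matrix (Idx g) (Idx g) ℂ) + -Z = c • 1 := by abel
    rwa [e] at h1
  have hsim := (hK2c g A _ _ hc).2
  have h2c : 2 * c = ζ := by
    have h1 : (2 * c - ζ) • A.riem = 0 := by
      rw [Matrix.transpose_smul, Matrix.transpose_one, Matrix.smul_mul, one_mul, Matrix.mul_smul,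
        mul_one] at hsim
      rw [sub_smul, ← hsim, two_mul, add_smul, sub_self]
    rcases smul_eq_zero.1 h1 with h | h
    · exact sub_eq_zero.1 h
    · exact absurd h (riem_ne hL K.pos)
  have h3 := K2Y.inLie_smul hK2a hc ζ⁻¹
  rw [inv_mul_cancel₀ hLne, smul_smul] at h3
  have e : ζ⁻¹ * c = 1 / 2 := by
    rw [← h2c]
    have hc0 : c ≠ 0 := by
      intro h0
      rw [h0, mul_zero] at h2c
      exact hLne h2c.symm
    field_simp
  rwa [e] at h3

/-- the exponential of a multiple of an idempotent -/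
theorem exp_idem {ι : Type} [Fintype ι] [DecidableEq ι] (π : Matrix ι ι ℂ) (hπ : π * π = π) (s : ℂ) :
    NormedSpace.exp (s • π) = 1 + (Complex.exp s - 1) • π := by
  let _ := Matrix.linftyOpNormedRing (n := ι) (α := ℂ)
  let _ := Matrix.linftyOpNormedAlgebra (n := ι) (R := ℂ) (α := ℂ)
  have h1 : HasSum (fun k : ℕ => ((Nat.factorial k : ℂ)⁻¹) • (s • π) ^ k) (NormedSpace.exp (s • π)) :=
    NormedSpace.exp_series_hasSum_exp' (𝕂 := ℂ) (s • π)
  have h2 : HasSum (fun k : ℕ => ((Nat.factorial k : ℂ)⁻¹) • s ^ k) (NormedSpace.exp s) :=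
    NormedSpace.exp_series_hasSum_exp' (𝕂 := ℂ) s
  have h3 : HasSum (fun k : ℕ => (((Nat.factorial k : ℂ)⁻¹) • s ^ k) • π) (NormedSpace.exp s • π) :=
    h2.smul_const π
  have h4 : HasSum (fun k : ℕ => if k = 0 then (1 - π) else 0) (1 - π) := by
    have := hasSum_ite_eq (0 : ℕ) (1 - π)
    exact this
  have h5 := h3.add h4
  have h6 : (fun k : ℕ => (((Nat.factorial k : ℂ)⁻¹) • s ^ k) • π + (if k = 0 then (1 - π) else 0)) =
      fun k : ℕ => ((Nat.factorial k : ℂ)⁻¹) • (s • π) ^ k := by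
    funext k
    rcases k with _ | k
    · simp
    · have hp : ∀ k : ℕ, π ^ (k + 1) = π := by
        intro k
        induction k with
        | zero => simp
        | succ k ih => rw [pow_succ, ih, hπ]
      rw [smul_pow, hp k, if_neg (Nat.succ_ne_zero k), add_zero, smul_smul, smul_eq_mul]
  rw [h6] at h5
  have h7 := h1.unique h5
  rw [h7, ← Complex.exp_eq_exp_ℂ, sub_smul, one_smul]
  abel

end K9X

open K9X

theorem k9_proof (hK1 : Stmt_K1) (hH : Stmt_Homx) (hTau : Stmt_TAU) (hPI : Stmt_PI) (hL : Stmt_Leg)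
    (hG2 : Stmt_Gb2) (hK2a : Stmt_K2a) (hK2c : Stmt_K2c) (hK2d : Stmt_K2d) (hK5a : Stmt_K5a)
    (hK8b : Stmt_K8b) : MainK3 := by
  rintro g A n hn ⟨K⟩ t D hD
  refine ⟨hD.1, ?_⟩
  obtain ⟨π, hπ, hmu, hex, hcomm, hsim⟩ := hPI g A
  -- π normalizes T
  have hT : ∀ v, ∃ w, π * K.cl v - K.cl v * π = K.cl w := by
    have h0 : ∀ i, π * AbVar.toC (K.t i) - AbVar.toC (K.t i) * π ∈ K.TC := by
      intro i
      set y := AbVar.toC (K.t i) with hy
      have hf : ∀ z : ℂ, z ≠ 0 → y + (z - 1) • (π * y) + (z⁻¹ - 1) • (y * π) +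
          ((z - 1) * (z⁻¹ - 1)) • (π * y * π) ∈ K.TC := by
        intro z hz
        obtain ⟨x, hx⟩ := hex (Units.mk0 z hz)
        have h1 := K.hdg _ x hx i
        have h2 : x.val = 1 + (z - 1) • π := (hmu _ x).1 hx
        have h3 : (x⁻¹).val = 1 + (z⁻¹ - 1) • π := by
          have h4 : x.val * (1 + (z⁻¹ - 1) • π) = 1 := by
            rw [h2]
            simp only [mul_add, add_mul, mul_one, one_mul, Matrix.smul_mul, Matrix.mul_smul, hπ,
              smul_smul]
            have h5 : (z - 1) + ((z⁻¹ - 1) + (z⁻¹ - 1) * (z - 1)) = 0 := by field_simp; ring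
            rw [add_assoc, ← add_smul, ← add_smul, h5, zero_smul, add_zero]
          have h6 : (x⁻¹).val * x.val = 1 := by rw [← Units.val_mul]; simp
          calc (x⁻¹).val = (x⁻¹).val * (x.val * (1 + (z⁻¹ - 1) • π)) := by rw [h4, mul_one]
            _ = _ := by rw [← mul_assoc, h6, one_mul]
        rw [h2, h3] at h1
        have h5 : (1 + (z - 1) • π) * y * (1 + (z⁻¹ - 1) • π) = y + (z - 1) • (π * y) +
            (z⁻¹ - 1) • (y * π) + ((z - 1) * (z⁻¹ - 1)) • (π * y * π) := by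
          simp only [mul_add, add_mul, mul_one, one_mul, Matrix.smul_mul, Matrix.mul_smul, smul_smul]
          rw [mul_comm (z⁻¹ - 1) (z - 1)]
          abel
        rw [← h5]
        exact h1
      have hy0 : y ∈ K.TC := Submodule.subset_span ⟨i, rfl⟩
      have h2 := hf 2 two_ne_zero
      have h3 := hf (-1) (by norm_num)
      -- combination
      have h4 : π * y - y * π = (4 / 3 : ℂ) • ((y + ((2 : ℂ) - 1) • (π * y) + ((2 : ℂ)⁻¹ - 1) • (y * π) +
          (((2 : ℂ) - 1) * ((2 : ℂ)⁻¹ - 1)) • (π * y * π)) - y) +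
          (1 / 6 : ℂ) • ((y + ((-1 : ℂ) - 1) • (π * y) + ((-1 : ℂ)⁻¹ - 1) • (y * π) +
          (((-1 : ℂ) - 1) * ((-1 : ℂ)⁻¹ - 1)) • (π * y * π)) - y) := by
        ext a b
        simp only [Matrix.add_apply, Matrix.sub_apply, Matrix.smul_apply, smul_eq_mul]
        norm_num
        ring
      rw [h4]
      exact Submodule.add_mem _ (Submodule.smul_mem _ _ (Submodule.sub_mem _ h2 hy0))
        (Submodule.smul_mem _ _ (Submodule.sub_mem _ h3 hy0))
    intro v
    rw [← mem_TC_iff]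
    unfold KSat.cl
    rw [Finset.mul_sum, Finset.sum_mul, ← Finset.sum_sub_distrib]
    refine Submodule.sum_mem _ fun i _ => ?_
    rw [Matrix.mul_smul, Matrix.smul_mul, ← smul_sub]
    exact Submodule.smul_mem _ _ (h0 i)
  obtain ⟨Z, c, hZ, hπZ⟩ := decomp K hK2a hK2c hK5a hK8b hn π hcomm hT
  have hc : c = 1 / 2 := by
    have h1 := (hK2c g A Z 0 hZ).2
    rw [zero_smul] at h1
    have h2 : (2 * c - 1) • A.riem = 0 := by
      have h3 := hsim
      rw [hπZ, Matrix.transpose_add, Matrix.transpose_smul, Matrix.transpose_one, add_mul, mul_add,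
        Matrix.smul_mul, one_mul, Matrix.mul_smul, mul_one] at h3
      have h4 : Zᵀ * A.riem + c • A.riem + (A.riem * Z + c • A.riem) =
          (Zᵀ * A.riem + A.riem * Z) + (2 * c) • A.riem := by
        rw [two_mul, add_smul]; abel
      rw [h4, h1, zero_add] at h3
      rw [sub_smul, one_smul, h3, sub_self]
    rcases smul_eq_zero.1 h2 with h | h
    · linear_combination (1 / 2) * h
    · exact absurd h (riem_ne hL K.pos)
  have hπm : InLie (Gam A) π 1 := by
    have h1 := (hK2a (Idx g) (Gam A)).1 Z _ 0 1 1 hZ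
      (weight_mem K hK1 hH hTau hL hK2a hK2c hK2d hK5a hK8b hn)
    rw [one_smul, one_mul, zero_add, ← hc, ← hπZ] at h1
    exact h1
  intro z x hx
  have hz : Complex.exp (Complex.log z.val) = z.val := Complex.exp_log (Units.ne_zero z)
  have h1 := K2Y.inLie_smul hK2a hπm (Complex.log z.val)
  rw [mul_one] at h1
  have h2 := K2Y.exp_stab_eq hK2a h1 t D (fun p hp => hG2 g A t D hD p hp)
  rw [K2Y.eX_val, exp_idem π hπ, hz] at h2
  rw [(hmu z x).1 hx]
  exact h2

end

end Pool.Agent.K3D
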