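import Pool.Agent.K3D.Stmts

/-!
# K8a: products of exponentials have their hyperbolic logarithm in the Lie algebra
-/

open scoped BigOperators Matrix
open Matrix

namespace Pool.Agent.K3D

open Pool.Agent.DRB

noncomputable section

namespace K8X

section general

variable {V : Type} [AddCommGroup V] [Module ℂ V]

theorem pow_sub_apply {f g : Module.End ℂ V} (h : Commute f g) {y : V} {k m : ℕ}
    (hf : (f ^ k) y = 0) (hg : g ^ m = 0) : ((f - g) ^ (k + m)) y = 0 := by
  rw [sub_eq_add_neg, (h.neg_right).add_pow']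
  rw [LinearMap.sum_apply]
  refine Finset.sum_eq_zero fun p hp => ?_
  have hp' : p.1 + p.2 = k + m := Finset.HasAntidiagonal.mem_antidiagonal.1 hp
  rw [LinearMap.smul_apply]
  by_cases h1 : k ≤ p.1
  · have h2 : f ^ p.1 * (-g) ^ p.2 = (-g) ^ p.2 * f ^ (p.1 - k) * f ^ k := by
      rw [mul_assoc, ← pow_add, Nat.sub_add_cancel h1]
      exact (h.neg_right.pow_pow _ _).eq
    rw [h2]
    simp only [Module.End.mul_apply, hf, map_zero, smul_zero]
  · have h2 : m ≤ p.2 := by omega
    have h3 : (-g) ^ p.2 = 0 := by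
      rw [neg_pow, pow_eq_zero_of_le h2 hg, mul_zero]
    rw [h3, mul_zero]
    simp

end general

section ops

variable {ι : Type} [Fintype ι] [DecidableEq ι]

/-- Left multiplication. -/
def Lm (a : Matrix ι ι ℂ) : Module.End ℂ (Matrix ι ι ℂ) := LinearMap.mulLeft ℂ a

/-- Right multiplication. -/
def Rm (a : Matrix ι ι ℂ) : Module.End ℂ (Matrix ι ι ℂ) := LinearMap.mulRight ℂ a

theorem Lm_apply (a Y : Matrix ι ι ℂ) : Lm a Y = a * Y := rfl
theorem Rm_apply (a Y : Matrix ι ι ℂ) : Rm a Y = Y * a := rfl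

theorem Lm_Rm (a b : Matrix ι ι ℂ) : Commute (Lm a) (Rm b) := by
  refine LinearMap.ext fun Y => ?_
  simp only [Module.End.mul_apply, Lm_apply, Rm_apply, mul_assoc]

theorem Lm_Lm {a b : Matrix ι ι ℂ} (h : a * b = b * a) : Commute (Lm a) (Lm b) := by
  refine LinearMap.ext fun Y => ?_
  simp only [Module.End.mul_apply, Lm_apply, ← mul_assoc, h]

theorem Rm_Rm {a b : Matrix ι ι ℂ} (h : a * b = b * a) : Commute (Rm a) (Rm b) := by
  refine LinearMap.ext fun Y => ?_
  simp only [Module.End.mul_apply, Rm_apply, mul_assoc, h]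

theorem Lm_pow (a : Matrix ι ι ℂ) (k : ℕ) (Y : Matrix ι ι ℂ) : (Lm a ^ k) Y = a ^ k * Y := by
  induction k with
  | zero => simp
  | succ k ih => rw [pow_succ', Module.End.mul_apply, ih, Lm_apply, ← mul_assoc, ← pow_succ']

theorem Rm_pow (a : Matrix ι ι ℂ) (k : ℕ) (Y : Matrix ι ι ℂ) : (Rm a ^ k) Y = Y * a ^ k := by
  induction k with
  | zero => simp
  | succ k ih => rw [pow_succ', Module.End.mul_apply, ih, Rm_apply, mul_assoc, ← pow_succ]

theorem Lm_nil {a : Matrix ι ι ℂ} (h : IsNilpotent a) : IsNilpotent (Lm a) := by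
  obtain ⟨k, hk⟩ := h
  refine ⟨k, LinearMap.ext fun Y => ?_⟩
  rw [Lm_pow, hk, zero_mul]; rfl

theorem Rm_nil {a : Matrix ι ι ℂ} (h : IsNilpotent a) : IsNilpotent (Rm a) := by
  obtain ⟨k, hk⟩ := h
  refine ⟨k, LinearMap.ext fun Y => ?_⟩
  rw [Rm_pow, hk, mul_zero]; rfl

/-- The key computation: `u = diag(α) (1 + N)`. -/
theorem diag_of_gen (α : ι → ℂˣ) (N : Matrix ι ι ℂ) (hN : IsNilpotent N)
    (hc : Matrix.diagonal (fun i => (α i).val) * N = N * Matrix.diagonal (fun i => (α i).val))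
    (β : ℂ) (Y : Matrix ι ι ℂ) (k : ℕ)
    (hY : ((Lm (Matrix.diagonal (fun i => (α i).val) * (1 + N)) -
      β • Rm (Matrix.diagonal (fun i => (α i).val) * (1 + N)) : Module.End ℂ (Matrix ι ι ℂ)) ^ k) Y = 0) :
    ∀ i j, Y i j ≠ 0 → (α i).val = β * (α j).val := by
  set Dg := Matrix.diagonal (fun i => (α i).val) with hDg
  have hDN : Dg * (Dg * N) = (Dg * N) * Dg := by rw [mul_assoc, hc]
  set B : Module.End ℂ (Matrix ι ι ℂ) := Lm (Dg * N) - β • Rm (Dg * N) with hB
  set T1 : Module.End ℂ (Matrix ι ι ℂ) := Lm Dg - β • Rm Dg with hT1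
  have hU : Lm (Dg * (1 + N)) - β • Rm (Dg * (1 + N)) = T1 + B := by
    refine LinearMap.ext fun Z => ?_
    simp only [hT1, hB, LinearMap.sub_apply, LinearMap.add_apply, LinearMap.smul_apply, Lm_apply,
      Rm_apply, mul_add, add_mul, mul_one, smul_add]
    abel
  have hDNnil : IsNilpotent (Dg * N) := by
    have : Commute Dg N := hc
    exact this.isNilpotent_mul_left hN
  have hBnil : IsNilpotent B := by
    refine Commute.isNilpotent_sub ?_ (Lm_nil hDNnil) ((Rm_nil hDNnil).smul β)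
    exact (Lm_Rm _ _).smul_right β
  have hcomm : Commute T1 B := by
    have h1 : Commute (Lm Dg) (Lm (Dg * N)) := Lm_Lm hDN
    have h2 : Commute (Rm Dg) (Rm (Dg * N)) := Rm_Rm hDN
    have h3 : Commute (Lm Dg) (Rm (Dg * N)) := Lm_Rm _ _
    have h4 : Commute (Rm Dg) (Lm (Dg * N)) := (Lm_Rm _ _).symm
    rw [hT1, hB]
    exact (((h1.sub_right (h3.smul_right β)).sub_left
      ((h4.sub_right (h2.smul_right β)).smul_left β)))
  obtain ⟨m, hm⟩ := hBnil
  rw [hU] at hY
  have h5 : (((T1 + B) - B) ^ (k + m)) Y = 0 := by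
    refine pow_sub_apply ?_ hY hm
    exact hcomm.add_left (Commute.refl B)
  rw [add_sub_cancel_right] at h5
  have h6 : ∀ (K : ℕ) (Z : Matrix ι ι ℂ) (i j : ι), ((T1 ^ K) Z) i j =
      ((α i).val - β * (α j).val) ^ K * Z i j := by
    intro K
    induction K with
    | zero => intro Z i j; simp
    | succ K ih =>
      intro Z i j
      rw [pow_succ, Module.End.mul_apply, ih]
      have : (T1 Z) i j = ((α i).val - β * (α j).val) * Z i j := by
        simp only [hT1, hDg, LinearMap.sub_apply, LinearMap.smul_apply, Lm_apply, Rm_apply,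
          Matrix.sub_apply, Matrix.smul_apply, Matrix.diagonal_mul, Matrix.mul_diagonal, smul_eq_mul]
        ring
      rw [this]
      ring
  intro i j hij
  have h7 := h6 (k + m) Y i j
  rw [h5] at h7
  have h8 : ((α i).val - β * (α j).val) ^ (k + m) * Y i j = 0 := by
    rw [← h7]; rfl
  rcases mul_eq_zero.1 h8 with h | h
  · exact sub_eq_zero.1 (by_contra fun h0 => pow_ne_zero _ h0 h)
  · exact absurd h hij

end ops

section expo

attribute [local instance] Matrix.linftyOpNormedAddCommGroup Matrix.linftyOpNormedRing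
  Matrix.linftyOpNormedAlgebra

theorem exp_mul_exp_neg {ι : Type} [Fintype ι] [DecidableEq ι] (X : Matrix ι ι ℂ) :
    NormedSpace.exp X * NormedSpace.exp (-X) = 1 ∧ NormedSpace.exp (-X) * NormedSpace.exp X = 1 := by
  have h1 : IsUnit (NormedSpace.exp X) := Matrix.isUnit_exp X
  have h2 : IsUnit (NormedSpace.exp X).det := (Matrix.isUnit_iff_isUnit_det _).1 h1
  rw [Matrix.exp_neg]
  exact ⟨Matrix.mul_nonsing_inv _ h2, Matrix.nonsing_inv_mul _ h2⟩

theorem exp_intertwine {ι κ : Type} [Fintype ι] [DecidableEq ι] [Fintype κ] [DecidableEq κ]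
    (C : (κ → ℂ) →ₗ[ℂ] Matrix ι ι ℂ) (X : Matrix ι ι ℂ) (a : Matrix κ κ ℂ)
    (h : ∀ v, X * C v - C v * X = C (a *ᵥ v)) (v : κ → ℂ) :
    NormedSpace.exp X * C v = C (NormedSpace.exp a *ᵥ v) * NormedSpace.exp X := by
  let Φ : Matrix κ κ ℂ →ₗ[ℝ] Matrix ι ι ℂ :=
    { toFun := fun m => C (m *ᵥ v)
      map_add' := by
        intro m m'
        rw [Matrix.add_mulVec, map_add]
      map_smul' := by
        intro c m
        have h1 : (c • m) *ᵥ v = (c : ℂ) • (m *ᵥ v) := by
          have : (c • m) = (c : ℂ) • m := by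
            ext i j
            simp
          rw [this, Matrix.smul_mulVec]
        rw [h1, map_smul]
        ext i j
        simp }
  let f : ℝ → Matrix ι ι ℂ := fun s =>
    NormedSpace.exp (s • (-X)) * C (NormedSpace.exp (s • a) *ᵥ v) * NormedSpace.exp (s • X)
  have hd : ∀ s, HasDerivAt f 0 s := by
    intro s
    have h1 := hasDerivAt_exp_smul_const' (𝕂 := ℝ) X s
    have h2 := hasDerivAt_exp_smul_const (𝕂 := ℝ) (-X) s
    have h3 := hasDerivAt_exp_smul_const' (𝕂 := ℝ) a s
    have h4' := (Φ.toContinuousLinearMap.hasFDerivAt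
      (x := NormedSpace.exp (s • a))).comp_hasDerivAt s h3
    have h4 : HasDerivAt (fun s : ℝ => C (NormedSpace.exp (s • a) *ᵥ v))
        (C ((a * NormedSpace.exp (s • a)) *ᵥ v)) s := h4'
    have h5 := (h2.fun_mul h4).fun_mul h1
    refine h5.congr_deriv ?_
    have h6 := h (NormedSpace.exp (s • a) *ᵥ v)
    rw [Matrix.mulVec_mulVec] at h6
    rw [← h6]
    noncomm_ring
  have hc : f 1 = f 0 := is_const_of_deriv_eq_zero (fun s => (hd s).differentiableAt)
    (fun s => (hd s).deriv) 1 0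
  have h0 : f 0 = C v := by
    simp only [f, zero_smul, NormedSpace.exp_zero, Matrix.one_mulVec, one_mul, mul_one]
  have h1 : f 1 = NormedSpace.exp (-X) * C (NormedSpace.exp a *ᵥ v) * NormedSpace.exp X := by
    simp only [f, one_smul]
  rw [h0, h1] at hc
  rw [← hc]
  have h2 := (exp_mul_exp_neg X).1
  calc NormedSpace.exp X * (NormedSpace.exp (-X) * C (NormedSpace.exp a *ᵥ v) * NormedSpace.exp X)
      = (NormedSpace.exp X * NormedSpace.exp (-X)) * C (NormedSpace.exp a *ᵥ v) *
        NormedSpace.exp X := by simp only [mul_assoc]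
    _ = _ := by rw [h2, one_mul]

theorem exp_ofReal {κ : Type} [Fintype κ] [DecidableEq κ] (a : Matrix κ κ ℝ) :
    (NormedSpace.exp a).map Complex.ofReal = NormedSpace.exp (a.map Complex.ofReal) := by
  have hcont : Continuous (Complex.ofRealHom.mapMatrix : Matrix κ κ ℝ →+* Matrix κ κ ℂ) := by
    refine continuous_pi fun i => continuous_pi fun j => ?_
    exact Complex.continuous_ofReal.comp (continuous_apply_apply i j)
  exact NormedSpace.map_exp (Complex.ofRealHom.mapMatrix : Matrix κ κ ℝ →+* Matrix κ κ ℂ) hcont a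

end expo

section clifford

variable {g n : ℕ} {A : AbVar g} (K : KSat A n)

/-- The Clifford map as a linear map. -/
def clL : (Fin n → ℂ) →ₗ[ℂ] Matrix (Idx g) (Idx g) ℂ where
  toFun := K.cl
  map_add' := by
    intro v w
    simp only [KSat.cl, Pi.add_apply, add_smul, Finset.sum_add_distrib]
  map_smul' := by
    intro c v
    simp only [KSat.cl, Pi.smul_apply, smul_eq_mul, mul_smul, Finset.smul_sum, RingHom.id_apply]

theorem clL_apply (v : Fin n → ℂ) : clL K v = K.cl v := rfl

theorem mem_TC_iff (Y : Matrix (Idx g) (Idx g) ℂ) : Y ∈ K.TC ↔ ∃ w, K.cl w = Y := by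
  unfold KSat.TC
  rw [Submodule.mem_span_range_iff_exists_fun]
  rfl

theorem exists_mat (X : Matrix (Idx g) (Idx g) ℂ) (hX : ∀ Y ∈ K.TC, X * Y - Y * X ∈ K.TC) :
    ∃ b : Matrix (Fin n) (Fin n) ℂ, ∀ v, X * K.cl v - K.cl v * X = K.cl (b *ᵥ v) := by
  have h1 : ∀ i : Fin n, ∃ w, K.cl w = X * K.cl (Pi.single i 1) - K.cl (Pi.single i 1) * X := by
    intro i
    exact (mem_TC_iff K _).1 (hX _ ((mem_TC_iff K _).2 ⟨_, rfl⟩))
  choose w hw using h1
  refine ⟨Matrix.of fun i j => w j i, fun v => ?_⟩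
  let F : (Fin n → ℂ) →ₗ[ℂ] Matrix (Idx g) (Idx g) ℂ := (Lm X - Rm X).comp (clL K)
  let G : (Fin n → ℂ) →ₗ[ℂ] Matrix (Idx g) (Idx g) ℂ :=
    (clL K).comp (Matrix.toLin' (Matrix.of fun i j => w j i))
  have hFG : F = G := by
    refine LinearMap.pi_ext' fun i => LinearMap.ext_ring ?_
    simp only [F, G, LinearMap.comp_apply, LinearMap.sub_apply, Lm_apply, Rm_apply,
      LinearMap.single_apply, Matrix.toLin'_apply, clL_apply, Matrix.mulVec_single_one]
    rw [← hw i]
    congr 1
  have := congrArg (fun H : (Fin n → ℂ) →ₗ[ℂ] Matrix (Idx g) (Idx g) ℂ => H v) hFG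
  simpa only [F, G, LinearMap.comp_apply, LinearMap.sub_apply, Lm_apply, Rm_apply,
    Matrix.toLin'_apply, clL_apply] using this

theorem lift_list (hK3 : Stmt_K3) (as : List (Matrix (Fin n) (Fin n) ℝ))
    (has : ∀ a ∈ as, K.lie a) :
    ∃ (x : GL (Idx g) ℂ) (ν : ℂˣ), (∀ (t : TData) (D : Submodule ℂ (TIdx t (Idx g) → ℂ)),
      StabG (Gam A) t D → D.map (TAct t x.val ν.val) ≤ D) ∧
      ∀ v, x.val * K.cl v =
        K.cl (((as.map fun a => NormedSpace.exp a).prod.map Complex.ofReal) *ᵥ v) * x.val := by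
  induction as with
  | nil =>
    refine ⟨1, 1, fun t D _ => ?_, fun v => ?_⟩
    · rw [Units.val_one, Units.val_one, TAct_one, Submodule.map_id]
    · have h1 : ((List.map (fun a : Matrix (Fin n) (Fin n) ℝ => NormedSpace.exp a) []).prod.map
          Complex.ofReal) = (1 : Matrix (Fin n) (Fin n) ℂ) := by
        rw [List.map_nil, List.prod_nil]
        exact Matrix.map_one _ Complex.ofReal_zero Complex.ofReal_one
      rw [h1, Matrix.one_mulVec, Units.val_one, one_mul, mul_one]
  | cons a as ih =>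
    obtain ⟨x, ν, h1, h2⟩ := ih fun b hb => has b (List.mem_cons_of_mem _ hb)
    obtain ⟨X, ξ, hX, hXa⟩ := has a List.mem_cons_self
    let e : GL (Idx g) ℂ := ⟨NormedSpace.exp X, NormedSpace.exp (-X), (exp_mul_exp_neg X).1,
      (exp_mul_exp_neg X).2⟩
    let ε : ℂˣ := Units.mk0 (Complex.exp ξ) (Complex.exp_ne_zero ξ)
    refine ⟨e * x, ε * ν, fun t D hD => ?_, fun v => ?_⟩
    · rw [Units.val_mul, Units.val_mul, TAct_comp, Submodule.map_comp]
      refine le_trans (Submodule.map_mono (h1 t D hD)) ?_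
      exact hK3 (Idx g) t X ξ D (hX t D hD)
    · have h3 := exp_intertwine (clL K) X (a.map Complex.ofReal) (fun w => hXa w)
        (((as.map fun a => NormedSpace.exp a).prod.map Complex.ofReal) *ᵥ v)
      rw [clL_apply, clL_apply, Matrix.mulVec_mulVec, ← exp_ofReal] at h3
      have h4 : ((List.map (fun a : Matrix (Fin n) (Fin n) ℝ => NormedSpace.exp a)
          (a :: as)).prod.map Complex.ofReal) = ((NormedSpace.exp a).map Complex.ofReal) *
          ((as.map fun a => NormedSpace.exp a).prod.map Complex.ofReal) := by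
        rw [List.map_cons, List.prod_cons]
        exact Matrix.map_mul (f := Complex.ofRealHom)
      rw [h4, Units.val_mul]
      have h5 : e.val = NormedSpace.exp X := rfl
      rw [h5, mul_assoc, h2 v, ← mul_assoc, h3, mul_assoc]

end clifford

/-- The logarithm of the absolute value. -/
def logAbs : Additive ℂˣ →+ ℂ where
  toFun z := ((Real.log ‖(Additive.toMul z).val‖ : ℝ) : ℂ)
  map_zero' := by simp
  map_add' := by
    intro z w
    rw [toMul_add, Units.val_mul, norm_mul, Real.log_mul (norm_ne_zero_iff.2 (Units.ne_zero _))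
      (norm_ne_zero_iff.2 (Units.ne_zero _)), Complex.ofReal_add]

theorem logAbs_apply (z : ℂˣ) : logAbs (Additive.ofMul z) = ((Real.log ‖z.val‖ : ℝ) : ℂ) := rfl

/-- Complex conjugation of matrices. -/
def cj {n : ℕ} : Matrix (Fin n) (Fin n) ℂ →+* Matrix (Fin n) (Fin n) ℂ := (starRingEnd ℂ).mapMatrix

theorem cj_apply {n : ℕ} (b : Matrix (Fin n) (Fin n) ℂ) (i j : Fin n) :
    cj b i j = (starRingEnd ℂ) (b i j) := rfl

theorem cj_mulVec {n : ℕ} (b : Matrix (Fin n) (Fin n) ℂ) (v : Fin n → ℂ) :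
    cj b *ᵥ (fun i => (starRingEnd ℂ) (v i)) = fun i => (starRingEnd ℂ) ((b *ᵥ v) i) := by
  funext i
  simp only [Matrix.mulVec, dotProduct, cj_apply, map_sum, map_mul]

end K8X

open K8X in
/-- K8A. -/
theorem K8a_proof (hK1 : Stmt_K1) (hK2d : Stmt_K2d) (hK3 : Stmt_K3) (hK5a : Stmt_K5a) :
    Stmt_K8a := by
  intro g A n K as has
  obtain ⟨x, ν, hst, hx⟩ := lift_list K hK3 as has
  set G : Matrix (Fin n) (Fin n) ℂ :=
    (as.map fun a => NormedSpace.exp a).prod.map Complex.ofReal with hG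
  obtain ⟨S, α, N, M, hN, hcomm, hxe, _, hstab⟩ := hK1 (Idx g) x
  set Dg : Matrix (Idx g) (Idx g) ℂ := Matrix.diagonal (fun i => (α i).val) with hDg
  set u : Matrix (Idx g) (Idx g) ℂ := Dg * (1 + N) with hu
  set lg : Matrix (Idx g) (Idx g) ℂ :=
    Matrix.diagonal (fun i => logAbs (Additive.ofMul (α i))) with hlg
  set Xh : Matrix (Idx g) (Idx g) ℂ := S.val * lg * (S⁻¹).val with hXh
  have hLie : InLie (Gam A) Xh (logAbs (Additive.ofMul ν)) := by
    intro t D hD
    exact (hstab ν t D (hst t D hD)).1 logAbs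
  obtain ⟨b, hb⟩ := exists_mat K Xh ((hK2d g A n K).2 Xh _ hLie)
  have hinj := (hK5a g A n K).2.1
  have hSS : (S⁻¹).val * S.val = 1 := by rw [← Units.val_mul]; simp
  have hSS' : S.val * (S⁻¹).val = 1 := by rw [← Units.val_mul]; simp
  -- the conjugated Clifford map
  let Y : (Fin n → ℂ) → Matrix (Idx g) (Idx g) ℂ := fun v => (S⁻¹).val * K.cl v * S.val
  have hYu : ∀ v, u * Y v = Y (G *ᵥ v) * u := by
    intro v
    have h1 := hx v
    have hxe' : x.val = S.val * u * (S⁻¹).val := by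
      rw [hxe, hu]
      simp only [mul_assoc]
    rw [hxe'] at h1
    calc u * Y v = (S⁻¹).val * S.val * u * ((S⁻¹).val * K.cl v * S.val) := by rw [hSS, one_mul]
      _ = (S⁻¹).val * (S.val * u * (S⁻¹).val * K.cl v) * S.val := by simp only [mul_assoc]
      _ = (S⁻¹).val * (K.cl (G *ᵥ v) * (S.val * u * (S⁻¹).val)) * S.val := by rw [h1]
      _ = (S⁻¹).val * K.cl (G *ᵥ v) * S.val * u * ((S⁻¹).val * S.val) := by simp only [mul_assoc]
      _ = Y (G *ᵥ v) * u := by rw [hSS, mul_one]
  have hYsub : ∀ (c : ℂ) (v w : Fin n → ℂ), Y (v - c • w) = Y v - c • Y w := by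
    intro c v w
    have h1 : K.cl (v - c • w) = K.cl v - c • K.cl w := by
      rw [← clL_apply, map_sub, map_smul]; rfl
    simp only [Y, h1, mul_sub, sub_mul, mul_smul_comm, smul_mul_assoc]
  have hgen : ∀ (β : ℂ) (k : ℕ) (v : Fin n → ℂ),
      (((Lm u - β • Rm u : Module.End ℂ (Matrix (Idx g) (Idx g) ℂ)) ^ k) (Y v)) =
        Y (((G - β • (1 : Matrix (Fin n) (Fin n) ℂ)) ^ k) *ᵥ v) * u ^ k := by
    intro β k
    induction k with
    | zero => intro v; simp
    | succ k ih =>
      intro v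
      have h1 : (Lm u - β • Rm u : Module.End ℂ (Matrix (Idx g) (Idx g) ℂ)) (Y v) =
          Rm u (Y ((G - β • (1 : Matrix (Fin n) (Fin n) ℂ)) *ᵥ v)) := by
        rw [LinearMap.sub_apply, LinearMap.smul_apply, Lm_apply, Rm_apply, Rm_apply, hYu,
          Matrix.sub_mulVec, Matrix.smul_mulVec, Matrix.one_mulVec, hYsub, sub_mul, smul_mul_assoc]
      have h2 : Commute ((Lm u - β • Rm u : Module.End ℂ (Matrix (Idx g) (Idx g) ℂ)) ^ k) (Rm u) := by
        refine Commute.pow_left ?_ k
        exact (Lm_Rm u u).sub_left ((Commute.refl _).smul_left β)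
      rw [pow_succ, Module.End.mul_apply, h1]
      have h3 := congrArg (fun F : Module.End ℂ (Matrix (Idx g) (Idx g) ℂ) =>
        F (Y ((G - β • (1 : Matrix (Fin n) (Fin n) ℂ)) *ᵥ v))) h2.eq
      simp only [Module.End.mul_apply] at h3
      rw [h3, ih, Rm_apply, Matrix.mulVec_mulVec, ← pow_succ, mul_assoc, ← pow_succ]
  have hkey : ∀ (β : ℂ) (v : Fin n → ℂ),
      (∃ k : ℕ, ((G - β • (1 : Matrix (Fin n) (Fin n) ℂ)) ^ k) *ᵥ v = 0) →
      b *ᵥ v = (Real.log ‖β‖ : ℂ) • v := by
    rintro β v ⟨k, hk⟩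
    have h1 := hgen β k v
    have hY0 : Y 0 = 0 := by
      have : K.cl 0 = 0 := by rw [← clL_apply, map_zero]
      simp only [Y, this, mul_zero, zero_mul]
    rw [hk, hY0, zero_mul] at h1
    have h2 := diag_of_gen α N hN hcomm β (Y v) k h1
    have h3 : lg * Y v - Y v * lg = (Real.log ‖β‖ : ℂ) • Y v := by
      ext i j
      rw [Matrix.sub_apply, hlg, Matrix.diagonal_mul, Matrix.mul_diagonal, Matrix.smul_apply,
        smul_eq_mul, logAbs_apply, logAbs_apply]
      by_cases hij : Y v i j = 0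
      · rw [hij]; ring
      · have h4 := h2 i j hij
        have hβ : β ≠ 0 := by
          intro h0
          rw [h0, zero_mul] at h4
          exact (α i).ne_zero h4
        have h5 : Real.log ‖(α i).val‖ = Real.log ‖β‖ + Real.log ‖(α j).val‖ := by
          rw [h4, norm_mul, Real.log_mul (norm_ne_zero_iff.2 hβ)
            (norm_ne_zero_iff.2 (Units.ne_zero _))]
        rw [h5, Complex.ofReal_add]
        ring
    have h6 : K.cl (b *ᵥ v) = K.cl ((Real.log ‖β‖ : ℂ) • v) := by
      rw [← hb v]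
      have h7 : K.cl ((Real.log ‖β‖ : ℂ) • v) = (Real.log ‖β‖ : ℂ) • K.cl v := by
        rw [← clL_apply, map_smul]; rfl
      have h8 : K.cl v = S.val * Y v * (S⁻¹).val := by
        calc K.cl v = (S.val * (S⁻¹).val) * K.cl v * (S.val * (S⁻¹).val) := by
              rw [hSS', one_mul, mul_one]
          _ = S.val * Y v * (S⁻¹).val := by simp only [Y, mul_assoc]
      rw [h7, h8]
      calc Xh * (S.val * Y v * (S⁻¹).val) - S.val * Y v * (S⁻¹).val * Xh
          = S.val * lg * ((S⁻¹).val * S.val) * Y v * (S⁻¹).val -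
            S.val * Y v * ((S⁻¹).val * S.val) * lg * (S⁻¹).val := by
            rw [hXh]; simp only [mul_assoc]
        _ = S.val * (lg * Y v - Y v * lg) * (S⁻¹).val := by
            rw [hSS, mul_one, mul_one, mul_sub, sub_mul]; simp only [mul_assoc]
        _ = _ := by rw [h3, mul_smul_comm, smul_mul_assoc]
    have h9 : K.cl (b *ᵥ v - (Real.log ‖β‖ : ℂ) • v) = 0 := by
      rw [← clL_apply, map_sub, clL_apply, clL_apply, h6, sub_self]
    exact sub_eq_zero.1 (hinj _ h9)
  -- the matrix is real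
  have hGreal : cj G = G := by
    ext i j
    rw [cj_apply, hG, Matrix.map_apply, Complex.conj_ofReal]
  have hreal : cj b = b := by
    have h1 : (⊤ : Submodule ℂ (Fin n → ℂ)) ≤
        LinearMap.eqLocus (Matrix.toLin' (cj b)) (Matrix.toLin' b) := by
      rw [← Module.End.iSup_maxGenEigenspace_eq_top (Matrix.toLin' G)]
      refine iSup_le fun β v hv => ?_
      rw [Module.End.mem_maxGenEigenspace] at hv
      obtain ⟨k, hk⟩ := hv
      have h2 : ((G - β • (1 : Matrix (Fin n) (Fin n) ℂ)) ^ k) *ᵥ v = 0 := by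
        have h3 : (Matrix.toLin' G - β • (1 : Module.End ℂ (Fin n → ℂ))) ^ k =
            Matrix.toLin' ((G - β • (1 : Matrix (Fin n) (Fin n) ℂ)) ^ k) := by
          rw [Matrix.toLin'_pow, map_sub, map_smul, Matrix.toLin'_one]
          rfl
        rw [h3, Matrix.toLin'_apply] at hk
        exact hk
      have h4 := hkey β v ⟨k, h2⟩
      have h5 : ((G - (starRingEnd ℂ) β • (1 : Matrix (Fin n) (Fin n) ℂ)) ^ k) *ᵥ
          (fun i => (starRingEnd ℂ) (v i)) = 0 := by
        have h6 : cj ((G - β • (1 : Matrix (Fin n) (Fin n) ℂ)) ^ k) =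
            (G - (starRingEnd ℂ) β • (1 : Matrix (Fin n) (Fin n) ℂ)) ^ k := by
          rw [map_pow, map_sub, hGreal]
          congr 2
          ext i j
          simp only [cj_apply, Matrix.smul_apply, smul_eq_mul, map_mul, Matrix.one_apply]
          split_ifs <;> simp
        rw [← h6, cj_mulVec, h2]
        funext i
        simp
      have h7 := hkey _ _ ⟨k, h5⟩
      show Matrix.toLin' (cj b) v = Matrix.toLin' b v
      rw [Matrix.toLin'_apply, Matrix.toLin'_apply, h4]
      have h8 : v = fun i => (starRingEnd ℂ) ((fun i => (starRingEnd ℂ) (v i)) i) := by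
        funext i; simp
      conv_lhs => rw [h8]
      rw [cj_mulVec, h7]
      funext i
      simp
    have h2 : Matrix.toLin' (cj b) = Matrix.toLin' b := LinearMap.ext fun v => h1 Submodule.mem_top
    exact Matrix.toLin'.injective h2
  have hre : (b.map Complex.re).map Complex.ofReal = b := by
    ext i j
    have h1 : (starRingEnd ℂ) (b i j) = b i j := by
      rw [← cj_apply, hreal]
    rw [Matrix.map_apply, Matrix.map_apply]
    exact Complex.conj_eq_iff_re.1 h1
  refine ⟨b.map Complex.re, ⟨Xh, _, hLie, fun v => ?_⟩, fun β v hv => ?_⟩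
  · rw [hre]; exact hb v
  · rw [hre]; exact hkey β v hv

end

end Pool.Agent.K3D
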