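import Mathlib

/-!
# K1a, K1c: Jordan decomposition of an invertible matrix; the commutant of the logarithm
-/

open scoped BigOperators
open Matrix Module

namespace Pool.Agent.K3D

namespace K1a

noncomputable section

variable {ι : Type} [Fintype ι]

/-- A semisimple endomorphism of `ℂ^ι` has a basis of eigenvectors, indexed by `ι`. -/
theorem exists_eigenbasis (s : End ℂ (ι → ℂ)) (hs : s.IsSemisimple) :
    ∃ (b : Basis ι ℂ (ι → ℂ)) (a : ι → ℂ), ∀ i, s (b i) = a i • b i := by
  classical
  have hE : ∀ μ : ℂ, s.maxGenEigenspace μ = s.eigenspace μ := fun μ =>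
    hs.isFinitelySemisimple.maxGenEigenspace_eq_eigenspace μ
  have htop : ⨆ μ : ℂ, s.eigenspace μ = ⊤ := by
    have := Module.End.iSup_maxGenEigenspace_eq_top s
    simpa only [hE] using this
  have hint : DirectSum.IsInternal (fun μ : ℂ => s.eigenspace μ) :=
    DirectSum.isInternal_submodule_of_iSupIndep_of_iSup_eq_top
      (Module.End.eigenspaces_iSupIndep s) htop
  let v : ∀ μ : ℂ, Basis (Fin (finrank ℂ (s.eigenspace μ))) ℂ (s.eigenspace μ) :=
    fun μ => Module.finBasis ℂ _
  let B := hint.collectedBasis v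
  let e := B.indexEquiv (Pi.basisFun ℂ ι)
  refine ⟨B.reindex e, fun i => (e.symm i).1, fun i => ?_⟩
  have hmem : B (e.symm i) ∈ s.eigenspace (e.symm i).1 := hint.collectedBasis_mem v _
  rw [Basis.reindex_apply]
  exact Module.End.mem_eigenspace_iff.mp hmem

variable [DecidableEq ι]

/-- Jordan decomposition of an invertible matrix. -/
theorem jordan (x : GL ι ℂ) :
    ∃ (S : GL ι ℂ) (α : ι → ℂˣ) (N : Matrix ι ι ℂ), IsNilpotent N ∧
      Matrix.diagonal (fun i => (α i).val) * N = N * Matrix.diagonal (fun i => (α i).val) ∧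
      x.val = S.val * Matrix.diagonal (fun i => (α i).val) * (1 + N) * (S⁻¹).val := by
  classical
  obtain ⟨n, hn, s, hs, hnil, hss, hf⟩ :=
    Module.End.exists_isNilpotent_isSemisimple (f := (Matrix.toLin' x.val : End ℂ (ι → ℂ)))
  have hcomm : Commute n s := by
    have h1 : Commute s (Matrix.toLin' x.val : End ℂ (ι → ℂ)) :=
      (Algebra.commute_of_mem_adjoin_self hs).symm
    exact (Algebra.commute_of_mem_adjoin_singleton_of_commute hn h1).symm
  obtain ⟨b, a, hb⟩ := exists_eigenbasis s hss
  -- `s` is injective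
  have hfu : IsUnit (Matrix.toLin' x.val : End ℂ (ι → ℂ)) := by
    have := x.isUnit.map (Matrix.toLinAlgEquiv' (R := ℂ) (n := ι)).toRingEquiv.toRingHom
    exact this
  have hsu : IsUnit s := by
    have h2 : s = (Matrix.toLin' x.val : End ℂ (ι → ℂ)) + -n := by rw [hf]; abel
    have h3 : Commute n (Matrix.toLin' x.val : End ℂ (ι → ℂ)) := by
      rw [hf]; exact (Commute.refl n).add_right hcomm
    rw [h2]
    exact hnil.neg.isUnit_add_left_of_commute hfu h3.neg_left
  have hsinj : Function.Injective s := by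
    obtain ⟨u, hu⟩ := hsu
    intro v w hvw
    have h4 : (u⁻¹.val * u.val) v = (u⁻¹.val * u.val) w := by
      rw [Module.End.mul_apply, Module.End.mul_apply, hu, hvw]
    simpa using h4
  have ha : ∀ i, a i ≠ 0 := by
    intro i hi
    have h5 : s (b i) = s 0 := by rw [hb, hi, zero_smul, map_zero]
    exact b.ne_zero i (hsinj h5)
  -- matrices
  let S : Matrix ι ι ℂ := (Pi.basisFun ℂ ι).toMatrix b
  let As : Matrix ι ι ℂ := LinearMap.toMatrix' s
  let An : Matrix ι ι ℂ := LinearMap.toMatrix' n
  let Da : Matrix ι ι ℂ := Matrix.diagonal a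
  let Di : Matrix ι ι ℂ := Matrix.diagonal fun i => (a i)⁻¹
  have hx : x.val = An + As := by
    have : LinearMap.toMatrix' (Matrix.toLin' x.val) = LinearMap.toMatrix' (n + s) := by rw [hf]
    rw [LinearMap.toMatrix'_toLin', map_add] at this
    exact this
  have hnn : IsNilpotent An := by
    have := hnil.map (LinearMap.toMatrixAlgEquiv' (R := ℂ) (n := ι)).toRingEquiv.toRingHom
    exact this
  have hAA : An * As = As * An := by
    have h6 : LinearMap.toMatrix' (n * s) = LinearMap.toMatrix' (s * n) := by rw [hcomm.eq]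
    rw [LinearMap.toMatrix'_mul, LinearMap.toMatrix'_mul] at h6
    exact h6
  have hSdet : IsUnit S.det := by
    have : Invertible S := Basis.invertibleToMatrix (Pi.basisFun ℂ ι) b
    exact Matrix.isUnit_det_of_invertible S
  have hAS : As * S = S * Da := by
    ext i j
    have h7 : (As *ᵥ (b j)) i = a j * b j i := by
      have h8 : As *ᵥ (b j) = s (b j) := by
        rw [← Matrix.toLin'_apply, Matrix.toLin'_toMatrix']
      rw [h8, hb]; rfl
    have h9 : (As * S) i j = (As *ᵥ (b j)) i := rfl
    rw [h9, h7, Matrix.mul_diagonal]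
    change a j * b j i = b j i * a j
    ring
  have hDD : Da * Di = 1 := by
    rw [Matrix.diagonal_mul_diagonal, ← Matrix.diagonal_one]
    congr 1; funext i; exact mul_inv_cancel₀ (ha i)
  have hDD' : Di * Da = 1 := by
    rw [Matrix.diagonal_mul_diagonal, ← Matrix.diagonal_one]
    congr 1; funext i; exact inv_mul_cancel₀ (ha i)
  have hS1 : S * S⁻¹ = 1 := Matrix.mul_nonsing_inv S hSdet
  have hS2 : S⁻¹ * S = 1 := Matrix.nonsing_inv_mul S hSdet
  let P : Matrix ι ι ℂ := S⁻¹ * An * S
  have hAs : As = S * Da * S⁻¹ := by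
    calc As = As * (S * S⁻¹) := by rw [hS1, mul_one]
      _ = S * Da * S⁻¹ := by rw [← mul_assoc, hAS]
  have hDa : Da = S⁻¹ * As * S := by
    rw [mul_assoc, hAS, ← mul_assoc, hS2, one_mul]
  have hPD : P * Da = Da * P := by
    rw [hDa]
    calc S⁻¹ * An * S * (S⁻¹ * As * S) = S⁻¹ * An * (S * S⁻¹) * As * S := by
          simp only [mul_assoc]
      _ = S⁻¹ * (An * As) * S := by rw [hS1]; simp only [mul_assoc, mul_one]
      _ = S⁻¹ * (As * An) * S := by rw [hAA]
      _ = S⁻¹ * As * (S * S⁻¹) * An * S := by rw [hS1]; simp only [mul_assoc, mul_one]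
      _ = S⁻¹ * As * S * (S⁻¹ * An * S) := by simp only [mul_assoc]
  have hPDi : P * Di = Di * P := by
    calc P * Di = (Di * Da) * (P * Di) := by rw [hDD', one_mul]
      _ = Di * (Da * P) * Di := by simp only [mul_assoc]
      _ = Di * (P * Da) * Di := by rw [hPD]
      _ = Di * P * (Da * Di) := by simp only [mul_assoc]
      _ = Di * P := by rw [hDD, mul_one]
  have hPnil : IsNilpotent P := by
    obtain ⟨k, hk⟩ := hnn
    refine ⟨k, ?_⟩
    have h10 : ∀ k : ℕ, P ^ k = S⁻¹ * An ^ k * S := by
      intro k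
      induction k with
      | zero => rw [pow_zero, pow_zero, mul_one, hS2]
      | succ k ih =>
        rw [pow_succ, ih, pow_succ]
        calc S⁻¹ * An ^ k * S * (S⁻¹ * An * S) = S⁻¹ * An ^ k * (S * S⁻¹) * An * S := by
              simp only [mul_assoc]
          _ = S⁻¹ * (An ^ k * An) * S := by rw [hS1]; simp only [mul_assoc, mul_one]
    rw [h10, hk, mul_zero, zero_mul]
  refine ⟨Matrix.GeneralLinearGroup.mkOfDetNeZero S hSdet.ne_zero,
    fun i => Units.mk0 (a i) (ha i), Di * P, ?_, ?_, ?_⟩
  · exact (show Commute Di P from hPDi.symm).isNilpotent_mul_left hPnil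
  · change Da * (Di * P) = Di * P * Da
    calc Da * (Di * P) = (Da * Di) * P := (mul_assoc _ _ _).symm
      _ = (Di * Da) * P := by rw [hDD, hDD']
      _ = Di * (Da * P) := mul_assoc _ _ _
      _ = Di * (P * Da) := by rw [hPD]
      _ = Di * P * Da := (mul_assoc _ _ _).symm
  · have hSi : ((Matrix.GeneralLinearGroup.mkOfDetNeZero S hSdet.ne_zero)⁻¹ : GL ι ℂ).val = S⁻¹ := by
      rw [Matrix.coe_units_inv]; rfl
    rw [hSi]
    change x.val = S * Da * (1 + Di * P) * S⁻¹
    calc x.val = An + As := hx
      _ = S * P * S⁻¹ + S * Da * S⁻¹ := by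
          rw [← hAs]
          congr 1
          calc An = (S * S⁻¹) * An * (S * S⁻¹) := by rw [hS1, one_mul, mul_one]
            _ = S * (S⁻¹ * An * S) * S⁻¹ := by simp only [mul_assoc]
      _ = S * Da * (1 + Di * P) * S⁻¹ := by
          rw [mul_add, mul_one, add_mul, add_comm]
          congr 2
          rw [mul_assoc, ← mul_assoc Da, hDD, one_mul]

/-- If `N` is nilpotent and `M = N + N² r(N)` then the commutant of `M` is contained in the commutant
of `N`. -/
theorem commute_of_commute_log {A : Type} [Ring A] [Algebra ℂ A] (N M : A) (hN : IsNilpotent N)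
    (r : Polynomial ℂ) (hM : M = N + N ^ 2 * Polynomial.aeval N r) (Y : A) (hY : Y * M = M * Y) :
    Y * N = N * Y := by
  obtain ⟨d, hd⟩ := hN
  -- `M ^ j = N ^ j + N ^ (j + 1) * q(N)`
  have hpow : ∀ j : ℕ, ∃ q : Polynomial ℂ, M ^ j = N ^ j + N ^ (j + 1) * Polynomial.aeval N q := by
    intro j
    induction j with
    | zero => exact ⟨0, by simp⟩
    | succ j ih =>
      obtain ⟨q, hq⟩ := ih
      refine ⟨r + q + Polynomial.X * q * r, ?_⟩
      have h1 : M ^ (j + 1) = Polynomial.aeval N
          ((Polynomial.X ^ j + Polynomial.X ^ (j + 1) * q) *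
            (Polynomial.X + Polynomial.X ^ 2 * r)) := by
        rw [pow_succ, hq, hM]
        simp
      have h2 : N ^ (j + 1) + N ^ (j + 1 + 1) * Polynomial.aeval N (r + q + Polynomial.X * q * r) =
          Polynomial.aeval N (Polynomial.X ^ (j + 1) +
            Polynomial.X ^ (j + 1 + 1) * (r + q + Polynomial.X * q * r)) := by
        simp
      rw [h1, h2]
      congr 1
      ring
  have hYj : ∀ j : ℕ, Commute Y (M ^ j) := fun j => (show Commute Y M from hY).pow_right j
  -- downward induction
  have main : ∀ m j : ℕ, d ≤ j + m → ∀ p : Polynomial ℂ, Commute Y (N ^ j * Polynomial.aeval N p) := by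
    intro m
    induction m with
    | zero =>
      intro j hj p
      have : N ^ j = 0 := pow_eq_zero_of_le (by omega) hd
      rw [this, zero_mul]
      exact Commute.zero_right Y
    | succ m ih =>
      intro j hj p
      obtain ⟨q, hq⟩ := hpow j
      have h3 : N ^ j * Polynomial.aeval N p =
          p.coeff 0 • M ^ j + N ^ (j + 1) * Polynomial.aeval N (p.divX - Polynomial.C (p.coeff 0) * q) := by
        have h4 : Polynomial.aeval N p =
            Polynomial.aeval N (Polynomial.X * p.divX + Polynomial.C (p.coeff 0)) := by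
          rw [Polynomial.X_mul_divX_add]
        rw [h4, hq]
        simp only [map_add, map_mul, Polynomial.aeval_X, Polynomial.aeval_C, map_sub,
          mul_add, mul_sub, pow_succ, Algebra.smul_def]
        have hc : ∀ z : A, (algebraMap ℂ A (p.coeff 0)) * z = z * algebraMap ℂ A (p.coeff 0) :=
          fun z => Algebra.commutes _ z
        rw [hc (N ^ j), hc (N ^ j * N * _), hc ((Polynomial.aeval N) q)]
        simp only [mul_assoc]
        abel
      rw [h3]
      exact ((hYj j).smul_right _).add_right (ih (j + 1) (by omega) _)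
  have h5 := main d 1 (by omega) 1
  simpa using h5.eq

/-- K1c, for a truncated power series `∑ c_j N^j` with `c_0 = 0`, `c_1 = 1`. -/
theorem commute_of_commute_series {A : Type} [Ring A] [Algebra ℂ A] (N M : A) (d : ℕ)
    (hN : N ^ d = 0) (c : ℕ → ℂ) (h0 : c 0 = 0) (h1 : c 1 = 1)
    (hM : M = ∑ j ∈ Finset.range d, c j • N ^ j) (Y : A) (hY : Y * M = M * Y) :
    Y * N = N * Y := by
  have h2 : ∑ j ∈ Finset.range (d + 2), c j • N ^ j = ∑ j ∈ Finset.range d, c j • N ^ j := by
    rw [Finset.sum_range_succ, Finset.sum_range_succ, pow_succ, hN, zero_mul, smul_zero, smul_zero,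
      add_zero, add_zero]
  refine commute_of_commute_log N M ⟨d, hN⟩
    (∑ j ∈ Finset.range d, Polynomial.C (c (j + 2)) * Polynomial.X ^ j) ?_ Y hY
  rw [hM, ← h2, Finset.sum_range_succ', Finset.sum_range_succ']
  simp only [h0, zero_add, h1, pow_one, one_smul, pow_zero, zero_smul, add_zero, map_sum, map_mul,
    Polynomial.aeval_C, map_pow, Polynomial.aeval_X, Finset.mul_sum]
  rw [add_comm]
  congr 1
  refine Finset.sum_congr rfl fun j _ => ?_
  rw [Algebra.smul_def, ← mul_assoc, ← Algebra.commutes, mul_assoc, ← pow_add]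
  congr 2
  ring

end

end K1a

end Pool.Agent.K3D
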