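import Pool.Agent.DRB.JD

/-!
# K1b: Jordan decomposition in tensor spaces, general nilpotent part
-/

open scoped BigOperators Topology
open Matrix

namespace Pool.Agent.K3D

open Pool.Agent.DRB

namespace K1B

open Polynomial

/-! ### Binomial polynomials -/

/-- The binomial polynomials. -/
noncomputable def bp (r : ℕ) : ℂ[X] := C (((Nat.factorial r : ℕ) : ℂ)⁻¹) * descPochhammer ℂ r

theorem bp_eval (r k : ℕ) : (bp r).eval (k : ℂ) = (k.choose r : ℂ) := by
  unfold bp
  rw [eval_mul, eval_C, descPochhammer_eval_eq_descFactorial, Nat.descFactorial_eq_factorial_mul_choose,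
    Nat.cast_mul, ← mul_assoc, inv_mul_cancel₀, one_mul]
  exact_mod_cast Nat.factorial_ne_zero r

theorem desc_neg_one (r : ℕ) : (descPochhammer ℂ r).eval (-1) = (-1) ^ r * ((Nat.factorial r : ℕ) : ℂ) := by
  induction r with
  | zero => simp
  | succ r ih =>
    rw [descPochhammer_succ_eval, ih, Nat.factorial_succ, pow_succ]
    push_cast
    ring

/-- The coefficients of the logarithm. -/
noncomputable def lc (j : ℕ) : ℂ := (-1) ^ (j + 1) / (j : ℂ)

theorem bp_deriv (r : ℕ) : (derivative (bp r)).eval 0 = lc r := by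
  unfold bp lc
  cases r with
  | zero => simp
  | succ r =>
    rw [derivative_C_mul, eval_mul, eval_C, descPochhammer_succ_left, derivative_mul, derivative_X,
      one_mul, eval_add, eval_mul, eval_X, zero_mul, add_zero, eval_comp, eval_sub, eval_X, eval_one,
      zero_sub, desc_neg_one, Nat.factorial_succ]
    have h1 : ((Nat.factorial r : ℕ) : ℂ) ≠ 0 := by exact_mod_cast Nat.factorial_ne_zero r
    have h2 : ((r : ℂ) + 1) ≠ 0 := by exact_mod_cast Nat.succ_ne_zero r
    push_cast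
    field_simp
    ring

section

variable {ι : Type} [Fintype ι] [DecidableEq ι]

/-- The power of `1 + N` as a matrix of polynomials in the exponent. -/
noncomputable def B (N : Matrix ι ι ℂ) (d : ℕ) (i j : ι) : ℂ[X] :=
  ∑ r ∈ Finset.range d, bp r * C ((N ^ r) i j)

theorem pow_eq (N : Matrix ι ι ℂ) (d : ℕ) (hN : N ^ d = 0) (k : ℕ) :
    (1 + N) ^ k = ∑ r ∈ Finset.range d, (k.choose r : ℂ) • N ^ r := by
  rw [add_comm, (Commute.one_right N).add_pow]
  have h1 : ∀ r, N ^ r * 1 ^ (k - r) * (k.choose r : Matrix ι ι ℂ) = (k.choose r : ℂ) • N ^ r := by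
    intro r
    rw [one_pow, mul_one]
    have : (k.choose r : Matrix ι ι ℂ) = (k.choose r : ℂ) • 1 := by
      rw [← Nat.cast_smul_eq_nsmul ℂ (k.choose r) (1 : Matrix ι ι ℂ) |>.symm]
      simp [nsmul_eq_mul]
    rw [this, Matrix.mul_smul, mul_one]
  rw [Finset.sum_congr rfl fun r _ => h1 r]
  have h2 : ∀ e, k + 1 ≤ e → d ≤ e → (∑ r ∈ Finset.range (k + 1), (k.choose r : ℂ) • N ^ r) =
      ∑ r ∈ Finset.range e, (k.choose r : ℂ) • N ^ r := by
    intro e he _
    refine Finset.sum_subset (Finset.range_mono he) fun r _ hr => ?_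
    rw [Nat.choose_eq_zero_of_lt (by simpa using hr), Nat.cast_zero, zero_smul]
  have h3 : ∀ e, k + 1 ≤ e → d ≤ e → (∑ r ∈ Finset.range d, (k.choose r : ℂ) • N ^ r) =
      ∑ r ∈ Finset.range e, (k.choose r : ℂ) • N ^ r := by
    intro e _ he
    refine Finset.sum_subset (Finset.range_mono he) fun r _ hr => ?_
    have : N ^ r = 0 := pow_eq_zero_of_le (by simpa using hr) hN
    rw [this, smul_zero]
  rw [h2 (max (k + 1) d) (le_max_left _ _) (le_max_right _ _),
    h3 (max (k + 1) d) (le_max_left _ _) (le_max_right _ _)]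

theorem B_eval (N : Matrix ι ι ℂ) (d : ℕ) (hN : N ^ d = 0) (k : ℕ) (i j : ι) :
    (B N d i j).eval (k : ℂ) = ((1 + N) ^ k) i j := by
  rw [pow_eq N d hN k, Matrix.sum_apply]
  unfold B
  rw [eval_finsetSum]
  refine Finset.sum_congr rfl fun r _ => ?_
  rw [eval_mul, eval_C, bp_eval, Matrix.smul_apply, smul_eq_mul]

theorem B_zero (N : Matrix ι ι ℂ) (d : ℕ) (hN : N ^ d = 0) (i j : ι) :
    (B N d i j).eval 0 = if i = j then 1 else 0 := by
  have := B_eval N d hN 0 i j
  rw [Nat.cast_zero, pow_zero, Matrix.one_apply] at this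
  exact this

/-- The logarithm of `1 + N`. -/
noncomputable def logN (N : Matrix ι ι ℂ) (d : ℕ) : Matrix ι ι ℂ :=
  ∑ r ∈ Finset.range d, lc r • N ^ r

theorem B_deriv (N : Matrix ι ι ℂ) (d : ℕ) (i j : ι) :
    (derivative (B N d i j)).eval 0 = logN N d i j := by
  unfold B logN
  rw [derivative_sum, eval_finsetSum, Matrix.sum_apply]
  refine Finset.sum_congr rfl fun r _ => ?_
  rw [derivative_mul, derivative_C, mul_zero, add_zero, eval_mul, eval_C, bp_deriv,
    Matrix.smul_apply, smul_eq_mul]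

variable (t : TData)

/-- The components of `TAct t (B z) 1 u` as polynomials in `z`. -/
noncomputable def PQ (Q : ι → ι → ℂ[X]) (u : TIdx t ι → ℂ) (p : TIdx t ι) : ℂ[X] :=
  ∑ J : Fin (t.a p.1) → ι, (∏ s, Q (p.2 s) (J s)) * C (u ⟨p.1, J⟩)

theorem PQ_eval (Q : ι → ι → ℂ[X]) (u : TIdx t ι → ℂ) (p : TIdx t ι) (z : ℂ) :
    (PQ t Q u p).eval z = TAct t (Matrix.of fun i j => (Q i j).eval z) 1 u p := by
  rw [TAct_apply, _root_.one_zpow, one_mul]
  unfold PQ
  rw [Polynomial.eval_finsetSum]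
  refine Finset.sum_congr rfl fun J _ => ?_
  rw [Polynomial.eval_mul, Polynomial.eval_C, Polynomial.eval_prod]
  rfl

theorem PQ_zero (Q : ι → ι → ℂ[X]) (hQ : ∀ i j, (Q i j).eval 0 = if i = j then 1 else 0)
    (u : TIdx t ι → ℂ) (p : TIdx t ι) : (PQ t Q u p).eval 0 = u p := by
  rw [PQ_eval]
  have : (Matrix.of fun i j => (Q i j).eval 0) = 1 := by
    ext i j
    rw [Matrix.of_apply, hQ, Matrix.one_apply]
  rw [this, TAct_one]
  rfl

theorem PQ_deriv (Q : ι → ι → ℂ[X]) (hQ : ∀ i j, (Q i j).eval 0 = if i = j then 1 else 0)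
    (u : TIdx t ι → ℂ) (p : TIdx t ι) :
    (derivative (PQ t Q u p)).eval 0 =
      DAct t (Matrix.of fun i j => (derivative (Q i j)).eval 0) 0 u p := by
  have hD : DAct t (Matrix.of fun i j => (derivative (Q i j)).eval 0) 0 u p =
      (t.k p.1 : ℂ) * 0 * u p +
    ∑ s : Fin (t.a p.1), ∑ j : ι, (Matrix.of fun i j => (derivative (Q i j)).eval 0) (p.2 s) j *
      u ⟨p.1, Function.update p.2 s j⟩ := rfl
  rw [hD, mul_zero, zero_mul, zero_add]
  unfold PQ
  rw [Polynomial.derivative_sum, Polynomial.eval_finsetSum]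
  have h1 : ∀ J : Fin (t.a p.1) → ι,
      (derivative ((∏ s, Q (p.2 s) (J s)) * C (u ⟨p.1, J⟩))).eval 0
      = ∑ s, (∏ s' ∈ Finset.univ.erase s, (if p.2 s' = J s' then (1 : ℂ) else 0)) *
          ((Matrix.of fun i j => (derivative (Q i j)).eval 0) (p.2 s) (J s) * u ⟨p.1, J⟩) := by
    intro J
    rw [Polynomial.derivative_mul, Polynomial.derivative_C, mul_zero, add_zero,
      Polynomial.derivative_prod_finset, Polynomial.eval_mul, Polynomial.eval_finsetSum,
      Polynomial.eval_C, Finset.sum_mul]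
    refine Finset.sum_congr rfl fun s _ => ?_
    rw [Polynomial.eval_mul, Polynomial.eval_prod, mul_assoc]
    congr 1
    exact Finset.prod_congr rfl fun s' _ => hQ _ _
  simp only [h1]
  rw [Finset.sum_comm]
  refine Finset.sum_congr rfl fun s _ => ?_
  symm
  refine Fintype.sum_of_injective (fun j => Function.update p.2 s j)
    (Function.update_injective p.2 s) _ _ ?_ ?_
  · intro J hJ
    have hs : ∃ s', s' ≠ s ∧ p.2 s' ≠ J s' := by
      by_contra hcon
      push Not at hcon
      apply hJ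
      refine ⟨J s, funext fun s' => ?_⟩
      by_cases h : s' = s
      · subst h
        simp
      · simp only [Function.update_of_ne h]
        exact hcon s' h
    obtain ⟨s', hs', hne⟩ := hs
    rw [Finset.prod_eq_zero (i := s') (by simp [hs']) (if_neg hne), zero_mul]
  · intro j
    rw [Finset.prod_eq_one, one_mul]
    · simp
    · intro s' hs'
      have : s' ≠ s := (Finset.mem_erase.mp hs').1
      rw [Function.update_of_ne this, if_pos rfl]

theorem pow_apply (α : ι → ℂˣ) (N : Matrix ι ι ℂ) (ν : ℂˣ) (d : ℕ) (hN : N ^ d = 0)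
    (hc : Matrix.diagonal (fun i => (α i).val) * N = N * Matrix.diagonal (fun i => (α i).val))
    (k : ℕ) (u : TIdx t ι → ℂ) (p : TIdx t ι) :
    ((TAct t (Matrix.diagonal (fun i => (α i).val) * (1 + N)) ν.val) ^ k) u p
      = ((JDX.bv t α ν p).val) ^ k * (PQ t (B N d) u p).eval (k : ℂ) := by
  have hcomm : Commute (Matrix.diagonal (fun i => (α i).val)) (1 + N) :=
    (Commute.one_right _).add_right hc
  rw [JDX.TAct_pow, hcomm.mul_pow, Matrix.diagonal_pow]
  have h1 : ν.val ^ k = ν.val ^ k * 1 := (mul_one _).symm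
  rw [h1, TAct_comp]
  show TAct t (Matrix.diagonal ((fun i => (α i).val) ^ k)) (ν.val ^ k)
    (TAct t ((1 + N) ^ k) 1 u) p = _
  have h2 : (Matrix.of fun i j => (B N d i j).eval (k : ℂ)) = (1 + N) ^ k := by
    ext i j
    rw [Matrix.of_apply, B_eval N d hN]
  rw [JDX.TAct_diag, PQ_eval, h2]
  congr 1
  unfold JDX.bv
  rw [Units.val_mul, mul_pow, Units.val_zpow_eq_zpow_val, Units.coe_prod, ← Finset.prod_pow]
  congr 1
  exact JDX.zpow_comm_aux ν.val k (t.k p.1)

theorem main (α : ι → ℂˣ) (N : Matrix ι ι ℂ) (ν : ℂˣ) (D : Submodule ℂ (TIdx t ι → ℂ))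
    (d : ℕ) (hN : N ^ d = 0)
    (hc : Matrix.diagonal (fun i => (α i).val) * N = N * Matrix.diagonal (fun i => (α i).val))
    (hD : ∀ u ∈ D, TAct t (Matrix.diagonal (fun i => (α i).val) * (1 + N)) ν.val u ∈ D) :
    (∀ (φ : ℂ → ℂ), ∀ u ∈ D, (fun p => φ (JDX.bv t α ν p).val * u p) ∈ D) ∧
    (∀ u ∈ D, DAct t (logN N d) 0 u ∈ D) := by
  have hpow : ∀ (k : ℕ), ∀ u ∈ D,
      ((TAct t (Matrix.diagonal (fun i => (α i).val) * (1 + N)) ν.val) ^ k) u ∈ D := by
    intro k
    induction k with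
    | zero => intro u hu; exact hu
    | succ k ih =>
      intro u hu
      rw [pow_succ]
      exact ih _ (hD u hu)
  have key : ∀ (φ : ℂ → ℂ) (F : ℂ[X] →ₗ[ℂ] ℂ), ∀ u ∈ D,
      (fun p => φ (JDX.bv t α ν p).val * F (PQ t (B N d) u p)) ∈ D := by
    intro φ F u hu
    refine JDX.mem_of_dual D _ fun l hl => ?_
    have h1 := JDX.group (JDX.bv t α ν) (fun p => C (l p) * PQ t (B N d) u p) (fun k => by
      have h2 := hl _ (hpow k u hu)
      rw [← h2]
      refine Finset.sum_congr rfl fun p _ => ?_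
      rw [pow_apply t α N ν d hN hc k u p, Polynomial.eval_mul, Polynomial.eval_C]
      ring) φ F
    rw [← h1]
    refine Finset.sum_congr rfl fun p _ => ?_
    rw [← Polynomial.smul_eq_C_mul, map_smul, smul_eq_mul]
    ring
  constructor
  · intro φ u hu
    have h1 := key φ (Polynomial.leval 0) u hu
    simp only [Polynomial.leval_apply, PQ_zero t (B N d) (B_zero N d hN)] at h1
    exact h1
  · intro u hu
    have h1 := key (fun _ => 1) ((Polynomial.leval 0).comp Polynomial.derivative) u hu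
    simp only [LinearMap.comp_apply, Polynomial.leval_apply,
      PQ_deriv t (B N d) (B_zero N d hN), one_mul] at h1
    have h2 : (Matrix.of fun i j => (derivative (B N d i j)).eval 0) = logN N d := by
      ext i j
      rw [Matrix.of_apply, B_deriv]
    rw [h2] at h1
    exact h1

end

end K1B

/-- Jordan decomposition and stable subspaces: general nilpotent part. -/
theorem K1b_proof (hADJ : Stmt_Adj) (ι : Type) [Fintype ι] [DecidableEq ι] (t : TData)
    (S : GL ι ℂ) (α : ι → ℂˣ) (N : Matrix ι ι ℂ) (ν : ℂˣ) (D : Submodule ℂ (TIdx t ι → ℂ))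
    (d : ℕ) (hN : N ^ d = 0)
    (hc : Matrix.diagonal (fun i => (α i).val) * N = N * Matrix.diagonal (fun i => (α i).val))
    (hD : D.map (TAct t (S.val * Matrix.diagonal (fun i => (α i).val) * (1 + N) *
      (S⁻¹).val) ν.val) ≤ D) :
    (∀ L : Additive ℂˣ →+ ℂ, D.map (DAct t (S.val *
      Matrix.diagonal (fun i => L (Additive.ofMul (α i))) * (S⁻¹).val)
        (L (Additive.ofMul ν))) ≤ D) ∧
    D.map (DAct t (S.val * (∑ j ∈ Finset.range d, ((-1 : ℂ) ^ (j + 1) / (j : ℂ)) • N ^ j) *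
      (S⁻¹).val) 0) ≤ D := by
  have hSS : S.val * (S⁻¹).val = 1 := by
    rw [← Units.val_mul, mul_inv_cancel, Units.val_one]
  have hSS' : (S⁻¹).val * S.val = 1 := by
    rw [← Units.val_mul, inv_mul_cancel, Units.val_one]
  set D' : Submodule ℂ (TIdx t ι → ℂ) := D.comap (TAct t S.val 1) with hD'
  have h1 : ∀ u, TAct t S.val 1 (TAct t (S⁻¹).val 1 u) = u := by
    intro u
    have := TAct_comp t S.val (S⁻¹).val 1 1
    rw [hSS, mul_one, TAct_one] at this
    exact (LinearMap.congr_fun this u).symm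
  have hstab : ∀ u ∈ D', TAct t (Matrix.diagonal (fun i => (α i).val) * (1 + N)) ν.val u ∈ D' := by
    intro u hu
    have h2 : TAct t S.val 1 (TAct t (Matrix.diagonal (fun i => (α i).val) * (1 + N)) ν.val u)
        = TAct t (S.val * Matrix.diagonal (fun i => (α i).val) * (1 + N) * (S⁻¹).val) ν.val
          (TAct t S.val 1 u) := by
      have e1 := TAct_comp t S.val (Matrix.diagonal (fun i => (α i).val) * (1 + N)) 1 ν.val
      have e2 := TAct_comp t (S.val * Matrix.diagonal (fun i => (α i).val) * (1 + N) *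
        (S⁻¹).val) S.val ν.val 1
      rw [mul_assoc _ (S⁻¹).val S.val, hSS', mul_one, mul_one] at e2
      rw [one_mul, ← mul_assoc] at e1
      rw [e1] at e2
      exact LinearMap.congr_fun e2 u
    show TAct t S.val 1 _ ∈ D
    rw [h2]
    exact hD (Submodule.mem_map_of_mem hu)
  obtain ⟨m1, m2⟩ := K1B.main t α N ν D' d hN hc hstab
  have hfin : ∀ (X : Matrix ι ι ℂ) (μ : ℂ), (∀ u ∈ D', DAct t X μ u ∈ D') →
      D.map (DAct t (S.val * X * (S⁻¹).val) μ) ≤ D := by
    intro X μ hX
    rintro _ ⟨v, hv, rfl⟩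
    have hv' : TAct t (S⁻¹).val 1 v ∈ D' := by
      show TAct t S.val 1 _ ∈ D
      rw [h1 v]
      exact hv
    have h3 := hX _ hv'
    have h4 := (hADJ ι t).1 S X 1 μ
    have h5 := LinearMap.congr_fun h4 (TAct t (S⁻¹).val 1 v)
    have h6 : DAct t (S.val * X * (S⁻¹).val) μ v
        = TAct t S.val 1 (DAct t X μ (TAct t (S⁻¹).val 1 v)) := by
      rw [LinearMap.comp_apply, LinearMap.comp_apply, h1 v] at h5
      exact h5.symm
    rw [h6]
    exact h3
  refine ⟨fun L => hfin _ _ ?_, hfin _ _ m2⟩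
  intro u hu
  classical
  have h7 := m1 (fun z => if hz : z = 0 then 0 else L (Additive.ofMul (Units.mk0 z hz))) u hu
  have h8 : DAct t (Matrix.diagonal (fun i => L (Additive.ofMul (α i)))) (L (Additive.ofMul ν)) u
      = fun p => (if hz : (JDX.bv t α ν p).val = 0 then 0
        else L (Additive.ofMul (Units.mk0 (JDX.bv t α ν p).val hz))) * u p := by
    funext p
    rw [JDX.DAct_diag, dif_neg (JDX.bv t α ν p).ne_zero]
    congr 1
    have e1 : Units.mk0 (JDX.bv t α ν p).val (JDX.bv t α ν p).ne_zero = JDX.bv t α ν p :=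
      Units.ext rfl
    rw [e1]
    unfold JDX.bv
    rw [ofMul_mul, map_add, ofMul_zpow, map_zsmul, ofMul_prod, map_sum, zsmul_eq_mul]
  rw [h8]
  exact h7

end Pool.Agent.K3D
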