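import Pool.Agent.K3D.Stmts
import Pool.Agent.K3D.K1a
import Pool.Agent.K3D.K1b

/-!
# K1: Jordan decomposition and stable subspaces of tensor spaces
-/

open scoped BigOperators
open Matrix

namespace Pool.Agent.K3D

open Pool.Agent.DRB

theorem K1_proof (hADJ : Stmt_Adj) : Stmt_K1 := by
  intro ι _ _ x
  obtain ⟨S, α, N, hN, hc, hx⟩ := K1a.jordan x
  obtain ⟨d, hd⟩ := id hN
  refine ⟨S, α, N, ∑ j ∈ Finset.range d, ((-1 : ℂ) ^ (j + 1) / (j : ℂ)) • N ^ j, hN, hc, hx, ?_, ?_⟩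
  · intro Y hY
    exact K1a.commute_of_commute_series N _ d hd (fun j => (-1 : ℂ) ^ (j + 1) / (j : ℂ)) (by simp)
      (by simp) rfl Y hY
  · intro ν t D hD
    rw [hx] at hD
    exact K1b_proof hADJ ι t S α N ν D d hd hc hD

end Pool.Agent.K3D
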