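import Pool.Agent.K3D.K9
import Pool.Agent.SPH.HPI
import Pool.Agent.SPH.HB
import Pool.Agent.DRB.Gb3

/-!
# K10: the projection onto `H^{-1,0}` and a nontorsion element on the Tate object
-/

open scoped BigOperators
open Matrix

namespace Pool.Agent.K3D

open Pool.Agent.DRB

noncomputable section

theorem tau_proof (hA2 : Stmt_Aut2) (hLind : Stmt_Lind) : Stmt_TAU := by
  intro g A
  by_contra hcon
  push Not at hcon
  have h1 : {w : ℂ | ∃ τ ∈ GalA, w = τ tpi}.Countable := by
    have h2 : (⋃ N : ℕ, (fun r : ℂ => r * tpi) '' {r : ℂ | r ^ (N + 1) = 1}).Countable := by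
      refine Set.countable_iUnion fun N => ?_
      refine Set.Countable.image ?_ _
      refine Set.Finite.countable ?_
      have h3 : {r : ℂ | r ^ (N + 1) = 1} ⊆
          ((Polynomial.X ^ (N + 1) - 1 : Polynomial ℂ).roots.toFinset : Set ℂ) := by
        intro r hr
        rw [Finset.mem_coe, Multiset.mem_toFinset, Polynomial.mem_roots']
        have h5 : (Polynomial.X ^ (N + 1) - 1 : Polynomial ℂ) ≠ 0 := by
          have := Polynomial.X_pow_sub_C_ne_zero (R := ℂ) (Nat.succ_pos N) 1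
          simpa using this
        have hr' : r ^ (N + 1) = 1 := hr
        exact ⟨h5, by simp [Polynomial.IsRoot, hr']⟩
      exact (Finset.finite_toSet _).subset h3
    refine h2.mono ?_
    rintro w ⟨τ, hτ, rfl⟩
    obtain ⟨p, hp, -, hp2⟩ := GB3X.exists_coc A hτ
    obtain ⟨N, hN, h4⟩ := hcon p hp
    refine Set.mem_iUnion.2 ⟨N - 1, τ tpi / tpi, ?_, div_mul_cancel₀ _ tpi_ne_zero⟩
    show (τ tpi / tpi) ^ (N - 1 + 1) = 1
    rw [← hp2, Nat.sub_add_cancel hN, ← Units.val_pow_eq_pow_val, h4, Units.val_one]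
  have h2 := hA2 tpi h1
  apply hLind
  have h3 : (Real.pi : ℂ) = tpi * (2 * Complex.I)⁻¹ := by
    unfold tpi
    have : (Complex.I : ℂ) ≠ 0 := Complex.I_ne_zero
    field_simp
  rw [h3]
  refine h2.mul ?_
  have hI : IsAlgebraic ℚ Complex.I := by
    have : IsIntegral ℚ Complex.I := by
      refine IsIntegral.of_pow (n := 2) (by norm_num) ?_
      rw [Complex.I_sq]
      exact isIntegral_one.neg
    exact this.isAlgebraic
  have h2a : IsAlgebraic ℚ (2 : ℂ) := by
    have := isAlgebraic_algebraMap (R := ℚ) (A := ℂ) (2 : ℚ)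
    simpa using this
  exact (h2a.mul hI).inv

theorem pi_proof (hL : Stmt_Leg) : Stmt_PI := by
  intro g A
  obtain ⟨π, hπ, -, -, hmu, hex, -⟩ := SPH.hpi_proof g A
  have hb : ∀ z : ℂˣ, ∀ x : GL (Idx g) ℂ, A.IsMu z x →
      (∀ α ∈ A.EndQ, x.val * AbVar.toC α = AbVar.toC α * x.val) ∧
        x.valᵀ * A.riem * x.val = z.val • A.riem := by
    intro z x hx
    have h1 : ((x, z) : GL (Idx g) ℂ × ℂˣ) ∈ SPH.MTg A := by
      refine Subgroup.subset_closure ⟨AlgEquiv.refl, z, x, hx, ?_, rfl⟩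
      ext i j
      rfl
    exact SPH.hb1_proof hL g A _ h1
  have hform : ∀ z : ℂˣ, (z.val - 1) • (πᵀ * A.riem + A.riem * π) +
      ((z.val - 1) ^ 2) • (πᵀ * A.riem * π) = (z.val - 1) • A.riem := by
    intro z
    obtain ⟨x, hx⟩ := hex z
    have h1 := (hb z x hx).2
    rw [(hmu z x).1 hx] at h1
    have h2 : (1 + (z.val - 1) • π)ᵀ * A.riem * (1 + (z.val - 1) • π) =
        A.riem + ((z.val - 1) • (πᵀ * A.riem + A.riem * π) +
          ((z.val - 1) ^ 2) • (πᵀ * A.riem * π)) := by
      rw [Matrix.transpose_add, Matrix.transpose_one, Matrix.transpose_smul]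
      simp only [mul_add, add_mul, mul_one, one_mul, Matrix.smul_mul, Matrix.mul_smul, smul_smul,
        smul_add, pow_two]
      abel
    rw [h2] at h1
    have h3 : A.riem + (z.val - 1) • A.riem = z.val • A.riem := by
      rw [sub_smul, one_smul]; abel
    rw [← h3] at h1
    exact add_left_cancel h1
  have e2 := hform (Units.mk0 (2 : ℂ) two_ne_zero)
  have e3 := hform (Units.mk0 (3 : ℂ) three_ne_zero)
  simp only [Units.val_mk0] at e2 e3
  refine ⟨π, hπ, hmu, hex, ?_, ?_⟩
  · intro α hα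
    obtain ⟨x, hx⟩ := hex (Units.mk0 (2 : ℂ) two_ne_zero)
    have h1 := (hb _ x hx).1 α hα
    rw [(hmu _ x).1 hx, Units.val_mk0] at h1
    have h2 : ((2 : ℂ) - 1) • π = π := by norm_num
    rw [h2, add_mul, mul_add, one_mul, mul_one] at h1
    exact add_left_cancel h1
  · ext i j
    have f2 := congrFun (congrFun e2 i) j
    have f3 := congrFun (congrFun e3 i) j
    simp only [Matrix.add_apply, Matrix.smul_apply, smul_eq_mul] at f2 f3 ⊢
    norm_num at f2 f3
    linear_combination 2 * f2 - (1 / 2) * f3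

end

end Pool.Agent.K3D
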