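import Pool.Agent.K3D.Stmts
import Pool.Agent.DRB.Fin

/-!
# K2: formal properties of the Lie algebra
-/

open scoped BigOperators
open Matrix

namespace Pool.Agent.K3D

open Pool.Agent.DRB

noncomputable section

namespace K2X

variable {ι : Type} [Fintype ι] [DecidableEq ι]

theorem TAct_inv (t : TData) (p : GL ι ℂ × ℂˣ) (u : TIdx t ι → ℂ) :
    TAct t p.1.val p.2.val (TAct t (p.1⁻¹).val (p.2⁻¹).val u) = u := by
  have h1 := TAct_comp t p.1.val (p.1⁻¹).val p.2.val (p.2⁻¹).val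
  have h2 : p.1.val * (p.1⁻¹).val = 1 := by rw [← Units.val_mul]; simp
  have h3 : p.2.val * (p.2⁻¹).val = 1 := by rw [← Units.val_mul]; simp
  rw [h2, h3, TAct_one] at h1
  rw [← LinearMap.comp_apply, ← h1, LinearMap.id_apply]

theorem DAct_zero (t : TData) : DAct t (0 : Matrix ι ι ℂ) 0 = 0 := by
  refine LinearMap.ext fun u => ?_
  funext p
  show (t.k p.1 : ℂ) * 0 * u p + ∑ s : Fin (t.a p.1), ∑ j : ι,
    (0 : Matrix ι ι ℂ) (p.2 s) j * u ⟨p.1, Function.update p.2 s j⟩ = 0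
  simp

/-- the action of a field automorphism on functions -/
def sv {κ : Type} (σ : ℂ ≃ₐ[ℚ] ℂ) (u : κ → ℂ) : κ → ℂ := fun k => σ (u k)

theorem sv_TAct (t : TData) (σ : ℂ ≃ₐ[ℚ] ℂ) (x : Matrix ι ι ℂ) (ν : ℂ) (u : TIdx t ι → ℂ) :
    sv σ (TAct t x ν u) = TAct t (x.map σ) (σ ν) (sv σ u) := by
  funext p
  simp only [sv, TAct_apply, map_mul, map_zpow₀, map_sum, map_prod, Matrix.map_apply]

theorem sv_DAct (t : TData) (σ : ℂ ≃ₐ[ℚ] ℂ) (x : Matrix ι ι ℂ) (ν : ℂ) (u : TIdx t ι → ℂ) :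
    sv σ (DAct t x ν u) = DAct t (x.map σ) (σ ν) (sv σ u) := by
  funext p
  show σ ((t.k p.1 : ℂ) * ν * u p + ∑ s : Fin (t.a p.1), ∑ j : ι,
    x (p.2 s) j * u ⟨p.1, Function.update p.2 s j⟩) = (t.k p.1 : ℂ) * σ ν * σ (u p) +
      ∑ s : Fin (t.a p.1), ∑ j : ι, σ (x (p.2 s) j) * σ (u ⟨p.1, Function.update p.2 s j⟩)
  simp only [map_add, map_mul, map_sum, map_intCast]

/-- the conjugate subspace -/
def Dsv {κ : Type} (σ : ℂ ≃ₐ[ℚ] ℂ) (D : Submodule ℂ (κ → ℂ)) : Submodule ℂ (κ → ℂ) where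
  carrier := {u | sv σ u ∈ D}
  add_mem' := by
    intro u v hu hv
    have : sv σ (u + v) = sv σ u + sv σ v := by
      funext k; simp [sv]
    show sv σ (u + v) ∈ D
    rw [this]
    exact D.add_mem hu hv
  zero_mem' := by
    have : sv σ (0 : κ → ℂ) = 0 := by
      funext k; simp [sv]
    show sv σ 0 ∈ D
    rw [this]
    exact D.zero_mem
  smul_mem' := by
    intro c u hu
    have : sv σ (c • u) = σ c • sv σ u := by
      funext k; simp [sv]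
    show sv σ (c • u) ∈ D
    rw [this]
    exact D.smul_mem _ hu

theorem mem_Dsv {κ : Type} (σ : ℂ ≃ₐ[ℚ] ℂ) (D : Submodule ℂ (κ → ℂ)) (u : κ → ℂ) :
    u ∈ Dsv σ D ↔ sv σ u ∈ D := Iff.rfl

end K2X

theorem k2a_proof (hA : Stmt_Adj) : Stmt_K2a := by
  intro ι _ _ Γ
  refine ⟨?_, ?_, ?_, ?_⟩
  · intro X Y ξ η c hX hY t D hD
    rw [(hA ι t).2.2]
    rintro _ ⟨u, hu, rfl⟩
    rw [LinearMap.add_apply, LinearMap.smul_apply]
    exact D.add_mem (hX t D hD ⟨u, hu, rfl⟩) (D.smul_mem _ (hY t D hD ⟨u, hu, rfl⟩))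
  · intro t D _
    rw [K2X.DAct_zero]
    rintro _ ⟨u, _, rfl⟩
    exact D.zero_mem
  · intro X Y ξ η hX hY t D hD
    rw [← (hA ι t).2.1 X Y ξ η]
    rintro _ ⟨u, hu, rfl⟩
    rw [LinearMap.sub_apply, LinearMap.comp_apply, LinearMap.comp_apply]
    exact D.sub_mem (hX t D hD ⟨_, hY t D hD ⟨u, hu, rfl⟩, rfl⟩)
      (hY t D hD ⟨_, hX t D hD ⟨u, hu, rfl⟩, rfl⟩)
  · intro X ξ hX p hp t D hD
    rintro _ ⟨u, hu, rfl⟩
    have h1 : TAct t (p.1⁻¹).val (p.2⁻¹).val u ∈ D := hD p⁻¹ (inv_mem hp) ⟨u, hu, rfl⟩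
    have h2 := hX t D hD ⟨_, h1, rfl⟩
    have h3 := hD p hp ⟨_, h2, rfl⟩
    have h4 := LinearMap.congr_fun ((hA ι t).1 p.1 X p.2.val ξ)
      (TAct t (p.1⁻¹).val (p.2⁻¹).val u)
    rw [LinearMap.comp_apply, LinearMap.comp_apply, K2X.TAct_inv] at h4
    rw [h4] at h3
    exact h3

theorem k2b_proof : Stmt_K2b := by
  intro ι _ _ Γ hΓ σ X ξ hX t D hD
  rintro _ ⟨v, hv, rfl⟩
  have hD' : StabG Γ t (K2X.Dsv σ D) := by
    rintro p hp _ ⟨u, hu, rfl⟩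
    rw [K2X.mem_Dsv, K2X.sv_TAct]
    let q1 : GL ι ℂ := Matrix.GeneralLinearGroup.map (σ : ℂ →+* ℂ) p.1
    let q2 : ℂˣ := Units.map ((σ : ℂ →+* ℂ) : ℂ →* ℂ) p.2
    exact hD (q1, q2) (hΓ σ p hp (q1, q2) rfl rfl) ⟨_, hu, rfl⟩
  have hu : K2X.sv σ.symm v ∈ K2X.Dsv σ D := by
    rw [K2X.mem_Dsv]
    have : K2X.sv σ (K2X.sv σ.symm v) = v := by
      funext k; simp [K2X.sv]
    rw [this]
    exact hv
  have h1 := hX t _ hD' ⟨_, hu, rfl⟩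
  rw [K2X.mem_Dsv, K2X.sv_DAct] at h1
  have : K2X.sv σ (K2X.sv σ.symm v) = v := by
    funext k; simp [K2X.sv]
  rw [this] at h1
  exact h1

end

end Pool.Agent.K3D
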