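import Pool.Agent.K3D.K5b

/-!
# K5a: the Clifford relations, the lift of skew maps, and scalars
-/

open scoped BigOperators
open Matrix

namespace Pool.Agent.K3D

open Pool.Agent.DRB

noncomputable section

namespace K5A

variable {g n : ℕ} {A : AbVar g} (K : KSat A n)

/-- The generators. -/
def T (i : Fin n) : Matrix (Idx g) (Idx g) ℂ := AbVar.toC (K.t i)

theorem toC_smul {ι : Type} (c : ℚ) (α : Matrix ι ι ℚ) :
    AbVar.toC (c • α) = (c : ℂ) • AbVar.toC α := by
  ext i j
  simp [AbVar.toC]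

theorem toC_one {ι : Type} [DecidableEq ι] : AbVar.toC (1 : Matrix ι ι ℚ) = 1 := by
  unfold AbVar.toC
  exact Matrix.map_one _ (map_zero _) (map_one _)

theorem toC_neg {ι : Type} (α : Matrix ι ι ℚ) : AbVar.toC (-α) = -AbVar.toC α := by
  ext i j
  simp [AbVar.toC]

theorem T_sq (i : Fin n) : T K i * T K i = (K.q i : ℂ) • 1 := by
  unfold T
  rw [← AbVar.toC_mul, K.sq, toC_smul, toC_one]

theorem T_anti (i j : Fin n) (h : i ≠ j) : T K i * T K j = -(T K j * T K i) := by
  unfold T
  rw [← AbVar.toC_mul, K.anti i j h, toC_neg, AbVar.toC_mul]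

theorem cl_eq (v : Fin n → ℂ) : K.cl v = ∑ j, v j • T K j := rfl

theorem cl_single (i : Fin n) : K.cl (Pi.single i 1) = T K i := by
  rw [cl_eq, Finset.sum_eq_single i]
  · simp
  · intro j _ hj
    simp [Pi.single_eq_of_ne hj]
  · simp

theorem T_pair (i j : Fin n) : T K i * T K j + T K j * T K i =
    (if i = j then 2 * (K.q i : ℂ) else 0) • (1 : Matrix (Idx g) (Idx g) ℂ) := by
  by_cases h : i = j
  · subst h
    rw [if_pos rfl, T_sq, ← add_smul, ← two_mul]
  · rw [if_neg h, T_anti K i j h, zero_smul, neg_add_cancel]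

theorem rel : K5B.Rel K := by
  intro v w
  have h1 : K.cl v * K.cl w = ∑ i, ∑ j, (v i * w j) • (T K i * T K j) := by
    rw [cl_eq, cl_eq, Finset.sum_mul]
    refine Finset.sum_congr rfl fun i _ => ?_
    rw [Finset.mul_sum]
    refine Finset.sum_congr rfl fun j _ => ?_
    rw [smul_mul_smul_comm]
  have h2 : K.cl w * K.cl v = ∑ i, ∑ j, (v i * w j) • (T K j * T K i) := by
    rw [cl_eq, cl_eq, Finset.sum_mul, Finset.sum_comm' (s := Finset.univ) (t := fun _ => Finset.univ)
      (t' := Finset.univ) (s' := fun _ => Finset.univ) (by simp)]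
    refine Finset.sum_congr rfl fun i _ => ?_
    rw [Finset.mul_sum]
    refine Finset.sum_congr rfl fun j _ => ?_
    rw [smul_mul_smul_comm, mul_comm]
  rw [h1, h2, ← Finset.sum_add_distrib]
  have h3 : ∀ i, (∑ j, (v i * w j) • (T K i * T K j)) + (∑ j, (v i * w j) • (T K j * T K i)) =
      (2 * ((K.q i : ℂ) * v i * w i)) • (1 : Matrix (Idx g) (Idx g) ℂ) := by
    intro i
    rw [← Finset.sum_add_distrib, Finset.sum_eq_single i]
    · rw [← smul_add, T_pair, if_pos rfl, smul_smul]
      congr 1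
      ring
    · intro j _ hj
      rw [← smul_add, T_pair, if_neg (fun h => hj h.symm), zero_smul, smul_zero]
    · simp
  rw [Finset.sum_congr rfl fun i _ => h3 i, ← Finset.sum_smul]
  congr 1
  unfold KSat.bil
  rw [Finset.mul_sum]

theorem cl_inj (v : Fin n → ℂ) (h : K.cl v = 0) : v = 0 := by
  refine K5B.bil_nondeg K v fun w => ?_
  have h1 := rel K v w
  rw [h, zero_mul, mul_zero, add_zero] at h1
  have h2 := (smul_eq_zero.1 h1.symm).resolve_right (K5B.one_ne K.pos)
  exact (mul_eq_zero.1 h2).resolve_left two_ne_zero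

theorem three (x y v : Fin n → ℂ) :
    K.cl x * K.cl y * K.cl v - K.cl v * (K.cl x * K.cl y) =
      (2 * K.bil y v) • K.cl x - (2 * K.bil v x) • K.cl y := by
  have r1 : K.cl y * K.cl v = (2 * K.bil y v) • 1 - K.cl v * K.cl y := eq_sub_of_add_eq (rel K y v)
  have r2 : K.cl v * K.cl x = (2 * K.bil v x) • 1 - K.cl x * K.cl v := eq_sub_of_add_eq (rel K v x)
  rw [Matrix.mul_assoc, r1, ← Matrix.mul_assoc (K.cl v), r2, Matrix.mul_sub, Matrix.sub_mul,
    Matrix.mul_smul, Matrix.mul_one, Matrix.smul_mul, Matrix.one_mul, ← Matrix.mul_assoc]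
  abel

theorem cl_sum_single (v : Fin n → ℂ) : K.cl v = ∑ i, v i • K.cl (Pi.single i 1) := by
  rw [cl_eq]
  exact Finset.sum_congr rfl fun i _ => by rw [cl_single]

theorem mulVec_sum_single (a : Matrix (Fin n) (Fin n) ℂ) (v : Fin n → ℂ) :
    K.cl (a *ᵥ v) = ∑ i, v i • K.cl (a *ᵥ Pi.single i 1) := by
  have h1 : a *ᵥ v = ∑ i, v i • (a *ᵥ Pi.single i 1) := by
    funext r
    rw [Finset.sum_apply]
    simp only [Pi.smul_apply, Matrix.mulVec_single_one, Matrix.col_apply, smul_eq_mul]
    unfold Matrix.mulVec dotProduct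
    exact Finset.sum_congr rfl fun i _ => mul_comm _ _
  have h2 : ∀ w, K.cl w = K5B.clL K w := fun _ => rfl
  rw [h2, h1, map_sum]
  exact Finset.sum_congr rfl fun i _ => by rw [map_smul]; rfl

theorem lift (a : Matrix (Fin n) (Fin n) ℂ) (ha : ∀ v w, K.bil (a *ᵥ v) w + K.bil v (a *ᵥ w) = 0)
    (v : Fin n → ℂ) :
    (∑ i, ((4 * (K.q i : ℂ))⁻¹) • (K.cl (a *ᵥ Pi.single i 1) * K.cl (Pi.single i 1))) * K.cl v -
      K.cl v * (∑ i, ((4 * (K.q i : ℂ))⁻¹) • (K.cl (a *ᵥ Pi.single i 1) * K.cl (Pi.single i 1))) =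
        K.cl (a *ᵥ v) := by
  rw [Finset.sum_mul, Finset.mul_sum, ← Finset.sum_sub_distrib]
  have h1 : ∀ i, ((4 * (K.q i : ℂ))⁻¹) • (K.cl (a *ᵥ Pi.single i 1) * K.cl (Pi.single i 1)) * K.cl v -
      K.cl v * (((4 * (K.q i : ℂ))⁻¹) • (K.cl (a *ᵥ Pi.single i 1) * K.cl (Pi.single i 1))) =
      (2 : ℂ)⁻¹ • (v i • K.cl (a *ᵥ Pi.single i 1)) + (2 : ℂ)⁻¹ • ((a *ᵥ v) i • K.cl (Pi.single i 1)) := by
    intro i
    have hq : (K.q i : ℂ) ≠ 0 := by exact_mod_cast K.q_ne i
    have hs : K.bil v (a *ᵥ Pi.single i 1) = -((K.q i : ℂ) * (a *ᵥ v) i) := by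
      have := ha v (Pi.single i 1)
      rw [K5B.bil_single, mul_one] at this
      linear_combination this
    rw [Matrix.smul_mul, Matrix.mul_smul, ← smul_sub, three, K5B.bil_comm K (Pi.single i 1) v,
      K5B.bil_single, hs, smul_sub, smul_smul, smul_smul, smul_smul, smul_smul, sub_eq_add_neg,
      ← neg_smul]
    congr 1
    · congr 1
      field_simp
      norm_num
    · congr 1
      field_simp
      norm_num
  rw [Finset.sum_congr rfl fun i _ => h1 i, Finset.sum_add_distrib, ← Finset.smul_sum,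
    ← Finset.smul_sum, ← mulVec_sum_single, ← cl_sum_single, ← add_smul]
  norm_num

/-! ### Words -/

/-- The product of the generators along a word. -/
def M (w : List (Fin n)) : Matrix (Idx g) (Idx g) ℂ := (w.map (T K)).prod

theorem M_nil : M K [] = 1 := rfl

theorem M_cons (i : Fin n) (w : List (Fin n)) : M K (i :: w) = T K i * M K w := by
  simp [M]

theorem M_append (u w : List (Fin n)) : M K (u ++ w) = M K u * M K w := by
  simp [M]

theorem T_M (i : Fin n) (w : List (Fin n)) :
    T K i * M K w = (-1 : ℂ) ^ (w.length + w.count i) • (M K w * T K i) := by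
  induction w with
  | nil => simp [M_nil]
  | cons j w ih =>
    rw [M_cons, ← Matrix.mul_assoc]
    by_cases h : i = j
    · subst h
      rw [List.length_cons, List.count_cons_self]
      conv_lhs => rw [Matrix.mul_assoc, ih, Matrix.mul_smul, ← Matrix.mul_assoc]
      rw [show w.length + 1 + (w.count i + 1) = (w.length + w.count i) + 2 by ring,
        pow_add _ (w.length + w.count i) 2]
      norm_num
    · rw [List.length_cons, List.count_cons_of_ne (fun h' => h h'.symm)]
      conv_lhs => rw [T_anti K i j h, Matrix.neg_mul, Matrix.mul_assoc, ih, Matrix.mul_smul,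
        ← Matrix.mul_assoc, ← neg_one_smul ℂ, smul_smul]
      congr 1
      rw [show w.length + 1 + w.count i = (w.length + w.count i) + 1 by ring, pow_succ]
      ring

theorem M_scalar : ∀ (k : ℕ) (w : List (Fin n)), w.length = k → (∀ i, Even (w.count i)) →
    ∃ c : ℂ, M K w = c • 1 := by
  intro k
  induction k using Nat.strong_induction_on with
  | _ k ih =>
    intro w hw hc
    cases w with
    | nil => exact ⟨1, by rw [M_nil, one_smul]⟩
    | cons i w =>
      have h1 := hc i
      rw [List.count_cons_self] at h1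
      have h2 : i ∈ w := by
        by_contra hn
        rw [List.count_eq_zero_of_not_mem hn] at h1
        exact absurd h1 (by decide)
      obtain ⟨u, v, rfl⟩ := List.append_of_mem h2
      have h3 : ∀ j, Even ((u ++ v).count j) := by
        intro j
        have h4 := hc j
        by_cases hj : j = i
        · subst hj
          rw [List.count_cons_self, List.count_append, List.count_cons_self] at h4
          rw [List.count_append]
          have : List.count j u + (List.count j v + 1) + 1 = (List.count j u + List.count j v) + 2 := by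
            ring
          rw [this, Nat.even_add] at h4
          exact h4.2 even_two
        · rw [List.count_cons_of_ne (fun h' => hj h'.symm), List.count_append,
            List.count_cons_of_ne (fun h' => hj h'.symm)] at h4
          rw [List.count_append]
          exact h4
      obtain ⟨c, hcc⟩ := ih (u ++ v).length (by
        rw [← hw]
        simp only [List.length_append, List.length_cons]
        omega) (u ++ v) rfl h3
      rw [M_cons, M_append, M_cons, ← Matrix.mul_assoc, T_M, Matrix.smul_mul, Matrix.mul_assoc,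
        ← Matrix.mul_assoc (T K i), T_sq, Matrix.smul_mul, Matrix.mul_smul, Matrix.one_mul,
        ← M_append, hcc]
      exact ⟨_, by rw [smul_smul, smul_smul]⟩

/-- The averaging operator. -/
def P (i : Fin n) : Matrix (Idx g) (Idx g) ℂ →ₗ[ℂ] Matrix (Idx g) (Idx g) ℂ where
  toFun Y := (2 : ℂ)⁻¹ • (Y + (K.q i : ℂ)⁻¹ • (T K i * Y * T K i))
  map_add' Y Z := by
    rw [Matrix.mul_add, Matrix.add_mul, smul_add (K.q i : ℂ)⁻¹, ← smul_add (2 : ℂ)⁻¹]
    congr 1
    abel
  map_smul' c Y := by
    simp only [RingHom.id_apply]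
    rw [Matrix.mul_smul, Matrix.smul_mul, smul_comm (K.q i : ℂ)⁻¹ c, ← smul_add, smul_comm]

theorem P_apply (i : Fin n) (Y : Matrix (Idx g) (Idx g) ℂ) :
    P K i Y = (2 : ℂ)⁻¹ • (Y + (K.q i : ℂ)⁻¹ • (T K i * Y * T K i)) := rfl

theorem P_comm (i : Fin n) (Y : Matrix (Idx g) (Idx g) ℂ) (h : Y * T K i = T K i * Y) :
    P K i Y = Y := by
  have hq : (K.q i : ℂ) ≠ 0 := by exact_mod_cast K.q_ne i
  rw [P_apply, ← h, Matrix.mul_assoc, T_sq, Matrix.mul_smul, Matrix.mul_one, smul_smul,
    inv_mul_cancel₀ hq, one_smul, ← two_smul ℂ Y, smul_smul]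
  norm_num

theorem P_word (i : Fin n) (w : List (Fin n)) (hw : Even w.length) :
    P K i (M K w) = if Even (w.count i) then M K w else 0 := by
  have hq : (K.q i : ℂ) ≠ 0 := by exact_mod_cast K.q_ne i
  have h1 : T K i * M K w * T K i = ((-1 : ℂ) ^ (w.length + w.count i) * (K.q i : ℂ)) • M K w := by
    rw [T_M, Matrix.smul_mul, Matrix.mul_assoc, T_sq, Matrix.mul_smul, Matrix.mul_one, smul_smul]
  rw [P_apply, h1, smul_smul]
  split_ifs with h
  · rw [(hw.add h).neg_one_pow, one_mul, inv_mul_cancel₀ hq, one_smul, ← two_smul ℂ (M K w),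
      smul_smul]
    norm_num
  · rw [Nat.not_even_iff_odd] at h
    rw [(hw.add_odd h).neg_one_pow, mul_comm (-1 : ℂ), ← mul_assoc, inv_mul_cancel₀ hq, one_mul,
      neg_one_smul, add_neg_cancel, smul_zero]

/-- The composition of the averaging operators. -/
def PP (l : List (Fin n)) (Y : Matrix (Idx g) (Idx g) ℂ) : Matrix (Idx g) (Idx g) ℂ :=
  l.foldr (fun i Z => P K i Z) Y

theorem PP_cons (i : Fin n) (l : List (Fin n)) (Y : Matrix (Idx g) (Idx g) ℂ) :
    PP K (i :: l) Y = P K i (PP K l Y) := rfl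

theorem PP_zero (l : List (Fin n)) : PP K l 0 = 0 := by
  induction l with
  | nil => rfl
  | cons i l ih => rw [PP_cons, ih, map_zero]

theorem PP_add (l : List (Fin n)) (Y Z : Matrix (Idx g) (Idx g) ℂ) :
    PP K l (Y + Z) = PP K l Y + PP K l Z := by
  induction l with
  | nil => rfl
  | cons i l ih => rw [PP_cons, ih, map_add]; rfl

theorem PP_smul (l : List (Fin n)) (c : ℂ) (Y : Matrix (Idx g) (Idx g) ℂ) :
    PP K l (c • Y) = c • PP K l Y := by
  induction l with
  | nil => rfl
  | cons i l ih => rw [PP_cons, ih, map_smul]; rfl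

theorem PP_comm (l : List (Fin n)) (Y : Matrix (Idx g) (Idx g) ℂ)
    (h : ∀ i, Y * T K i = T K i * Y) : PP K l Y = Y := by
  induction l with
  | nil => rfl
  | cons i l ih => rw [PP_cons, ih, P_comm K i Y (h i)]

theorem PP_word (l : List (Fin n)) (w : List (Fin n)) (hw : Even w.length) :
    PP K l (M K w) = if (∀ i ∈ l, Even (w.count i)) then M K w else 0 := by
  induction l with
  | nil => simp [PP]
  | cons i l ih =>
    rw [PP_cons, ih]
    by_cases h1 : ∀ i ∈ l, Even (w.count i)
    · rw [if_pos h1, P_word K i w hw]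
      by_cases h2 : Even (w.count i)
      · rw [if_pos h2, if_pos]
        intro j hj
        rcases List.mem_cons.1 hj with rfl | hj
        · exact h2
        · exact h1 j hj
      · rw [if_neg h2, if_neg]
        intro h3
        exact h2 (h3 i List.mem_cons_self)
    · rw [if_neg h1, map_zero, if_neg]
      intro h3
      exact h1 fun j hj => h3 j (List.mem_cons_of_mem _ hj)

/-- Even words. -/
def EW : Submodule ℂ (Matrix (Idx g) (Idx g) ℂ) :=
  Submodule.span ℂ {Y | ∃ w : List (Fin n), Even w.length ∧ Y = M K w}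

theorem scalar_of_EW (Y : Matrix (Idx g) (Idx g) ℂ) (hY : Y ∈ EW K)
    (h : ∀ i, Y * T K i = T K i * Y) : ∃ c : ℂ, Y = c • 1 := by
  have h1 : ∀ Z ∈ EW K, ∃ c : ℂ, PP K (List.finRange n) Z = c • 1 := by
    intro Z hZ
    unfold EW at hZ
    induction hZ using Submodule.span_induction with
    | mem x hx =>
      obtain ⟨w, hw, rfl⟩ := hx
      rw [PP_word K _ w hw]
      split_ifs with h2
      · exact M_scalar K _ w rfl fun i => h2 i (List.mem_finRange i)
      · exact ⟨0, by rw [zero_smul]⟩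
    | zero => exact ⟨0, by rw [PP_zero, zero_smul]⟩
    | add x y _ _ hx hy =>
      obtain ⟨c, hc⟩ := hx
      obtain ⟨d, hd⟩ := hy
      exact ⟨c + d, by rw [PP_add, hc, hd, add_smul]⟩
    | smul a x _ hx =>
      obtain ⟨c, hc⟩ := hx
      exact ⟨a * c, by rw [PP_smul, hc, smul_smul]⟩
  obtain ⟨c, hc⟩ := h1 Y hY
  exact ⟨c, by rw [← hc, PP_comm K _ Y h]⟩

theorem EW_mul {Y Z : Matrix (Idx g) (Idx g) ℂ} (hY : Y ∈ EW K) (hZ : Z ∈ EW K) :
    Y * Z ∈ EW K := by
  unfold EW at hY
  induction hY using Submodule.span_induction with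
  | mem x hx =>
    obtain ⟨w, hw, rfl⟩ := hx
    unfold EW at hZ
    induction hZ using Submodule.span_induction with
    | mem y hy =>
      obtain ⟨u, hu, rfl⟩ := hy
      rw [← M_append]
      exact Submodule.subset_span ⟨_, by rw [List.length_append]; exact hw.add hu, rfl⟩
    | zero => rw [Matrix.mul_zero]; exact Submodule.zero_mem _
    | add x y _ _ hx hy => rw [Matrix.mul_add]; exact Submodule.add_mem _ hx hy
    | smul a x _ hx => rw [Matrix.mul_smul]; exact Submodule.smul_mem _ _ hx
  | zero => rw [Matrix.zero_mul]; exact Submodule.zero_mem _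
  | add x y _ _ hx hy => rw [Matrix.add_mul]; exact Submodule.add_mem _ hx hy
  | smul a x _ hx => rw [Matrix.smul_mul]; exact Submodule.smul_mem _ _ hx

theorem toC_mem_EW (X : Matrix (Idx g) (Idx g) ℚ)
    (hX : X ∈ Algebra.adjoin ℚ (Set.range fun p : Fin n × Fin n => K.t p.1 * K.t p.2)) :
    AbVar.toC X ∈ EW K := by
  have h1 : (1 : Matrix (Idx g) (Idx g) ℂ) ∈ EW K :=
    Submodule.subset_span ⟨[], by simp, (M_nil K).symm⟩
  induction hX using Algebra.adjoin_induction with
  | mem x hx =>
    obtain ⟨p, rfl⟩ := hx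
    refine Submodule.subset_span ⟨[p.1, p.2], by simp, ?_⟩
    rw [M_cons, M_cons, M_nil, Matrix.mul_one, AbVar.toC_mul]
    rfl
  | algebraMap r =>
    have : AbVar.toC ((algebraMap ℚ (Matrix (Idx g) (Idx g) ℚ)) r) = (r : ℂ) • 1 := by
      rw [Algebra.algebraMap_eq_smul_one, toC_smul, toC_one]
    rw [this]
    exact Submodule.smul_mem _ _ h1
  | add x y _ _ hx hy => rw [AbVar.toC_add]; exact Submodule.add_mem _ hx hy
  | mul x y _ _ hx hy => rw [AbVar.toC_mul]; exact EW_mul K hx hy

/-- A complex matrix commuting with the endomorphisms is a combination of even words. -/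
theorem mem_EW (Y : Matrix (Idx g) (Idx g) ℂ)
    (hY : ∀ α, A.IsEnd α → Y * AbVar.toC α = AbVar.toC α * Y) : Y ∈ EW K := by
  classical
  let b := Module.Basis.ofVectorSpace ℚ ℂ
  let ix := Module.Basis.ofVectorSpaceIndex ℚ ℂ
  let c : ix → ℂ →ₗ[ℚ] ℚ := fun k => b.coord k
  let Yk : ix → Matrix (Idx g) (Idx g) ℚ := fun k => Y.map (c k)
  -- a finite set of indices
  let s : Finset ix := Finset.univ.biUnion fun p : Idx g × Idx g => (b.repr (Y p.1 p.2)).support
  have hsum : Y = ∑ k ∈ s, (b k) • AbVar.toC (Yk k) := by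
    ext i j
    have h1 : Y i j = ∑ k ∈ s, (b.repr (Y i j)) k • b k := by
      conv_lhs => rw [← b.linearCombination_repr (Y i j)]
      rw [Finsupp.linearCombination_apply]
      refine Finsupp.sum_of_support_subset _ ?_ _ (by simp)
      intro k hk
      exact Finset.mem_biUnion.2 ⟨(i, j), Finset.mem_univ _, hk⟩
    rw [Matrix.sum_apply]
    conv_lhs => rw [h1]
    refine Finset.sum_congr rfl fun k _ => ?_
    simp only [Matrix.smul_apply, AbVar.toC, Matrix.map_apply, smul_eq_mul, Yk, c]
    rw [Algebra.smul_def, mul_comm]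
    rfl
  have hcomm : ∀ k α, A.IsEnd α → Yk k * α = α * Yk k := by
    intro k α hα
    ext i j
    have h1 := congrFun (congrFun (hY α hα) i) j
    rw [Matrix.mul_apply, Matrix.mul_apply] at h1
    have h2 := congrArg (c k) h1
    rw [map_sum, map_sum] at h2
    rw [Matrix.mul_apply, Matrix.mul_apply]
    refine Eq.trans (Finset.sum_congr rfl fun r _ => ?_) (h2.trans
      (Finset.sum_congr rfl fun r _ => ?_))
    · have : Y i r * AbVar.toC α r j = (α r j) • Y i r := by
        rw [Algebra.smul_def, mul_comm]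
        rfl
      rw [this, map_smul, smul_eq_mul, mul_comm]
      rfl
    · have : AbVar.toC α i r * Y r j = (α i r) • Y r j := by
        rw [Algebra.smul_def]
        rfl
      rw [this, map_smul, smul_eq_mul]
      rfl
  rw [hsum]
  refine Submodule.sum_mem _ fun k _ => Submodule.smul_mem _ _ ?_
  exact toC_mem_EW K _ ((K.comm (Yk k)).1 (hcomm k))

theorem end_comm (α : Matrix (Idx g) (Idx g) ℚ) (hα : A.IsEnd α) (i j : Fin n) :
    AbVar.toC α * (T K i * T K j) = T K i * T K j * AbVar.toC α := by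
  have h1 := (K.comm (K.t i * K.t j)).2 (Algebra.subset_adjoin ⟨(i, j), rfl⟩) α hα
  unfold T
  rw [← AbVar.toC_mul, ← AbVar.toC_mul, ← AbVar.toC_mul, h1]

theorem end_comm_cl (α : Matrix (Idx g) (Idx g) ℚ) (hα : A.IsEnd α) (v w : Fin n → ℂ) :
    AbVar.toC α * (K.cl v * K.cl w) = K.cl v * K.cl w * AbVar.toC α := by
  have h1 : K.cl v * K.cl w = ∑ i, ∑ j, (v i * w j) • (T K i * T K j) := by
    rw [cl_eq, cl_eq, Finset.sum_mul]
    refine Finset.sum_congr rfl fun i _ => ?_
    rw [Finset.mul_sum]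
    refine Finset.sum_congr rfl fun j _ => ?_
    rw [smul_mul_smul_comm]
  rw [h1, Finset.mul_sum, Finset.sum_mul]
  refine Finset.sum_congr rfl fun i _ => ?_
  rw [Finset.mul_sum, Finset.sum_mul]
  refine Finset.sum_congr rfl fun j _ => ?_
  rw [Matrix.mul_smul, Matrix.smul_mul, end_comm K α hα]

end K5A

theorem K5a_proof : Stmt_K5a := by
  intro g A n K
  refine ⟨K5A.rel K, K5A.cl_inj K, fun a ha v => K5A.lift K a ha v, ?_, ?_⟩
  · intro Y hY hcl
    refine K5A.scalar_of_EW K Y (K5A.mem_EW K Y hY) fun i => ?_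
    rw [← K5A.cl_single]
    exact hcl _
  · intro Y hY v w
    induction hY using Submodule.span_induction with
    | mem x hx =>
      obtain ⟨α, hα, rfl⟩ := hx
      exact K5A.end_comm_cl K α hα v w
    | zero => rw [Matrix.zero_mul, Matrix.mul_zero]
    | add x y _ _ hx hy => rw [Matrix.add_mul, Matrix.mul_add, hx, hy]
    | smul c x _ hx => rw [Matrix.smul_mul, Matrix.mul_smul, hx]

end

end Pool.Agent.K3D
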