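import Pool.Agent.K3D.Stmts

/-!
# K5b: a rational `Gam`-stable subspace of `T` is trivial
-/

open scoped BigOperators
open Matrix

namespace Pool.Agent.K3D

open Pool.Agent.DRB

namespace K5B

section

variable {g n : ℕ} {A : AbVar g} (K : KSat A n)

theorem one_ne {g : ℕ} (hg : 0 < g) : (1 : Matrix (Idx g) (Idx g) ℂ) ≠ 0 := by
  intro h
  have := congrFun (congrFun h (Sum.inl ⟨0, hg⟩)) (Sum.inl ⟨0, hg⟩)
  simp at this

theorem cl_add (v w : Fin n → ℂ) : K.cl (v + w) = K.cl v + K.cl w := by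
  simp [KSat.cl, add_smul, Finset.sum_add_distrib]

theorem cl_smul (c : ℂ) (v : Fin n → ℂ) : K.cl (c • v) = c • K.cl v := by
  simp [KSat.cl, Finset.smul_sum, smul_smul]

theorem cl_zero : K.cl 0 = 0 := by simp [KSat.cl]

/-- The Clifford map as a linear map. -/
noncomputable def clL : (Fin n → ℂ) →ₗ[ℂ] Matrix (Idx g) (Idx g) ℂ where
  toFun := K.cl
  map_add' := cl_add K
  map_smul' := cl_smul K

theorem mem_TC {Y : Matrix (Idx g) (Idx g) ℂ} : Y ∈ K.TC ↔ ∃ v, Y = K.cl v := by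
  unfold KSat.TC KSat.cl
  rw [Submodule.mem_span_range_iff_exists_fun]
  exact ⟨fun ⟨c, hc⟩ => ⟨c, hc.symm⟩, fun ⟨c, hc⟩ => ⟨c, hc.symm⟩⟩

/-- The form as a bilinear form. -/
noncomputable def bf : LinearMap.BilinForm ℂ (Fin n → ℂ) :=
  LinearMap.mk₂ ℂ K.bil
    (fun a b c => by
      simp only [KSat.bil, Pi.add_apply, ← Finset.sum_add_distrib]
      exact Finset.sum_congr rfl fun j _ => by ring)
    (fun c a b => by
      simp only [KSat.bil, Pi.smul_apply, smul_eq_mul, Finset.mul_sum]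
      exact Finset.sum_congr rfl fun j _ => by ring)
    (fun a b c => by
      simp only [KSat.bil, Pi.add_apply, ← Finset.sum_add_distrib]
      exact Finset.sum_congr rfl fun j _ => by ring)
    (fun c a b => by
      simp only [KSat.bil, Pi.smul_apply, smul_eq_mul, Finset.mul_sum]
      exact Finset.sum_congr rfl fun j _ => by ring)

theorem bf_apply (v w : Fin n → ℂ) : bf K v w = K.bil v w := rfl

theorem bil_comm (v w : Fin n → ℂ) : K.bil v w = K.bil w v := by
  simp only [KSat.bil]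
  exact Finset.sum_congr rfl fun j _ => by ring

theorem bil_add_left (a b c : Fin n → ℂ) : K.bil (a + b) c = K.bil a c + K.bil b c := by
  simp only [KSat.bil, Pi.add_apply, ← Finset.sum_add_distrib]
  exact Finset.sum_congr rfl fun j _ => by ring

theorem bil_add_right (a b c : Fin n → ℂ) : K.bil a (b + c) = K.bil a b + K.bil a c := by
  rw [bil_comm, bil_add_left, bil_comm K b, bil_comm K c]

theorem bil_smul_left (r : ℂ) (a b : Fin n → ℂ) : K.bil (r • a) b = r * K.bil a b := by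
  simp only [KSat.bil, Pi.smul_apply, smul_eq_mul, Finset.mul_sum]
  exact Finset.sum_congr rfl fun j _ => by ring

theorem bil_smul_right (r : ℂ) (a b : Fin n → ℂ) : K.bil a (r • b) = r * K.bil a b := by
  rw [bil_comm, bil_smul_left, bil_comm K b]

theorem bil_single (v : Fin n → ℂ) (i : Fin n) (c : ℂ) :
    K.bil v (Pi.single i c) = (K.q i : ℂ) * v i * c := by
  unfold KSat.bil
  rw [Finset.sum_eq_single i]
  · simp
  · intro j _ hj
    simp [Pi.single_eq_of_ne hj]
  · simp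

theorem bil_nondeg (v : Fin n → ℂ) (h : ∀ w, K.bil v w = 0) : v = 0 := by
  funext i
  have := h (Pi.single i 1)
  rw [bil_single] at this
  have hq : (K.q i : ℂ) ≠ 0 := by exact_mod_cast K.q_ne i
  simpa [hq] using this

theorem bil_map (σ : ℂ ≃ₐ[ℚ] ℂ) (v w : Fin n → ℂ) :
    K.bil (fun i => σ (v i)) (fun i => σ (w i)) = σ (K.bil v w) := by
  unfold KSat.bil
  rw [map_sum]
  refine Finset.sum_congr rfl fun j _ => ?_
  rw [map_mul, map_mul]
  have : σ (K.q j : ℂ) = (K.q j : ℂ) := by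
    have := σ.commutes (K.q j)
    simp
  rw [this]

theorem cl_map (σ : ℂ ≃ₐ[ℚ] ℂ) (v : Fin n → ℂ) :
    K.cl (fun i => σ (v i)) = (K.cl v).map σ := by
  ext r s
  simp only [KSat.cl, Matrix.sum_apply, Matrix.smul_apply, Matrix.map_apply, smul_eq_mul, map_sum,
    map_mul]
  refine Finset.sum_congr rfl fun j _ => ?_
  have : σ (AbVar.toC (K.t j) r s) = AbVar.toC (K.t j) r s := by
    simp only [AbVar.toC, Matrix.map_apply]
    exact σ.commutes _
  rw [this]

end

/-! ### Conjugation by elements of the group -/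

section

variable {g n : ℕ} {A : AbVar g} (K : KSat A n)

/-- The relations of the Clifford algebra. -/
def Rel : Prop := ∀ v w, K.cl v * K.cl w + K.cl w * K.cl v =
  (2 * K.bil v w) • (1 : Matrix (Idx g) (Idx g) ℂ)

variable {K}

theorem sq (hr : Rel K) (v : Fin n → ℂ) : K.cl v * K.cl v = K.bil v v • 1 := by
  have h := hr v v
  have h2 : (2 : ℂ) • (K.cl v * K.cl v) = (2 : ℂ) • (K.bil v v • (1 : Matrix (Idx g) (Idx g) ℂ)) := by
    rw [two_smul, h, smul_smul]
  exact smul_right_injective _ (two_ne_zero : (2 : ℂ) ≠ 0) h2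

theorem anti (hr : Rel K) (v w : Fin n → ℂ) (h : K.bil v w = 0) :
    K.cl v * K.cl w = -(K.cl w * K.cl v) := by
  have := hr v w
  rw [h, mul_zero, zero_smul] at this
  exact eq_neg_of_add_eq_zero_left this

theorem inv_mul_self (x : GL (Idx g) ℂ) : (x⁻¹).val * x.val = 1 := by
  rw [← Units.val_mul, inv_mul_cancel, Units.val_one]

theorem mul_inv_self (x : GL (Idx g) ℂ) : x.val * (x⁻¹).val = 1 := by
  rw [← Units.val_mul, mul_inv_cancel, Units.val_one]

theorem conj_mul (x : GL (Idx g) ℂ) (Y Z : Matrix (Idx g) (Idx g) ℂ) :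
    x.val * (Y * Z) * (x⁻¹).val = (x.val * Y * (x⁻¹).val) * (x.val * Z * (x⁻¹).val) := by
  have : (x.val * Y * (x⁻¹).val) * (x.val * Z * (x⁻¹).val) =
      x.val * Y * ((x⁻¹).val * x.val) * Z * (x⁻¹).val := by noncomm_ring
  rw [this, inv_mul_self]
  noncomm_ring

theorem bil_conj (hg : 0 < g) (hr : Rel K) (x : GL (Idx g) ℂ) {v w v' w' : Fin n → ℂ}
    (hv : x.val * K.cl v * (x⁻¹).val = K.cl v') (hw : x.val * K.cl w * (x⁻¹).val = K.cl w') :
    K.bil v' w' = K.bil v w := by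
  have h1 := hr v' w'
  rw [← hv, ← hw, ← conj_mul, ← conj_mul] at h1
  have h2 : x.val * (K.cl v * K.cl w) * (x⁻¹).val + x.val * (K.cl w * K.cl v) * (x⁻¹).val =
      x.val * (K.cl v * K.cl w + K.cl w * K.cl v) * (x⁻¹).val := by noncomm_ring
  rw [h2, hr v w, Matrix.mul_smul, Matrix.smul_mul, Matrix.mul_one, mul_inv_self] at h1
  have h3 : (2 * K.bil v w - 2 * K.bil v' w') • (1 : Matrix (Idx g) (Idx g) ℂ) = 0 := by
    rw [sub_smul, h1, sub_self]
  rcases smul_eq_zero.1 h3 with h4 | h4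
  · have := sub_eq_zero.1 h4
    have h5 : (2 : ℂ) ≠ 0 := two_ne_zero
    exact (mul_left_cancel₀ h5 this).symm
  · exact absurd h4 (one_ne hg)

end

/-! ### The isotropic case -/

section

variable {g n : ℕ} {A : AbVar g} {K : KSat A n}

/-- A vector orthogonal to `w` with nonzero square. -/
theorem exists_orth (hn : 3 ≤ n) (w : Fin n → ℂ) (hw : w ≠ 0) :
    ∃ b, K.bil w b = 0 ∧ K.bil b b ≠ 0 := by
  by_contra hcon
  push Not at hcon
  have key : ∀ i j : Fin n, i ≠ j → (K.q i : ℂ) * w i ^ 2 + (K.q j : ℂ) * w j ^ 2 = 0 := by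
    intro i j hij
    have h1 := hcon (((K.q j : ℂ) * w j) • Pi.single i 1 + (-((K.q i : ℂ) * w i)) • Pi.single j 1) (by
      rw [bil_add_right, bil_smul_right, bil_smul_right, bil_single, bil_single]
      ring)
    rw [bil_add_right, bil_smul_right, bil_smul_right, bil_single, bil_single] at h1
    simp only [Pi.add_apply, Pi.smul_apply, Pi.single_eq_same, smul_eq_mul,
      Pi.single_eq_of_ne hij, Pi.single_eq_of_ne hij.symm] at h1
    have hqi : (K.q i : ℂ) ≠ 0 := by exact_mod_cast K.q_ne i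
    have hqj : (K.q j : ℂ) ≠ 0 := by exact_mod_cast K.q_ne j
    have h2 : (K.q i : ℂ) * (K.q j : ℂ) * ((K.q i : ℂ) * w i ^ 2 + (K.q j : ℂ) * w j ^ 2) = 0 := by
      linear_combination h1
    rcases mul_eq_zero.1 h2 with h3 | h3
    · exact absurd h3 (mul_ne_zero hqi hqj)
    · exact h3
  apply hw
  funext i
  obtain ⟨j, hj⟩ : ∃ j : Fin n, j ≠ i := by
    by_cases h : i = ⟨0, by omega⟩
    · exact ⟨⟨1, by omega⟩, by rw [h]; simp⟩
    · exact ⟨⟨0, by omega⟩, fun h' => h h'.symm⟩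
  obtain ⟨k, hk1, hk2⟩ : ∃ k : Fin n, k ≠ i ∧ k ≠ j := by
    by_contra h
    push Not at h
    have h0 := h ⟨0, by omega⟩
    have h1 := h ⟨1, by omega⟩
    have h2 := h ⟨2, by omega⟩
    simp only [Fin.ext_iff, ne_eq] at h0 h1 h2 hj
    omega
  have e1 := key i j hj.symm
  have e2 := key i k hk1.symm
  have e3 := key j k hk2.symm
  have hqi : (K.q i : ℂ) ≠ 0 := by exact_mod_cast K.q_ne i
  have e4 : (K.q i : ℂ) * w i ^ 2 = 0 := by linear_combination (e1 + e2 - e3) / 2
  rcases mul_eq_zero.1 e4 with h | h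
  · exact absurd h hqi
  · simpa using h

/-- Anticommuting matrices of square zero have a common kernel. -/
theorem exists_ker (hg : 0 < g) (hr : Rel K) (s : Finset (Fin n → ℂ))
    (hs : ∀ v ∈ s, ∀ w ∈ s, K.bil v w = 0) :
    ∃ h : Idx g → ℂ, h ≠ 0 ∧ ∀ v ∈ s, K.cl v *ᵥ h = 0 := by
  classical
  induction s using Finset.induction_on with
  | empty =>
    refine ⟨Pi.single (Sum.inl ⟨0, hg⟩) 1, ?_, by simp⟩
    intro h
    have := congrFun h (Sum.inl ⟨0, hg⟩)
    simp at this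
  | insert a s ha ih =>
    obtain ⟨h, h0, h1⟩ := ih fun v hv w hw =>
      hs v (Finset.mem_insert_of_mem hv) w (Finset.mem_insert_of_mem hw)
    by_cases hc : K.cl a *ᵥ h = 0
    · exact ⟨h, h0, fun v hv => by
        rcases Finset.mem_insert.1 hv with rfl | hv
        · exact hc
        · exact h1 v hv⟩
    · refine ⟨K.cl a *ᵥ h, hc, fun v hv => ?_⟩
      rcases Finset.mem_insert.1 hv with rfl | hv
      · rw [Matrix.mulVec_mulVec, sq hr, hs _ (Finset.mem_insert_self _ _) _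
          (Finset.mem_insert_self _ _), zero_smul, Matrix.zero_mulVec]
      · rw [Matrix.mulVec_mulVec, anti hr v a (hs v (Finset.mem_insert_of_mem hv) a
          (Finset.mem_insert_self _ _)), Matrix.neg_mulVec, ← Matrix.mulVec_mulVec, h1 v hv,
          Matrix.mulVec_zero, neg_zero]

theorem isotropic (h5a : Stmt_K5a) (hq : DRB.Stmt_DescQ) (h3 : DRB.Stmt_Gb3) (h1e : DRB.Stmt_T1e)
    (hn : 3 ≤ n) (K : KSat A n) (W : Submodule ℂ (Fin n → ℂ))
    (haut : ∀ (σ : ℂ ≃ₐ[ℚ] ℂ), ∀ v ∈ W, (fun i => σ (v i)) ∈ W)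
    (hgam : ∀ p ∈ Gam A, ∀ v ∈ W, ∃ w ∈ W, p.1.val * K.cl v * (p.1⁻¹).val = K.cl w)
    (hiso : ∀ v ∈ W, ∀ w ∈ W, K.bil v w = 0) : W = ⊥ := by
  classical
  obtain ⟨hr, hinj, -, -, hend⟩ := h5a g A n K
  have hr' : Rel K := hr
  have hg := K.pos
  -- the common kernel
  let Kf : Submodule ℂ (Idx g → ℂ) :=
    { carrier := {h | ∀ w ∈ W, K.cl w *ᵥ h = 0}
      add_mem' := fun {a b} ha hb w hw => by
        rw [Matrix.mulVec_add, ha w hw, hb w hw, add_zero]
      zero_mem' := fun w _ => Matrix.mulVec_zero _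
      smul_mem' := fun c a ha w hw => by
        rw [Matrix.mulVec_smul, ha w hw, smul_zero] }
  have hKf : ∀ h, h ∈ Kf ↔ ∀ w ∈ W, K.cl w *ᵥ h = 0 := fun h => Iff.rfl
  have hrat : RatSpan Kf := by
    refine hq (Idx g) Kf fun σ h hh => ?_
    rw [hKf] at hh ⊢
    intro w hw
    have h1 := hh _ (haut σ.symm w hw)
    have h2 : K.cl w = (K.cl (fun i => σ.symm (w i))).map σ := by
      rw [← cl_map]
      congr 1
      funext i
      simp
    rw [h2]
    funext r
    have h3 := congrFun h1 r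
    simp only [Matrix.mulVec, dotProduct, Matrix.map_apply, Pi.zero_apply] at h3 ⊢
    have h4 := congrArg σ h3
    rw [map_sum, map_zero] at h4
    rw [← h4]
    exact Finset.sum_congr rfl fun j _ => by rw [map_mul]
  have hst : ∀ p ∈ Gam A, Kf.map p.1.val.mulVecLin ≤ Kf := by
    intro p hp
    rw [Submodule.map_le_iff_le_comap]
    intro h hh
    rw [Submodule.mem_comap, hKf]
    intro w hw
    obtain ⟨w', hw', hw2⟩ := hgam p⁻¹ (inv_mem hp) w hw
    have h3 : K.cl w * p.1.val = p.1.val * K.cl w' := by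
      rw [← hw2]
      have e1 : (p⁻¹).1 = p.1⁻¹ := rfl
      rw [e1, inv_inv]
      have : p.1.val * ((p.1⁻¹).val * K.cl w * p.1.val) = (p.1.val * (p.1⁻¹).val) * K.cl w * p.1.val := by
        noncomm_ring
      rw [this, mul_inv_self, Matrix.one_mul]
    rw [Matrix.mulVecLin_apply, Matrix.mulVec_mulVec, h3, ← Matrix.mulVec_mulVec,
      (hKf h).1 hh w' hw', Matrix.mulVec_zero]
  obtain ⟨α, hα, -, -, hα2⟩ := h1e g A Kf hrat (h3 g A Kf hrat hst)
  have hst2 : ∀ a b, ∀ h ∈ Kf, (K.cl a * K.cl b) *ᵥ h ∈ Kf := by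
    intro a b h hh
    rw [hα2] at hh ⊢
    have h5 := hend (AbVar.toC α) (Submodule.subset_span ⟨α, hα, rfl⟩) a b
    rw [Matrix.mulVec_mulVec, h5, ← Matrix.mulVec_mulVec, hh]
  -- suppose `W` is not zero
  by_contra hW
  obtain ⟨w, hw, hw0⟩ := Submodule.exists_mem_ne_zero_of_ne_bot hW
  obtain ⟨b, hb1, hb2⟩ := exists_orth (K := K) hn w hw0
  obtain ⟨a, ha⟩ : ∃ a, K.bil w a ≠ 0 := by
    by_contra h
    push Not at h
    exact hw0 (bil_nondeg K w h)
  have hbot : ∀ h ∈ Kf, h = 0 := by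
    intro h hh
    have e1 := (hKf _).1 (hst2 a b h hh) w hw
    have e2 := (hKf _).1 hh w hw
    have e3 : K.cl w * (K.cl a * K.cl b) = (2 * K.bil w a) • K.cl b -
        (2 * K.bil w b) • K.cl a + K.cl a * K.cl b * K.cl w := by
      have r1 := hr w a
      have r2 := hr w b
      have r3 : K.cl w * K.cl a = (2 * K.bil w a) • 1 - K.cl a * K.cl w := eq_sub_of_add_eq r1
      have r4 : K.cl w * K.cl b = (2 * K.bil w b) • 1 - K.cl b * K.cl w := eq_sub_of_add_eq r2
      rw [← Matrix.mul_assoc, r3, Matrix.sub_mul, Matrix.mul_assoc (K.cl a), r4, Matrix.mul_sub,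
        Matrix.smul_mul, Matrix.one_mul, Matrix.mul_smul, Matrix.mul_one]
      rw [Matrix.mul_assoc (K.cl a) (K.cl b)]
      abel
    rw [Matrix.mulVec_mulVec, e3, hb1, mul_zero, zero_smul, sub_zero, Matrix.add_mulVec,
      ← Matrix.mulVec_mulVec, e2, Matrix.mulVec_zero, add_zero, Matrix.smul_mulVec] at e1
    have e4 : K.cl b *ᵥ h = 0 := by
      rcases smul_eq_zero.1 e1 with h5 | h5
      · exact absurd h5 (mul_ne_zero two_ne_zero ha)
      · exact h5
    have e5 : (K.cl b * K.cl b) *ᵥ h = 0 := by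
      rw [← Matrix.mulVec_mulVec, e4, Matrix.mulVec_zero]
    rw [sq hr', Matrix.smul_mulVec, Matrix.one_mulVec] at e5
    exact (smul_eq_zero.1 e5).resolve_left hb2
  obtain ⟨s, hs⟩ := (IsNoetherian.noetherian W : W.FG)
  have hsW : ∀ v ∈ s, v ∈ W := fun v hv => by
    rw [← hs]; exact Submodule.subset_span hv
  obtain ⟨h, h0, h1⟩ := exists_ker hg hr' s fun v hv w hw => hiso v (hsW v hv) w (hsW w hw)
  apply h0
  apply hbot
  rw [hKf]
  intro w hw
  rw [← hs] at hw
  induction hw using Submodule.span_induction with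
  | mem x hx => exact h1 x hx
  | zero => rw [cl_zero, Matrix.zero_mulVec]
  | add x y _ _ hx hy => rw [cl_add, Matrix.add_mulVec, hx, hy, add_zero]
  | smul c x _ hx => rw [cl_smul, Matrix.smul_mulVec, hx, smul_zero]

end

/-! ### Products of vectors -/

section

variable {g n : ℕ} {A : AbVar g} {K : KSat A n}

/-- The product of the Clifford images of a list of vectors. -/
noncomputable def pr (K : KSat A n) (l : List (Fin n → ℂ)) : Matrix (Idx g) (Idx g) ℂ :=
  (l.map K.cl).prod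

theorem pr_nil : pr K [] = 1 := rfl

theorem pr_cons (a : Fin n → ℂ) (l : List (Fin n → ℂ)) : pr K (a :: l) = K.cl a * pr K l := by
  simp [pr]

theorem pr_append (l l' : List (Fin n → ℂ)) : pr K (l ++ l') = pr K l * pr K l' := by
  simp [pr]

/-- A vector orthogonal to all factors. -/
theorem pr_orth (hr : Rel K) (l : List (Fin n → ℂ)) (w : Fin n → ℂ) (h : ∀ v ∈ l, K.bil v w = 0) :
    pr K l * K.cl w = (-1 : ℂ) ^ l.length • (K.cl w * pr K l) := by
  induction l with
  | nil => simp [pr_nil]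
  | cons a l ih =>
    have h1 := ih fun v hv => h v (List.mem_cons_of_mem _ hv)
    have h2 := anti hr a w (h a List.mem_cons_self)
    rw [pr_cons, Matrix.mul_assoc, h1, Matrix.mul_smul, ← Matrix.mul_assoc, h2, List.length_cons,
      pow_succ, mul_neg_one, neg_smul, Matrix.neg_mul, smul_neg, Matrix.mul_assoc]

/-- A vector which is one of the factors, orthogonal to the others. -/
theorem pr_mem (hr : Rel K) (l₁ l₂ : List (Fin n → ℂ)) (w : Fin n → ℂ)
    (h₁ : ∀ v ∈ l₁, K.bil v w = 0) (h₂ : ∀ v ∈ l₂, K.bil v w = 0) :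
    pr K (l₁ ++ w :: l₂) * K.cl w =
      (-1 : ℂ) ^ (l₁.length + l₂.length) • (K.cl w * pr K (l₁ ++ w :: l₂)) := by
  have e1 := pr_orth hr l₁ w h₁
  have e2 := pr_orth hr l₂ w h₂
  have e3 : K.cl w * pr K l₁ = (-1 : ℂ) ^ l₁.length • (pr K l₁ * K.cl w) := by
    rw [e1, smul_smul, ← mul_pow]
    simp
  rw [pr_append, pr_cons]
  have e4 : K.cl w * (pr K l₁ * (K.cl w * pr K l₂)) = (K.cl w * pr K l₁) * K.cl w * pr K l₂ := by
    noncomm_ring
  have e5 : pr K l₁ * (K.cl w * pr K l₂) * K.cl w = pr K l₁ * K.cl w * (pr K l₂ * K.cl w) := by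
    noncomm_ring
  rw [e4, e5, e2, e3, Matrix.mul_smul, Matrix.smul_mul, Matrix.smul_mul, smul_smul]
  congr 1
  · rw [pow_add, mul_assoc, mul_comm, mul_assoc, ← mul_pow]
    simp
  · noncomm_ring

theorem pr_isUnit (hr : Rel K) (l : List (Fin n → ℂ)) (h : ∀ v ∈ l, K.bil v v ≠ 0) :
    IsUnit (pr K l) := by
  induction l with
  | nil => exact isUnit_one
  | cons a l ih =>
    rw [pr_cons]
    refine IsUnit.mul ?_ (ih fun v hv => h v (List.mem_cons_of_mem _ hv))
    have ha := h a List.mem_cons_self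
    refine ⟨⟨K.cl a, (K.bil a a)⁻¹ • K.cl a, ?_, ?_⟩, rfl⟩
    · rw [Matrix.mul_smul, sq hr, smul_smul, inv_mul_cancel₀ ha, one_smul]
    · rw [Matrix.smul_mul, sq hr, smul_smul, inv_mul_cancel₀ ha, one_smul]

/-- Even products commute with the endomorphisms. -/
theorem pr_even (hend : ∀ Y ∈ Submodule.span ℂ {Z | ∃ α ∈ A.EndQ, Z = AbVar.toC α}, ∀ v w,
      Y * (K.cl v * K.cl w) = K.cl v * K.cl w * Y) (α : Matrix (Idx g) (Idx g) ℚ) (hα : A.IsEnd α) :
    ∀ (k : ℕ) (l : List (Fin n → ℂ)), l.length = k + k →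
      pr K l * AbVar.toC α = AbVar.toC α * pr K l := by
  intro k
  induction k with
  | zero =>
    intro l hl
    have : l = [] := List.length_eq_zero_iff.1 (by omega)
    rw [this, pr_nil, Matrix.one_mul, Matrix.mul_one]
  | succ k ih =>
    intro l hl
    match l, hl with
    | [], hl => simp at hl
    | [a], hl => simp at hl; omega
    | a :: b :: l, hl =>
      have h1 := ih l (by simp at hl; omega)
      have h2 := hend (AbVar.toC α) (Submodule.subset_span ⟨α, hα, rfl⟩) a b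
      rw [pr_cons, pr_cons, ← Matrix.mul_assoc, Matrix.mul_assoc, h1, ← Matrix.mul_assoc, ← h2,
        Matrix.mul_assoc]

/-- Conjugation of products. -/
theorem pr_conj (x : GL (Idx g) ℂ) (hx : ∀ v, ∃ v', x.val * K.cl v * (x⁻¹).val = K.cl v')
    (l : List (Fin n → ℂ)) : ∃ l' : List (Fin n → ℂ), l'.length = l.length ∧
      x.val * pr K l * (x⁻¹).val = pr K l' := by
  induction l with
  | nil =>
    refine ⟨[], rfl, ?_⟩
    rw [pr_nil, Matrix.mul_one, mul_inv_self]
  | cons a l ih =>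
    obtain ⟨l', h1, h2⟩ := ih
    obtain ⟨a', ha⟩ := hx a
    refine ⟨a' :: l', by simp [h1], ?_⟩
    rw [pr_cons, conj_mul, ha, h2, pr_cons]

end

/-! ### The nondegenerate case -/

section

variable {g n : ℕ} {A : AbVar g}

/-- Orthogonal bases and orthogonal decomposition. -/
theorem orth_basis (K : KSat A n) (W : Submodule ℂ (Fin n → ℂ))
    (hnd : ∀ v ∈ W, (∀ w ∈ W, K.bil v w = 0) → v = 0) :
    ∃ (k : ℕ) (b : Fin k → (Fin n → ℂ)), (∀ i, b i ∈ W) ∧ Function.Injective b ∧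
      (∀ i j, i ≠ j → K.bil (b i) (b j) = 0) ∧ (∀ i, K.bil (b i) (b i) ≠ 0) ∧
      (∀ w ∈ W, w ∈ Submodule.span ℂ (Set.range b)) ∧
      ∀ v, ∃ a ∈ W, ∃ u, (∀ w ∈ W, K.bil u w = 0) ∧ v = a + u := by
  classical
  let : Invertible (2 : ℂ) := invertibleOfNonzero two_ne_zero
  let B' : LinearMap.BilinForm ℂ W := (bf K).domRestrict₁₂ W W
  have hs : LinearMap.IsSymm B' := ⟨fun x y => bil_comm K x.1 y.1⟩
  obtain ⟨b, hb⟩ := LinearMap.BilinForm.exists_orthogonal_basis hs
  have horth : ∀ i j, i ≠ j → K.bil (b i : Fin n → ℂ) (b j) = 0 := fun i j hij => hb hij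
  have hspan : ∀ w ∈ W, w ∈ Submodule.span ℂ (Set.range fun i => (b i : Fin n → ℂ)) := by
    intro w hw
    have h1 := Submodule.mem_map_of_mem (f := W.subtype) (b.mem_span ⟨w, hw⟩)
    rw [Submodule.map_span, ← Set.range_comp] at h1
    exact h1
  have hne : ∀ i, K.bil (b i : Fin n → ℂ) (b i) ≠ 0 := by
    intro i hi
    apply b.ne_zero i
    apply Subtype.ext
    apply hnd _ (b i).2
    intro w hw
    have := hspan w hw
    induction this using Submodule.span_induction with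
    | mem x hx =>
      obtain ⟨j, rfl⟩ := hx
      by_cases hij : i = j
      · subst hij; exact hi
      · exact horth i j hij
    | zero => simpa using bil_smul_right K 0 (b i : Fin n → ℂ) 0
    | add x y hx' hy' hx hy =>
      rw [bil_add_right, hx, hy, add_zero]
      all_goals
        first
          | exact (Submodule.span_le.2 (by rintro _ ⟨j, rfl⟩; exact (b j).2)) hx'
          | exact (Submodule.span_le.2 (by rintro _ ⟨j, rfl⟩; exact (b j).2)) hy'
    | smul c x hx' hx =>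
      rw [bil_smul_right, hx, mul_zero]
      exact (Submodule.span_le.2 (by rintro _ ⟨j, rfl⟩; exact (b j).2)) hx'
  refine ⟨Module.finrank ℂ W, fun i => (b i : Fin n → ℂ), fun i => (b i).2,
    Subtype.coe_injective.comp b.injective, horth, hne, hspan, ?_⟩
  intro v
  refine ⟨∑ i, (K.bil v (b i) / K.bil (b i : Fin n → ℂ) (b i)) • (b i : Fin n → ℂ),
    Submodule.sum_mem _ fun i _ => Submodule.smul_mem _ _ (b i).2,
    v - ∑ i, (K.bil v (b i) / K.bil (b i : Fin n → ℂ) (b i)) • (b i : Fin n → ℂ), ?_, by abel⟩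
  have hbi : ∀ j, K.bil (v - ∑ i, (K.bil v (b i) / K.bil (b i : Fin n → ℂ) (b i)) •
      (b i : Fin n → ℂ)) (b j) = 0 := by
    intro j
    rw [← bf_apply, map_sub, map_sum, LinearMap.sub_apply, LinearMap.sum_apply,
      Finset.sum_eq_single j]
    · rw [map_smul, LinearMap.smul_apply, smul_eq_mul, bf_apply, bf_apply, div_mul_cancel₀ _ (hne j),
        sub_self]
    · intro i _ hij
      rw [map_smul, LinearMap.smul_apply, bf_apply, horth i j hij, smul_zero]
    · intro h; exact absurd (Finset.mem_univ j) h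
  intro w hw
  have := hspan w hw
  induction this using Submodule.span_induction with
  | mem x hx =>
    obtain ⟨j, rfl⟩ := hx
    exact hbi j
  | zero => simpa using bil_smul_right K 0 _ 0
  | add x y hx' hy' hx hy =>
    rw [bil_add_right, hx, hy, add_zero]
    all_goals
      first
        | exact (Submodule.span_le.2 (by rintro _ ⟨j, rfl⟩; exact (b j).2)) hx'
        | exact (Submodule.span_le.2 (by rintro _ ⟨j, rfl⟩; exact (b j).2)) hy'
  | smul c x hx' hx =>
    rw [bil_smul_right, hx, mul_zero]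
    exact (Submodule.span_le.2 (by rintro _ ⟨j, rfl⟩; exact (b j).2)) hx'

/-- The volume element of a nondegenerate subspace. -/
theorem exists_vol (K : KSat A n) (hr : Rel K) (W : Submodule ℂ (Fin n → ℂ))
    (hnd : ∀ v ∈ W, (∀ w ∈ W, K.bil v w = 0) → v = 0) :
    ∃ (l : List (Fin n → ℂ)) (e : ℂ), e * e = 1 ∧ IsUnit (pr K l) ∧
      (∀ w ∈ W, pr K l * K.cl w = e • (K.cl w * pr K l)) ∧
      (∀ w, (∀ v ∈ W, K.bil w v = 0) → pr K l * K.cl w = (-e) • (K.cl w * pr K l)) := by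
  classical
  obtain ⟨k, b, hbW, hinj, horth, hne, hspan, -⟩ := orth_basis K W hnd
  refine ⟨List.ofFn b, (-1 : ℂ) ^ (k + 1), ?_, ?_, ?_, ?_⟩
  · rw [← mul_pow]; simp
  · refine pr_isUnit hr _ fun v hv => ?_
    obtain ⟨i, rfl⟩ := (List.mem_ofFn' _ _).1 hv
    exact hne i
  · intro w hw
    have := hspan w hw
    clear hw
    induction this using Submodule.span_induction with
    | mem x hx =>
      obtain ⟨j, rfl⟩ := hx
      have hmem : b j ∈ List.ofFn b := (List.mem_ofFn' _ _).2 ⟨j, rfl⟩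
      obtain ⟨s, t, hst⟩ := List.append_of_mem hmem
      have hnod : (List.ofFn b).Nodup := List.nodup_ofFn.2 hinj
      rw [hst] at hnod
      have hlen : s.length + t.length + 1 = k := by
        have := congrArg List.length hst
        simp at this
        omega
      have hor : ∀ v ∈ List.ofFn b, v ≠ b j → K.bil v (b j) = 0 := by
        intro v hv hvj
        obtain ⟨i, rfl⟩ := (List.mem_ofFn' _ _).1 hv
        exact horth i j fun h => hvj (by rw [h])
      have h1 : ∀ v ∈ s, K.bil v (b j) = 0 := by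
        intro v hv
        refine hor v (by rw [hst]; exact List.mem_append_left _ hv) ?_
        rintro rfl
        rw [List.nodup_append] at hnod
        exact hnod.2.2 _ hv _ List.mem_cons_self rfl
      have h2 : ∀ v ∈ t, K.bil v (b j) = 0 := by
        intro v hv
        refine hor v (by rw [hst]; exact List.mem_append_right _ (List.mem_cons_of_mem _ hv)) ?_
        rintro rfl
        rw [List.nodup_append, List.nodup_cons] at hnod
        exact hnod.2.1.1 hv
      have h3 := pr_mem hr s t (b j) h1 h2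
      rw [hst, h3]
      congr 1
      rw [← hlen, pow_succ, pow_succ]
      ring
    | zero => simp [cl_zero]
    | add x y _ _ hx hy =>
      rw [cl_add, Matrix.mul_add, hx, hy, Matrix.add_mul, smul_add]
    | smul c x _ hx =>
      rw [cl_smul, Matrix.mul_smul, hx, Matrix.smul_mul, smul_comm]
  · intro w hw
    rw [pr_orth hr _ w fun v hv => ?_]
    · congr 1
      simp [pow_succ]
    · obtain ⟨i, rfl⟩ := (List.mem_ofFn' _ _).1 hv
      rw [bil_comm]
      exact hw _ (hbW i)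

/-- A nondegenerate `Gam`-stable subspace is trivial. -/
theorem nondeg (h5a : Stmt_K5a) (h2d : Stmt_K2d) (hfin : DRB.Stmt_Fin) (K : KSat A n)
    (W : Submodule ℂ (Fin n → ℂ))
    (hgam : ∀ p ∈ Gam A, ∀ v ∈ W, ∃ w ∈ W, p.1.val * K.cl v * (p.1⁻¹).val = K.cl w)
    (hnd : ∀ v ∈ W, (∀ w ∈ W, K.bil v w = 0) → v = 0) : W = ⊥ ∨ W = ⊤ := by
  classical
  obtain ⟨hr, hinj, -, hsc, hend⟩ := h5a g A n K
  have hr' : Rel K := hr
  have hg := K.pos
  by_contra hcon
  rw [not_or] at hcon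
  obtain ⟨hbot, htop⟩ := hcon
  obtain ⟨k, b, hbW, hbinj, horth, hne, hspan, hdec⟩ := orth_basis K W hnd
  obtain ⟨l, e, he, hunit, hW1, hW2⟩ := exists_vol K hr' W hnd
  -- conjugation on `T`
  have hT : ∀ p ∈ Gam A, ∀ v, ∃ v', p.1.val * K.cl v * (p.1⁻¹).val = K.cl v' := fun p hp v =>
    (mem_TC K).1 ((h2d g A n K).1 p hp _ ((mem_TC K).2 ⟨v, rfl⟩))
  have hperp : ∀ p ∈ Gam A, ∀ v, (∀ w ∈ W, K.bil v w = 0) →
      ∃ v', (∀ w ∈ W, K.bil v' w = 0) ∧ p.1.val * K.cl v * (p.1⁻¹).val = K.cl v' := by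
    intro p hp v hv
    obtain ⟨v', hv'⟩ := hT p hp v
    refine ⟨v', fun w hw => ?_, hv'⟩
    obtain ⟨w₁, hw₁, hw₂⟩ := hgam p⁻¹ (inv_mem hp) w hw
    have h1 : p.1.val * K.cl w₁ * (p.1⁻¹).val = K.cl w := by
      rw [← hw₂]
      have e1 : (p⁻¹).1 = p.1⁻¹ := rfl
      rw [e1, inv_inv]
      have : p.1.val * ((p.1⁻¹).val * K.cl w * p.1.val) * (p.1⁻¹).val =
        (p.1.val * (p.1⁻¹).val) * K.cl w * (p.1.val * (p.1⁻¹).val) := by noncomm_ring
      rw [this, mul_inv_self, Matrix.one_mul, Matrix.mul_one]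
    rw [bil_conj hg hr' p.1 hv' h1]
    exact hv w₁ hw₁
  set R := pr K l with hR
  -- the conjugates of `R`
  have hconjW : ∀ p ∈ Gam A, ∀ w ∈ W, (p.1.val * R * (p.1⁻¹).val) * K.cl w =
      e • (K.cl w * (p.1.val * R * (p.1⁻¹).val)) := by
    intro p hp w hw
    obtain ⟨w₁, hw₁, hw₂⟩ := hgam p⁻¹ (inv_mem hp) w hw
    have h1 : p.1.val * K.cl w₁ * (p.1⁻¹).val = K.cl w := by
      rw [← hw₂]
      have e1 : (p⁻¹).1 = p.1⁻¹ := rfl
      rw [e1, inv_inv]
      have : p.1.val * ((p.1⁻¹).val * K.cl w * p.1.val) * (p.1⁻¹).val =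
        (p.1.val * (p.1⁻¹).val) * K.cl w * (p.1.val * (p.1⁻¹).val) := by noncomm_ring
      rw [this, mul_inv_self, Matrix.one_mul, Matrix.mul_one]
    rw [← h1, ← conj_mul, ← conj_mul, hW1 w₁ hw₁, Matrix.mul_smul, Matrix.smul_mul]
  have hconjP : ∀ p ∈ Gam A, ∀ w, (∀ v ∈ W, K.bil w v = 0) →
      (p.1.val * R * (p.1⁻¹).val) * K.cl w =
      (-e) • (K.cl w * (p.1.val * R * (p.1⁻¹).val)) := by
    intro p hp w hw
    obtain ⟨w₁, hw₁, hw₂⟩ := hperp p⁻¹ (inv_mem hp) w hw
    have h1 : p.1.val * K.cl w₁ * (p.1⁻¹).val = K.cl w := by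
      rw [← hw₂]
      have e1 : (p⁻¹).1 = p.1⁻¹ := rfl
      rw [e1, inv_inv]
      have : p.1.val * ((p.1⁻¹).val * K.cl w * p.1.val) * (p.1⁻¹).val =
        (p.1.val * (p.1⁻¹).val) * K.cl w * (p.1.val * (p.1⁻¹).val) := by noncomm_ring
      rw [this, mul_inv_self, Matrix.one_mul, Matrix.mul_one]
    rw [← h1, ← conj_mul, ← conj_mul, hW2 w₁ hw₁, Matrix.mul_smul, Matrix.smul_mul]
  -- products `R * R'`
  have hscal : ∀ p ∈ Gam A, ∃ c : ℂ, R * (p.1.val * R * (p.1⁻¹).val) = c • 1 := by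
    intro p hp
    apply hsc
    · intro α hα
      obtain ⟨l', hl', hl2⟩ := pr_conj p.1 (hT p hp) l
      rw [hR, hl2, ← pr_append]
      exact pr_even hend α hα l.length (l ++ l') (by rw [List.length_append, hl'])
    · intro v
      obtain ⟨a, ha, u, hu, rfl⟩ := hdec v
      have h1 : R * (p.1.val * R * (p.1⁻¹).val) * K.cl a =
          K.cl a * (R * (p.1.val * R * (p.1⁻¹).val)) := by
        rw [Matrix.mul_assoc, hconjW p hp a ha, Matrix.mul_smul, ← Matrix.mul_assoc, hW1 a ha,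
          Matrix.smul_mul, smul_smul, he, one_smul, Matrix.mul_assoc]
      have h2 : R * (p.1.val * R * (p.1⁻¹).val) * K.cl u =
          K.cl u * (R * (p.1.val * R * (p.1⁻¹).val)) := by
        rw [Matrix.mul_assoc, hconjP p hp u hu, Matrix.mul_smul, ← Matrix.mul_assoc, hW2 u hu,
          Matrix.smul_mul, smul_smul, neg_mul_neg, he, one_smul, Matrix.mul_assoc]
      rw [cl_add, Matrix.mul_add, h1, h2, Matrix.add_mul]
  obtain ⟨ρ, hρ⟩ := hscal 1 (one_mem _)
  have hρ' : R * R = ρ • 1 := by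
    rw [← hρ]
    have e1 : ((1 : GL (Idx g) ℂ × ℂˣ)).1 = 1 := rfl
    rw [e1, inv_one, Units.val_one, Matrix.one_mul, Matrix.mul_one]
  have hρ0 : ρ ≠ 0 := by
    intro h0
    rw [h0, zero_smul] at hρ'
    have := hunit.mul hunit
    rw [hρ'] at this
    exact one_ne hg (by
      obtain ⟨u, hu⟩ := this
      have h1 := u.mul_inv
      rw [hu, Matrix.zero_mul] at h1
      exact h1.symm)
  have horb : ∀ p ∈ Gam A, p.1.val * R * (p.1⁻¹).val = R ∨ p.1.val * R * (p.1⁻¹).val = -R := by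
    intro p hp
    obtain ⟨c, hc⟩ := hscal p hp
    have h1 : ρ • (p.1.val * R * (p.1⁻¹).val) = c • R := by
      have : R * (R * (p.1.val * R * (p.1⁻¹).val)) = c • R := by
        rw [hc, Matrix.mul_smul, Matrix.mul_one]
      rw [← Matrix.mul_assoc, hρ', Matrix.smul_mul, Matrix.one_mul] at this
      exact this
    have h2 : p.1.val * R * (p.1⁻¹).val = (ρ⁻¹ * c) • R := by
      rw [← smul_smul, ← h1, smul_smul, inv_mul_cancel₀ hρ0, one_smul]
    have h3 : (p.1.val * R * (p.1⁻¹).val) * (p.1.val * R * (p.1⁻¹).val) = ρ • 1 := by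
      rw [← conj_mul, hρ', Matrix.mul_smul, Matrix.smul_mul, Matrix.mul_one, mul_inv_self]
    rw [h2, Matrix.smul_mul, Matrix.mul_smul, smul_smul, hρ', smul_smul] at h3
    have h4 : ((ρ⁻¹ * c) * (ρ⁻¹ * c) * ρ - ρ) • (1 : Matrix (Idx g) (Idx g) ℂ) = 0 := by
      rw [sub_smul, h3, sub_self]
    have h5 : (ρ⁻¹ * c) * (ρ⁻¹ * c) * ρ - ρ = 0 := (smul_eq_zero.1 h4).resolve_right (one_ne hg)
    have h6 : ρ * ((ρ⁻¹ * c - 1) * (ρ⁻¹ * c + 1)) = 0 := by linear_combination h5
    rcases mul_eq_zero.1 ((mul_eq_zero.1 h6).resolve_left hρ0) with h7 | h7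
    · left; rw [h2, sub_eq_zero.1 h7, one_smul]
    · right; rw [h2, eq_neg_of_add_eq_zero_left h7, neg_smul, one_smul]
  have hRend := hfin g A R (by
    refine Set.Finite.subset (Set.toFinite {R, -R}) ?_
    rintro Y ⟨p, hp, rfl⟩
    rcases horb p hp with h | h
    · rw [h]; exact Set.mem_insert _ _
    · rw [h]; exact Set.mem_insert_of_mem _ rfl)
  -- an anisotropic vector of `W`
  obtain ⟨w, hw, hww⟩ : ∃ w ∈ W, K.bil w w ≠ 0 := by
    obtain ⟨w, hw, hw0⟩ := Submodule.exists_mem_ne_zero_of_ne_bot hbot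
    have h1 := hspan w hw
    have : Nonempty (Fin k) := by
      by_contra h
      rw [not_nonempty_iff] at h
      rw [Set.range_eq_empty, Submodule.span_empty, Submodule.mem_bot] at h1
      exact hw0 h1
    obtain ⟨i⟩ := this
    exact ⟨b i, hbW i, hne i⟩
  -- an anisotropic vector orthogonal to `W`
  obtain ⟨u, hu, huu⟩ : ∃ u, (∀ w ∈ W, K.bil u w = 0) ∧ K.bil u u ≠ 0 := by
    obtain ⟨v, hv⟩ : ∃ v, v ∉ W := by
      by_contra h
      push Not at h
      exact htop (Submodule.eq_top_iff'.2 h)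
    obtain ⟨a, ha, u, hu, rfl⟩ := hdec v
    have hu0 : u ≠ 0 := by
      rintro rfl
      exact hv (by rw [add_zero]; exact ha)
    by_cases huu : K.bil u u = 0
    · obtain ⟨z, hz⟩ : ∃ z, K.bil u z ≠ 0 := by
        by_contra h
        push Not at h
        exact hu0 (bil_nondeg K u h)
      obtain ⟨a', ha', u', hu', rfl⟩ := hdec z
      rw [bil_add_right, hu a' ha', zero_add] at hz
      by_cases h' : K.bil u' u' = 0
      · refine ⟨u + u', fun w hw => by rw [bil_add_left, hu w hw, hu' w hw, add_zero], ?_⟩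
        rw [bil_add_left, bil_add_right, bil_add_right, huu, h', bil_comm K u' u]
        intro h
        apply hz
        linear_combination h / 2
      · exact ⟨u', hu', h'⟩
    · exact ⟨u, hu, huu⟩
  have h1 := hend R hRend w u
  have h2 : R * (K.cl w * K.cl u) = (-1 : ℂ) • (K.cl w * K.cl u * R) := by
    rw [← Matrix.mul_assoc, hW1 w hw, Matrix.smul_mul, Matrix.mul_assoc (K.cl w), hW2 u hu,
      Matrix.mul_smul, smul_smul, mul_neg, he, ← Matrix.mul_assoc]
  rw [h1] at h2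
  have h3 : (2 : ℂ) • (K.cl w * K.cl u * R) = 0 := by
    have : (2 : ℂ) • (K.cl w * K.cl u * R) = K.cl w * K.cl u * R - (-1 : ℂ) • (K.cl w * K.cl u * R) := by
      rw [two_smul, neg_one_smul, sub_neg_eq_add]
    rw [this, ← h2, sub_self]
  have h4 : K.cl w * K.cl u * R = 0 := (smul_eq_zero.1 h3).resolve_left two_ne_zero
  have h5 : IsUnit (K.cl w * K.cl u * R) := by
    have e1 := pr_isUnit hr' [w, u] (by
      intro v hv
      rcases List.mem_cons.1 hv with rfl | hv
      · exact hww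
      · rcases List.mem_cons.1 hv with rfl | hv
        · exact huu
        · simp at hv)
    rw [pr_cons, pr_cons, pr_nil, Matrix.mul_one] at e1
    exact e1.mul hunit
  rw [h4] at h5
  obtain ⟨z, hz⟩ := h5
  have h6 := z.mul_inv
  rw [hz, Matrix.zero_mul] at h6
  exact one_ne hg h6.symm

end

end K5B

theorem K5b_proof (h5a : Stmt_K5a) (h2d : Stmt_K2d) (hq : DRB.Stmt_DescQ) (h3 : DRB.Stmt_Gb3)
    (h1e : DRB.Stmt_T1e) (hfin : DRB.Stmt_Fin) : Stmt_K5b := by
  intro g A n K hn W haut hgam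
  have hr : K5B.Rel K := (h5a g A n K).1
  -- the radical
  let W₀ : Submodule ℂ (Fin n → ℂ) :=
    { carrier := {v | v ∈ W ∧ ∀ w ∈ W, K.bil v w = 0}
      add_mem' := fun {a b} ha hb => ⟨W.add_mem ha.1 hb.1, fun w hw => by
        rw [K5B.bil_add_left, ha.2 w hw, hb.2 w hw, add_zero]⟩
      zero_mem' := ⟨W.zero_mem, fun w _ => by
        simpa using K5B.bil_smul_left K 0 0 w⟩
      smul_mem' := fun c a ha => ⟨W.smul_mem c ha.1, fun w hw => by
        rw [K5B.bil_smul_left, ha.2 w hw, mul_zero]⟩ }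
  have hW₀ : ∀ v, v ∈ W₀ ↔ v ∈ W ∧ ∀ w ∈ W, K.bil v w = 0 := fun v => Iff.rfl
  have h0 : W₀ = ⊥ := by
    refine K5B.isotropic h5a hq h3 h1e hn K W₀ ?_ ?_ ?_
    · intro σ v hv
      rw [hW₀] at hv ⊢
      refine ⟨haut σ v hv.1, fun w hw => ?_⟩
      have h1 := hv.2 _ (haut σ.symm w hw)
      have h2 := K5B.bil_map K σ v (fun i => σ.symm (w i))
      rw [h1, map_zero] at h2
      simpa using h2
    · intro p hp v hv
      obtain ⟨v', hv', hv2⟩ := hgam p hp v hv.1
      refine ⟨v', ⟨hv', fun w hw => ?_⟩, hv2⟩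
      obtain ⟨w₁, hw₁, hw₂⟩ := hgam p⁻¹ (inv_mem hp) w hw
      have h1 : p.1.val * K.cl w₁ * (p.1⁻¹).val = K.cl w := by
        rw [← hw₂]
        have e1 : (p⁻¹).1 = p.1⁻¹ := rfl
        rw [e1, inv_inv]
        have : p.1.val * ((p.1⁻¹).val * K.cl w * p.1.val) * (p.1⁻¹).val =
          (p.1.val * (p.1⁻¹).val) * K.cl w * (p.1.val * (p.1⁻¹).val) := by noncomm_ring
        rw [this, K5B.mul_inv_self, Matrix.one_mul, Matrix.mul_one]
      rw [K5B.bil_conj K.pos hr p.1 hv2 h1]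
      exact hv.2 w₁ hw₁
    · intro v hv w hw
      exact hv.2 w hw.1
  refine K5B.nondeg h5a h2d hfin K W hgam fun v hv hv2 => ?_
  have : v ∈ W₀ := ⟨hv, hv2⟩
  rw [h0] at this
  exact (Submodule.mem_bot ℂ).1 this

end Pool.Agent.K3D
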