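import Pool.Agent.K3D.K5b

/-!
# K5C: a nondegenerate subspace of `T` stable under the Lie algebra is trivial
-/

open scoped BigOperators
open Matrix

namespace Pool.Agent.K3D

open Pool.Agent.DRB

namespace K5C

section

variable {g n : ℕ} {A : AbVar g} {K : KSat A n}

open K5B

/-- The derivative of a product of vectors. -/
theorem ad_pr (X : Matrix (Idx g) (Idx g) ℂ) (hX : ∀ v, ∃ v', X * K.cl v - K.cl v * X = K.cl v') :
    ∀ l : List (Fin n → ℂ), X * pr K l - pr K l * X ∈
      Submodule.span ℂ {Y | ∃ l' : List (Fin n → ℂ), l'.length = l.length ∧ Y = pr K l'} := by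
  intro l
  induction l with
  | nil =>
    rw [pr_nil, Matrix.mul_one, Matrix.one_mul, sub_self]
    exact Submodule.zero_mem _
  | cons a l ih =>
    rw [pr_cons]
    have e1 : X * (K.cl a * pr K l) - K.cl a * pr K l * X =
        (X * K.cl a - K.cl a * X) * pr K l + K.cl a * (X * pr K l - pr K l * X) := by noncomm_ring
    rw [e1]
    obtain ⟨a', ha'⟩ := hX a
    rw [ha']
    refine Submodule.add_mem _ (Submodule.subset_span ⟨a' :: l, by simp, by rw [pr_cons]⟩) ?_
    have h2 : ∀ Y ∈ Submodule.span ℂ {Y | ∃ l' : List (Fin n → ℂ), l'.length = l.length ∧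
        Y = pr K l'}, K.cl a * Y ∈ Submodule.span ℂ {Y | ∃ l' : List (Fin n → ℂ),
        l'.length = (a :: l).length ∧ Y = pr K l'} := by
      intro Y hY
      induction hY using Submodule.span_induction with
      | mem x hx =>
        obtain ⟨l', hl', rfl⟩ := hx
        exact Submodule.subset_span ⟨a :: l', by simp [hl'], by rw [pr_cons]⟩
      | zero => rw [Matrix.mul_zero]; exact Submodule.zero_mem _
      | add x y _ _ hx hy => rw [Matrix.mul_add]; exact Submodule.add_mem _ hx hy
      | smul c x _ hx => rw [Matrix.mul_smul]; exact Submodule.smul_mem _ _ hx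
    exact h2 _ ih

/-- A nondegenerate subspace stable under the Lie algebra is trivial. -/
theorem nondeg (h2d : Stmt_K2d) (h4 : Stmt_K4) (h5a : Stmt_K5a) (K : KSat A n)
    (W : Submodule ℂ (Fin n → ℂ))
    (hstab : ∀ X ξ, InLie (Gam A) X ξ → ∀ v ∈ W, ∃ w ∈ W, X * K.cl v - K.cl v * X = K.cl w)
    (hnd : ∀ v ∈ W, (∀ w ∈ W, K.bil v w = 0) → v = 0) : W = ⊥ ∨ W = ⊤ := by
  classical
  obtain ⟨hr, hinj, -, hsc, hend⟩ := h5a g A n K
  have hr' : Rel K := hr
  have hg := K.pos
  by_contra hcon
  rw [not_or] at hcon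
  obtain ⟨hbot, htop⟩ := hcon
  obtain ⟨k, b, hbW, hbinj, horth, hne, hspan, hdec⟩ := orth_basis K W hnd
  obtain ⟨l, e, he, hunit, hW1, hW2⟩ := exists_vol K hr' W hnd
  have hT : ∀ X ξ, InLie (Gam A) X ξ → ∀ v, ∃ v', X * K.cl v - K.cl v * X = K.cl v' :=
    fun X ξ hX v => (mem_TC K).1 ((h2d g A n K).2 X ξ hX _ ((mem_TC K).2 ⟨v, rfl⟩))
  have hskew : ∀ X ξ, InLie (Gam A) X ξ → ∀ v w v' w', X * K.cl v - K.cl v * X = K.cl v' →
      X * K.cl w - K.cl w * X = K.cl w' → K.bil v' w + K.bil v w' = 0 := by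
    intro X ξ _ v w v' w' hv hw
    have h1 := hr v' w
    have h2 := hr v w'
    rw [← hv] at h1
    rw [← hw] at h2
    have h3 : (X * K.cl v - K.cl v * X) * K.cl w + K.cl w * (X * K.cl v - K.cl v * X) +
        (K.cl v * (X * K.cl w - K.cl w * X) + (X * K.cl w - K.cl w * X) * K.cl v) =
        X * (K.cl v * K.cl w + K.cl w * K.cl v) - (K.cl v * K.cl w + K.cl w * K.cl v) * X := by
      noncomm_ring
    rw [h1, h2, hr v w] at h3
    rw [Matrix.mul_smul, Matrix.smul_mul, Matrix.mul_one, Matrix.one_mul, sub_self, ← add_smul] at h3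
    rcases smul_eq_zero.1 h3 with h4 | h4
    · have h5 : (2 : ℂ) * (K.bil v' w + K.bil v w') = 0 := by
        rw [mul_add]
        exact h4
      exact (mul_eq_zero.1 h5).resolve_left two_ne_zero
    · exact absurd h4 (one_ne K.pos)
  have hperp : ∀ X ξ, InLie (Gam A) X ξ → ∀ v, (∀ w ∈ W, K.bil v w = 0) →
      ∃ v', (∀ w ∈ W, K.bil v' w = 0) ∧ X * K.cl v - K.cl v * X = K.cl v' := by
    intro X ξ hX v hv
    obtain ⟨v', hv'⟩ := hT X ξ hX v
    refine ⟨v', fun w hw => ?_, hv'⟩
    obtain ⟨w', hw', hw2⟩ := hstab X ξ hX w hw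
    have h1 := hskew X ξ hX v w v' w' hv' hw2
    rw [hv w' hw', add_zero] at h1
    exact h1
  set R := pr K l with hR
  -- the square of `R` is a nonzero scalar
  obtain ⟨ρ, hρ'⟩ : ∃ ρ : ℂ, R * R = ρ • 1 := by
    apply hsc
    · intro α hα
      rw [hR, ← pr_append]
      exact pr_even hend α hα l.length (l ++ l) (by rw [List.length_append])
    · intro v
      obtain ⟨a, ha, u, hu, rfl⟩ := hdec v
      have h1 : R * R * K.cl a = K.cl a * (R * R) := by
        rw [Matrix.mul_assoc, hW1 a ha, Matrix.mul_smul, ← Matrix.mul_assoc, hW1 a ha,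
          Matrix.smul_mul, smul_smul, he, one_smul, Matrix.mul_assoc]
      have h2 : R * R * K.cl u = K.cl u * (R * R) := by
        rw [Matrix.mul_assoc, hW2 u hu, Matrix.mul_smul, ← Matrix.mul_assoc, hW2 u hu,
          Matrix.smul_mul, smul_smul, neg_mul_neg, he, one_smul, Matrix.mul_assoc]
      rw [cl_add, Matrix.mul_add, h1, h2, Matrix.add_mul]
  have hρ0 : ρ ≠ 0 := by
    intro h0
    rw [h0, zero_smul] at hρ'
    have := hunit.mul hunit
    rw [hρ'] at this
    exact one_ne hg (by
      obtain ⟨u, hu⟩ := this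
      have h1 := u.mul_inv
      rw [hu, Matrix.zero_mul] at h1
      exact h1.symm)
  -- the Lie algebra commutes with `R`
  have hcommR : ∀ X ξ, InLie (Gam A) X ξ → X * R = R * X := by
    intro X ξ hX
    have hY1 : ∀ w ∈ W, (X * R - R * X) * K.cl w = e • (K.cl w * (X * R - R * X)) := by
      intro w hw
      obtain ⟨w', hw', hw2⟩ := hstab X ξ hX w hw
      have e1 : (X * R - R * X) * K.cl w = X * (R * K.cl w) - (R * K.cl w) * X -
          R * (X * K.cl w - K.cl w * X) := by noncomm_ring
      rw [e1, hw2, hW1 w hw, hW1 w' hw', ← hw2, Matrix.mul_smul, Matrix.smul_mul, ← smul_sub,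
        ← smul_sub]
      congr 1
      noncomm_ring
    have hY2 : ∀ w, (∀ v ∈ W, K.bil w v = 0) →
        (X * R - R * X) * K.cl w = (-e) • (K.cl w * (X * R - R * X)) := by
      intro w hw
      obtain ⟨w', hw', hw2⟩ := hperp X ξ hX w hw
      have e1 : (X * R - R * X) * K.cl w = X * (R * K.cl w) - (R * K.cl w) * X -
          R * (X * K.cl w - K.cl w * X) := by noncomm_ring
      rw [e1, hw2, hW2 w hw, hW2 w' hw', ← hw2, Matrix.mul_smul, Matrix.smul_mul, ← smul_sub,
        ← smul_sub]
      congr 1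
      noncomm_ring
    obtain ⟨c, hc⟩ : ∃ c : ℂ, R * (X * R - R * X) = c • 1 := by
      apply hsc
      · intro α hα
        have h1 : ∀ Y ∈ Submodule.span ℂ {Y | ∃ l' : List (Fin n → ℂ), l'.length = l.length ∧
            Y = pr K l'}, R * Y * AbVar.toC α = AbVar.toC α * (R * Y) := by
          intro Y hY
          induction hY using Submodule.span_induction with
          | mem x hx =>
            obtain ⟨l', hl', rfl⟩ := hx
            rw [hR, ← pr_append]
            exact pr_even hend α hα l.length (l ++ l') (by rw [List.length_append, hl'])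
          | zero => simp
          | add x y _ _ hx hy =>
            rw [Matrix.mul_add, Matrix.add_mul, hx, hy, Matrix.mul_add]
          | smul c x _ hx =>
            rw [Matrix.mul_smul, Matrix.smul_mul, hx, Matrix.mul_smul]
        exact h1 _ (ad_pr X (hT X ξ hX) l)
      · intro v
        obtain ⟨a, ha, u, hu, rfl⟩ := hdec v
        have h1 : R * (X * R - R * X) * K.cl a = K.cl a * (R * (X * R - R * X)) := by
          rw [Matrix.mul_assoc, hY1 a ha, Matrix.mul_smul, ← Matrix.mul_assoc, hW1 a ha,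
            Matrix.smul_mul, smul_smul, he, one_smul, Matrix.mul_assoc]
        have h2 : R * (X * R - R * X) * K.cl u = K.cl u * (R * (X * R - R * X)) := by
          rw [Matrix.mul_assoc, hY2 u hu, Matrix.mul_smul, ← Matrix.mul_assoc, hW2 u hu,
            Matrix.smul_mul, smul_smul, neg_mul_neg, he, one_smul, Matrix.mul_assoc]
        rw [cl_add, Matrix.mul_add, h1, h2, Matrix.add_mul]
    have h1 : ρ • (X * R - R * X) = c • R := by
      have : R * (R * (X * R - R * X)) = c • R := by
        rw [hc, Matrix.mul_smul, Matrix.mul_one]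
      rw [← Matrix.mul_assoc, hρ', Matrix.smul_mul, Matrix.one_mul] at this
      exact this
    have h2 : X * R - R * X = (ρ⁻¹ * c) • R := by
      rw [← smul_smul, ← h1, smul_smul, inv_mul_cancel₀ hρ0, one_smul]
    have h3 : (X * R - R * X) * R + R * (X * R - R * X) = 0 := by
      have e1 : (X * R - R * X) * R + R * (X * R - R * X) = X * (R * R) - (R * R) * X := by
        noncomm_ring
      rw [e1, hρ', Matrix.mul_smul, Matrix.smul_mul, Matrix.mul_one, Matrix.one_mul, sub_self]
    rw [h2, Matrix.smul_mul, Matrix.mul_smul, ← add_smul, hρ', smul_smul] at h3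
    have h4 := (smul_eq_zero.1 h3).resolve_right (one_ne hg)
    have h5 : ρ⁻¹ * c = 0 := by
      have h6 : (2 : ℂ) * ((ρ⁻¹ * c) * ρ) = 0 := by linear_combination h4
      have h7 := (mul_eq_zero.1 h6).resolve_left two_ne_zero
      exact (mul_eq_zero.1 h7).resolve_right hρ0
    rw [h5, zero_smul] at h2
    exact sub_eq_zero.1 h2
  have hRend := h4 g A R hcommR
  -- an anisotropic vector of `W`
  obtain ⟨w, hw, hww⟩ : ∃ w ∈ W, K.bil w w ≠ 0 := by
    obtain ⟨w, hw, hw0⟩ := Submodule.exists_mem_ne_zero_of_ne_bot hbot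
    have h1 := hspan w hw
    have : Nonempty (Fin k) := by
      by_contra h
      rw [not_nonempty_iff] at h
      rw [Set.range_eq_empty, Submodule.span_empty, Submodule.mem_bot] at h1
      exact hw0 h1
    obtain ⟨i⟩ := this
    exact ⟨b i, hbW i, hne i⟩
  -- an anisotropic vector orthogonal to `W`
  obtain ⟨u, hu, huu⟩ : ∃ u, (∀ w ∈ W, K.bil u w = 0) ∧ K.bil u u ≠ 0 := by
    obtain ⟨v, hv⟩ : ∃ v, v ∉ W := by
      by_contra h
      push Not at h
      exact htop (Submodule.eq_top_iff'.2 h)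
    obtain ⟨a, ha, u, hu, rfl⟩ := hdec v
    have hu0 : u ≠ 0 := by
      rintro rfl
      exact hv (by rw [add_zero]; exact ha)
    by_cases huu : K.bil u u = 0
    · obtain ⟨z, hz⟩ : ∃ z, K.bil u z ≠ 0 := by
        by_contra h
        push Not at h
        exact hu0 (bil_nondeg K u h)
      obtain ⟨a', ha', u', hu', rfl⟩ := hdec z
      rw [bil_add_right, hu a' ha', zero_add] at hz
      by_cases h' : K.bil u' u' = 0
      · refine ⟨u + u', fun w hw => by rw [bil_add_left, hu w hw, hu' w hw, add_zero], ?_⟩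
        rw [bil_add_left, bil_add_right, bil_add_right, huu, h', bil_comm K u' u]
        intro h
        apply hz
        linear_combination h / 2
      · exact ⟨u', hu', h'⟩
    · exact ⟨u, hu, huu⟩
  have h1 := hend R hRend w u
  have h2 : R * (K.cl w * K.cl u) = (-1 : ℂ) • (K.cl w * K.cl u * R) := by
    rw [← Matrix.mul_assoc, hW1 w hw, Matrix.smul_mul, Matrix.mul_assoc (K.cl w), hW2 u hu,
      Matrix.mul_smul, smul_smul, mul_neg, he, ← Matrix.mul_assoc]
  rw [h1] at h2
  have h3 : (2 : ℂ) • (K.cl w * K.cl u * R) = 0 := by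
    have : (2 : ℂ) • (K.cl w * K.cl u * R) = K.cl w * K.cl u * R - (-1 : ℂ) • (K.cl w * K.cl u * R) := by
      rw [two_smul, neg_one_smul, sub_neg_eq_add]
    rw [this, ← h2, sub_self]
  have h4 : K.cl w * K.cl u * R = 0 := (smul_eq_zero.1 h3).resolve_left two_ne_zero
  have h5 : IsUnit (K.cl w * K.cl u * R) := by
    have e1 := pr_isUnit hr' [w, u] (by
      intro v hv
      rcases List.mem_cons.1 hv with rfl | hv
      · exact hww
      · rcases List.mem_cons.1 hv with rfl | hv
        · exact huu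
        · simp at hv)
    rw [pr_cons, pr_cons, pr_nil, Matrix.mul_one] at e1
    exact e1.mul hunit
  rw [h4] at h5
  obtain ⟨z, hz⟩ := h5
  have h6 := z.mul_inv
  rw [hz, Matrix.zero_mul] at h6
  exact one_ne hg h6.symm

end

end K5C

theorem K5c_proof (h2d : Stmt_K2d) (h4 : Stmt_K4) (h5a : Stmt_K5a) : Stmt_K5c := by
  intro g A n K _ W hW hnd
  exact K5C.nondeg h2d h4 h5a K W hW hnd

end Pool.Agent.K3D
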