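import Pool.Agent.K3D.K9

/-!
# K5d: `T` is irreducible under the Lie algebra
-/

open scoped BigOperators
open Matrix

namespace Pool.Agent.K3D

open Pool.Agent.DRB K9X

noncomputable section

namespace K5dX

/-! ### Lattices of stable subspaces -/

section lat

variable {V : Type} [AddCommGroup V] [Module ℂ V] [FiniteDimensional ℂ V] (St : Submodule ℂ V → Prop)

/-- minimal stable subspaces -/
def Min (W : Submodule ℂ V) : Prop := St W ∧ W ≠ ⊥ ∧ ∀ W', St W' → W' ≤ W → W' = ⊥ ∨ W' = W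

theorem exists_min (W : Submodule ℂ V) (hW : St W) (hne : W ≠ ⊥) : ∃ M, Min St M ∧ M ≤ W := by
  induction hd : Module.finrank ℂ W using Nat.strong_induction_on generalizing W with
  | _ d ih =>
    by_cases hmin : ∀ W', St W' → W' ≤ W → W' = ⊥ ∨ W' = W
    · exact ⟨W, ⟨hW, hne, hmin⟩, le_rfl⟩
    · push Not at hmin
      obtain ⟨W', h1, h2, h3, h4⟩ := hmin
      have h5 : Module.finrank ℂ W' < d := by
        rw [← hd]
        exact Submodule.finrank_lt_finrank_of_lt (lt_of_le_of_ne h2 h4)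
      obtain ⟨M, hM, hMW⟩ := ih _ h5 W' h1 h3 rfl
      exact ⟨M, hM, hMW.trans h2⟩

/-- the socle -/
def soc : Submodule ℂ V := sSup {W | Min St W}

theorem soc_le (Φ Ψ : Submodule ℂ V → Submodule ℂ V) (hΦ : Monotone Φ) (hΨ : Monotone Ψ)
    (h1 : ∀ W, Φ (Ψ W) = W) (h2 : ∀ W, Ψ (Φ W) = W) (hs1 : ∀ W, St W → St (Φ W))
    (hs2 : ∀ W, St W → St (Ψ W)) : soc St ≤ Φ (soc St) := by
  unfold soc
  apply sSup_le
  intro W hW
  have h3 : Min St (Ψ W) := by
    refine ⟨hs2 W hW.1, ?_, ?_⟩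
    · intro h0
      have h4 : W ≤ ⊥ := by
        rw [← h1 W, h0]
        have h5 : Φ ⊥ ≤ Φ (Ψ ⊥) := hΦ bot_le
        rwa [h1] at h5
      exact hW.2.1 (le_bot_iff.1 h4)
    · intro W' hW' hle
      have h4 : Φ W' ≤ W := by
        rw [← h1 W]
        exact hΦ hle
      rcases hW.2.2 _ (hs1 W' hW') h4 with h5 | h5
      · left
        rw [← h2 W', h5]
        apply le_bot_iff.1
        have h6 : Ψ ⊥ ≤ Ψ (Φ ⊥) := hΨ bot_le
        rwa [h2] at h6
      · right
        rw [← h2 W', h5]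
  rw [← h1 W]
  exact hΦ (le_sSup h3)

theorem exists_compl (hsup : ∀ W W', St W → St W' → St (W ⊔ W')) (hinf : ∀ W W', St W → St W' → St (W ⊓ W'))
    (hbot : St ⊥) (hsoc : soc St = ⊤) (W : Submodule ℂ V) (hW : St W) :
    ∃ M, St M ∧ IsCompl W M := by
  -- a maximal stable subspace with trivial intersection
  obtain ⟨M, ⟨hM, hd⟩, hmax⟩ : ∃ M, (St M ∧ Disjoint W M) ∧
      ∀ M', (St M' ∧ Disjoint W M') → Module.finrank ℂ M' ≤ Module.finrank ℂ M := by
    have hex : ∃ d, ∃ M, (St M ∧ Disjoint W M) ∧ Module.finrank ℂ V - Module.finrank ℂ M = d :=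
      ⟨_, ⊥, ⟨hbot, disjoint_bot_right⟩, rfl⟩
    classical
    obtain ⟨M, hM, hMd⟩ := Nat.find_spec hex
    refine ⟨M, hM, fun M' hM' => ?_⟩
    have h1 := Nat.find_min' hex ⟨M', hM', rfl⟩
    have h2 := Submodule.finrank_le M'
    have h3 := Submodule.finrank_le M
    omega
  refine ⟨M, hM, hd, ?_⟩
  rw [codisjoint_iff, eq_top_iff, ← hsoc]
  unfold soc
  apply sSup_le
  intro N hN
  rcases hN.2.2 (N ⊓ (W ⊔ M)) (hinf _ _ hN.1 (hsup _ _ hW hM)) inf_le_left with h1 | h1
  · -- enlarge M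
    exfalso
    have h2 : Disjoint W (M ⊔ N) := by
      have h3 : Disjoint (W ⊔ M) N := by
        rw [disjoint_iff, inf_comm]
        exact h1
      exact Disjoint.disjoint_sup_right_of_disjoint_sup_left hd h3
    have h4 := hmax (M ⊔ N) ⟨hsup _ _ hM hN.1, h2⟩
    have h5 : M ⊔ N = M := by
      symm
      exact Submodule.eq_of_le_of_finrank_le le_sup_left h4
    have h6 : N ≤ M := by
      rw [← h5]; exact le_sup_right
    have h7 : N ⊓ (W ⊔ M) = N := inf_eq_left.2 (h6.trans le_sup_right)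
    rw [h7] at h1
    exact hN.2.1 h1
  · rw [← h1]
    exact inf_le_right

end lat

variable {g n : ℕ} {A : AbVar g} (K : KSat A n)

/-- stable subspaces -/
def St (W : Submodule ℂ (Fin n → ℂ)) : Prop :=
  ∀ X ξ, InLie (Gam A) X ξ → ∀ v ∈ W, ∃ w ∈ W, X * K.cl v - K.cl v * X = K.cl w

theorem cl_sub (v w : Fin n → ℂ) : K.cl (v - w) = K.cl v - K.cl w := by
  rw [sub_eq_add_neg, cl_add, ← neg_one_smul ℂ w, cl_smul, neg_one_smul, ← sub_eq_add_neg]

theorem cl_inj (hK5a : Stmt_K5a) {v w : Fin n → ℂ} (h : K.cl v = K.cl w) : v = w := by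
  have h1 := (hK5a g A n K).2.1 (v - w) (by rw [cl_sub, h, sub_self])
  exact sub_eq_zero.1 h1

theorem st_sup {W W' : Submodule ℂ (Fin n → ℂ)} (h : St K W) (h' : St K W') : St K (W ⊔ W') := by
  intro X ξ hX v hv
  obtain ⟨a, ha, b, hb, rfl⟩ := Submodule.mem_sup.1 hv
  obtain ⟨w, hw, h1⟩ := h X ξ hX a ha
  obtain ⟨w', hw', h2⟩ := h' X ξ hX b hb
  refine ⟨w + w', Submodule.add_mem_sup hw hw', ?_⟩
  rw [cl_add, cl_add, mul_add, add_mul, ← h1, ← h2]
  abel

theorem st_inf (hK5a : Stmt_K5a) {W W' : Submodule ℂ (Fin n → ℂ)} (h : St K W) (h' : St K W') :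
    St K (W ⊓ W') := by
  intro X ξ hX v hv
  obtain ⟨w, hw, h1⟩ := h X ξ hX v hv.1
  obtain ⟨w', hw', h2⟩ := h' X ξ hX v hv.2
  have h3 : w = w' := cl_inj K hK5a (by rw [← h1, ← h2])
  exact ⟨w, ⟨hw, h3 ▸ hw'⟩, h1⟩

theorem st_bot : St K ⊥ := by
  intro X ξ _ v hv
  rw [Submodule.mem_bot] at hv
  refine ⟨0, Submodule.zero_mem _, ?_⟩
  rw [hv, cl_zero, mul_zero, zero_mul, sub_zero]

theorem st_top (hK2d : Stmt_K2d) : St K ⊤ := by
  intro X ξ hX v _
  obtain ⟨w, hw⟩ := (mem_TC_iff K _).1 ((hK2d g A n K).2 X ξ hX (K.cl v) ((mem_TC_iff K _).2 ⟨v, rfl⟩))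
  exact ⟨w, Submodule.mem_top, hw⟩

/-- automorphisms of `ℂ` -/
theorem cl_map (σ : ℂ ≃ₐ[ℚ] ℂ) (v : Fin n → ℂ) : (K.cl v).map σ = K.cl (K2X.sv σ v) := by
  ext a b
  unfold KSat.cl
  rw [Matrix.map_apply, Matrix.sum_apply, Matrix.sum_apply, map_sum]
  refine Finset.sum_congr rfl fun i _ => ?_
  simp [Matrix.smul_apply, K2X.sv, AbVar.toC]

theorem st_sv (hG4 : Stmt_Gb4) (hK2b : Stmt_K2b) (σ : ℂ ≃ₐ[ℚ] ℂ) {W : Submodule ℂ (Fin n → ℂ)}
    (h : St K W) : St K (K2X.Dsv σ W) := by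
  intro X ξ hX v hv
  have h1 : InLie (Gam A) (X.map σ) (σ ξ) :=
    hK2b (Idx g) (Gam A) (fun σ p hp q h1 h2 => hG4 g A σ p hp q h1 h2) σ X ξ hX
  obtain ⟨w, hw, h2⟩ := h _ _ h1 _ hv
  refine ⟨K2X.sv σ.symm w, ?_, ?_⟩
  · rw [K2X.mem_Dsv]
    have : K2X.sv σ (K2X.sv σ.symm w) = w := by
      funext k; simp [K2X.sv]
    rw [this]
    exact hw
  · have h3 := congrArg (fun M : Matrix (Idx g) (Idx g) ℂ => M.map σ.symm) h2
    rw [← cl_map] at h3
    have e : ∀ M : Matrix (Idx g) (Idx g) ℂ, (M.map σ).map σ.symm = M := by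
      intro M
      ext a b
      simp
    have h4 : (X.map σ * (K.cl v).map σ - (K.cl v).map σ * X.map σ).map σ.symm =
        X * K.cl v - K.cl v * X := by
      rw [← FinX.map_mul', ← FinX.map_mul']
      have : ((X * K.cl v).map σ - (K.cl v * X).map σ) = (X * K.cl v - K.cl v * X).map σ := by
        ext a b
        show σ _ - σ _ = σ (_ - _)
        rw [map_sub]
      rw [this, e]
    rw [← cl_map]
    rw [← h4]
    exact h3

/-- conjugation by the group -/
theorem exists_conj (hK5a : Stmt_K5a) (hK2d : Stmt_K2d) (p : GL (Idx g) ℂ × ℂˣ) (hp : p ∈ Gam A) :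
    ∃ b : (Fin n → ℂ) →ₗ[ℂ] (Fin n → ℂ), ∀ v, p.1.val * K.cl v * (p.1⁻¹).val = K.cl (b v) := by
  have h1 : ∀ v, ∃ w, p.1.val * K.cl v * (p.1⁻¹).val = K.cl w := fun v =>
    (mem_TC_iff K _).1 ((hK2d g A n K).1 p hp (K.cl v) ((mem_TC_iff K _).2 ⟨v, rfl⟩))
  choose b hb using h1
  refine ⟨{ toFun := b, map_add' := ?_, map_smul' := ?_ }, hb⟩
  · intro v w
    apply cl_inj K hK5a
    rw [← hb, cl_add, cl_add, ← hb, ← hb, mul_add, add_mul]
  · intro c v
    apply cl_inj K hK5a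
    rw [← hb, RingHom.id_apply, cl_smul, cl_smul, ← hb, Matrix.mul_smul, Matrix.smul_mul]

theorem st_comap (hK2a : Stmt_K2a) (p : GL (Idx g) ℂ × ℂˣ) (hp : p ∈ Gam A)
    (b b' : (Fin n → ℂ) →ₗ[ℂ] (Fin n → ℂ))
    (hb : ∀ v, p.1.val * K.cl v * (p.1⁻¹).val = K.cl (b v))
    (hb' : ∀ v, (p.1⁻¹).val * K.cl v * p.1.val = K.cl (b' v))
    (hbb : ∀ v, b (b' v) = v)
    {W : Submodule ℂ (Fin n → ℂ)} (h : St K W) : St K (W.comap b) := by
  intro X ξ hX v hv
  have h1 := (hK2a (Idx g) (Gam A)).2.2.2 X ξ hX p hp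
  obtain ⟨w, hw, h2⟩ := h _ _ h1 (b v) hv
  refine ⟨b' w, ?_, ?_⟩
  · rw [Submodule.mem_comap, hbb]
    exact hw
  · have e1 : p.1.val * (p.1⁻¹).val = 1 := by rw [← Units.val_mul]; simp
    have e2 : (p.1⁻¹).val * p.1.val = 1 := by rw [← Units.val_mul]; simp
    rw [← hb', ← h2, ← hb]
    have h3 : (p.1⁻¹).val * (p.1.val * X * (p.1⁻¹).val * (p.1.val * K.cl v * (p.1⁻¹).val) -
        p.1.val * K.cl v * (p.1⁻¹).val * (p.1.val * X * (p.1⁻¹).val)) * p.1.val =
        ((p.1⁻¹).val * p.1.val) * X * ((p.1⁻¹).val * p.1.val) * K.cl v * ((p.1⁻¹).val * p.1.val) -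
        ((p.1⁻¹).val * p.1.val) * K.cl v * ((p.1⁻¹).val * p.1.val) * X * ((p.1⁻¹).val * p.1.val) := by
      simp only [mul_sub, sub_mul, mul_assoc]
    rw [h3, e2]
    simp only [one_mul, mul_one]

/-- the socle is everything -/
theorem soc_top (hn : 3 ≤ n) (hG4 : Stmt_Gb4) (hK2a : Stmt_K2a) (hK2b : Stmt_K2b) (hK2d : Stmt_K2d)
    (hK5a : Stmt_K5a) (hK5b : Stmt_K5b) : soc (St K) = ⊤ := by
  have hne : soc (St K) ≠ ⊥ := by
    have h0 : (⊤ : Submodule ℂ (Fin n → ℂ)) ≠ ⊥ := by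
      intro h
      have h1 : (Pi.single ⟨0, by omega⟩ 1 : Fin n → ℂ) ∈ (⊥ : Submodule ℂ (Fin n → ℂ)) := by
        rw [← h]; exact Submodule.mem_top
      rw [Submodule.mem_bot] at h1
      have := congrFun h1 ⟨0, by omega⟩
      simp at this
    obtain ⟨M, hM, -⟩ := exists_min (St K) ⊤ (st_top K hK2d) h0
    intro h
    apply hM.2.1
    apply le_bot_iff.1
    rw [← h]
    exact le_sSup hM
  refine (hK5b g A n K hn (soc (St K)) ?_ ?_).resolve_left hne
  · intro σ v hv
    have hmono : ∀ σ : ℂ ≃ₐ[ℚ] ℂ, Monotone (K2X.Dsv (κ := Fin n) σ) := by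
      intro σ W W' hWW u hu
      exact hWW hu
    have e1 : ∀ (σ : ℂ ≃ₐ[ℚ] ℂ) (W : Submodule ℂ (Fin n → ℂ)),
        K2X.Dsv σ (K2X.Dsv σ.symm W) = W := by
      intro σ W
      ext u
      rw [K2X.mem_Dsv, K2X.mem_Dsv]
      have : K2X.sv σ.symm (K2X.sv σ u) = u := by
        funext k; simp [K2X.sv]
      rw [this]
    have e2 : ∀ (σ : ℂ ≃ₐ[ℚ] ℂ) (W : Submodule ℂ (Fin n → ℂ)),
        K2X.Dsv σ.symm (K2X.Dsv σ W) = W := by
      intro σ W
      ext u
      rw [K2X.mem_Dsv, K2X.mem_Dsv]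
      have : K2X.sv σ (K2X.sv σ.symm u) = u := by
        funext k; simp [K2X.sv]
      rw [this]
    have h1 := soc_le (St K) (K2X.Dsv σ) (K2X.Dsv σ.symm) (hmono σ) (hmono σ.symm) (e1 σ) (e2 σ)
      (fun W hW => st_sv K hG4 hK2b σ hW) (fun W hW => st_sv K hG4 hK2b σ.symm hW)
    exact h1 hv
  · intro p hp v hv
    obtain ⟨b, hb⟩ := exists_conj K hK5a hK2d p hp
    obtain ⟨b', hb'0⟩ := exists_conj K hK5a hK2d p⁻¹ (inv_mem hp)
    have hb' : ∀ v, (p.1⁻¹).val * K.cl v * p.1.val = K.cl (b' v) := by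
      intro v
      have h1 := hb'0 v
      have e3 : ((p⁻¹).1⁻¹).val = p.1.val := by
        show ((p.1⁻¹)⁻¹).val = _
        rw [inv_inv]
      have e4 : (p⁻¹).1.val = (p.1⁻¹).val := rfl
      rwa [e3, e4] at h1
    have e1 : p.1.val * (p.1⁻¹).val = 1 := by rw [← Units.val_mul]; simp
    have e2 : (p.1⁻¹).val * p.1.val = 1 := by rw [← Units.val_mul]; simp
    have hbb : ∀ v, b (b' v) = v := by
      intro v
      apply cl_inj K hK5a
      rw [← hb, ← hb']
      calc _ = (p.1.val * (p.1⁻¹).val) * K.cl v * (p.1.val * (p.1⁻¹).val) := by simp only [mul_assoc]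
        _ = _ := by rw [e1, one_mul, mul_one]
    have hbb' : ∀ v, b' (b v) = v := by
      intro v
      apply cl_inj K hK5a
      rw [← hb', ← hb]
      calc _ = ((p.1⁻¹).val * p.1.val) * K.cl v * ((p.1⁻¹).val * p.1.val) := by simp only [mul_assoc]
        _ = _ := by rw [e2, one_mul, mul_one]
    have h1 := soc_le (St K) (fun W => W.comap b) (fun W => W.comap b')
      (fun W W' h => Submodule.comap_mono h) (fun W W' h => Submodule.comap_mono h)
      (fun W => by
        ext u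
        rw [Submodule.mem_comap, Submodule.mem_comap, hbb'])
      (fun W => by
        ext u
        rw [Submodule.mem_comap, Submodule.mem_comap, hbb])
      (fun W hW => st_comap K hK2a p hp b b' hb hb' hbb hW)
      (fun W hW => st_comap K hK2a p⁻¹ (inv_mem hp) b' b (by
          intro v
          have e3 : ((p⁻¹).1⁻¹).val = p.1.val := by
            show ((p.1⁻¹)⁻¹).val = _
            rw [inv_inv]
          have e4 : (p⁻¹).1.val = (p.1⁻¹).val := rfl
          rw [e3, e4]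
          exact hb' v) (by
          intro v
          have e3 : ((p⁻¹).1⁻¹).val = p.1.val := by
            show ((p.1⁻¹)⁻¹).val = _
            rw [inv_inv]
          have e4 : (p⁻¹).1.val = (p.1⁻¹).val := rfl
          rw [e3, e4]
          exact hb v) hbb' hW)
    exact ⟨b v, h1 hv, hb v⟩

/-! ### Bilinear form -/

theorem bil_single (i : Fin n) (v : Fin n → ℂ) : K.bil (Pi.single i 1) v = (K.q i : ℂ) * v i := by
  unfold KSat.bil
  rw [Finset.sum_eq_single i]
  · simp
  · intro j _ hj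
    rw [Pi.single_eq_of_ne hj]; ring
  · intro h; exact absurd (Finset.mem_univ i) h

theorem bil_comm (v w : Fin n → ℂ) : K.bil v w = K.bil w v := by
  unfold KSat.bil
  exact Finset.sum_congr rfl fun i _ => by ring

theorem bil_add (v w u : Fin n → ℂ) : K.bil (v + w) u = K.bil v u + K.bil w u := by
  unfold KSat.bil
  rw [← Finset.sum_add_distrib]
  exact Finset.sum_congr rfl fun i _ => by rw [Pi.add_apply]; ring

theorem bil_sub (v w u : Fin n → ℂ) : K.bil (v - w) u = K.bil v u - K.bil w u := by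
  unfold KSat.bil
  rw [← Finset.sum_sub_distrib]
  exact Finset.sum_congr rfl fun i _ => by rw [Pi.sub_apply]; ring

theorem bil_sub_right (v w u : Fin n → ℂ) : K.bil u (v - w) = K.bil u v - K.bil u w := by
  rw [bil_comm, bil_sub, bil_comm K v, bil_comm K w]

theorem bil_add_right (v w u : Fin n → ℂ) : K.bil u (v + w) = K.bil u v + K.bil u w := by
  rw [bil_comm, bil_add, bil_comm K v, bil_comm K w]

theorem q_ne (i : Fin n) : (K.q i : ℂ) ≠ 0 := by
  exact_mod_cast K.q_ne i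

theorem bil_nondeg (v : Fin n → ℂ) (h : ∀ w, K.bil v w = 0) : v = 0 := by
  funext i
  have h1 := h (Pi.single i 1)
  rw [bil_comm, bil_single] at h1
  exact (mul_eq_zero.1 h1).resolve_left (q_ne K i)

/-- the adjoint of a matrix -/
def adj (P : Matrix (Fin n) (Fin n) ℂ) : Matrix (Fin n) (Fin n) ℂ :=
  Matrix.diagonal (fun i => (K.q i : ℂ)⁻¹) * Pᵀ * Matrix.diagonal (fun i => (K.q i : ℂ))

theorem bil_eq (v w : Fin n → ℂ) : K.bil v w = v ⬝ᵥ (Matrix.diagonal (fun i => (K.q i : ℂ)) *ᵥ w) := by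
  unfold KSat.bil dotProduct
  refine Finset.sum_congr rfl fun i _ => ?_
  rw [Matrix.mulVec_diagonal]
  ring

theorem bil_adj (P : Matrix (Fin n) (Fin n) ℂ) (v w : Fin n → ℂ) :
    K.bil (P *ᵥ v) w = K.bil v (adj K P *ᵥ w) := by
  rw [bil_eq, bil_eq]
  unfold adj
  have h1 : Matrix.diagonal (fun i => (K.q i : ℂ)) * Matrix.diagonal (fun i => (K.q i : ℂ)⁻¹) = 1 := by
    rw [Matrix.diagonal_mul_diagonal]
    have : (fun i => (K.q i : ℂ) * (K.q i : ℂ)⁻¹) = fun _ => 1 := by
      funext i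
      exact mul_inv_cancel₀ (q_ne K i)
    rw [this, Matrix.diagonal_one]
  rw [Matrix.mulVec_mulVec, ← mul_assoc, ← mul_assoc, h1, one_mul, ← Matrix.mulVec_mulVec,
    ← Matrix.vecMul_transpose, Matrix.dotProduct_mulVec, Matrix.dotProduct_mulVec, Matrix.dotProduct_mulVec]

end K5dX

open K5dX in
theorem K5d_proof (hG4 : Stmt_Gb4) (hK2a : Stmt_K2a) (hK2b : Stmt_K2b) (hK2c : Stmt_K2c) (hK2d : Stmt_K2d)
    (hK4 : Stmt_K4) (hK5a : Stmt_K5a) (hK5b : Stmt_K5b) (hK5c : Stmt_K5c) : Stmt_K5d := by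
  intro g A n K hn W hW
  obtain ⟨hcl, hinj, hlift, hscal, hend⟩ := hK5a g A n K
  obtain ⟨M, hM, hc⟩ := exists_compl (St K) (fun _ _ h h' => st_sup K h h')
    (fun _ _ h h' => st_inf K hK5a h h') (st_bot K) (soc_top K hn hG4 hK2a hK2b hK2d hK5a hK5b) W hW
  refine hK5c g A n K hn W hW ?_
  -- the projection
  let Pl : (Fin n → ℂ) →ₗ[ℂ] (Fin n → ℂ) := W.subtype ∘ₗ W.projectionOnto M hc
  have hPW : ∀ v ∈ W, Pl v = v := by
    intro v hv
    show ((W.projectionOnto M hc v : W) : Fin n → ℂ) = v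
    have := Submodule.projectionOnto_apply_left hc ⟨v, hv⟩
    rw [this]
  have hPM : ∀ v ∈ M, Pl v = 0 := by
    intro v hv
    show ((W.projectionOnto M hc v : W) : Fin n → ℂ) = 0
    rw [(Submodule.projectionOnto_apply_eq_zero_iff hc).2 hv]
    rfl
  have hdec : ∀ v : Fin n → ℂ, ∃ w ∈ W, ∃ m ∈ M, v = w + m := by
    intro v
    have h1 : v ∈ W ⊔ M := by
      rw [hc.sup_eq_top]; exact Submodule.mem_top
    obtain ⟨w, hw, m, hm, h⟩ := Submodule.mem_sup.1 h1
    exact ⟨w, hw, m, hm, h.symm⟩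
  set P : Matrix (Fin n) (Fin n) ℂ := LinearMap.toMatrix' Pl with hPdef
  have hP : ∀ v, P *ᵥ v = Pl v := by
    intro v
    rw [hPdef, LinearMap.toMatrix'_mulVec]
  set S : Matrix (Fin n) (Fin n) ℂ := P - adj K P with hSdef
  have hSkew : ∀ v w, K.bil (S *ᵥ v) w + K.bil v (S *ᵥ w) = 0 := by
    intro v w
    rw [hSdef, Matrix.sub_mulVec, Matrix.sub_mulVec, bil_sub, bil_sub_right, bil_adj K P v w, bil_comm K (adj K P *ᵥ v) w,
      ← bil_adj K P w v, bil_comm K (P *ᵥ w) v]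
    ring
  set Z : Matrix (Idx g) (Idx g) ℂ :=
    ∑ i, ((4 * (K.q i : ℂ))⁻¹) • (K.cl (S *ᵥ Pi.single i 1) * K.cl (Pi.single i 1)) with hZ
  have hZa : ∀ v, Z * K.cl v - K.cl v * Z = K.cl (S *ᵥ v) := hlift S hSkew
  -- infinitesimal action
  have hZX : ∀ X ξ, InLie (Gam A) X ξ → X * Z = Z * X := by
    intro X ξ hX
    have hact : ∀ v, ∃ w, X * K.cl v - K.cl v * X = K.cl w := fun v => by
      obtain ⟨w, -, h⟩ := st_top K hK2d X ξ hX v Submodule.mem_top
      exact ⟨w, h⟩
    choose a ha using hact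
    have hadd : ∀ v w, a (v + w) = a v + a w := by
      intro v w
      apply cl_inj K hK5a
      rw [← ha, cl_add, cl_add, ← ha, ← ha, mul_add, add_mul]
      abel
    have hak : ∀ v w, K.bil (a v) w + K.bil v (a w) = 0 := by
      intro v w
      have h1 := hcl v w
      have h2 := hcl (a v) w
      have h3 := hcl v (a w)
      rw [← ha v] at h2
      rw [← ha w] at h3
      have h4 : (2 * K.bil (a v) w) • (1 : Matrix (Idx g) (Idx g) ℂ) + (2 * K.bil v (a w)) • 1 =
          X * ((2 * K.bil v w) • (1 : Matrix (Idx g) (Idx g) ℂ)) - ((2 * K.bil v w) • 1) * X := by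
        rw [← h1, ← h2, ← h3]
        noncomm_ring
      rw [Matrix.mul_smul, Matrix.smul_mul, mul_one, one_mul, sub_self, ← add_smul] at h4
      have : Nonempty (Idx g) := ⟨Sum.inl ⟨0, K.pos⟩⟩
      have h5 : (2 * K.bil (a v) w) + (2 * K.bil v (a w)) = 0 := by
        have h6 := congrFun (congrFun h4 this.some) this.some
        simpa [Matrix.smul_apply] using h6
      linear_combination (1 / 2) * h5
    have haW : ∀ v ∈ W, a v ∈ W := by
      intro v hv
      obtain ⟨w, hw, h⟩ := hW X ξ hX v hv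
      have : a v = w := cl_inj K hK5a (by rw [← ha, h])
      rw [this]; exact hw
    have haM : ∀ v ∈ M, a v ∈ M := by
      intro v hv
      obtain ⟨w, hw, h⟩ := hM X ξ hX v hv
      have : a v = w := cl_inj K hK5a (by rw [← ha, h])
      rw [this]; exact hw
    have haP : ∀ v, P *ᵥ (a v) = a (P *ᵥ v) := by
      intro v
      obtain ⟨w, hw, m, hm, rfl⟩ := hdec v
      rw [hP, hP, hadd, map_add, map_add, hPW _ hw, hPM _ hm, hPW _ (haW _ hw), hPM _ (haM _ hm), add_zero,
        add_zero]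
    have haP' : ∀ v, adj K P *ᵥ (a v) = a (adj K P *ᵥ v) := by
      intro v
      rw [← sub_eq_zero]
      apply bil_nondeg K
      intro w
      rw [bil_comm, bil_sub_right, ← bil_adj]
      have h1 := hak (P *ᵥ w) v
      have h2 := hak w (adj K P *ᵥ v)
      have h3 : K.bil (a (P *ᵥ w)) v = K.bil (a w) (adj K P *ᵥ v) := by
        rw [← haP w, bil_adj]
      linear_combination h1 - h2 - h3
    have haS : ∀ v, S *ᵥ (a v) = a (S *ᵥ v) := by
      intro v
      have h0 : a 0 = 0 := by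
        have := hadd 0 0
        rw [add_zero] at this
        exact (left_eq_add.1 this)
      have hsub : ∀ v w, a (v - w) = a v - a w := by
        intro v w
        have := hadd (v - w) w
        rw [sub_add_cancel] at this
        rw [this]; abel
      rw [hSdef, Matrix.sub_mulVec, Matrix.sub_mulVec, haP, haP', hsub]
    -- the commutator is scalar
    obtain ⟨c, hc'⟩ := hscal (X * Z - Z * X) (by
      intro α hα
      have h1 := (hK2c g A X ξ hX).1 α hα
      have h2 : Z * AbVar.toC α = AbVar.toC α * Z := by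
        rw [hZ, Finset.sum_mul, Finset.mul_sum]
        refine Finset.sum_congr rfl fun i _ => ?_
        rw [Matrix.smul_mul, Matrix.mul_smul, cl_comm K _ _ α hα]
      calc (X * Z - Z * X) * AbVar.toC α = X * (Z * AbVar.toC α) - Z * (X * AbVar.toC α) := by noncomm_ring
        _ = X * (AbVar.toC α * Z) - Z * (AbVar.toC α * X) := by rw [h2, h1]
        _ = (X * AbVar.toC α) * Z - (Z * AbVar.toC α) * X := by noncomm_ring
        _ = (AbVar.toC α * X) * Z - (AbVar.toC α * Z) * X := by rw [h2, h1]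
        _ = AbVar.toC α * (X * Z - Z * X) := by noncomm_ring)
      (by
        intro v
        rw [← sub_eq_zero]
        have h1 : (X * Z - Z * X) * K.cl v - K.cl v * (X * Z - Z * X) =
            (X * (Z * K.cl v - K.cl v * Z) - (Z * K.cl v - K.cl v * Z) * X) -
            (Z * (X * K.cl v - K.cl v * X) - (X * K.cl v - K.cl v * X) * Z) := by noncomm_ring
        rw [h1, hZa v, ha v, ha (S *ᵥ v), hZa (a v), haS, sub_self])
    have : Nonempty (Idx g) := ⟨Sum.inl ⟨0, K.pos⟩⟩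
    have hc0 : c = 0 := by
      have h1 := congrArg Matrix.trace hc'
      rw [Matrix.trace_sub, Matrix.trace_mul_comm, sub_self, Matrix.trace_smul, Matrix.trace_one, smul_eq_mul] at h1
      have h2 : ((Fintype.card (Idx g) : ℕ) : ℂ) ≠ 0 := by
        exact_mod_cast Fintype.card_ne_zero
      exact (mul_eq_zero.1 h1.symm).resolve_right h2
    rw [hc0, zero_smul] at hc'
    exact sub_eq_zero.1 hc'
  have hZmem := hK4 g A Z hZX
  have hZe := hend Z hZmem
  -- the skew map vanishes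
  have key : ∀ (v w u : Fin n → ℂ), K.bil u (S *ᵥ v) • w - K.bil u w • (S *ᵥ v) +
      (K.bil u v • (S *ᵥ w) - K.bil u (S *ᵥ w) • v) = 0 := by
    intro v w u
    have h1 : K.cl (S *ᵥ v) * K.cl w + K.cl v * K.cl (S *ᵥ w) = 0 := by
      have h2 := hZe v w
      rw [← hZa, ← hZa]
      have : (Z * K.cl v - K.cl v * Z) * K.cl w + K.cl v * (Z * K.cl w - K.cl w * Z) =
          Z * (K.cl v * K.cl w) - K.cl v * K.cl w * Z := by noncomm_ring
      rw [this, h2, sub_self]
    have hcomm : ∀ x y : Fin n → ℂ, K.cl u * (K.cl x * K.cl y) - K.cl x * K.cl y * K.cl u =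
        K.cl ((2 * K.bil u x) • y - (2 * K.bil u y) • x) := by
      intro x y
      have e1 := hcl u x
      have e2 := hcl u y
      have : K.cl u * (K.cl x * K.cl y) - K.cl x * K.cl y * K.cl u =
          (K.cl u * K.cl x + K.cl x * K.cl u) * K.cl y - K.cl x * (K.cl u * K.cl y + K.cl y * K.cl u) := by
        noncomm_ring
      rw [this, e1, e2, cl_sub, cl_smul, cl_smul, Matrix.smul_mul, Matrix.mul_smul, one_mul, mul_one]
    have h3 : K.cl ((2 : ℂ) • (K.bil u (S *ᵥ v) • w - K.bil u w • (S *ᵥ v) +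
        (K.bil u v • (S *ᵥ w) - K.bil u (S *ᵥ w) • v))) = 0 := by
      have h4 := hcomm (S *ᵥ v) w
      have h5 := hcomm v (S *ᵥ w)
      have h6 : K.cl ((2 * K.bil u (S *ᵥ v)) • w - (2 * K.bil u w) • (S *ᵥ v)) +
          K.cl ((2 * K.bil u v) • (S *ᵥ w) - (2 * K.bil u (S *ᵥ w)) • v) =
          K.cl u * (K.cl (S *ᵥ v) * K.cl w + K.cl v * K.cl (S *ᵥ w)) -
            (K.cl (S *ᵥ v) * K.cl w + K.cl v * K.cl (S *ᵥ w)) * K.cl u := by
        rw [← h4, ← h5]; noncomm_ring
      rw [h1, mul_zero, zero_mul, sub_zero, ← cl_add] at h6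
      rw [← h6]
      congr 1
      simp only [smul_add, smul_sub, smul_smul]
    have h4 := hinj _ h3
    exact (smul_eq_zero.1 h4).resolve_left two_ne_zero
  have hS0 : ∀ v, S *ᵥ v = 0 := by
    have hent : ∀ i j, S i j = 0 := by
      intro j i
      by_cases hij : j = i
      · subst hij
        have h1 := hSkew (Pi.single j 1) (Pi.single j 1)
        rw [bil_comm K (S *ᵥ _), bil_single, Matrix.mulVec_single_one] at h1
        have h2 : (2 * (K.q j : ℂ)) * S j j = 0 := by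
          have : Matrix.col S j j = S j j := rfl
          rw [← this]
          linear_combination h1
        exact (mul_eq_zero.1 h2).resolve_left (mul_ne_zero two_ne_zero (q_ne K j))
      · obtain ⟨k, hki, hkj⟩ : ∃ k : Fin n, k ≠ i ∧ k ≠ j := by
          by_contra hcon
          push Not at hcon
          have h1 : (Finset.univ : Finset (Fin n)) ⊆ {i, j} := by
            intro k _
            rw [Finset.mem_insert, Finset.mem_singleton]
            by_cases h : k = i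
            · exact Or.inl h
            · exact Or.inr (hcon k h)
          have h2 := Finset.card_le_card h1
          rw [Finset.card_univ, Fintype.card_fin] at h2
          have h3 := Finset.card_le_two (a := i) (b := j)
          omega
        have h1 := congrFun (key (Pi.single i 1) (Pi.single k 1) (Pi.single j 1)) k
        rw [bil_single, bil_single, bil_single, bil_single, Matrix.mulVec_single_one] at h1
        have e1 : (Pi.single k 1 : Fin n → ℂ) j = 0 := Pi.single_eq_of_ne hkj.symm _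
        have e2 : (Pi.single i 1 : Fin n → ℂ) j = 0 := Pi.single_eq_of_ne hij _
        have e3 : (Pi.single k 1 : Fin n → ℂ) k = 1 := Pi.single_eq_same _ _
        have e4 : (Pi.single i 1 : Fin n → ℂ) k = 0 := Pi.single_eq_of_ne hki _
        have e5 : Matrix.col S i j = S j i := rfl
        simp only [Pi.add_apply, Pi.sub_apply, Pi.smul_apply, smul_eq_mul, Pi.zero_apply, e1, e2, e3, e4, e5,
          mul_zero, zero_mul, mul_one, sub_zero, add_zero] at h1
        exact (mul_eq_zero.1 h1).resolve_left (q_ne K j)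
    intro v
    have : S = 0 := by
      ext i j
      exact hent i j
    rw [this, Matrix.zero_mulVec]
  have hself : ∀ v w, K.bil (P *ᵥ v) w = K.bil v (P *ᵥ w) := by
    intro v w
    have h1 := hS0 w
    rw [hSdef, Matrix.sub_mulVec, sub_eq_zero] at h1
    rw [bil_adj, h1]
  intro v hv hvw
  apply bil_nondeg K
  intro u
  obtain ⟨w, hw, m, hm, rfl⟩ := hdec u
  rw [bil_add_right, hvw w hw, zero_add]
  have h1 := hself v m
  rw [hP, hP, hPW v hv, hPM m hm] at h1
  rw [h1]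
  unfold KSat.bil
  simp

end

end Pool.Agent.K3D
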