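import Pool.Agent.K3D.Stmts

/-!
# K6, second part: a bounded group of real matrices preserves a positive definite form
-/

open scoped BigOperators Matrix
open Matrix

namespace Pool.Agent.K3D.K6X

noncomputable section

variable {n : ℕ}

/-- The square of the Frobenius norm. -/
def N (X : Matrix (Fin n) (Fin n) ℝ) : ℝ := ∑ i, ∑ j, X i j ^ 2

theorem N_nonneg (X : Matrix (Fin n) (Fin n) ℝ) : 0 ≤ N X :=
  Finset.sum_nonneg fun _ _ => Finset.sum_nonneg fun _ _ => sq_nonneg _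

theorem N_eq_zero {X : Matrix (Fin n) (Fin n) ℝ} (h : N X ≤ 0) : X = 0 := by
  have h0 : N X = 0 := le_antisymm h (N_nonneg X)
  ext i j
  have h1 := (Finset.sum_eq_zero_iff_of_nonneg
    (fun i _ => Finset.sum_nonneg fun j _ => sq_nonneg (X i j))).1 h0 i (Finset.mem_univ i)
  have h2 := (Finset.sum_eq_zero_iff_of_nonneg (fun j _ => sq_nonneg (X i j))).1 h1 j
    (Finset.mem_univ j)
  simpa using h2

theorem N_transpose (X : Matrix (Fin n) (Fin n) ℝ) : N Xᵀ = N X := by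
  unfold N
  rw [Finset.sum_comm]
  rfl

theorem N_mid (X Y : Matrix (Fin n) (Fin n) ℝ) :
    N ((1 / 2 : ℝ) • (X + Y)) = (N X + N Y) / 2 - N (X - Y) / 4 := by
  unfold N
  rw [← Finset.sum_add_distrib, Finset.sum_div, Finset.sum_div, ← Finset.sum_sub_distrib]
  refine Finset.sum_congr rfl fun i _ => ?_
  rw [← Finset.sum_add_distrib, Finset.sum_div, Finset.sum_div, ← Finset.sum_sub_distrib]
  refine Finset.sum_congr rfl fun j _ => ?_
  simp only [Matrix.smul_apply, Matrix.add_apply, Matrix.sub_apply, smul_eq_mul]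
  ring

theorem mulVec_bound {C : ℝ} {a : Matrix (Fin n) (Fin n) ℝ} (ha : ∀ i j, |a i j| ≤ C)
    (v : Fin n → ℝ) : ∑ i, (a *ᵥ v) i ^ 2 ≤ (n * n * C ^ 2) * ∑ j, v j ^ 2 := by
  have h1 : ∀ i, (a *ᵥ v) i ^ 2 ≤ (n * C ^ 2) * ∑ j, v j ^ 2 := by
    intro i
    have h2 : (a *ᵥ v) i ^ 2 ≤ (∑ j, a i j ^ 2) * ∑ j, v j ^ 2 := by
      rw [Matrix.mulVec, dotProduct]
      exact Finset.sum_mul_sq_le_sq_mul_sq _ _ _
    have h3 : (∑ j, a i j ^ 2) ≤ n * C ^ 2 := by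
      have : ∀ j ∈ (Finset.univ : Finset (Fin n)), a i j ^ 2 ≤ C ^ 2 := by
        intro j _
        rw [← sq_abs (a i j)]
        exact pow_le_pow_left₀ (abs_nonneg _) (ha i j) 2
      have h4 := Finset.sum_le_card_nsmul _ _ _ this
      simpa using h4
    exact h2.trans (mul_le_mul_of_nonneg_right h3 (Finset.sum_nonneg fun _ _ => sq_nonneg _))
  have h5 := Finset.sum_le_card_nsmul (Finset.univ : Finset (Fin n)) _ _ (fun i _ => h1 i)
  rw [Finset.card_univ, Fintype.card_fin, nsmul_eq_mul] at h5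
  calc _ ≤ _ := h5
    _ = _ := by ring

theorem N_mul_bound {C : ℝ} {a : Matrix (Fin n) (Fin n) ℝ} (ha : ∀ i j, |a i j| ≤ C)
    (X : Matrix (Fin n) (Fin n) ℝ) : N (a * X) ≤ (n * n * C ^ 2) * N X := by
  unfold N
  rw [Finset.sum_comm]
  have h1 : ∑ i, ∑ j, X i j ^ 2 = ∑ j, ∑ i, X i j ^ 2 := Finset.sum_comm
  rw [h1, Finset.mul_sum]
  refine Finset.sum_le_sum fun j _ => ?_
  exact mulVec_bound ha (fun i => X i j)

theorem N_conj_bound {C : ℝ} {a : Matrix (Fin n) (Fin n) ℝ} (ha : ∀ i j, |a i j| ≤ C)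
    (X : Matrix (Fin n) (Fin n) ℝ) : N (aᵀ * X * a) ≤ (n * n * C ^ 2) ^ 2 * N X := by
  have ha' : ∀ i j, |aᵀ i j| ≤ C := fun i j => ha j i
  have h0 : (0 : ℝ) ≤ n * n * C ^ 2 := by positivity
  have h1 : N (aᵀ * X * a) = N (aᵀ * (aᵀ * X)ᵀ) := by
    rw [← N_transpose, Matrix.transpose_mul]
  have h2 := N_mul_bound ha' (aᵀ * X)ᵀ
  have h3 := N_mul_bound ha' X
  rw [h1]
  calc _ ≤ _ := h2
    _ = (n * n * C ^ 2) * N (aᵀ * X) := by rw [N_transpose]
    _ ≤ (n * n * C ^ 2) * ((n * n * C ^ 2) * N X) := mul_le_mul_of_nonneg_left h3 h0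
    _ = _ := by ring

theorem N_cont (a : Matrix (Fin n) (Fin n) ℝ) :
    Continuous fun X : Matrix (Fin n) (Fin n) ℝ => N (aᵀ * X * a) := by
  unfold N
  have h : Continuous fun X : Matrix (Fin n) (Fin n) ℝ => aᵀ * X * a := by fun_prop
  refine continuous_finsetSum _ fun i _ => continuous_finsetSum _ fun j _ => ?_
  exact ((continuous_apply_apply i j).comp h).pow 2

/-- A bounded group of matrices preserves a positive definite form. -/
theorem exists_form (G : Submonoid (Matrix (Fin n) (Fin n) ℝ)) (C : ℝ)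
    (hC : ∀ g ∈ G, ∀ i j, |g i j| ≤ C) (hinv : ∀ g ∈ G, ∃ h ∈ G, h * g = 1 ∧ g * h = 1) :
    ∃ P : Matrix (Fin n) (Fin n) ℝ, (∀ v, v ≠ 0 → 0 < v ⬝ᵥ (P *ᵥ v)) ∧
      ∀ g ∈ G, gᵀ * P * g = P := by
  classical
  set K : ℝ := n * n * C ^ 2 + 1 with hK
  have hK0 : (0 : ℝ) ≤ n * n * C ^ 2 := by positivity
  have hKpos : 0 < K := by linarith
  have hbv : ∀ g ∈ G, ∀ v : Fin n → ℝ, (g *ᵥ v) ⬝ᵥ (g *ᵥ v) ≤ K * (v ⬝ᵥ v) := by
    intro g hg v
    have h1 := mulVec_bound (hC g hg) v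
    have h2 : (g *ᵥ v) ⬝ᵥ (g *ᵥ v) = ∑ i, (g *ᵥ v) i ^ 2 := by
      rw [dotProduct]; exact Finset.sum_congr rfl fun i _ => (sq _).symm
    have h3 : v ⬝ᵥ v = ∑ i, v i ^ 2 := by
      rw [dotProduct]; exact Finset.sum_congr rfl fun i _ => (sq _).symm
    have h4 : 0 ≤ ∑ i, v i ^ 2 := Finset.sum_nonneg fun _ _ => sq_nonneg _
    rw [h2, h3, hK]
    nlinarith
  have hbN : ∀ g ∈ G, ∀ X : Matrix (Fin n) (Fin n) ℝ, N (gᵀ * X * g) ≤ K ^ 2 * N X := by
    intro g hg X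
    have h1 := N_conj_bound (hC g hg) X
    have h2 : (n * n * C ^ 2) ^ 2 ≤ K ^ 2 := pow_le_pow_left₀ hK0 (by linarith) 2
    exact h1.trans (mul_le_mul_of_nonneg_right h2 (N_nonneg X))
  have hlow : ∀ g ∈ G, ∀ v : Fin n → ℝ, K⁻¹ * (v ⬝ᵥ v) ≤ (g *ᵥ v) ⬝ᵥ (g *ᵥ v) := by
    intro g hg v
    obtain ⟨h, hh, e, _⟩ := hinv g hg
    have h1 := hbv h hh (g *ᵥ v)
    rw [Matrix.mulVec_mulVec, e, Matrix.one_mulVec] at h1
    rw [inv_mul_le_iff₀ hKpos]
    exact h1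
  have hNlow : ∀ g ∈ G, ∀ X : Matrix (Fin n) (Fin n) ℝ, N X ≤ K ^ 2 * N (gᵀ * X * g) := by
    intro g hg X
    obtain ⟨h, hh, _, e⟩ := hinv g hg
    have h1 := hbN h hh (gᵀ * X * g)
    have h2 : hᵀ * (gᵀ * X * g) * h = X := by
      calc hᵀ * (gᵀ * X * g) * h = (g * h)ᵀ * X * (g * h) := by
            rw [Matrix.transpose_mul]; simp only [Matrix.mul_assoc]
        _ = X := by rw [e]; simp
    rw [h2] at h1
    exact h1
  set R : ℝ := K ^ 2 * N (1 : Matrix (Fin n) (Fin n) ℝ) with hR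
  set D : Set (Matrix (Fin n) (Fin n) ℝ) := {X | (∀ g ∈ G, ∀ v : Fin n → ℝ,
    K⁻¹ * (v ⬝ᵥ v) ≤ (g *ᵥ v) ⬝ᵥ (X *ᵥ (g *ᵥ v))) ∧ ∀ g ∈ G, N (gᵀ * X * g) ≤ R} with hD
  have hone : (1 : Matrix (Fin n) (Fin n) ℝ) ∈ D := by
    refine ⟨fun g hg v => ?_, fun g hg => hbN g hg 1⟩
    rw [Matrix.one_mulVec]
    exact hlow g hg v
  have hclosed : IsClosed D := by
    have h1 : D = (⋂ g ∈ G, ⋂ v : Fin n → ℝ, {X : Matrix (Fin n) (Fin n) ℝ |
        K⁻¹ * (v ⬝ᵥ v) ≤ (g *ᵥ v) ⬝ᵥ (X *ᵥ (g *ᵥ v))}) ∩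
        ⋂ g ∈ G, {X : Matrix (Fin n) (Fin n) ℝ | N (gᵀ * X * g) ≤ R} := by
      ext X
      simp only [hD, Set.mem_ofPred_eq, Set.mem_inter_iff, Set.mem_iInter]
    rw [h1]
    refine IsClosed.inter ?_ ?_
    · refine isClosed_biInter fun g _ => isClosed_iInter fun v => ?_
      refine isClosed_le continuous_const ?_
      fun_prop
    · refine isClosed_biInter fun g _ => ?_
      exact isClosed_le (N_cont g) continuous_const
  have hcompact : IsCompact D := by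
    have hbox : IsCompact (Set.pi Set.univ fun _ : Fin n => Set.pi Set.univ fun _ : Fin n =>
        Set.Icc (-(R + 1)) (R + 1) : Set (Fin n → Fin n → ℝ)) :=
      isCompact_univ_pi fun _ => isCompact_univ_pi fun _ => isCompact_Icc
    refine IsCompact.of_isClosed_subset hbox hclosed ?_
    intro X hX i _ j _
    have h1 := hX.2 1 G.one_mem
    rw [Matrix.transpose_one, Matrix.one_mul, Matrix.mul_one] at h1
    have h2 : X i j ^ 2 ≤ N X := by
      unfold N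
      have h3 : X i j ^ 2 ≤ ∑ j, X i j ^ 2 :=
        Finset.single_le_sum (f := fun j => X i j ^ 2) (fun _ _ => sq_nonneg _) (Finset.mem_univ j)
      exact h3.trans (Finset.single_le_sum (f := fun i => ∑ j, X i j ^ 2)
        (fun _ _ => Finset.sum_nonneg fun _ _ => sq_nonneg _) (Finset.mem_univ i))
    have hR0 : 0 ≤ R := le_trans (N_nonneg X) h1
    have h3 : X i j ^ 2 ≤ (R + 1) ^ 2 := by nlinarith
    have h4 := abs_le_of_sq_le_sq' h3 (by linarith)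
    exact ⟨h4.1, h4.2⟩
  let s : Matrix (Fin n) (Fin n) ℝ → ℝ := fun X => ⨆ g : G, N (g.valᵀ * X * g.val)
  have hbdd : ∀ X, BddAbove (Set.range fun g : G => N (g.valᵀ * X * g.val)) := by
    intro X
    refine ⟨K ^ 2 * N X, ?_⟩
    rintro _ ⟨g, rfl⟩
    exact hbN g.val g.2 X
  have hlsc : LowerSemicontinuousOn s D := by
    have h1 : LowerSemicontinuous s := lowerSemicontinuous_ciSup hbdd fun g =>
      (N_cont g.val).lowerSemicontinuous
    exact h1.lowerSemicontinuousOn D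
  obtain ⟨P, hP, hmin⟩ := LowerSemicontinuousOn.exists_isMinOn ⟨1, hone⟩ hcompact hlsc
  refine ⟨P, fun v hv => ?_, fun g hg => ?_⟩
  · have h1 := hP.1 1 G.one_mem v
    rw [Matrix.one_mulVec] at h1
    have h2 : 0 < v ⬝ᵥ v := by
      rw [dotProduct]
      obtain ⟨i, hi⟩ := Function.ne_iff.1 hv
      refine Finset.sum_pos' (fun i _ => mul_self_nonneg _) ⟨i, Finset.mem_univ i, ?_⟩
      exact mul_self_pos.2 hi
    have h3 : 0 < K⁻¹ * (v ⬝ᵥ v) := mul_pos (inv_pos.2 hKpos) h2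
    linarith
  · set P1 := gᵀ * P * g with hP1
    have hconj : ∀ h, hᵀ * P1 * h = (g * h)ᵀ * P * (g * h) := by
      intro h
      rw [hP1, Matrix.transpose_mul]
      simp only [Matrix.mul_assoc]
    have hP1D : P1 ∈ D := by
      refine ⟨fun h hh v => ?_, fun h hh => ?_⟩
      · have h1 := hP.1 (g * h) (G.mul_mem hg hh) v
        have h2 : (h *ᵥ v) ⬝ᵥ (P1 *ᵥ (h *ᵥ v)) = ((g * h) *ᵥ v) ⬝ᵥ (P *ᵥ ((g * h) *ᵥ v)) := by
          rw [hP1, ← Matrix.mulVec_mulVec, ← Matrix.mulVec_mulVec, ← Matrix.mulVec_mulVec,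
            Matrix.dotProduct_mulVec, Matrix.vecMul_transpose]
        rw [h2]
        exact h1
      · rw [hconj]
        exact hP.2 (g * h) (G.mul_mem hg hh)
    have hle0 : ∀ h ∈ G, N (hᵀ * P * h) ≤ s P := by
      intro h hh
      exact le_ciSup (hbdd P) ⟨h, hh⟩
    have hle1 : ∀ h ∈ G, N (hᵀ * P1 * h) ≤ s P := by
      intro h hh
      rw [hconj]
      exact hle0 _ (G.mul_mem hg hh)
    set Mi := (1 / 2 : ℝ) • (P + P1) with hMi
    have hconjM : ∀ h, hᵀ * Mi * h = (1 / 2 : ℝ) • (hᵀ * P * h + hᵀ * P1 * h) := by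
      intro h
      rw [hMi, Matrix.mul_smul, Matrix.smul_mul, Matrix.mul_add, Matrix.add_mul]
    have hMD : Mi ∈ D := by
      refine ⟨fun h hh v => ?_, fun h hh => ?_⟩
      · have h1 := hP.1 h hh v
        have h2 := hP1D.1 h hh v
        have h3 : (h *ᵥ v) ⬝ᵥ (Mi *ᵥ (h *ᵥ v)) = (1 / 2) * ((h *ᵥ v) ⬝ᵥ (P *ᵥ (h *ᵥ v)) +
            (h *ᵥ v) ⬝ᵥ (P1 *ᵥ (h *ᵥ v))) := by
          rw [hMi, Matrix.smul_mulVec, dotProduct_smul, Matrix.add_mulVec, dotProduct_add,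
            smul_eq_mul]
        rw [h3]
        linarith
      · rw [hconjM, N_mid]
        have h1 := hP.2 h hh
        have h2 := hP1D.2 h hh
        have h3 := N_nonneg (hᵀ * P * h - hᵀ * P1 * h)
        linarith
    have hsM : s Mi ≤ s P - N (P - P1) / (4 * K ^ 2) := by
      refine ciSup_le fun h => ?_
      rw [hconjM, N_mid]
      have h1 := hle0 h.val h.2
      have h2 := hle1 h.val h.2
      have h3 := hNlow h.val h.2 (P - P1)
      have h4 : h.valᵀ * (P - P1) * h.val = h.valᵀ * P * h.val - h.valᵀ * P1 * h.val := by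
        rw [Matrix.mul_sub, Matrix.sub_mul]
      rw [h4] at h3
      have h5 : N (P - P1) / (4 * K ^ 2) ≤ N (h.valᵀ * P * h.val - h.valᵀ * P1 * h.val) / 4 := by
        rw [div_le_div_iff₀ (by positivity) (by norm_num)]
        nlinarith
      linarith
    have hsP : s P ≤ s Mi := hmin hMD
    have h6 : N (P - P1) / (4 * K ^ 2) ≤ 0 := by linarith
    have h7 : N (P - P1) ≤ 0 := by
      by_contra hne
      push Not at hne
      have : 0 < N (P - P1) / (4 * K ^ 2) := by positivity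
      linarith
    have h8 := N_eq_zero h7
    exact (sub_eq_zero.1 h8).symm

end

end Pool.Agent.K3D.K6X
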