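import Pool.Agent.K3D.K6a
import Pool.Agent.K3D.K6b

/-!
# K6: an irreducible subgroup of an indefinite orthogonal group contains an element with an eigenvalue of
absolute value different from one
-/

open scoped BigOperators Matrix Topology
open Matrix

namespace Pool.Agent.K3D

noncomputable section

namespace K6X

variable {n : ℕ}

/-- The trace of a matrix with eigenvalues of absolute value one. -/
theorem trace_bound (A : Matrix (Fin n) (Fin n) ℂ)
    (h : ∀ (β : ℂ) (v : Fin n → ℂ), v ≠ 0 → A *ᵥ v = β • v → ‖β‖ = 1) : ‖A.trace‖ ≤ n := by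
  rw [Matrix.trace_eq_sum_roots_charpoly]
  have hr : ∀ β ∈ A.charpoly.roots, ‖β‖ = 1 := by
    intro β hβ
    have h1 := (Polynomial.mem_roots'.1 hβ).2
    rw [Polynomial.IsRoot.def, Matrix.eval_charpoly] at h1
    obtain ⟨v, hv, hv2⟩ := Matrix.exists_mulVec_eq_zero_iff.2 h1
    refine h β v hv ?_
    rw [Matrix.sub_mulVec, sub_eq_zero, Matrix.scalar_apply] at hv2
    rw [← hv2]
    ext i
    simp [Matrix.mulVec_diagonal]
  have hcard : Multiset.card A.charpoly.roots ≤ n := by
    have := Polynomial.card_roots' A.charpoly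
    rw [Matrix.charpoly_natDegree_eq_dim, Fintype.card_fin] at this
    exact this
  calc ‖A.charpoly.roots.sum‖ ≤ (A.charpoly.roots.map fun x => ‖x‖).sum := norm_multiset_sum_le _
    _ ≤ Multiset.card (A.charpoly.roots.map fun x => ‖x‖) • (1 : ℝ) := by
        refine Multiset.sum_le_card_nsmul _ _ fun x hx => ?_
        obtain ⟨y, hy, rfl⟩ := Multiset.mem_map.1 hx
        exact (hr y hy).le
    _ = (Multiset.card A.charpoly.roots : ℝ) := by rw [Multiset.card_map, nsmul_eq_mul, mul_one]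
    _ ≤ n := by exact_mod_cast hcard

theorem deriv_entry (a : Matrix (Fin n) (Fin n) ℝ) (i j : Fin n) :
    HasDerivAt (fun t : ℝ => (NormedSpace.exp (t • a)) i j) (a i j) 0 := by
  let _ : NormedRing (Matrix (Fin n) (Fin n) ℝ) := Matrix.linftyOpNormedRing
  let _ : NormedAlgebra ℝ (Matrix (Fin n) (Fin n) ℝ) := Matrix.linftyOpNormedAlgebra
  have h := hasDerivAt_exp_smul_const (𝕂 := ℝ) a (0 : ℝ)
  have h2 := (((Matrix.entryLinearMap ℝ ℝ i j :
    Matrix (Fin n) (Fin n) ℝ →ₗ[ℝ] ℝ)).toContinuousLinearMap.hasFDerivAt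
      (x := NormedSpace.exp ((0 : ℝ) • a))).comp_hasDerivAt (0 : ℝ) h
  have h3 : (Matrix.entryLinearMap ℝ ℝ i j :
    Matrix (Fin n) (Fin n) ℝ →ₗ[ℝ] ℝ).toContinuousLinearMap (NormedSpace.exp ((0 : ℝ) • a) * a) =
      a i j := by
    rw [zero_smul, NormedSpace.exp_zero, one_mul]
    rfl
  exact h2.congr_deriv h3

theorem stable_of_exp (a : Matrix (Fin n) (Fin n) ℝ) (W : Submodule ℂ (Fin n → ℂ))
    (h : ∀ t : ℝ, ∀ w ∈ W, ((NormedSpace.exp (t • a)).map Complex.ofReal) *ᵥ w ∈ W) :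
    ∀ w ∈ W, (a.map Complex.ofReal) *ᵥ w ∈ W := by
  intro w hw
  have hd : HasDerivAt (fun t : ℝ => ((NormedSpace.exp (t • a)).map Complex.ofReal) *ᵥ w)
      ((a.map Complex.ofReal) *ᵥ w) 0 := by
    rw [hasDerivAt_pi]
    intro i
    have h1 : ∀ j, HasDerivAt (fun t : ℝ =>
        (((NormedSpace.exp (t • a)) i j : ℝ) : ℂ) * w j) ((a i j : ℂ) * w j) 0 := by
      intro j
      exact ((deriv_entry a i j).ofReal_comp).mul_const (w j)
    have h2 := HasDerivAt.fun_sum (u := Finset.univ) fun j _ => h1 j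
    exact h2
  have hclosed : IsClosed (W : Set (Fin n → ℂ)) := W.closed_of_finiteDimensional
  rw [hasDerivAt_iff_tendsto_slope_zero] at hd
  refine hclosed.mem_of_tendsto hd ?_
  refine Filter.Eventually.of_forall fun t => ?_
  refine (W.restrictScalars ℝ).smul_mem _ ?_
  exact W.sub_mem (h _ w hw) (h _ w hw)

end K6X

open K6X

/-- K6. -/
theorem K6_proof : Stmt_K6 := by
  intro n q l hq hpos hneg hskew hirr
  classical
  obtain ⟨ip, hip⟩ := hpos
  obtain ⟨im, him⟩ := hneg
  have hn : 0 < n := lt_of_le_of_lt (Nat.zero_le _) ip.2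
  set S : Set (Matrix (Fin n) (Fin n) ℝ) := (fun a => NormedSpace.exp a) '' (l : Set _) with hS
  set H : Submonoid (Matrix (Fin n) (Fin n) ℝ) := Submonoid.closure S with hH
  by_contra hcon
  -- eigenvalues have absolute value one
  have heig : ∀ g ∈ H, ∀ (β : ℂ) (v : Fin n → ℂ), v ≠ 0 →
      (g.map Complex.ofReal) *ᵥ v = β • v → ‖β‖ = 1 := by
    intro g hg β v hv hgv
    by_contra hb
    obtain ⟨L, hL, hLg⟩ := Submonoid.exists_list_of_mem_closure hg
    have hex : ∀ L : List (Matrix (Fin n) (Fin n) ℝ), (∀ y ∈ L, y ∈ S) →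
        ∃ as : List (Matrix (Fin n) (Fin n) ℝ), (∀ a ∈ as, a ∈ l) ∧
          as.map (fun a => NormedSpace.exp a) = L := by
      intro L
      induction L with
      | nil => intro _; exact ⟨[], by simp, rfl⟩
      | cons y L ih =>
        intro hy
        obtain ⟨as, h1, h2⟩ := ih fun z hz => hy z (List.mem_cons_of_mem _ hz)
        obtain ⟨a, ha, hay⟩ := hy y List.mem_cons_self
        refine ⟨a :: as, ?_, ?_⟩
        · intro b hb
          rcases List.mem_cons.1 hb with rfl | hb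
          · exact ha
          · exact h1 b hb
        · rw [List.map_cons, h2]
          exact congrArg (fun z => z :: L) hay
    obtain ⟨as, h1, h2⟩ := hex L hL
    exact hcon ⟨as, h1, β, v, hv, hb, by rw [h2, hLg]; exact hgv⟩
  -- inverses
  have hexp_inv : ∀ a : Matrix (Fin n) (Fin n) ℝ,
      NormedSpace.exp (-a) * NormedSpace.exp a = 1 ∧ NormedSpace.exp a * NormedSpace.exp (-a) = 1 := by
    intro a
    have h1 : IsUnit (NormedSpace.exp a) := Matrix.isUnit_exp a
    have h2 : IsUnit (NormedSpace.exp a).det := (Matrix.isUnit_iff_isUnit_det _).1 h1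
    rw [Matrix.exp_neg]
    exact ⟨Matrix.nonsing_inv_mul _ h2, Matrix.mul_nonsing_inv _ h2⟩
  have hinv : ∀ g ∈ H, ∃ h ∈ H, h * g = 1 ∧ g * h = 1 := by
    intro g hg
    induction hg using Submonoid.closure_induction with
    | mem x hx =>
      obtain ⟨a, ha, rfl⟩ := hx
      exact ⟨NormedSpace.exp (-a), Submonoid.subset_closure ⟨-a, l.neg_mem ha, rfl⟩,
        (hexp_inv a).1, (hexp_inv a).2⟩
    | one => exact ⟨1, H.one_mem, by simp⟩
    | mul x y _ _ hx hy =>
      obtain ⟨x', hx', h1, h2⟩ := hx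
      obtain ⟨y', hy', h3, h4⟩ := hy
      refine ⟨y' * x', H.mul_mem hy' hx', ?_, ?_⟩
      · rw [Matrix.mul_assoc, ← Matrix.mul_assoc x' x y, h1, Matrix.one_mul, h3]
      · rw [Matrix.mul_assoc, ← Matrix.mul_assoc y y' x', h4, Matrix.one_mul, h2]
  -- the form
  have hdetQ : IsUnit (Matrix.diagonal q) := by
    rw [Matrix.isUnit_iff_isUnit_det, Matrix.det_diagonal, isUnit_iff_ne_zero]
    exact Finset.prod_ne_zero_iff.2 fun i _ => hq i
  have hdetQ' : IsUnit (Matrix.diagonal q).det := (Matrix.isUnit_iff_isUnit_det _).1 hdetQ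
  have hform : ∀ g ∈ H, gᵀ * Matrix.diagonal q * g = Matrix.diagonal q := by
    intro g hg
    induction hg using Submonoid.closure_induction with
    | mem x hx =>
      obtain ⟨a, ha, rfl⟩ := hx
      have h1 : aᵀ = Matrix.diagonal q * (-a) * (Matrix.diagonal q)⁻¹ := by
        have h2 := hskew a ha
        have h3 : aᵀ * Matrix.diagonal q = Matrix.diagonal q * (-a) := by
          rw [Matrix.mul_neg]
          exact eq_neg_of_add_eq_zero_left h2
        rw [← h3, Matrix.mul_assoc, Matrix.mul_nonsing_inv _ hdetQ', Matrix.mul_one]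
      have h4 : (NormedSpace.exp a)ᵀ =
          Matrix.diagonal q * NormedSpace.exp (-a) * (Matrix.diagonal q)⁻¹ := by
        rw [← Matrix.exp_transpose, h1, Matrix.exp_conj _ _ hdetQ]
      show (NormedSpace.exp a)ᵀ * Matrix.diagonal q * NormedSpace.exp a = Matrix.diagonal q
      rw [h4]
      simp only [Matrix.mul_assoc]
      rw [← Matrix.mul_assoc (Matrix.diagonal q)⁻¹, Matrix.nonsing_inv_mul _ hdetQ', Matrix.one_mul,
        (hexp_inv a).1, Matrix.mul_one]
    | one => simp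
    | mul x y _ _ hx hy =>
      calc (x * y)ᵀ * Matrix.diagonal q * (x * y) = yᵀ * (xᵀ * Matrix.diagonal q * x) * y := by
            rw [Matrix.transpose_mul]; simp only [Matrix.mul_assoc]
        _ = Matrix.diagonal q := by rw [hx, hy]
  -- irreducibility of the group
  have hirrH : ∀ W : Submodule ℂ (Fin n → ℂ),
      (∀ g ∈ H, ∀ w ∈ W, (g.map Complex.ofReal) *ᵥ w ∈ W) → W = ⊥ ∨ W = ⊤ := by
    intro W hW
    refine hirr W fun a ha => stable_of_exp a W fun t w hw => ?_
    exact hW _ (Submonoid.subset_closure ⟨t • a, l.smul_mem t ha, rfl⟩) w hw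
  -- Burnside
  let φ : Matrix (Fin n) (Fin n) ℝ →* Matrix (Fin n) (Fin n) ℂ :=
    (Complex.ofRealHom.mapMatrix : Matrix (Fin n) (Fin n) ℝ →+* Matrix (Fin n) (Fin n) ℂ)
  have hφ : ∀ x, φ x = x.map Complex.ofReal := fun x => rfl
  have hspan : Submodule.span ℂ ((H.map φ : Submonoid (Matrix (Fin n) (Fin n) ℂ)) :
      Set (Matrix (Fin n) (Fin n) ℂ)) = ⊤ := by
    refine burnside hn _ fun W hW => hirrH W fun g hg w hw => ?_
    exact hW (φ g) ⟨g, hg, rfl⟩ w hw
  -- boundedness
  have hb1 : ∀ X : Matrix (Fin n) (Fin n) ℂ, ∃ C : ℝ, ∀ g ∈ H, ‖(φ g * X).trace‖ ≤ C := by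
    intro X
    have hX : X ∈ Submodule.span ℂ ((H.map φ : Submonoid (Matrix (Fin n) (Fin n) ℂ)) :
      Set (Matrix (Fin n) (Fin n) ℂ)) := by
      rw [hspan]; trivial
    induction hX using Submodule.span_induction with
    | mem x hx =>
      obtain ⟨h, hh, rfl⟩ := hx
      refine ⟨n, fun g hg => ?_⟩
      rw [← map_mul]
      exact trace_bound _ (heig (g * h) (H.mul_mem hg hh))
    | zero => exact ⟨0, fun g _ => by simp⟩
    | add x y _ _ hx hy =>
      obtain ⟨C1, h1⟩ := hx
      obtain ⟨C2, h2⟩ := hy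
      refine ⟨C1 + C2, fun g hg => ?_⟩
      rw [Matrix.mul_add, Matrix.trace_add]
      exact (norm_add_le _ _).trans (add_le_add (h1 g hg) (h2 g hg))
    | smul c x _ hx =>
      obtain ⟨C1, h1⟩ := hx
      refine ⟨‖c‖ * C1, fun g hg => ?_⟩
      rw [Matrix.mul_smul, Matrix.trace_smul, norm_smul]
      exact mul_le_mul_of_nonneg_left (h1 g hg) (norm_nonneg c)
  have hb2 : ∀ i j : Fin n, ∃ C : ℝ, ∀ g ∈ H, |g i j| ≤ C := by
    intro i j
    obtain ⟨C, hC⟩ := hb1 (Matrix.single j i 1)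
    refine ⟨C, fun g hg => ?_⟩
    have h1 := hC g hg
    have h2 : (φ g * Matrix.single j i 1).trace = (g i j : ℂ) := by
      rw [Matrix.trace_mul_single]
      simp [hφ]
    rw [h2, Complex.norm_real] at h1
    exact h1
  choose C hC using hb2
  set C0 : ℝ := ∑ i, ∑ j, |C i j| with hC0
  have hbound : ∀ g ∈ H, ∀ i j, |g i j| ≤ C0 := by
    intro g hg i j
    have h1 : |C i j| ≤ ∑ j, |C i j| :=
      Finset.single_le_sum (f := fun j => |C i j|) (fun _ _ => abs_nonneg _) (Finset.mem_univ j)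
    have h2 : ∑ j, |C i j| ≤ C0 := Finset.single_le_sum (f := fun i => ∑ j, |C i j|)
      (fun _ _ => Finset.sum_nonneg fun _ _ => abs_nonneg _) (Finset.mem_univ i)
    exact (hC i j g hg).trans ((le_abs_self _).trans (h1.trans h2))
  obtain ⟨P, hPpos, hPinv⟩ := exists_form H C0 hbound hinv
  -- Schur
  have hPdet : P.det ≠ 0 := by
    intro h0
    obtain ⟨v, hv, hv2⟩ := Matrix.exists_mulVec_eq_zero_iff.2 h0
    have := hPpos v hv
    rw [hv2] at this
    simp at this
  have hPu : IsUnit P.det := isUnit_iff_ne_zero.2 hPdet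
  set Pc := φ P with hPc
  set Qc := φ (Matrix.diagonal q) with hQc
  have hPcu : IsUnit Pc.det := by
    have : Pc.det = ((P.det : ℝ) : ℂ) := (RingHom.map_det Complex.ofRealHom P).symm
    rw [this, isUnit_iff_ne_zero]
    exact_mod_cast hPdet
  have : Nonempty (Fin n) := ⟨ip⟩
  obtain ⟨c, hc⟩ := Module.End.exists_eigenvalue (Matrix.toLin' (Pc⁻¹ * Qc))
  obtain ⟨v0, hv0⟩ := hc.exists_hasEigenvector
  have hv1 : (Pc⁻¹ * Qc) *ᵥ v0 = c • v0 := by
    have := hv0.apply_eq_smul
    rwa [Matrix.toLin'_apply] at this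
  let W : Submodule ℂ (Fin n → ℂ) :=
    LinearMap.ker (Matrix.toLin' (Qc - c • Pc))
  have hmemW : ∀ v, v ∈ W ↔ Qc *ᵥ v = c • (Pc *ᵥ v) := by
    intro v
    rw [LinearMap.mem_ker, Matrix.toLin'_apply, Matrix.sub_mulVec, sub_eq_zero, Matrix.smul_mulVec]
  have hv0W : v0 ∈ W := by
    rw [hmemW]
    have h1 : Pc *ᵥ ((Pc⁻¹ * Qc) *ᵥ v0) = Qc *ᵥ v0 := by
      rw [Matrix.mulVec_mulVec, ← Matrix.mul_assoc, Matrix.mul_nonsing_inv _ hPcu, Matrix.one_mul]
    rw [← h1, hv1, Matrix.mulVec_smul]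
  have hWtop : W = ⊤ := by
    rcases hirrH W (by
      intro g hg w hw
      rw [hmemW] at hw ⊢
      obtain ⟨h, hh, h1, h2⟩ := hinv g hg
      -- X g = hᵀ X for X = P, Q
      have hX : ∀ X : Matrix (Fin n) (Fin n) ℝ, gᵀ * X * g = X → X * g = hᵀ * X := by
        intro X hX
        calc X * g = (g * h)ᵀ * X * g := by rw [h2, Matrix.transpose_one, Matrix.one_mul]
          _ = hᵀ * (gᵀ * X * g) := by rw [Matrix.transpose_mul]; simp only [Matrix.mul_assoc]
          _ = hᵀ * X := by rw [hX]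
      have hXc : ∀ X : Matrix (Fin n) (Fin n) ℝ, gᵀ * X * g = X →
          φ X *ᵥ ((g.map Complex.ofReal) *ᵥ w) = φ hᵀ *ᵥ (φ X *ᵥ w) := by
        intro X hX'
        rw [← hφ, Matrix.mulVec_mulVec, Matrix.mulVec_mulVec, ← map_mul, ← map_mul, hX X hX']
      rw [hQc, hXc _ (hform g hg), ← hQc, hw, hPc, hXc _ (hPinv g hg), Matrix.mulVec_smul]) with h | h
    · exfalso
      have h1 : v0 ∈ (⊥ : Submodule ℂ (Fin n → ℂ)) := h ▸ hv0W
      exact hv0.2 ((Submodule.mem_bot ℂ).1 h1)
    · exact h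
  have hall : ∀ i j, ((Matrix.diagonal q i j : ℝ) : ℂ) = c * (P i j : ℂ) := by
    intro i j
    have h1 : Pi.single j (1 : ℂ) ∈ W := by rw [hWtop]; trivial
    rw [hmemW] at h1
    have h2 := congrFun h1 i
    rw [Matrix.mulVec_single_one, Pi.smul_apply, Matrix.mulVec_single_one] at h2
    exact h2
  -- compare the signs
  have hPd : ∀ i, 0 < P i i := by
    intro i
    have h1 := hPpos (Pi.single i 1) (by
      intro h0
      have := congrFun h0 i
      simp at this)
    rw [Matrix.mulVec_single_one] at h1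
    simpa using h1
  have hre : ∀ i, q i = c.re * P i i := by
    intro i
    have h1 := congrArg Complex.re (hall i i)
    rw [Matrix.diagonal_apply_eq, Complex.ofReal_re, Complex.re_mul_ofReal] at h1
    exact h1
  have h1 := hre ip
  have h2 := hre im
  have h3 := hPd ip
  have h4 := hPd im
  have h5 : 0 < c.re := by
    by_contra h
    push Not at h
    nlinarith
  nlinarith

end

end Pool.Agent.K3D
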