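import Mathlib

/-!
# K7: abstract part. Irreducible real Lie subalgebras of `so(2, n - 2)` containing a hyperbolic element.
-/

open scoped BigOperators

namespace Pool.Agent.K3D.K7x

open Module

variable {V : Type*} [AddCommGroup V] [Module ℝ V]

/-- The wedge `x ∧ y` as an endomorphism. -/
noncomputable def wd (B : V →ₗ[ℝ] V →ₗ[ℝ] ℝ) : V →ₗ[ℝ] V →ₗ[ℝ] Module.End ℝ V :=
  LinearMap.mk₂ ℝ (fun x y => (B y).smulRight x - (B x).smulRight y)
    (by intro x x' y; ext v; simp [smul_add, add_smul]; abel)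
    (by intro c x y; ext v; simp [smul_sub, smul_smul, mul_comm])
    (by intro x y y'; ext v; simp [smul_add, add_smul]; abel)
    (by intro c x y; ext v; simp [smul_sub, smul_smul, mul_comm])

@[simp] theorem wd_apply (B : V →ₗ[ℝ] V →ₗ[ℝ] ℝ) (x y v : V) :
    wd B x y v = B y v • x - B x v • y := rfl

theorem wd_self (B : V →ₗ[ℝ] V →ₗ[ℝ] ℝ) (x : V) : wd B x x = 0 := by
  ext v; simp

theorem wd_swap (B : V →ₗ[ℝ] V →ₗ[ℝ] ℝ) (x y : V) : wd B y x = - wd B x y := by
  ext v; simp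

theorem comm_wd {B : V →ₗ[ℝ] V →ₗ[ℝ] ℝ} {A : Module.End ℝ V}
    (hA : ∀ x y, B (A x) y = - B x (A y)) (x y : V) :
    A * wd B x y - wd B x y * A = wd B (A x) y + wd B x (A y) := by
  ext v
  simp only [LinearMap.sub_apply, Module.End.mul_apply, wd_apply, LinearMap.add_apply, map_sub,
    map_smul, hA, neg_smul]
  abel

/-- The context. -/
structure Ctx (B : V →ₗ[ℝ] V →ₗ[ℝ] ℝ) (l : Submodule ℝ (Module.End ℝ V)) : Prop where
  symm : ∀ x y, B x y = B y x
  sig : ∀ v : Fin 3 → V, LinearIndependent ℝ v → ∃ c : Fin 3 → ℝ,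
    B (∑ i, c i • v i) (∑ i, c i • v i) < 0
  nondeg : ∀ x, (∀ y, B x y = 0) → x = 0
  dim : Module.finrank ℝ V ≤ 4 ∨ 6 ≤ Module.finrank ℝ V
  skew : ∀ Y ∈ l, ∀ x y, B (Y x) y = - B x (Y y)
  brk : ∀ X ∈ l, ∀ Y ∈ l, X * Y - Y * X ∈ l
  irr : ∀ W : Submodule ℝ (V × V), (∀ p ∈ W, (-p.2, p.1) ∈ W) →
    (∀ Y ∈ l, ∀ p ∈ W, (Y p.1, Y p.2) ∈ W) → W = ⊥ ∨ W = ⊤
  hyp : ∀ Y ∈ l, ∃ H ∈ l, (⨆ μ : ℝ, Module.End.eigenspace H μ = ⊤) ∧
    ∀ (c : ℝ) v, Y v = c • v → H v = c • v
  span : ∀ Y : Module.End ℝ V, (∀ x y, B (Y x) y = - B x (Y y)) →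
    Y ∈ Submodule.span ℝ {Z | ∃ x y, Z = wd B x y}

variable {B : V →ₗ[ℝ] V →ₗ[ℝ] ℝ} {l : Submodule ℝ (Module.End ℝ V)}

theorem wd_skew (hs : ∀ x y, B x y = B y x) (x y v w : V) :
    B (wd B x y v) w = - B v (wd B x y w) := by
  simp only [wd_apply, map_sub, map_smul, LinearMap.sub_apply, LinearMap.smul_apply, smul_eq_mul,
    hs v x, hs v y]
  ring

/-- The real form of irreducibility. -/
theorem Ctx.irrR (C : Ctx B l) (W : Submodule ℝ V) (hW : ∀ Y ∈ l, ∀ w ∈ W, Y w ∈ W) :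
    W = ⊥ ∨ W = ⊤ := by
  rcases C.irr (W.prod W) (by
    rintro ⟨x, y⟩ ⟨hx, hy⟩
    exact ⟨W.neg_mem hy, hx⟩) (by
    rintro Y hY ⟨x, y⟩ ⟨hx, hy⟩
    exact ⟨hW Y hY _ hx, hW Y hY _ hy⟩) with h | h
  · left
    rw [eq_bot_iff]
    intro x hx
    have : ((x, (0 : V)) : V × V) ∈ (⊥ : Submodule ℝ (V × V)) := h ▸ ⟨hx, W.zero_mem⟩
    simpa using this
  · right
    rw [eq_top_iff]
    intro x _
    have : ((x, (0 : V)) : V × V) ∈ W.prod W := h ▸ Submodule.mem_top
    exact this.1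

theorem Ctx.brkw (C : Ctx B l) {A : Module.End ℝ V} (hA : A ∈ l) {x y : V} (h : wd B x y ∈ l) :
    wd B (A x) y + wd B x (A y) ∈ l := by
  rw [← comm_wd (C.skew A hA)]
  exact C.brk _ hA _ h

/-! ## Claim 1 -/

section Claim1

variable (C : Ctx B l) {e f : V} (hee : B e e = 0) (hff : B f f = 0) (hef : B e f = 1)
  (hH : wd B e f ∈ l)

include C hee hff hef hH

theorem c1a (Y : Module.End ℝ V) (hY : Y ∈ l) : wd B e (Y f) ∈ l := by
  have hfe : B f e = 1 := by rw [C.symm, hef]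
  have sk := C.skew Y hY
  have h1 := C.brkw hY hH
  -- s = Ye ∧ f + e ∧ Yf
  have h2 : wd B e f * (wd B (Y e) f + wd B e (Y f)) - (wd B (Y e) f + wd B e (Y f)) * wd B e f ∈ l :=
    C.brk _ hH _ h1
  have h3 : wd B e f * (wd B (Y e) f + wd B e (Y f)) - (wd B (Y e) f + wd B e (Y f)) * wd B e f +
      (wd B (Y e) f + wd B e (Y f)) - (2 * B f (Y e)) • wd B e f = (2 : ℝ) • wd B e (Y f) := by
    have e1 := comm_wd (wd_skew C.symm e f) (Y e) f
    have e2 := comm_wd (wd_skew C.symm e f) e (Y f)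
    have e3 : B e (Y e) = 0 := by
      have := sk e e; rw [C.symm] at this; linarith
    have e4 : B f (Y f) = 0 := by
      have := sk f f; rw [C.symm] at this; linarith
    have e5 : B e (Y f) = - B f (Y e) := by
      have := sk e f; rw [C.symm] at this; linarith
    have e6 : wd B e f (Y e) = B f (Y e) • e := by rw [wd_apply, e3]; simp
    have e7 : wd B e f (Y f) = B f (Y e) • f := by rw [wd_apply, e4, e5]; simp
    have e8 : wd B e f e = e := by rw [wd_apply, hfe, hee]; simp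
    have e9 : wd B e f f = -f := by rw [wd_apply, hff, hef]; simp
    rw [mul_add, add_mul, add_sub_add_comm, e1, e2, e6, e7, e8, e9]
    simp only [map_smul, map_neg, LinearMap.smul_apply, two_mul, add_smul, two_smul]
    abel
  have h4 : (2 : ℝ) • wd B e (Y f) ∈ l := by
    rw [← h3]
    exact l.sub_mem (l.add_mem h2 h1) (l.smul_mem _ hH)
  have := l.smul_mem (1/2 : ℝ) h4
  rwa [smul_smul, show (1/2 : ℝ) * 2 = 1 by norm_num, one_smul] at this

theorem c1b (Y : Module.End ℝ V) (hY : Y ∈ l) : wd B f (Y e) ∈ l := by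
  refine c1a C hff hee (by rw [C.symm, hef]) ?_ Y hY
  rw [wd_swap]
  exact l.neg_mem hH

/-- `[e ∧ x, f ∧ y]` -/
theorem c1c {x y : V} (hx : wd B e x ∈ l) (hy : wd B f y ∈ l) :
    wd B x y - B x y • wd B f e - B x f • wd B e y + B e y • wd B f x ∈ l := by
  have h := C.brkw hx hy
  rw [wd_apply, wd_apply, hef] at h
  have h' := l.neg_mem h
  convert h' using 1
  simp only [map_sub, map_smul, LinearMap.sub_apply, LinearMap.smul_apply, one_smul]
  abel

/-- for `w`, `v` orthogonal to `e`, `f` -/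
theorem c1d {w v : V} (hw : wd B e w ∈ l) (hv : wd B f v ∈ l) (hev : B e v = 0)
    (hfw : B f w = 0) : wd B w v ∈ l := by
  have h := c1c C hee hff hef hH hw hv
  rw [hev, C.symm w f, hfw, zero_smul, zero_smul, add_zero, sub_zero, wd_swap B e f] at h
  have h2 := l.add_mem h (l.smul_mem (B w v) (l.neg_mem hH))
  convert h2 using 1
  abel

theorem c1e : ∀ x, wd B f x ∈ l := by
  have hfe : B f e = 1 := by rw [C.symm, hef]
  have hH' : wd B f e ∈ l := by rw [wd_swap]; exact l.neg_mem hH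
  have he : e ≠ 0 := by
    rintro rfl; simp at hef
  -- decomposition
  have dec : ∀ x, ∃ v, x = B f x • e + B e x • f + v ∧ B e v = 0 ∧ B f v = 0 := by
    intro x
    refine ⟨x - B f x • e - B e x • f, by abel, ?_, ?_⟩
    · simp [hee, hef]
    · simp [hfe, hff]
  -- Y f = -c f + w
  have key : ∀ Y ∈ l, ∀ v, B e v = 0 → B f v = 0 → wd B f v ∈ l → wd B (Y f) v ∈ l := by
    intro Y hY v hev hfv hv
    have h1 := c1a C hee hff hef hH Y hY
    obtain ⟨w, hw, hew, hfw⟩ := dec (Y f)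
    have e4 : B f (Y f) = 0 := by
      have := C.skew Y hY f f; rw [C.symm] at this; linarith
    rw [e4, zero_smul, zero_add] at hw
    have h2 : wd B e w ∈ l := by
      have : wd B e w = wd B e (Y f) - B e (Y f) • wd B e f := by
        conv_rhs => rw [hw]
        simp only [map_add, map_smul, hef, hew, smul_eq_mul, mul_one, add_zero]
        abel
      rw [this]
      exact l.sub_mem h1 (l.smul_mem _ hH)
    have h3 := c1d C hee hff hef hH h2 hv hev hfw
    rw [hw]
    simp only [map_add, map_smul, LinearMap.add_apply, LinearMap.smul_apply]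
    exact l.add_mem (l.smul_mem _ hv) h3
  -- (i)
  have hi : ∃ v v', (B e v = 0 ∧ B f v = 0 ∧ wd B f v ∈ l) ∧
      (B e v' = 0 ∧ B f v' = 0 ∧ wd B f v' ∈ l) ∧ B v v' ≠ 0 := by
    by_contra hcon
    push Not at hcon
    let W : Submodule ℝ V := (LinearMap.ker (B e)) ⊓ (Submodule.comap (wd B f) l)
    have hWmem : ∀ x, x ∈ W ↔ B e x = 0 ∧ wd B f x ∈ l := by
      intro x; simp [W]
    rcases C.irrR W (by
      intro Y hY x hx
      rw [hWmem] at hx ⊢
      obtain ⟨hx1, hx2⟩ := hx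
      obtain ⟨v, hv, hev, hfv⟩ := dec x
      rw [hx1, zero_smul, add_zero] at hv
      have hv2 : wd B f v ∈ l := by
        have : wd B f v = wd B f x - B f x • wd B f e := by
          conv_rhs => rw [hv]
          simp only [map_add, map_smul, hfe, hfv, smul_eq_mul, mul_one, add_zero]
          abel
        rw [this]
        exact l.sub_mem hx2 (l.smul_mem _ hH')
      refine ⟨?_, ?_⟩
      · -- B e (Y x) = - B (Y e) x
        obtain ⟨v', hv', hev', hfv'⟩ := dec (Y e)
        have e3 : B e (Y e) = 0 := by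
          have := C.skew Y hY e e; rw [C.symm] at this; linarith
        rw [e3, zero_smul, add_zero] at hv'
        have hv'2 : wd B f v' ∈ l := by
          have : wd B f v' = wd B f (Y e) - B f (Y e) • wd B f e := by
            conv_rhs => rw [hv']
            simp only [map_add, map_smul, hfe, hfv', smul_eq_mul, mul_one, add_zero]
            abel
          rw [this]
          exact l.sub_mem (c1b C hee hff hef hH Y hY) (l.smul_mem _ hH')
        have h5 : B v' v = 0 := hcon v' v ⟨hev', hfv', hv'2⟩ ⟨hev, hfv, hv2⟩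
        have h6 : B (Y e) x = 0 := by
          rw [hv', hv]
          simp only [map_add, map_smul, LinearMap.add_apply, LinearMap.smul_apply, smul_eq_mul, hee,
            hev, h5, C.symm v' e, hev', mul_zero, add_zero]
        have := C.skew Y hY e x
        linarith
      · have h7 := C.brkw hY hx2
        have h8 : wd B (Y f) x ∈ l := by
          rw [hv]
          simp only [map_add, map_smul]
          refine l.add_mem (l.smul_mem _ ?_) (key Y hY v hev hfv hv2)
          rw [wd_swap]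
          exact l.neg_mem (c1a C hee hff hef hH Y hY)
        have := l.sub_mem h7 h8
        simpa using this) with h | h
    · have : e ∈ W := (hWmem e).2 ⟨hee, hH'⟩
      rw [h] at this
      exact he (by simpa using this)
    · have : f ∈ W := by rw [h]; exact Submodule.mem_top
      rw [hWmem, hef] at this
      exact one_ne_zero this.1
  obtain ⟨v, v', ⟨hev, hfv, hv⟩, ⟨hev', hfv', hv'⟩, hvv⟩ := hi
  -- (ii)
  have hii : ∀ u, B e u = 0 → B f u = 0 → wd B e u ∈ l → wd B f u ∈ l := by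
    intro u heu hfu hu
    have h1 : wd B u v ∈ l := c1d C hee hff hef hH hu hv hev hfu
    have h2 := C.brkw h1 hv'
    rw [wd_apply, wd_apply, C.symm v f, hfv, C.symm u f, hfu] at h2
    simp only [zero_smul, sub_zero, map_zero, LinearMap.zero_apply, zero_add, map_sub, map_smul] at h2
    have h3 := l.add_mem h2 (l.smul_mem (B u v') hv)
    rw [sub_add_cancel] at h3
    have h4 := l.smul_mem (B v v')⁻¹ h3
    rwa [smul_smul, inv_mul_cancel₀ hvv, one_smul] at h4
  -- final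
  let W : Submodule ℝ V := Submodule.comap (wd B f) l
  have hWmem : ∀ x, x ∈ W ↔ wd B f x ∈ l := fun x => Iff.rfl
  rcases C.irrR W (by
    intro Y hY x hx
    rw [hWmem] at hx ⊢
    have h7 := C.brkw hY hx
    obtain ⟨v, hv, hev, hfv⟩ := dec x
    have hv2 : wd B f v ∈ l := by
      have : wd B f v = wd B f x - B f x • wd B f e := by
        conv_rhs => rw [hv]
        simp only [map_add, map_smul, hfe, hfv, hff, smul_eq_mul, mul_one, mul_zero, add_zero,
          wd_self, smul_zero]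
        abel
      rw [this]
      exact l.sub_mem hx (l.smul_mem _ hH')
    have hff' : wd B f (Y f) ∈ l := by
      obtain ⟨w, hw, hew, hfw⟩ := dec (Y f)
      have e4 : B f (Y f) = 0 := by
        have := C.skew Y hY f f; rw [C.symm] at this; linarith
      rw [e4, zero_smul, zero_add] at hw
      have h2 : wd B e w ∈ l := by
        have : wd B e w = wd B e (Y f) - B e (Y f) • wd B e f := by
          conv_rhs => rw [hw]
          simp only [map_add, map_smul, hef, hew, smul_eq_mul, mul_one, add_zero]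
          abel
        rw [this]
        exact l.sub_mem (c1a C hee hff hef hH Y hY) (l.smul_mem _ hH)
      have h3 := hii w hew hfw h2
      rw [hw]
      simp only [map_add, map_smul, wd_self, smul_zero, zero_add]
      exact h3
    have h8 : wd B (Y f) x ∈ l := by
      rw [hv]
      simp only [map_add, map_smul]
      refine l.add_mem (l.add_mem (l.smul_mem _ ?_) (l.smul_mem _ ?_)) (key Y hY v hev hfv hv2)
      · rw [wd_swap]
        exact l.neg_mem (c1a C hee hff hef hH Y hY)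
      · rw [wd_swap]
        exact l.neg_mem hff'
    have := l.sub_mem h7 h8
    simpa using this) with h | h
  · have : e ∈ W := (hWmem e).2 hH'
    rw [h] at this
    exact absurd (by simpa using this) he
  · intro x
    have : x ∈ W := by rw [h]; exact Submodule.mem_top
    exact this

/-- Claim 1: `l` contains all the wedges. -/
theorem claim1 : ∀ x y, wd B x y ∈ l := by
  have hfe : B f e = 1 := by rw [C.symm, hef]
  have hH' : wd B f e ∈ l := by rw [wd_swap]; exact l.neg_mem hH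
  have h1 := c1e C hee hff hef hH
  have h2 := c1e C hff hee hfe hH'
  intro x y
  have h := c1c C hee hff hef hH (h2 x) (h1 y)
  have h3 := l.sub_mem (l.add_mem (l.add_mem h (l.smul_mem (B x y) (h1 e)))
    (l.smul_mem (B x f) (h2 y))) (l.smul_mem (B e y) (h1 x))
  convert h3 using 1
  abel

end Claim1

/-! ## The top lemma -/

theorem topLemma {E : Type*} [AddCommGroup E] [Module ℝ E] (S : ℝ → Set (Module.End ℝ E))
    (hbr : ∀ μ ν, ∀ A ∈ S μ, ∀ b ∈ S ν, A * b - b * A ∈ S (μ + ν))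
    (irr : ∀ W : Submodule ℝ E, (∀ μ, ∀ A ∈ S μ, ∀ w ∈ W, A w ∈ W) → W = ⊥ ∨ W = ⊤)
    (L W0 : Submodule ℝ E) (hL : L ≠ ⊥) (hpos : ∀ μ, 0 ≤ μ → ∀ A ∈ S μ, ∀ w ∈ L, A w ∈ L)
    (hLW : L ≤ W0) (hneg : ∀ μ < 0, ∀ A ∈ S μ, ∀ w ∈ W0, A w ∈ W0) : W0 = ⊤ := by
  let F : Set (Submodule ℝ E) := {W | L ≤ W ∧ ∀ μ < 0, ∀ A ∈ S μ, ∀ w ∈ W, A w ∈ W}
  let W : Submodule ℝ E := sInf F
  have hW0 : W ≤ W0 := sInf_le ⟨hLW, hneg⟩
  have hLWW : L ≤ W := le_sInf fun X hX => hX.1
  have hWneg : ∀ μ < 0, ∀ A ∈ S μ, ∀ w ∈ W, A w ∈ W := by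
    intro μ hμ A hA w hw
    rw [Submodule.mem_sInf] at hw ⊢
    intro X hX
    exact hX.2 μ hμ A hA w (hw X hX)
  let W' : Submodule ℝ E :=
    { carrier := {w | w ∈ W ∧ ∀ μ, 0 ≤ μ → ∀ A ∈ S μ, A w ∈ W}
      zero_mem' := ⟨W.zero_mem, fun μ _ A _ => by rw [map_zero]; exact W.zero_mem⟩
      add_mem' := by
        rintro a b ⟨ha, ha'⟩ ⟨hb, hb'⟩
        exact ⟨W.add_mem ha hb, fun μ hμ A hA => by
          rw [map_add]; exact W.add_mem (ha' μ hμ A hA) (hb' μ hμ A hA)⟩
      smul_mem' := by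
        rintro c a ⟨ha, ha'⟩
        exact ⟨W.smul_mem _ ha, fun μ hμ A hA => by
          rw [map_smul]; exact W.smul_mem _ (ha' μ hμ A hA)⟩ }
  have hW' : W ≤ W' := by
    refine sInf_le ⟨fun x hx => ⟨hLWW hx, fun μ hμ A hA => hLWW (hpos μ hμ A hA x hx)⟩, ?_⟩
    rintro ν hν b hb w ⟨hw, hw'⟩
    refine ⟨hWneg ν hν b hb w hw, fun μ hμ A hA => ?_⟩
    have h1 : b (A w) ∈ W := hWneg ν hν b hb _ (hw' μ hμ A hA)
    have h2 : (A * b - b * A) w ∈ W := by
      have h3 := hbr μ ν A hA b hb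
      rcases le_or_gt 0 (μ + ν) with h | h
      · exact hw' _ h _ h3
      · exact hWneg _ h _ h3 w hw
    have h4 := W.add_mem h2 h1
    simpa using h4
  have hst : ∀ μ, ∀ A ∈ S μ, ∀ w ∈ W, A w ∈ W := by
    intro μ A hA w hw
    rcases le_or_gt 0 μ with h | h
    · exact (hW' hw).2 μ h A hA
    · exact hWneg μ h A hA w hw
  rcases irr W hst with h | h
  · exfalso
    apply hL
    rw [eq_bot_iff, ← h]
    exact hLWW
  · rw [eq_top_iff, ← h]
    exact hW0

/-- The graded pieces. -/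
def Gr (l : Submodule ℝ (Module.End ℝ V)) (h : Module.End ℝ V) (μ : ℝ) :
    Set (Module.End ℝ V) := {Y | Y ∈ l ∧ h * Y - Y * h = μ • Y}

theorem Gr.eig {h Y : Module.End ℝ V} {μ c : ℝ} (hY : Y ∈ Gr l h μ) {x : V} (hx : h x = c • x) :
    h (Y x) = (c + μ) • Y x := by
  have h1 := congrArg (fun Z => Z x) hY.2
  simp only [LinearMap.sub_apply, Module.End.mul_apply, LinearMap.smul_apply, hx, map_smul] at h1
  rw [add_smul, ← h1]
  abel

theorem Gr.brk (C : Ctx B l) {h X Y : Module.End ℝ V} {μ ν : ℝ} (hX : X ∈ Gr l h μ)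
    (hY : Y ∈ Gr l h ν) : X * Y - Y * X ∈ Gr l h (μ + ν) := by
  refine ⟨C.brk _ hX.1 _ hY.1, ?_⟩
  have h1 : h * X = X * h + μ • X := by rw [← hX.2]; abel
  have h2 : h * Y = Y * h + ν • Y := by rw [← hY.2]; abel
  have h3 : h * (X * Y) = X * Y * h + (μ + ν) • (X * Y) := by
    rw [← mul_assoc, h1, add_mul, mul_assoc, h2, mul_add, smul_mul_assoc, mul_smul_comm, add_smul,
      mul_assoc]
    abel
  have h4 : h * (Y * X) = Y * X * h + (μ + ν) • (Y * X) := by
    rw [← mul_assoc, h2, add_mul, mul_assoc, h1, mul_add, smul_mul_assoc, mul_smul_comm, add_smul,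
      mul_assoc]
    abel
  rw [mul_sub, sub_mul, h3, h4, smul_sub]
  abel

/-- `ad h` -/
noncomputable def adm (h : Module.End ℝ V) : Module.End ℝ (Module.End ℝ V) :=
  LinearMap.mulLeft ℝ h - LinearMap.mulRight ℝ h

@[simp] theorem adm_apply (h Y : Module.End ℝ V) : adm h Y = h * Y - Y * h := rfl

theorem wd_mem_iSup {h : Module.End ℝ V} (hsk : ∀ x y, B (h x) y = - B x (h y))
    (htop : ⨆ μ : ℝ, Module.End.eigenspace h μ = ⊤) (x y : V) :
    wd B x y ∈ ⨆ μ : ℝ, Module.End.eigenspace (adm h) μ := by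
  have hx : x ∈ ⨆ μ : ℝ, Module.End.eigenspace h μ := by rw [htop]; exact Submodule.mem_top
  refine Submodule.iSup_induction _ (motive := fun x => wd B x y ∈
    ⨆ μ : ℝ, Module.End.eigenspace (adm h) μ) hx ?_ ?_ ?_
  · intro μ x hx
    rw [Module.End.mem_eigenspace_iff] at hx
    have hy : y ∈ ⨆ μ : ℝ, Module.End.eigenspace h μ := by rw [htop]; exact Submodule.mem_top
    refine Submodule.iSup_induction _ (motive := fun y => wd B x y ∈
      ⨆ μ : ℝ, Module.End.eigenspace (adm h) μ) hy ?_ ?_ ?_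
    · intro ν y hy
      rw [Module.End.mem_eigenspace_iff] at hy
      refine Submodule.mem_iSup_of_mem (μ + ν) ?_
      rw [Module.End.mem_eigenspace_iff, adm_apply, comm_wd hsk, hx, hy]
      simp only [map_smul, LinearMap.smul_apply, add_smul]
    · simp
    · intro a b ha hb
      rw [map_add]
      exact Submodule.add_mem _ ha hb
  · simp
  · intro a b ha hb
    rw [map_add, LinearMap.add_apply]
    exact Submodule.add_mem _ ha hb

theorem Ctx.decomp [FiniteDimensional ℝ V] (C : Ctx B l) {h : Module.End ℝ V} (hh : h ∈ l)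
    (htop : ⨆ μ : ℝ, Module.End.eigenspace h μ = ⊤) (W : Submodule ℝ (Module.End ℝ V))
    (hW : ∀ μ, ∀ Y ∈ Gr l h μ, Y ∈ W) : l ≤ W := by
  have h1 : l ≤ ⨆ μ : ℝ, Module.End.eigenspace (adm h) μ := by
    intro Y hY
    have h2 := C.span Y (C.skew Y hY)
    refine Submodule.span_le.2 ?_ h2
    rintro Z ⟨x, y, rfl⟩
    exact wd_mem_iSup (C.skew h hh) htop x y
  have h2 : l = ⨆ μ : ℝ, l ⊓ Module.End.eigenspace (adm h) μ := by
    have := Submodule.inf_iSup_genEigenspace (p := l) (f := adm h)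
      (fun Y hY => C.brk h hh Y hY) 1
    rw [← this]
    exact (inf_eq_left.2 h1).symm
  rw [h2]
  refine iSup_le fun μ => ?_
  rintro Y ⟨hY1, hY2⟩
  exact hW μ Y ⟨hY1, by simpa [Module.End.mem_eigenspace_iff] using hY2⟩

/-- The low lemma, complex version. -/
theorem Ctx.lowC [FiniteDimensional ℝ V] (C : Ctx B l) {h : Module.End ℝ V} (hh : h ∈ l)
    (htop : ⨆ μ : ℝ, Module.End.eigenspace h μ = ⊤) (z1 z2 w1 w2 : V) (hz : z1 ≠ 0 ∨ z2 ≠ 0)
    (hpos : ∀ μ, 0 ≤ μ → ∀ Y ∈ Gr l h μ, ∃ α β : ℝ, Y z1 = α • z1 - β • z2 ∧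
      Y z2 = β • z1 + α • z2)
    (hneg : ∀ μ < 0, ∀ Y ∈ Gr l h μ, Y w1 = 0 ∧ Y w2 = 0)
    (h1 : B w1 z1 - B w2 z2 = 0) (h2 : B w1 z2 + B w2 z1 = 0) : w1 = 0 ∧ w2 = 0 := by
  let J : Module.End ℝ (V × V) := (-LinearMap.snd ℝ V V).prod (LinearMap.fst ℝ V V)
  have hJ : ∀ p, J p = (-p.2, p.1) := fun p => rfl
  let S : ℝ → Set (Module.End ℝ (V × V)) := fun μ =>
    {T | (∃ Y ∈ Gr l h μ, T = Y.prodMap Y) ∨ (μ = 0 ∧ T = J)}
  let L : Submodule ℝ (V × V) := Submodule.span ℝ {(z1, z2), (-z2, z1)}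
  let φ1 : V × V →ₗ[ℝ] ℝ := (B w1) ∘ₗ LinearMap.fst ℝ V V - (B w2) ∘ₗ LinearMap.snd ℝ V V
  let φ2 : V × V →ₗ[ℝ] ℝ := (B w1) ∘ₗ LinearMap.snd ℝ V V + (B w2) ∘ₗ LinearMap.fst ℝ V V
  let W0 : Submodule ℝ (V × V) := LinearMap.ker φ1 ⊓ LinearMap.ker φ2
  have hW0 : ∀ p : V × V, p ∈ W0 ↔ B w1 p.1 - B w2 p.2 = 0 ∧ B w1 p.2 + B w2 p.1 = 0 := by
    intro p; simp [W0, φ1, φ2]
  have hJL : ∀ p ∈ L, J p ∈ L := by
    intro p hp
    have : L ≤ Submodule.comap J L := by
      refine Submodule.span_le.2 ?_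
      rintro q (rfl | rfl)
      · exact Submodule.subset_span (Or.inr rfl)
      · show J _ ∈ L
        rw [hJ]
        have : ((-(z1, z2)) : V × V) ∈ L := L.neg_mem (Submodule.subset_span (Or.inl rfl))
        simpa using this
    exact this hp
  have key := topLemma S (by
      rintro μ ν A (⟨X, hX, rfl⟩ | ⟨rfl, rfl⟩) b (⟨Y, hY, rfl⟩ | ⟨rfl, rfl⟩)
      · left
        refine ⟨_, Gr.brk C hX hY, ?_⟩
        ext p <;> simp
      · left
        refine ⟨0, ⟨l.zero_mem, by simp⟩, ?_⟩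
        ext p <;> simp [J]
      · left
        refine ⟨0, ⟨l.zero_mem, by simp⟩, ?_⟩
        ext p <;> simp [J]
      · left
        refine ⟨0, ⟨l.zero_mem, by simp⟩, ?_⟩
        simp)
    (by
      intro W hW
      refine C.irr W (fun p hp => hW 0 J (Or.inr ⟨rfl, rfl⟩) p hp) ?_
      intro Y hY p hp
      let K : Submodule ℝ (Module.End ℝ V) :=
        { carrier := {Y | ∀ p ∈ W, (Y p.1, Y p.2) ∈ W}
          zero_mem' := fun p _ => W.zero_mem
          add_mem' := fun {a b} ha hb p hp => W.add_mem (ha p hp) (hb p hp)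
          smul_mem' := fun c a ha p hp => W.smul_mem c (ha p hp) }
      have : l ≤ K := C.decomp hh htop K (by
        intro μ Y hY p hp
        exact hW μ (Y.prodMap Y) (Or.inl ⟨Y, hY, rfl⟩) p hp)
      exact this hY p hp)
    L W0 (by
      intro hbot
      have : ((z1, z2) : V × V) ∈ L := Submodule.subset_span (Or.inl rfl)
      rw [hbot, Submodule.mem_bot, Prod.mk_eq_zero] at this
      rcases hz with h | h
      · exact h this.1
      · exact h this.2)
    (by
      rintro μ hμ A (⟨Y, hY, rfl⟩ | ⟨rfl, rfl⟩) p hp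
      · obtain ⟨α, β, ha, hb⟩ := hpos μ hμ Y hY
        have m1 : ((z1, z2) : V × V) ∈ L := Submodule.subset_span (Or.inl rfl)
        have m2 : ((-z2, z1) : V × V) ∈ L := Submodule.subset_span (Or.inr rfl)
        have : L ≤ Submodule.comap (Y.prodMap Y) L := by
          refine Submodule.span_le.2 ?_
          rintro q (rfl | rfl)
          · show (Y.prodMap Y) _ ∈ L
            have : (Y.prodMap Y) (z1, z2) = α • ((z1, z2) : V × V) + β • ((-z2, z1) : V × V) := by
              simp [ha, hb, sub_eq_add_neg, add_comm]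
            rw [this]
            exact L.add_mem (L.smul_mem _ m1) (L.smul_mem _ m2)
          · show (Y.prodMap Y) _ ∈ L
            have : (Y.prodMap Y) (-z2, z1) =
                (-β) • ((z1, z2) : V × V) + α • ((-z2, z1) : V × V) := by
              simp [ha, hb, sub_eq_add_neg, add_comm]
            rw [this]
            exact L.add_mem (L.smul_mem _ m1) (L.smul_mem _ m2)
        exact this hp
      · exact hJL p hp)
    (by
      refine Submodule.span_le.2 ?_
      rintro q (rfl | rfl)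
      · exact (hW0 _).2 ⟨h1, h2⟩
      · refine (hW0 _).2 ⟨?_, ?_⟩
        · simp only [map_neg]; linarith
        · simp only [map_neg]; linarith)
    (by
      rintro μ hμ A (⟨Y, hY, rfl⟩ | ⟨rfl, rfl⟩) p hp
      · obtain ⟨ha, hb⟩ := hneg μ hμ Y hY
        have sk := C.skew Y hY.1
        rw [hW0]
        have e1 : ∀ v, B w1 (Y v) = 0 := by
          intro v; have := sk w1 v; rw [ha] at this; simp at this; linarith
        have e2 : ∀ v, B w2 (Y v) = 0 := by
          intro v; have := sk w2 v; rw [hb] at this; simp at this; linarith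
        simp [e1, e2]
      · exact absurd hμ (lt_irrefl 0))
  have htop' : ∀ p : V × V, B w1 p.1 - B w2 p.2 = 0 ∧ B w1 p.2 + B w2 p.1 = 0 := by
    intro p
    rw [← hW0, key]
    exact Submodule.mem_top
  constructor
  · refine C.nondeg _ fun y => ?_
    have := (htop' (y, 0)).1
    simpa using this
  · refine C.nondeg _ fun y => ?_
    have := (htop' (y, 0)).2
    simpa using this

/-! ## Hyperbolic quadruples -/

/-- two orthogonal hyperbolic planes -/
structure H4 (B : V →ₗ[ℝ] V →ₗ[ℝ] ℝ) (e1 e2 f1 f2 : V) : Prop where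
  e11 : B e1 e1 = 0
  e12 : B e1 e2 = 0
  e21 : B e2 e1 = 0
  e22 : B e2 e2 = 0
  f11 : B f1 f1 = 0
  f12 : B f1 f2 = 0
  f21 : B f2 f1 = 0
  f22 : B f2 f2 = 0
  ef11 : B e1 f1 = 1
  ef12 : B e1 f2 = 0
  ef21 : B e2 f1 = 0
  ef22 : B e2 f2 = 1
  fe11 : B f1 e1 = 1
  fe12 : B f1 e2 = 0
  fe21 : B f2 e1 = 0
  fe22 : B f2 e2 = 1

theorem H4.swap {e1 e2 f1 f2 : V} (H : H4 B e1 e2 f1 f2) : H4 B f1 f2 e1 e2 :=
  ⟨H.f11, H.f12, H.f21, H.f22, H.e11, H.e12, H.e21, H.e22, H.fe11, H.fe12, H.fe21, H.fe22,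
    H.ef11, H.ef12, H.ef21, H.ef22⟩

theorem H4.flip {e1 e2 f1 f2 : V} (H : H4 B e1 e2 f1 f2) : H4 B e2 e1 f2 f1 :=
  ⟨H.e22, H.e21, H.e12, H.e11, H.f22, H.f21, H.f12, H.f11, H.ef22, H.ef21, H.ef12, H.ef11,
    H.fe22, H.fe21, H.fe12, H.fe11⟩

/-- The orthogonal complement of the hyperbolic planes -/
def UU (B : V →ₗ[ℝ] V →ₗ[ℝ] ℝ) (e1 e2 f1 f2 : V) : Submodule ℝ V :=
  (LinearMap.ker (B e1) ⊓ LinearMap.ker (B e2)) ⊓ (LinearMap.ker (B f1) ⊓ LinearMap.ker (B f2))

theorem mem_UU {e1 e2 f1 f2 v : V} : v ∈ UU B e1 e2 f1 f2 ↔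
    (B e1 v = 0 ∧ B e2 v = 0) ∧ (B f1 v = 0 ∧ B f2 v = 0) := by
  simp [UU]

theorem UU_swap {e1 e2 f1 f2 v : V} (h : v ∈ UU B e1 e2 f1 f2) : v ∈ UU B f1 f2 e1 e2 := by
  rw [mem_UU] at h ⊢
  exact ⟨h.2, h.1⟩

theorem Ctx.uneg (C : Ctx B l) {e1 e2 f1 f2 : V} (H : H4 B e1 e2 f1 f2) {u : V}
    (hu : u ∈ UU B e1 e2 f1 f2) (h0 : 0 ≤ B u u) : u = 0 := by
  by_contra hne
  rw [mem_UU] at hu
  obtain ⟨⟨h1, h2⟩, h3, h4⟩ := hu
  have s1 : B u e1 = 0 := by rw [C.symm]; exact h1
  have s2 : B u e2 = 0 := by rw [C.symm]; exact h2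
  have s3 : B u f1 = 0 := by rw [C.symm]; exact h3
  have s4 : B u f2 = 0 := by rw [C.symm]; exact h4
  have hli : LinearIndependent ℝ ![e1 + f1, e2 + f2, u] := by
    rw [Fintype.linearIndependent_iff]
    intro g hg
    simp only [Fin.sum_univ_three, Matrix.cons_val_zero, Matrix.cons_val_one,
      Matrix.cons_val_two, Matrix.head_cons, Matrix.tail_cons] at hg
    have g0 : g 0 = 0 := by
      have := congrArg (fun x => B e1 x) hg
      simpa [H.e11, H.e12, H.ef11, H.ef12, h1] using this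
    have g1 : g 1 = 0 := by
      have := congrArg (fun x => B e2 x) hg
      simpa [H.e21, H.e22, H.ef21, H.ef22, h2] using this
    rw [g0, g1, zero_smul, zero_smul, zero_add, zero_add, smul_eq_zero] at hg
    intro i
    fin_cases i
    · exact g0
    · exact g1
    · exact hg.resolve_right hne
  obtain ⟨c, hc⟩ := C.sig _ hli
  simp only [Fin.sum_univ_three, Matrix.cons_val_zero, Matrix.cons_val_one,
    Matrix.cons_val_two, Matrix.head_cons, Matrix.tail_cons, map_add, map_smul,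
    LinearMap.add_apply, LinearMap.smul_apply, smul_eq_mul, H.e11, H.e12, H.e21, H.e22, H.f11,
    H.f12, H.f21, H.f22, H.ef11, H.ef12, H.ef21, H.ef22, H.fe11, H.fe12, H.fe21, H.fe22, h1, h2,
    h3, h4, s1, s2, s3, s4] at hc
  nlinarith [mul_nonneg (mul_self_nonneg (c 2)) h0, mul_self_nonneg (c 0), mul_self_nonneg (c 1)]

/-- If `U ≠ 0`, the dimension is at least five. -/
theorem dim5 [FiniteDimensional ℝ V] (C : Ctx B l) {e1 e2 f1 f2 : V} (H : H4 B e1 e2 f1 f2) {u : V}
    (hu : u ∈ UU B e1 e2 f1 f2) (hu0 : u ≠ 0) : ¬ Module.finrank ℝ V ≤ 4 := by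
  intro hd
  have hu' := hu
  rw [mem_UU] at hu'
  obtain ⟨⟨h1, h2⟩, h3, h4⟩ := hu'
  have hli : LinearIndependent ℝ ![e1, e2, f1, f2, u] := by
    rw [Fintype.linearIndependent_iff]
    intro g hg
    simp only [Fin.sum_univ_five, Matrix.cons_val_zero, Matrix.cons_val_one,
      Matrix.cons_val] at hg
    have g0 : g 0 = 0 := by
      have := congrArg (fun x => B f1 x) hg
      simpa [H.fe11, H.fe12, H.f11, H.f12, h3] using this
    have g1 : g 1 = 0 := by
      have := congrArg (fun x => B f2 x) hg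
      simpa [H.fe21, H.fe22, H.f21, H.f22, h4] using this
    have g2 : g 2 = 0 := by
      have := congrArg (fun x => B e1 x) hg
      simpa [H.e11, H.e12, H.ef11, H.ef12, h1] using this
    have g3 : g 3 = 0 := by
      have := congrArg (fun x => B e2 x) hg
      simpa [H.e21, H.e22, H.ef21, H.ef22, h2] using this
    rw [g0, g1, g2, g3] at hg
    simp only [zero_smul, zero_add, smul_eq_zero] at hg
    intro i
    fin_cases i
    · exact g0
    · exact g1
    · exact g2
    · exact g3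
    · exact hg.resolve_right hu0
  have := hli.fintype_card_le_finrank
  rw [Fintype.card_fin] at this
  omega

section Claim2

variable {e1 e2 f1 f2 : V} {a b : ℝ}

theorem h_apply (x : V) : (a • wd B e1 f1 + b • wd B e2 f2) x =
    (a * B f1 x) • e1 - (a * B e1 x) • f1 + (b * B f2 x) • e2 - (b * B e2 x) • f2 := by
  simp only [LinearMap.add_apply, LinearMap.smul_apply, wd_apply, smul_sub, smul_smul]
  abel

/-- eigenvectors of `h` -/
theorem h_eig (H : H4 B e1 e2 f1 f2) {x : V} {c : ℝ}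
    (hx : (a • wd B e1 f1 + b • wd B e2 f2) x = c • x) :
    a * B f1 x = c * B f1 x ∧ -a * B e1 x = c * B e1 x ∧ b * B f2 x = c * B f2 x ∧
      -b * B e2 x = c * B e2 x := by
  rw [h_apply] at hx
  refine ⟨?_, ?_, ?_, ?_⟩
  · have := congrArg (fun x => B f1 x) hx
    simpa [H.fe11, H.fe12, H.f11, H.f12] using this
  · have := congrArg (fun x => B e1 x) hx
    simpa [H.e11, H.e12, H.ef11, H.ef12] using this
  · have := congrArg (fun x => B f2 x) hx
    simpa [H.fe21, H.fe22, H.f21, H.f22] using this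
  · have := congrArg (fun x => B e2 x) hx
    simpa [H.e21, H.e22, H.ef21, H.ef22] using this

theorem h_eig0 (H : H4 B e1 e2 f1 f2) {x : V} {c : ℝ}
    (hx : (a • wd B e1 f1 + b • wd B e2 f2) x = c • x) (h1 : c ≠ a) (h2 : c ≠ -a) (h3 : c ≠ b)
    (h4 : c ≠ -b) (h5 : c ≠ 0) : x = 0 := by
  obtain ⟨k1, k2, k3, k4⟩ := h_eig H hx
  have m1 : B f1 x = 0 := by
    by_contra h; exact h1 (mul_right_cancel₀ h k1).symm
  have m2 : B e1 x = 0 := by
    by_contra h; exact h2 (mul_right_cancel₀ h k2).symm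
  have m3 : B f2 x = 0 := by
    by_contra h; exact h3 (mul_right_cancel₀ h k3).symm
  have m4 : B e2 x = 0 := by
    by_contra h; exact h4 (mul_right_cancel₀ h k4).symm
  rw [h_apply, m1, m2, m3, m4] at hx
  simp only [mul_zero, zero_smul, sub_zero, add_zero] at hx
  exact (smul_eq_zero.1 hx.symm).resolve_left h5

theorem h_e1 (H : H4 B e1 e2 f1 f2) : (a • wd B e1 f1 + b • wd B e2 f2) e1 = a • e1 := by
  rw [h_apply]; simp [H.fe11, H.e11, H.fe21, H.e21]

theorem h_e2 (H : H4 B e1 e2 f1 f2) : (a • wd B e1 f1 + b • wd B e2 f2) e2 = b • e2 := by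
  rw [h_apply]; simp [H.fe12, H.e12, H.fe22, H.e22]

theorem h_f1 (H : H4 B e1 e2 f1 f2) : (a • wd B e1 f1 + b • wd B e2 f2) f1 = (-a) • f1 := by
  rw [h_apply]; simp [H.f11, H.ef11, H.f21, H.ef21]

theorem h_f2 (H : H4 B e1 e2 f1 f2) : (a • wd B e1 f1 + b • wd B e2 f2) f2 = (-b) • f2 := by
  rw [h_apply]; simp [H.f12, H.ef12, H.f22, H.ef22]

theorem h_U {x : V} (hx : x ∈ UU B e1 e2 f1 f2) :
    (a • wd B e1 f1 + b • wd B e2 f2) x = 0 := by
  rw [mem_UU] at hx
  rw [h_apply, hx.1.1, hx.1.2, hx.2.1, hx.2.2]; simp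

theorem decU (H : H4 B e1 e2 f1 f2) (x : V) : ∃ u ∈ UU B e1 e2 f1 f2,
    x = B f1 x • e1 + B f2 x • e2 + B e1 x • f1 + B e2 x • f2 + u := by
  refine ⟨x - B f1 x • e1 - B f2 x • e2 - B e1 x • f1 - B e2 x • f2, ?_, by abel⟩
  rw [mem_UU]
  refine ⟨⟨?_, ?_⟩, ?_, ?_⟩ <;>
  simp only [map_sub, map_smul, smul_eq_mul, H.e11, H.e12, H.e21, H.e22, H.f11,
    H.f12, H.f21, H.f22, H.ef11, H.ef12, H.ef21, H.ef22, H.fe11, H.fe12, H.fe21, H.fe22] <;> ring

theorem h_top (H : H4 B e1 e2 f1 f2) :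
    ⨆ μ : ℝ, Module.End.eigenspace (a • wd B e1 f1 + b • wd B e2 f2) μ = ⊤ := by
  rw [eq_top_iff]
  rintro x -
  obtain ⟨u, hu, hx⟩ := decU H x
  have m1 : e1 ∈ ⨆ μ : ℝ, Module.End.eigenspace (a • wd B e1 f1 + b • wd B e2 f2) μ :=
    Submodule.mem_iSup_of_mem a (by rw [Module.End.mem_eigenspace_iff]; exact h_e1 H)
  have m2 : e2 ∈ ⨆ μ : ℝ, Module.End.eigenspace (a • wd B e1 f1 + b • wd B e2 f2) μ :=
    Submodule.mem_iSup_of_mem b (by rw [Module.End.mem_eigenspace_iff]; exact h_e2 H)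
  have m3 : f1 ∈ ⨆ μ : ℝ, Module.End.eigenspace (a • wd B e1 f1 + b • wd B e2 f2) μ :=
    Submodule.mem_iSup_of_mem (-a) (by rw [Module.End.mem_eigenspace_iff]; exact h_f1 H)
  have m4 : f2 ∈ ⨆ μ : ℝ, Module.End.eigenspace (a • wd B e1 f1 + b • wd B e2 f2) μ :=
    Submodule.mem_iSup_of_mem (-b) (by rw [Module.End.mem_eigenspace_iff]; exact h_f2 H)
  have m5 : u ∈ ⨆ μ : ℝ, Module.End.eigenspace (a • wd B e1 f1 + b • wd B e2 f2) μ :=
    Submodule.mem_iSup_of_mem 0 (by rw [Module.End.mem_eigenspace_iff, h_U hu, zero_smul])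
  rw [hx]
  exact Submodule.add_mem _ (Submodule.add_mem _ (Submodule.add_mem _ (Submodule.add_mem _
    (Submodule.smul_mem _ _ m1) (Submodule.smul_mem _ _ m2)) (Submodule.smul_mem _ _ m3))
    (Submodule.smul_mem _ _ m4)) m5

variable [FiniteDimensional ℝ V]

/-- The low lemma for `a > b > 0`. -/
theorem low1 (C : Ctx B l) (H : H4 B e1 e2 f1 f2) (hb : 0 < b) (hab : b < a)
    (hh : a • wd B e1 f1 + b • wd B e2 f2 ∈ l) {w : V} (hw : B w e1 = 0)
    (hneg : ∀ μ < 0, ∀ Y ∈ Gr l (a • wd B e1 f1 + b • wd B e2 f2) μ, Y w = 0) : w = 0 := by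
  have he : e1 ≠ 0 := by
    intro h0; have := H.ef11; rw [h0] at this; simp at this
  refine (C.lowC hh (h_top H) e1 0 w 0 (Or.inl he) ?_ (fun μ hμ Y hY => ⟨hneg μ hμ Y hY, by simp⟩)
    (by simp [hw]) (by simp)).1
  intro μ hμ Y hY
  refine ⟨B f1 (Y e1), 0, ?_, by simp⟩
  rw [zero_smul, sub_zero]
  have h1 := Gr.eig hY (h_e1 H)
  rcases eq_or_lt_of_le hμ with h | h
  · rw [← h, add_zero] at h1
    obtain ⟨k1, k2, k3, k4⟩ := h_eig H h1
    have m2 : B e1 (Y e1) = 0 := by
      by_contra hc; have := mul_right_cancel₀ hc k2; linarith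
    have m3 : B f2 (Y e1) = 0 := by
      by_contra hc; have := mul_right_cancel₀ hc k3; linarith
    have m4 : B e2 (Y e1) = 0 := by
      by_contra hc; have := mul_right_cancel₀ hc k4; linarith
    rw [h_apply, m2, m3, m4] at h1
    simp only [mul_zero, zero_smul, sub_zero, add_zero] at h1
    rw [mul_smul] at h1
    exact (smul_right_injective V (ne_of_gt (lt_trans hb hab)) h1).symm
  · have : Y e1 = 0 := h_eig0 H h1 (by linarith) (by linarith) (by linarith) (by linarith)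
      (by linarith)
    rw [this]; simp

/-- structure of the elements of degree `b - a`. -/
theorem strA (C : Ctx B l) (H : H4 B e1 e2 f1 f2) (hb : 0 < b) (hab : b < a)
    {Y : Module.End ℝ V} (hY : Y ∈ Gr l (a • wd B e1 f1 + b • wd B e2 f2) (b - a)) :
    ∃ (t : ℝ) (u : V), u ∈ UU B e1 e2 f1 f2 ∧ Y = t • wd B f1 e2 + wd B f2 u ∧
      Y f2 = t • f1 ∧ (u ≠ 0 → a = 2 * b) := by
  have sk := C.skew Y hY.1
  -- Y f2
  have h1 := Gr.eig hY (h_f2 H)
  have h1' : Y f2 = B e1 (Y f2) • f1 := by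
    rw [show -b + (b - a) = -a by ring] at h1
    obtain ⟨k1, k2, k3, k4⟩ := h_eig H h1
    have m1 : B f1 (Y f2) = 0 := by
      by_contra hc; have := mul_right_cancel₀ hc k1; linarith
    have m3 : B f2 (Y f2) = 0 := by
      by_contra hc; have := mul_right_cancel₀ hc k3; linarith
    have m4 : B e2 (Y f2) = 0 := by
      by_contra hc; have := mul_right_cancel₀ hc k4; linarith
    rw [h_apply, m1, m3, m4] at h1
    simp only [mul_zero, zero_smul, sub_zero, add_zero, zero_sub, neg_smul, neg_inj] at h1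
    rw [mul_smul] at h1
    exact (smul_right_injective V (ne_of_gt (lt_trans hb hab)) h1).symm
  have h2 := Gr.eig hY (h_f1 H)
  have h2' : Y f1 = 0 := h_eig0 H h2 (by linarith) (by linarith) (by linarith) (by linarith)
    (by linarith)
  have h3 := Gr.eig hY (h_e1 H)
  have h3' : Y e1 = B f2 (Y e1) • e2 := by
    rw [show a + (b - a) = b by ring] at h3
    obtain ⟨k1, k2, k3, k4⟩ := h_eig H h3
    have m1 : B f1 (Y e1) = 0 := by
      by_contra hc; have := mul_right_cancel₀ hc k1; linarith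
    have m2 : B e1 (Y e1) = 0 := by
      by_contra hc; have := mul_right_cancel₀ hc k2; linarith
    have m4 : B e2 (Y e1) = 0 := by
      by_contra hc; have := mul_right_cancel₀ hc k4; linarith
    rw [h_apply, m1, m2, m4] at h3
    simp only [mul_zero, zero_smul, sub_zero, add_zero, zero_add] at h3
    rw [mul_smul] at h3
    exact (smul_right_injective V (ne_of_gt hb) h3).symm
  have h4 := Gr.eig hY (h_e2 H)
  have s1 : B e1 (Y e2) = 0 := by
    have := sk e1 e2; rw [h3'] at this; simp [H.e22] at this; linarith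
  have s2 : B e2 (Y e2) = 0 := by
    have := sk e2 e2; rw [C.symm] at this; linarith
  have s3 : B f1 (Y e2) = 0 := by
    have := sk f1 e2; rw [h2'] at this; simp at this; linarith
  have s4 : B f2 (Y e2) = 0 := by
    have := sk f2 e2; rw [h1'] at this; simp [H.fe12] at this; linarith
  set t := B e1 (Y f2) with ht
  have s5 : B f2 (Y e1) = - t := by
    have := sk f2 e1
    rw [ht]
    have h5 := C.symm (Y f2) e1
    linarith
  have hu : -(Y e2) ∈ UU B e1 e2 f1 f2 := by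
    rw [mem_UU]; simp [s1, s2, s3, s4]
  refine ⟨t, -(Y e2), hu, ?_, h1', ?_⟩
  · -- Z = Y - t f1 ∧ e2 - f2 ∧ u
    have e2u : B (Y e2) e2 = 0 := by rw [C.symm]; exact s2
    have z1 : ∀ x, Y x = (t • wd B f1 e2 + wd B f2 (-(Y e2))) x → True := fun _ _ => trivial
    have zf2 : (t • wd B f1 e2 + wd B f2 (-(Y e2))) f2 = Y f2 := by
      rw [h1']
      have : B (Y e2) f2 = 0 := by rw [C.symm]; exact s4
      simp [H.f12, H.f22, H.ef22, this]
    have zf1 : (t • wd B f1 e2 + wd B f2 (-(Y e2))) f1 = Y f1 := by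
      rw [h2']
      have : B (Y e2) f1 = 0 := by rw [C.symm]; exact s3
      simp [H.f11, H.f21, H.ef21, this]
    have ze1 : (t • wd B f1 e2 + wd B f2 (-(Y e2))) e1 = Y e1 := by
      rw [h3', s5]
      have : B (Y e2) e1 = 0 := by rw [C.symm]; exact s1
      simp [H.fe11, H.fe21, H.e21, this]
    have ze2 : (t • wd B f1 e2 + wd B f2 (-(Y e2))) e2 = Y e2 := by
      simp [H.fe12, H.fe22, H.e22, e2u]
    have zU : ∀ x ∈ UU B e1 e2 f1 f2, (t • wd B f1 e2 + wd B f2 (-(Y e2))) x = Y x := by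
      intro x hx
      have h6 := Gr.eig hY (c := 0) (x := x) (by rw [h_U hx, zero_smul])
      rw [zero_add] at h6
      rw [mem_UU] at hx
      obtain ⟨⟨x1, x2⟩, x3, x4⟩ := hx
      have y1 : B e1 (Y x) = 0 := by
        have := sk e1 x; rw [h3'] at this; simp [x2] at this; linarith
      have y3 : B f1 (Y x) = 0 := by
        have := sk f1 x; rw [h2'] at this; simp at this; linarith
      have y4 : B f2 (Y x) = 0 := by
        have := sk f2 x; rw [h1'] at this; simp [x3] at this; linarith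
      have y2 : B e2 (Y x) = - B (Y e2) x := by
        have := sk e2 x; linarith
      rw [h_apply, y1, y3, y4, y2] at h6
      simp only [mul_zero, zero_smul, sub_zero, add_zero, zero_sub, mul_neg, neg_smul, neg_neg] at h6
      -- b B(Ye2)x f2 = (b - a) Y x
      have h7 : (wd B f2 (-(Y e2))) x = - (B (Y e2) x • f2) := by
        simp [x4]
      have h8 : (t • wd B f1 e2) x = 0 := by simp [x2, x3]
      rw [LinearMap.add_apply, h8, zero_add, h7]
      -- need: Y x = - B (Y e2) x • f2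
      by_cases hB : B (Y e2) x = 0
      · rw [hB] at h6 ⊢
        simp only [mul_zero, zero_smul] at h6
        have := (smul_eq_zero.1 h6.symm).resolve_left (by intro h; linarith)
        rw [this]; simp
      · -- then weights: b - a = - b
        have h9 := congrArg (fun v => B e2 v) h6
        simp only [map_smul, smul_eq_mul, H.ef22, y2, mul_one] at h9
        have h10 : a = 2 * b := by
          have : (b - (a - b)) * B (Y e2) x = 0 := by linear_combination h9
          rcases mul_eq_zero.1 this with h | h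
          · linarith
          · exact absurd h hB
        have h11 : (b - a) • Y x = (b - a) • (-(B (Y e2) x • f2)) := by
          rw [← h6, smul_neg, smul_smul, ← neg_smul]
          congr 1
          rw [h10]; ring
        exact (smul_right_injective V (by intro h; linarith : b - a ≠ 0) h11).symm
    ext x
    obtain ⟨u, hu, hx⟩ := decU H x
    rw [hx]
    simp only [map_add, map_smul, zf2, zf1, ze1, ze2, zU u hu]
  · intro hne
    have h5 : (b + (b - a)) • Y e2 = 0 := by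
      rw [← h4]
      have h6 := h_U (a := a) (b := b) hu
      rw [map_neg, neg_eq_zero] at h6
      exact h6
    rcases smul_eq_zero.1 h5 with h | h
    · linarith
    · exact absurd (by rw [h, neg_zero]) hne

/-- existence of `X`. -/
theorem exX (C : Ctx B l) (H : H4 B e1 e2 f1 f2) (hb : 0 < b) (hab : b < a)
    (hh : a • wd B e1 f1 + b • wd B e2 f2 ∈ l) :
    ∃ (t : ℝ) (u : V), t ≠ 0 ∧ u ∈ UU B e1 e2 f1 f2 ∧ t • wd B f1 e2 + wd B f2 u ∈ l ∧
      (u ≠ 0 → a = 2 * b) ∧
      (t • wd B f1 e2 + wd B f2 u) ∈ Gr l (a • wd B e1 f1 + b • wd B e2 f2) (b - a) := by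
  have hf : f2 ≠ 0 := by
    intro h0; have := H.ef22; rw [h0] at this; simp at this
  have h1 : ¬ ∀ μ < 0, ∀ Y ∈ Gr l (a • wd B e1 f1 + b • wd B e2 f2) μ, Y f2 = 0 := fun h =>
    hf (low1 C H hb hab hh H.fe21 h)
  push Not at h1
  obtain ⟨μ, hμ, Y, hY, hne⟩ := h1
  have h2 := Gr.eig hY (h_f2 H)
  have h3 : μ = b - a := by
    by_contra hc
    refine hne (h_eig0 H h2 (by linarith) ?_ (by linarith) (by linarith) (by linarith))
    intro h; apply hc; linarith
  subst h3
  obtain ⟨t, u, hu, hYe, hf2, ha⟩ := strA C H hb hab hY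
  refine ⟨t, u, ?_, hu, hYe ▸ hY.1, ha, hYe ▸ hY⟩
  rintro rfl
  rw [zero_smul] at hf2
  exact hne hf2

end Claim2

section Claim2A

variable {e1 e2 f1 f2 : V} {a b : ℝ}

/-- If `f1 ∧ e2 ∈ l` then done. -/
theorem doneB (C : Ctx B l) (H : H4 B e1 e2 f1 f2) (hb : 0 < b) (hab : b < a)
    (hh : a • wd B e1 f1 + b • wd B e2 f2 ∈ l) {s : ℝ} {u' : V} (hs : s ≠ 0)
    (hu' : u' ∈ UU B e1 e2 f1 f2) (hX' : s • wd B e1 f2 + wd B e2 u' ∈ l)
    (h : wd B f1 e2 ∈ l) : ∀ x y, wd B x y ∈ l := by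
  rw [mem_UU] at hu'
  obtain ⟨⟨u1, u2⟩, u3, u4⟩ := hu'
  have s1 : B u' e2 = 0 := by rw [C.symm]; exact u2
  have s2 : B u' f1 = 0 := by rw [C.symm]; exact u3
  have h1 := C.brkw hX' h
  have e1' : (s • wd B e1 f2 + wd B e2 u') f1 = -(s • f2) := by
    simp [H.f21, H.ef11, s2, H.ef21]
  have e2' : (s • wd B e1 f2 + wd B e2 u') e2 = s • e1 := by
    simp [H.fe22, H.e12, s1, H.e22]
  rw [e1', e2'] at h1
  have h2 : wd B (-(s • f2)) e2 + wd B f1 (s • e1) = s • (wd B e2 f2 - wd B e1 f1) := by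
    rw [map_neg, map_smul, LinearMap.neg_apply, LinearMap.smul_apply, map_smul, wd_swap B e2 f2,
      wd_swap B e1 f1]
    module
  rw [h2] at h1
  have h3 := l.smul_mem s⁻¹ h1
  rw [smul_smul, inv_mul_cancel₀ hs, one_smul] at h3
  have h4 := l.sub_mem hh (l.smul_mem b h3)
  have h5 : a • wd B e1 f1 + b • wd B e2 f2 - b • (wd B e2 f2 - wd B e1 f1) =
      (a + b) • wd B e1 f1 := by module
  rw [h5] at h4
  have h6 := l.smul_mem (a + b)⁻¹ h4
  rw [smul_smul, inv_mul_cancel₀ (by linarith), one_smul] at h6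
  exact claim1 C H.e11 H.f11 H.ef11 h6

variable [FiniteDimensional ℝ V]

/-- every element of degree `-b = b - a` kills a vector `v ∈ U` orthogonal to `u` and `N_f`. -/
theorem lowC1 (C : Ctx B l) (H : H4 B e1 e2 f1 f2) (hb : 0 < b) (hab : b < a)
    {t : ℝ} {u : V} (ht : t ≠ 0)
    (hu : u ∈ UU B e1 e2 f1 f2) (hX : t • wd B f1 e2 + wd B f2 u ∈ l)
    {v : V} (hv : v ∈ UU B e1 e2 f1 f2) (hvu : B v u = 0)
    (hvN : ∀ w ∈ UU B e1 e2 f1 f2, wd B f2 w ∈ l → B v w = 0)
    {Y : Module.End ℝ V} (hY : Y ∈ Gr l (a • wd B e1 f1 + b • wd B e2 f2) (b - a)) :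
    Y v = 0 := by
  obtain ⟨t', w, hw, hYe, hf2, ha⟩ := strA C H hb hab hY
  have h1 : wd B f2 (w - (t' / t) • u) ∈ l := by
    have h2 := l.sub_mem hY.1 (l.smul_mem (t' / t) hX)
    rw [hYe] at h2
    convert h2 using 1
    rw [map_sub, map_smul, smul_add, smul_smul, div_mul_cancel₀ _ ht]
    abel
  have h3 := hvN _ (Submodule.sub_mem _ hw (Submodule.smul_mem _ _ hu)) h1
  rw [map_sub, map_smul, hvu, smul_zero, sub_zero] at h3
  rw [mem_UU] at hv
  obtain ⟨⟨v1, v2⟩, v3, v4⟩ := hv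
  rw [hYe]
  have : B w v = 0 := by rw [C.symm]; exact h3
  simp [v2, v3, v4, this]

/-- Lemma C -/
theorem lemC (C : Ctx B l) (H : H4 B e1 e2 f1 f2) (hb : 0 < b) (hab : b < a) (ha2 : a = 2 * b)
    (hh : a • wd B e1 f1 + b • wd B e2 f2 ∈ l) {t : ℝ} {u : V} (ht : t ≠ 0)
    (hu : u ∈ UU B e1 e2 f1 f2) (hX : t • wd B f1 e2 + wd B f2 u ∈ l)
    {s : ℝ} {u' : V} (hs : s ≠ 0) (hu' : u' ∈ UU B e1 e2 f1 f2)
    (hX' : s • wd B e1 f2 + wd B e2 u' ∈ Gr l (a • wd B e1 f1 + b • wd B e2 f2) (a - b))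
    {v : V} (hv : v ∈ UU B e1 e2 f1 f2) (hvu : B v u = 0)
    (hvN : ∀ w ∈ UU B e1 e2 f1 f2, wd B f2 w ∈ l → B v w = 0) : v = 0 := by
  have hv0 := hv
  rw [mem_UU] at hv
  obtain ⟨⟨v1, v2⟩, v3, v4⟩ := hv
  have hu0 := hu'
  rw [mem_UU] at hu0
  obtain ⟨⟨u1, u2⟩, u3, u4⟩ := hu0
  refine low1 C H hb hab hh (by rw [C.symm]; exact v1) ?_
  intro μ hμ Y hY
  by_contra hne
  have sk := C.skew Y hY.1
  have h1 := Gr.eig hY (c := 0) (x := v) (by rw [h_U hv0, zero_smul])
  rw [zero_add] at h1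
  have h2 : μ = -a ∨ μ = -b := by
    by_contra hc
    push Not at hc
    exact hne (h_eig0 H h1 (by linarith) hc.1 (by linarith) hc.2 (by linarith))
  rcases h2 with rfl | rfl
  · -- degree -a
    obtain ⟨k1, k2, k3, k4⟩ := h_eig H h1
    have m1 : B f1 (Y v) = 0 := by
      by_contra hc; have := mul_right_cancel₀ hc k1; linarith
    have m3 : B f2 (Y v) = 0 := by
      by_contra hc; have := mul_right_cancel₀ hc k3; linarith
    have m4 : B e2 (Y v) = 0 := by
      by_contra hc; have := mul_right_cancel₀ hc k4; linarith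
    have h1' : Y v = B e1 (Y v) • f1 := by
      rw [h_apply, m1, m3, m4] at h1
      simp only [mul_zero, zero_smul, sub_zero, add_zero, zero_sub, neg_smul, neg_inj] at h1
      rw [mul_smul] at h1
      exact (smul_right_injective V (ne_of_gt (lt_trans hb hab)) h1).symm
    -- Y e2 = 0
    have h3 : Y e2 = 0 := by
      have h4 := Gr.eig hY (h_e2 H)
      rw [show b + -a = -b by linarith] at h4
      obtain ⟨k1, k2, k3, k4⟩ := h_eig H h4
      have m1 : B f1 (Y e2) = 0 := by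
        by_contra hc; have := mul_right_cancel₀ hc k1; linarith
      have m2 : B e1 (Y e2) = 0 := by
        by_contra hc; have := mul_right_cancel₀ hc k2; linarith
      have m3 : B f2 (Y e2) = 0 := by
        by_contra hc; have := mul_right_cancel₀ hc k3; linarith
      have m4 : B e2 (Y e2) = 0 := by
        have := sk e2 e2; rw [C.symm] at this; linarith
      rw [h_apply, m1, m2, m3, m4] at h4
      simp only [mul_zero, zero_smul, sub_zero, add_zero] at h4
      exact (smul_eq_zero.1 h4.symm).resolve_left (by intro h; linarith)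
    have h5 := Gr.brk C hX' hY
    rw [show a - b + -a = b - a by linarith] at h5
    have h6 := lowC1 C H hb hab ht hu hX hv0 hvu hvN h5
    rw [LinearMap.sub_apply, Module.End.mul_apply, Module.End.mul_apply] at h6
    have h7 : (s • wd B e1 f2 + wd B e2 u') v = B u' v • e2 := by
      simp [v4, v1, v2]
    rw [h7, map_smul, h3, smul_zero, sub_zero, h1', map_smul] at h6
    have h8 : (s • wd B e1 f2 + wd B e2 u') f1 = -(s • f2) := by
      have s2 : B u' f1 = 0 := by rw [C.symm]; exact u3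
      simp [H.f21, H.ef11, s2, H.ef21]
    rw [h8] at h6
    have h9 := congrArg (fun x => B e2 x) h6
    simp only [map_smul, map_neg, H.ef22, smul_eq_mul, map_zero] at h9
    have h10 : B e1 (Y v) = 0 := by
      have : B e1 (Y v) * s = 0 := by linarith
      exact (mul_eq_zero.1 this).resolve_right hs
    rw [h10, zero_smul] at h1'
    exact hne h1'
  · apply hne
    have h2 : (-b) = b - a := by linarith
    rw [h2] at hY
    exact lowC1 C H hb hab ht hu hX hv0 hvu hvN hY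

/-- Lemma D -/
theorem lemD (C : Ctx B l) (H : H4 B e1 e2 f1 f2) {t : ℝ} {u : V} (ht : t ≠ 0)
    (hu : u ∈ UU B e1 e2 f1 f2) (hX : t • wd B f1 e2 + wd B f2 u ∈ l)
    {s : ℝ} {u' : V} (hs : s ≠ 0) (hu' : u' ∈ UU B e1 e2 f1 f2) (hu'0 : u' ≠ 0)
    (hX' : s • wd B e1 f2 + wd B e2 u' ∈ l) (hnot : wd B f1 e2 ∉ l)
    {v : V} (hv : v ∈ UU B e1 e2 f1 f2) (hvl : wd B f2 v ∈ l) : B u' v = 0 ∧ B u v = 0 := by
  have D1 : ∀ v ∈ UU B e1 e2 f1 f2, wd B f2 v ∈ l → B u' v = 0 := by
    intro v hv hvl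
    rw [mem_UU] at hv hu'
    obtain ⟨⟨v1, v2⟩, v3, v4⟩ := hv
    obtain ⟨⟨u1, u2⟩, u3, u4⟩ := hu'
    rw [mem_UU] at hu
    obtain ⟨⟨w1, w2⟩, w3, w4⟩ := hu
    have h1 := C.brkw hX hvl
    have e1' : (t • wd B f1 e2 + wd B f2 u) f2 = t • f1 := by
      have : B u f2 = 0 := by rw [C.symm]; exact w4
      simp [H.ef22, H.f12, this, H.f22]
    have e2' : (t • wd B f1 e2 + wd B f2 u) v = B u v • f2 := by
      simp [v2, v3, v4]
    rw [e1', e2', map_smul, LinearMap.smul_apply, map_smul, wd_self, smul_zero, add_zero] at h1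
    have h2 := l.smul_mem t⁻¹ h1
    rw [smul_smul, inv_mul_cancel₀ ht, one_smul] at h2
    have h3 := C.brkw hX' h2
    have e3' : (s • wd B e1 f2 + wd B e2 u') f1 = -(s • f2) := by
      have s2 : B u' f1 = 0 := by rw [C.symm]; exact u3
      simp [H.f21, H.ef11, s2, H.ef21]
    have e4' : (s • wd B e1 f2 + wd B e2 u') v = B u' v • e2 := by
      simp [v4, v1, v2]
    rw [e3', e4', map_neg, LinearMap.neg_apply, map_smul, LinearMap.smul_apply, map_smul] at h3
    have h4 := l.add_mem h3 (l.smul_mem s hvl)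
    rw [neg_add_eq_sub, sub_add_cancel] at h4
    by_contra hc
    apply hnot
    have h5 := l.smul_mem (B u' v)⁻¹ h4
    rwa [smul_smul, inv_mul_cancel₀ hc, one_smul] at h5
  have D1v := D1 v hv hvl
  refine ⟨D1v, ?_⟩
  by_contra hc
  have hv0 := hv
  have hu0 := hu
  have hu'1 := hu'
  rw [mem_UU] at hv hu hu'
  obtain ⟨⟨v1, v2⟩, v3, v4⟩ := hv
  obtain ⟨⟨u1, u2⟩, u3, u4⟩ := hu'
  obtain ⟨⟨w1, w2⟩, w3, w4⟩ := hu
  have h1 := C.brkw hX' hvl
  have e1' : (s • wd B e1 f2 + wd B e2 u') f2 = -u' := by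
    have : B u' f2 = 0 := by rw [C.symm]; exact u4
    simp [H.f22, H.ef12, this, H.ef22]
  have e2' : (s • wd B e1 f2 + wd B e2 u') v = 0 := by
    simp [v4, v1, v2, D1v]
  rw [e1', e2', map_zero, add_zero, map_neg, LinearMap.neg_apply] at h1
  have h2 : wd B u' v ∈ l := by
    have := l.neg_mem h1
    rwa [neg_neg] at this
  have h3 := C.brk _ h2 _ hX
  have h4 : wd B u' v * (t • wd B f1 e2 + wd B f2 u) - (t • wd B f1 e2 + wd B f2 u) * wd B u' v =
      t • (wd B (wd B u' v f1) e2 + wd B f1 (wd B u' v e2)) +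
        (wd B (wd B u' v f2) u + wd B f2 (wd B u' v u)) := by
    rw [← comm_wd (wd_skew C.symm u' v), ← comm_wd (wd_skew C.symm u' v), mul_add, add_mul,
      mul_smul_comm, smul_mul_assoc]
    module
  have a1 : wd B u' v f1 = 0 := by
    have : B u' f1 = 0 := by rw [C.symm]; exact u3
    have h : B v f1 = 0 := by rw [C.symm]; exact v3
    simp [this, h]
  have a2 : wd B u' v e2 = 0 := by
    have : B u' e2 = 0 := by rw [C.symm]; exact u2
    have h : B v e2 = 0 := by rw [C.symm]; exact v2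
    simp [this, h]
  have a3 : wd B u' v f2 = 0 := by
    have : B u' f2 = 0 := by rw [C.symm]; exact u4
    have h : B v f2 = 0 := by rw [C.symm]; exact v4
    simp [this, h]
  rw [h4, a1, a2, a3] at h3
  simp only [map_zero, LinearMap.zero_apply, zero_add, smul_zero, wd_apply, map_sub, map_smul] at h3
  have h5 := l.add_mem h3 (l.smul_mem (B u' u) hvl)
  rw [sub_add_cancel] at h5
  have hc' : B v u ≠ 0 := by rw [C.symm]; exact hc
  have h6 := l.smul_mem (B v u)⁻¹ h5
  rw [smul_smul, inv_mul_cancel₀ hc', one_smul] at h6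
  have h7 := D1 u' hu'1 h6
  exact hu'0 (C.uneg H hu'1 h7.ge)

/-- Lemma E -/
theorem lemE (C : Ctx B l) (H : H4 B e1 e2 f1 f2) (hb : 0 < b) (hab : b < a) (ha2 : a = 2 * b)
    (hh : a • wd B e1 f1 + b • wd B e2 f2 ∈ l) {t : ℝ} {u : V} (ht : t ≠ 0)
    (hu : u ∈ UU B e1 e2 f1 f2) (hu0 : u ≠ 0) (hX : t • wd B f1 e2 + wd B f2 u ∈ l)
    {s : ℝ} {u' : V} (hs : s ≠ 0) (hu' : u' ∈ UU B e1 e2 f1 f2) (hu'0 : u' ≠ 0)
    (hX' : s • wd B e1 f2 + wd B e2 u' ∈ Gr l (a • wd B e1 f1 + b • wd B e2 f2) (a - b))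
    (hnot : wd B f1 e2 ∉ l)
    {v : V} (hv : v ∈ UU B e1 e2 f1 f2) (hvu : B u v = 0) : wd B f2 v ∈ l ∧ B u' v = 0 := by
  let N : Submodule ℝ V := UU B e1 e2 f1 f2 ⊓ Submodule.comap (wd B f2) l
  have hN : ∀ w, w ∈ N ↔ w ∈ UU B e1 e2 f1 f2 ∧ wd B f2 w ∈ l := fun w => Iff.rfl
  let K : Submodule ℝ V := Submodule.span ℝ {u} ⊔ N
  have hKU : K ≤ UU B e1 e2 f1 f2 := by
    refine sup_le ?_ inf_le_left
    rw [Submodule.span_le]
    rintro x (rfl : x = u)
    exact hu
  have hrefl : (LinearMap.BilinForm.restrict B K).Nondegenerate := by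
    refine ⟨?_, ?_⟩
    · intro x hx
      have h1 : B x x = 0 := hx x
      exact Subtype.ext (C.uneg H (hKU x.2) h1.ge)
    · intro x hx
      have h1 : B x x = 0 := hx x
      exact Subtype.ext (C.uneg H (hKU x.2) h1.ge)
  have hcompl := LinearMap.BilinForm.isCompl_orthogonal_of_restrict_nondegenerate
    (B := B) (W := K) (fun x y h => by rw [C.symm]; exact h) hrefl
  have htop : v ∈ K ⊔ LinearMap.BilinForm.orthogonal B K := by
    rw [hcompl.sup_eq_top]; exact Submodule.mem_top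
  obtain ⟨k, hk, k', hk', hkk⟩ := Submodule.mem_sup.1 htop
  have hk'U : k' ∈ UU B e1 e2 f1 f2 := by
    have : k' = v - k := by rw [← hkk]; abel
    rw [this]
    exact Submodule.sub_mem _ hv (hKU hk)
  have horth : ∀ x ∈ K, B x k' = 0 := fun x hx => hk' x hx
  have hk'0 : k' = 0 := by
    refine lemC C H hb hab ha2 hh ht hu hX hs hu' hX' hk'U ?_ ?_
    · rw [C.symm]
      exact horth u (Submodule.mem_sup_left (Submodule.mem_span_singleton_self u))
    · intro w hw hwl
      rw [C.symm]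
      exact horth w (Submodule.mem_sup_right ((hN w).2 ⟨hw, hwl⟩))
  rw [hk'0, add_zero] at hkk
  subst hkk
  obtain ⟨x, hx, w, hw, hxw⟩ := Submodule.mem_sup.1 hk
  obtain ⟨c, rfl⟩ := Submodule.mem_span_singleton.1 hx
  rw [hN] at hw
  obtain ⟨hw1, hw2⟩ := lemD C H ht hu hX hs hu' hu'0 hX'.1 hnot hw.1 hw.2
  rw [← hxw, map_add, map_smul, hw2, add_zero, smul_eq_mul] at hvu
  have huu : B u u ≠ 0 := fun h => hu0 (C.uneg H hu h.ge)
  have hc : c = 0 := (mul_eq_zero.1 hvu).resolve_right huu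
  rw [hc, zero_smul, zero_add] at hxw
  rw [← hxw]
  exact ⟨hw.2, hw1⟩

/-- Claim 2 for `a > b`. -/
theorem claim2a (C : Ctx B l) (H : H4 B e1 e2 f1 f2) (hb : 0 < b) (hab : b < a)
    (hh : a • wd B e1 f1 + b • wd B e2 f2 ∈ l) : ∀ x y, wd B x y ∈ l := by
  have hsw : a • wd B f1 e1 + b • wd B f2 e2 = -(a • wd B e1 f1 + b • wd B e2 f2) := by
    rw [wd_swap B e1 f1, wd_swap B e2 f2]; module
  have hh' : a • wd B f1 e1 + b • wd B f2 e2 ∈ l := by
    rw [hsw]; exact l.neg_mem hh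
  obtain ⟨t, u, ht, hu, hX, hua, hXg⟩ := exX C H hb hab hh
  obtain ⟨s, u', hs, hu', hX', hua', hX'g⟩ := exX C H.swap hb hab hh'
  have hu'' : u' ∈ UU B e1 e2 f1 f2 := UU_swap hu'
  have hneg : ∀ {c : ℝ} {Y : Module.End ℝ V}, Y ∈ Gr l (a • wd B f1 e1 + b • wd B f2 e2) c →
      Y ∈ Gr l (a • wd B e1 f1 + b • wd B e2 f2) (-c) := by
    intro c Y hY
    refine ⟨hY.1, ?_⟩
    have := hY.2
    rw [hsw, neg_mul, mul_neg] at this
    rw [neg_smul, ← this]
    abel
  have hneg' : ∀ {c : ℝ} {Y : Module.End ℝ V}, Y ∈ Gr l (a • wd B e1 f1 + b • wd B e2 f2) c →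
      Y ∈ Gr l (a • wd B f1 e1 + b • wd B f2 e2) (-c) := by
    intro c Y hY
    refine ⟨hY.1, ?_⟩
    have := hY.2
    rw [hsw, neg_mul, mul_neg, neg_smul, ← this]
    abel
  by_contra hcon
  have hn1 : wd B f1 e2 ∉ l := fun h => hcon (doneB C H hb hab hh hs hu'' hX' h)
  have hn2 : wd B e1 f2 ∉ l := fun h => hcon (doneB C H.swap hb hab hh' ht (UU_swap hu) hX h)
  have hu0 : u ≠ 0 := by
    rintro rfl
    apply hn1
    rw [map_zero, add_zero] at hX
    have := l.smul_mem t⁻¹ hX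
    rwa [smul_smul, inv_mul_cancel₀ ht, one_smul] at this
  have hu'0 : u' ≠ 0 := by
    rintro rfl
    apply hn2
    rw [map_zero, add_zero] at hX'
    have := l.smul_mem s⁻¹ hX'
    rwa [smul_smul, inv_mul_cancel₀ hs, one_smul] at this
  have ha2 := hua hu0
  have hX'g2 := hneg hX'g
  rw [neg_sub] at hX'g2
  have hXg2 := hneg' hXg
  rw [neg_sub] at hXg2
  -- choose v
  obtain ⟨v, hv0, hv⟩ : ∃ v : V, v ≠ 0 ∧ (v ∈ UU B e1 e2 f1 f2 ∧ B u v = 0) := by
    let φ : V →ₗ[ℝ] (Fin 5 → ℝ) := LinearMap.pi ![B e1, B e2, B f1, B f2, B u]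
    have hd : 6 ≤ Module.finrank ℝ V := C.dim.resolve_left (dim5 C H hu hu0)
    have hk : LinearMap.ker φ ≠ ⊥ := by
      apply LinearMap.ker_ne_bot_of_finrank_lt
      rw [Module.finrank_fin_fun]
      exact lt_of_lt_of_le (by norm_num) hd
    obtain ⟨v, hv, hv0⟩ := Submodule.exists_mem_ne_zero_of_ne_bot hk
    refine ⟨v, hv0, ?_⟩
    rw [LinearMap.mem_ker] at hv
    have h0 := congrFun hv 0
    have h1 := congrFun hv 1
    have h2 := congrFun hv 2
    have h3 := congrFun hv 3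
    have h4 := congrFun hv 4
    rw [mem_UU]
    exact ⟨⟨⟨h0, h1⟩, h2, h3⟩, h4⟩
  obtain ⟨hv1, hv2⟩ := lemE C H hb hab ha2 hh ht hu hu0 hX hs hu'' hu'0 hX'g2 hn1 hv.1 hv.2
  obtain ⟨hv3, hv4⟩ := lemE C H.swap hb hab ha2 hh' hs hu' hu'0 hX' ht (UU_swap hu) hu0 hXg2 hn2
    (UU_swap hv.1) hv2
  have h5 := C.brkw hv1 hv3
  have hvU := hv.1
  rw [mem_UU] at hvU
  obtain ⟨⟨v1, v2⟩, v3, v4⟩ := hvU
  have hvv : B v v ≠ 0 := fun h => hv0 (C.uneg H hv.1 h.ge)
  have e1' : wd B f2 v e2 = -v := by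
    have : B v e2 = 0 := by rw [C.symm]; exact v2
    simp [this, H.fe22]
  have e2' : wd B f2 v v = B v v • f2 := by
    simp [v4]
  rw [e1', e2', map_neg, LinearMap.neg_apply, wd_self, neg_zero, zero_add, map_smul] at h5
  have h6 := l.smul_mem (B v v)⁻¹ h5
  rw [smul_smul, inv_mul_cancel₀ hvv, one_smul] at h6
  exact hcon (claim1 C H.e22 H.f22 H.ef22 h6)

end Claim2A

/-! ## Extraction of hyperbolic planes -/

section Extract

theorem diag_sub (hs : ∀ x y, B x y = B y x) {h : Module.End ℝ V}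
    (hsk : ∀ x y, B (h x) y = - B x (h y))
    (htop : ⨆ μ : ℝ, Module.End.eigenspace h μ = ⊤) {a : ℝ} {e f : V} (he : h e = a • e)
    (hf : h f = (-a) • f) (hee : B e e = 0) (hff : B f f = 0) (hef : B e f = 1) :
    ⨆ μ : ℝ, Module.End.eigenspace (h - a • wd B e f) μ = ⊤ := by
  have hfe : B f e = 1 := by rw [hs, hef]
  rw [eq_top_iff, ← htop]
  refine iSup_le fun μ => ?_
  intro x hx
  rw [Module.End.mem_eigenspace_iff] at hx
  have k1 : (μ - a) * B f x = 0 := by
    have := hsk f x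
    rw [hf, hx] at this
    simp only [map_smul, LinearMap.smul_apply, smul_eq_mul] at this
    linarith
  have k2 : (μ + a) * B e x = 0 := by
    have := hsk e x
    rw [he, hx] at this
    simp only [map_smul, LinearMap.smul_apply, smul_eq_mul] at this
    linarith
  have m1 : e ∈ ⨆ μ : ℝ, Module.End.eigenspace (h - a • wd B e f) μ := by
    refine Submodule.mem_iSup_of_mem 0 ?_
    rw [Module.End.mem_eigenspace_iff]
    simp [he, hee, hfe]
  have m2 : f ∈ ⨆ μ : ℝ, Module.End.eigenspace (h - a • wd B e f) μ := by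
    refine Submodule.mem_iSup_of_mem 0 ?_
    rw [Module.End.mem_eigenspace_iff]
    simp [hf, hff, hef]
  have m3 : x - B f x • e - B e x • f ∈ ⨆ μ : ℝ, Module.End.eigenspace (h - a • wd B e f) μ := by
    refine Submodule.mem_iSup_of_mem μ ?_
    rw [Module.End.mem_eigenspace_iff]
    have h1 : (h - a • wd B e f) (x - B f x • e - B e x • f) =
        μ • x - (B f x * a) • e + (B e x * a) • f := by
      simp only [LinearMap.sub_apply, LinearMap.smul_apply, wd_apply, map_sub, map_smul, he, hf, hx,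
        hee, hff, hef, hfe, smul_eq_mul]
      module
    have h2 : B f x * a = B f x * μ := by linear_combination -k1
    have h3 : B e x * a = - (B e x * μ) := by linear_combination k2
    rw [h1, h2, h3, smul_sub, smul_sub, smul_smul, smul_smul, mul_comm μ, mul_comm μ]
    module
  have : x = B f x • e + B e x • f + (x - B f x • e - B e x • f) := by abel
  rw [this]
  exact Submodule.add_mem _ (Submodule.add_mem _ (Submodule.smul_mem _ _ m1)
    (Submodule.smul_mem _ _ m2)) m3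

theorem extract (hs : ∀ x y, B x y = B y x) (hnd : ∀ x, (∀ y, B x y = 0) → x = 0)
    {h : Module.End ℝ V} (hsk : ∀ x y, B (h x) y = - B x (h y))
    (htop : ⨆ μ : ℝ, Module.End.eigenspace h μ = ⊤) (h0 : h ≠ 0) :
    ∃ (a : ℝ) (e f : V), 0 < a ∧ h e = a • e ∧ h f = (-a) • f ∧ B e e = 0 ∧ B f f = 0 ∧
      B e f = 1 := by
  have h1 : ∃ (μ : ℝ) (v : V), μ ≠ 0 ∧ h v = μ • v ∧ v ≠ 0 := by
    by_contra hcon
    push Not at hcon
    apply h0
    have : (⊤ : Submodule ℝ V) ≤ LinearMap.ker h := by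
      rw [← htop]
      refine iSup_le fun μ x hx => ?_
      rw [Module.End.mem_eigenspace_iff] at hx
      rw [LinearMap.mem_ker]
      by_cases hμ : μ = 0
      · rw [hx, hμ, zero_smul]
      · rw [hcon μ x hμ hx, map_zero]
    exact LinearMap.ker_eq_top.1 (top_le_iff.1 this)
  obtain ⟨μ, v, hμ, hv, hv0⟩ := h1
  have h2 : ∃ (ν : ℝ) (w : V), h w = ν • w ∧ B v w ≠ 0 := by
    by_contra hcon
    push Not at hcon
    apply hv0
    have : (⊤ : Submodule ℝ V) ≤ LinearMap.ker (B v) := by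
      rw [← htop]
      refine iSup_le fun ν x hx => ?_
      rw [Module.End.mem_eigenspace_iff] at hx
      exact hcon ν x hx
    refine hnd v fun y => ?_
    have hy : y ∈ LinearMap.ker (B v) := this Submodule.mem_top
    exact hy
  obtain ⟨ν, w, hw, hvw⟩ := h2
  have h3 : ν = -μ := by
    have := hsk v w
    rw [hv, hw] at this
    simp only [map_smul, LinearMap.smul_apply, smul_eq_mul] at this
    have h4 : (ν + μ) * B v w = 0 := by linarith
    have := (mul_eq_zero.1 h4).resolve_right hvw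
    linarith
  subst h3
  have hvv : B v v = 0 := by
    have := hsk v v
    rw [hv] at this
    simp only [map_smul, LinearMap.smul_apply, smul_eq_mul] at this
    have h4 : μ * B v v = 0 := by linarith
    exact (mul_eq_zero.1 h4).resolve_left hμ
  have hww : B w w = 0 := by
    have := hsk w w
    rw [hw] at this
    simp only [map_smul, LinearMap.smul_apply, smul_eq_mul] at this
    have h4 : μ * B w w = 0 := by linarith
    exact (mul_eq_zero.1 h4).resolve_left hμ
  rcases lt_or_gt_of_ne hμ with hlt | hgt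
  · refine ⟨-μ, w, (B v w)⁻¹ • v, by linarith, hw, ?_, hww, ?_, ?_⟩
    · rw [map_smul, hv, neg_neg, smul_comm]
    · simp [hvv]
    · rw [map_smul, hs w v, smul_eq_mul, inv_mul_cancel₀ hvw]
  · refine ⟨μ, v, (B v w)⁻¹ • w, hgt, hv, ?_, hvv, ?_, ?_⟩
    · rw [map_smul, hw, smul_comm]
    · simp [hww]
    · rw [map_smul, smul_eq_mul, inv_mul_cancel₀ hvw]

theorem zero_of_top (C : Ctx B l) {e1 e2 f1 f2 : V} (H : H4 B e1 e2 f1 f2)
    {h : Module.End ℝ V} (hsk : ∀ x y, B (h x) y = - B x (h y))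
    (htop : ⨆ μ : ℝ, Module.End.eigenspace h μ = ⊤) (h1 : h e1 = 0) (h2 : h e2 = 0)
    (h3 : h f1 = 0) (h4 : h f2 = 0) : h = 0 := by
  by_contra hne
  obtain ⟨a, e, f, ha, he, hf, hee, hff, hef⟩ := extract C.symm C.nondeg hsk htop hne
  have aux : ∀ x, h x = 0 → B x e = 0 := by
    intro x hx
    have := hsk x e
    rw [hx, he] at this
    simp only [map_zero, LinearMap.zero_apply, map_smul, smul_eq_mul] at this
    have h5 : a * B x e = 0 := by linarith
    exact (mul_eq_zero.1 h5).resolve_left ha.ne'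
  have h5 : e = 0 := C.uneg H (mem_UU.2 ⟨⟨aux _ h1, aux _ h2⟩, aux _ h3, aux _ h4⟩) hee.ge
  rw [h5] at hef
  simp at hef

theorem skew_sub (hs : ∀ x y, B x y = B y x) {h : Module.End ℝ V}
    (hsk : ∀ x y, B (h x) y = - B x (h y)) (a : ℝ) (e f : V) :
    ∀ x y, B ((h - a • wd B e f) x) y = - B x ((h - a • wd B e f) y) := by
  intro x y
  rw [LinearMap.sub_apply, LinearMap.sub_apply, LinearMap.smul_apply, LinearMap.smul_apply,
    map_sub, map_sub, LinearMap.sub_apply, map_smul, map_smul, LinearMap.smul_apply,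
    wd_skew hs, hsk]
  simp only [smul_eq_mul]
  ring

theorem hypPair (C : Ctx B l) {e1 e2 f1 f2 : V} (H : H4 B e1 e2 f1 f2)
    {Y : Module.End ℝ V} (hY : Y ∈ l) {c1 c2 : ℝ} (h1 : Y e1 = c1 • e1) (h2 : Y e2 = c2 • e2)
    (h3 : Y f1 = (-c1) • f1) (h4 : Y f2 = (-c2) • f2) :
    c1 • wd B e1 f1 + c2 • wd B e2 f2 ∈ l := by
  obtain ⟨K, hK, htop, hev⟩ := C.hyp Y hY
  have k1 := hev _ _ h1
  have k2 := hev _ _ h2
  have k3 := hev _ _ h3
  have k4 := hev _ _ h4
  have sk := C.skew K hK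
  have t1 := diag_sub C.symm sk htop k1 k3 H.e11 H.f11 H.ef11
  have sk1 := skew_sub C.symm sk c1 e1 f1
  have k5 : (K - c1 • wd B e1 f1) e2 = c2 • e2 := by
    simp [k2, H.fe12, H.e12]
  have k6 : (K - c1 • wd B e1 f1) f2 = (-c2) • f2 := by
    simp [k4, H.f12, H.ef12]
  have t2 := diag_sub C.symm sk1 t1 k5 k6 H.e22 H.f22 H.ef22
  have sk2 := skew_sub C.symm sk1 c2 e2 f2
  have hz := zero_of_top C H sk2 t2 (by simp [k1, H.fe11, H.e11, H.fe21, H.e21])
    (by simp [k2, H.fe12, H.e12, H.fe22, H.e22]) (by simp [k3, H.f11, H.ef11, H.f21, H.ef21])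
    (by simp [k4, H.f12, H.ef12, H.f22, H.ef22])
  have : c1 • wd B e1 f1 + c2 • wd B e2 f2 = K := by
    rw [sub_sub, sub_eq_zero] at hz
    exact hz.symm
  rw [this]
  exact hK

end Extract

/-! ## The case `a = b` -/

section Claim2B

variable {e1 e2 f1 f2 : V} {a : ℝ}

theorem eqA (H : H4 B e1 e2 f1 f2) (ha : 0 < a) {x : V}
    (hx : (a • wd B e1 f1 + a • wd B e2 f2) x = a • x) : x = B f1 x • e1 + B f2 x • e2 := by
  obtain ⟨k1, k2, k3, k4⟩ := h_eig H hx
  have m2 : B e1 x = 0 := by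
    by_contra hc; have := mul_right_cancel₀ hc k2; linarith
  have m4 : B e2 x = 0 := by
    by_contra hc; have := mul_right_cancel₀ hc k4; linarith
  rw [h_apply, m2, m4] at hx
  simp only [mul_zero, zero_smul, sub_zero] at hx
  rw [mul_smul, mul_smul, ← smul_add] at hx
  exact (smul_right_injective V (ne_of_gt ha) hx).symm

theorem eqA' (H : H4 B e1 e2 f1 f2) (ha : 0 < a) {x : V}
    (hx : (a • wd B e1 f1 + a • wd B e2 f2) x = (-a) • x) : x = B e1 x • f1 + B e2 x • f2 := by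
  obtain ⟨k1, k2, k3, k4⟩ := h_eig H hx
  have m2 : B f1 x = 0 := by
    by_contra hc; have := mul_right_cancel₀ hc k1; linarith
  have m4 : B f2 x = 0 := by
    by_contra hc; have := mul_right_cancel₀ hc k3; linarith
  rw [h_apply, m2, m4] at hx
  simp only [mul_zero, zero_smul, zero_sub, add_zero] at hx
  have h1 : (-a) • (B e1 x • f1 + B e2 x • f2) = (-a) • x := by
    rw [← hx]; module
  exact (smul_right_injective V (by intro h; linarith : (-a) ≠ 0) h1).symm

variable [FiniteDimensional ℝ V]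

/-- a common complex eigenvector is impossible -/
theorem lowP (C : Ctx B l) (H : H4 B e1 e2 f1 f2) (ha : 0 < a)
    (hh : a • wd B e1 f1 + a • wd B e2 f2 ∈ l) (α1 α2 ρ : ℝ) (hne : α1 ≠ 0 ∨ α2 ≠ 0 ∨ ρ ≠ 0)
    (hst : ∀ Y ∈ Gr l (a • wd B e1 f1 + a • wd B e2 f2) 0, ∃ s1 s2 : ℝ,
      Y (α1 • e1 + ρ • e2) = s1 • (α1 • e1 + ρ • e2) - s2 • (α2 • e1) ∧
      Y (α2 • e1) = s2 • (α1 • e1 + ρ • e2) + s1 • (α2 • e1)) : False := by
  have hw := C.lowC hh (h_top H) (α1 • e1 + ρ • e2) (α2 • e1) (ρ • f1 - α1 • f2) (-(α2 • f2))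
    (by
      by_contra hcon
      push Not at hcon
      obtain ⟨c1, c2⟩ := hcon
      have d1 := congrArg (fun x => B f1 x) c1
      have d2 := congrArg (fun x => B f2 x) c1
      have d3 := congrArg (fun x => B f1 x) c2
      simp [H.fe11, H.fe12, H.fe21, H.fe22] at d1 d2 d3
      rcases hne with h | h | h
      · exact h d1
      · exact h d3
      · exact h d2)
    (by
      intro μ hμ Y hY
      rcases eq_or_lt_of_le hμ with h | h
      · subst h
        obtain ⟨s1, s2, q1, q2⟩ := hst Y hY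
        exact ⟨s1, s2, q1, q2⟩
      · refine ⟨0, 0, ?_, ?_⟩
        · have h1 := h_eig0 H (Gr.eig hY (h_e1 H)) (by linarith) (by linarith) (by linarith)
            (by linarith) (by linarith)
          have h2 := h_eig0 H (Gr.eig hY (h_e2 H)) (by linarith) (by linarith) (by linarith)
            (by linarith) (by linarith)
          simp [h1, h2]
        · have h1 := h_eig0 H (Gr.eig hY (h_e1 H)) (by linarith) (by linarith) (by linarith)
            (by linarith) (by linarith)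
          simp [h1])
    (by
      intro μ hμ Y hY
      have h1 := h_eig0 H (Gr.eig hY (h_f1 H)) (by linarith) (by linarith) (by linarith)
        (by linarith) (by linarith)
      have h2 := h_eig0 H (Gr.eig hY (h_f2 H)) (by linarith) (by linarith) (by linarith)
        (by linarith) (by linarith)
      simp [h1, h2])
    (by
      simp only [map_sub, map_smul, map_neg, map_add, LinearMap.sub_apply, LinearMap.smul_apply,
        LinearMap.neg_apply, smul_eq_mul, H.fe11, H.fe12, H.fe21, H.fe22]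
      ring)
    (by
      simp only [map_sub, map_smul, map_neg, map_add, LinearMap.sub_apply, LinearMap.smul_apply,
        LinearMap.neg_apply, smul_eq_mul, H.fe11, H.fe12, H.fe21, H.fe22]
      ring)
  obtain ⟨c1, c2⟩ := hw
  have d1 := congrArg (fun x => B e1 x) c1
  have d2 := congrArg (fun x => B e2 x) c1
  have d3 := congrArg (fun x => B e2 x) c2
  simp [H.ef11, H.ef12, H.ef21, H.ef22] at d1 d2 d3
  rcases hne with h | h | h
  · exact h d2
  · exact h d3
  · exact h d1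

omit [FiniteDimensional ℝ V] in
theorem quad2 (p q r : ℝ) (hD : 0 < p ^ 2 + 4 * q * r) :
    ∃ l1 l2 a1 c1 a2 c2 : ℝ, l1 ≠ l2 ∧ l1 + l2 = p ∧ a1 * c2 - a2 * c1 ≠ 0 ∧
      p * a1 + q * c1 = l1 * a1 ∧ r * a1 = l1 * c1 ∧
      p * a2 + q * c2 = l2 * a2 ∧ r * a2 = l2 * c2 := by
  by_cases hr : r = 0
  · subst hr
    have hp : p ≠ 0 := by
      rintro rfl; simp at hD
    exact ⟨p, 0, 1, 0, q, -p, hp, by ring, by simpa using hp, by ring, by ring, by ring, by ring⟩
  · have hs : Real.sqrt (p ^ 2 + 4 * q * r) ^ 2 = p ^ 2 + 4 * q * r := Real.sq_sqrt hD.le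
    have hs0 : 0 < Real.sqrt (p ^ 2 + 4 * q * r) := Real.sqrt_pos.2 hD
    set s := Real.sqrt (p ^ 2 + 4 * q * r) with hsdef
    refine ⟨(p + s) / 2, (p - s) / 2, (p + s) / 2, r, (p - s) / 2, r, ?_, by ring, ?_, ?_, by ring,
      ?_, by ring⟩
    · intro h; linarith
    · intro h
      have : s * r = 0 := by linear_combination h
      rcases mul_eq_zero.1 this with h | h
      · exact hs0.ne' h
      · exact hr h
    · linear_combination (-1/4) * hs
    · linear_combination (-1/4) * hs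

/-- Claim 2 for `a = b`. -/
theorem claim2b (C : Ctx B l) (H : H4 B e1 e2 f1 f2) (ha : 0 < a)
    (hh : a • wd B e1 f1 + a • wd B e2 f2 ∈ l) : ∀ x y, wd B x y ∈ l := by
  -- matrix entries of elements of degree zero
  have ent : ∀ Y ∈ Gr l (a • wd B e1 f1 + a • wd B e2 f2) 0,
      Y e1 = B f1 (Y e1) • e1 + B f2 (Y e1) • e2 ∧ Y e2 = B f1 (Y e2) • e1 + B f2 (Y e2) • e2 := by
    intro Y hY
    have h1 := Gr.eig hY (h_e1 H)
    have h2 := Gr.eig hY (h_e2 H)
    rw [add_zero] at h1 h2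
    exact ⟨eqA H ha h1, eqA H ha h2⟩
  by_cases hD : ∃ Y ∈ Gr l (a • wd B e1 f1 + a • wd B e2 f2) 0,
      0 < (B f1 (Y e1) - B f2 (Y e2)) ^ 2 + 4 * B f1 (Y e2) * B f2 (Y e1)
  · obtain ⟨Y, hY, hpos⟩ := hD
    obtain ⟨q1, q2⟩ := ent Y hY
    have hf1 : Y f1 = (-B f1 (Y e1)) • f1 + (-B f1 (Y e2)) • f2 := by
      have h1 := Gr.eig hY (h_f1 H)
      rw [add_zero] at h1
      have h2 := eqA' H ha h1
      rw [h2]
      congr 2
      · have := C.skew Y hY.1 e1 f1
        have h3 := C.symm (Y e1) f1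
        linarith
      · have := C.skew Y hY.1 e2 f1
        have h3 := C.symm (Y e2) f1
        linarith
    have hf2 : Y f2 = (-B f2 (Y e1)) • f1 + (-B f2 (Y e2)) • f2 := by
      have h1 := Gr.eig hY (h_f2 H)
      rw [add_zero] at h1
      have h2 := eqA' H ha h1
      rw [h2]
      congr 2
      · have := C.skew Y hY.1 e1 f2
        have h3 := C.symm (Y e1) f2
        linarith
      · have := C.skew Y hY.1 e2 f2
        have h3 := C.symm (Y e2) f2
        linarith
    generalize B f1 (Y e1) = y11 at *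
    generalize B f2 (Y e1) = y21 at *
    generalize B f1 (Y e2) = y12 at *
    generalize B f2 (Y e2) = y22 at *
    obtain ⟨l1, l2, a1, c1, a2, c2, hl, htr, hdet, r1, r2, r3, r4⟩ := quad2 _ _ _ hpos
    set d := a1 * c2 - a2 * c1 with hd
    have H' : H4 B (a1 • e1 + c1 • e2) (a2 • e1 + c2 • e2)
        ((c2 / d) • f1 + (-a2 / d) • f2) ((-c1 / d) • f1 + (a1 / d) • f2) := by
      constructor <;>
      simp only [map_add, map_smul, LinearMap.add_apply, LinearMap.smul_apply, smul_eq_mul,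
        H.e11, H.e12, H.e21, H.e22, H.f11, H.f12, H.f21, H.f22, H.ef11, H.ef12, H.ef21, H.ef22,
        H.fe11, H.fe12, H.fe21, H.fe22] <;>
      (try field_simp) <;> (try rw [hd]) <;> ring
    have y1 : Y (a1 • e1 + c1 • e2) = (y22 + l1) • (a1 • e1 + c1 • e2) := by
      rw [map_add, map_smul, map_smul, q1, q2]
      match_scalars
      · linear_combination r1
      · linear_combination r2
    have y2 : Y (a2 • e1 + c2 • e2) = (y22 + l2) • (a2 • e1 + c2 • e2) := by
      rw [map_add, map_smul, map_smul, q1, q2]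
      match_scalars
      · linear_combination r3
      · linear_combination r4
    have y3 : Y ((c2 / d) • f1 + (-a2 / d) • f2) =
        (-(y22 + l1)) • ((c2 / d) • f1 + (-a2 / d) • f2) := by
      rw [map_add, map_smul, map_smul, hf1, hf2]
      match_scalars
      · field_simp
        linear_combination (c2) * htr + r4
      · field_simp
        linear_combination (-1) * r3 - a2 * htr
    have y4 : Y ((-c1 / d) • f1 + (a1 / d) • f2) =
        (-(y22 + l2)) • ((-c1 / d) • f1 + (a1 / d) • f2) := by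
      rw [map_add, map_smul, map_smul, hf1, hf2]
      match_scalars
      · field_simp
        linear_combination (-c1) * htr - r2
      · field_simp
        linear_combination r1 + a1 * htr
    have h5 := hypPair C H' hY.1 y1 y2 y3 y4
    have h6 : wd B (a1 • e1 + c1 • e2) ((c2 / d) • f1 + (-a2 / d) • f2) +
        wd B (a2 • e1 + c2 • e2) ((-c1 / d) • f1 + (a1 / d) • f2) =
        a⁻¹ • (a • wd B e1 f1 + a • wd B e2 f2) := by
      simp only [map_add, map_smul, LinearMap.add_apply, LinearMap.smul_apply]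
      match_scalars <;> (try field_simp) <;> (try rw [hd]) <;> ring
    have h7 : (l1 - l2) • wd B (a1 • e1 + c1 • e2) ((c2 / d) • f1 + (-a2 / d) • f2) ∈ l := by
      have h8 := l.sub_mem h5 (l.smul_mem (y22 + l2) (l.smul_mem a⁻¹ hh))
      rw [← h6] at h8
      convert h8 using 1
      module
    have h9 := l.smul_mem (l1 - l2)⁻¹ h7
    rw [smul_smul, inv_mul_cancel₀ (sub_ne_zero.2 hl), one_smul] at h9
    exact claim1 C H'.e11 H'.f11 H'.ef11 h9
  · exfalso
    push Not at hD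
    -- traceless part
    have hz : ∀ Y ∈ Gr l (a • wd B e1 f1 + a • wd B e2 f2) 0, B f1 (Y e2) = B f2 (Y e1) →
        B f1 (Y e1) = B f2 (Y e2) ∧ B f1 (Y e2) = 0 ∧ B f2 (Y e1) = 0 := by
      intro Y hY h1
      have h2 := hD Y hY
      rw [h1] at h2 ⊢
      have h3 : B f2 (Y e1) = 0 := by nlinarith [sq_nonneg (B f1 (Y e1) - B f2 (Y e2))]
      have h4 : B f1 (Y e1) - B f2 (Y e2) = 0 := by
        rw [h3] at h2; nlinarith [sq_nonneg (B f1 (Y e1) - B f2 (Y e2))]
      exact ⟨by linarith, h3, h3⟩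
    by_cases hδ : ∀ Y ∈ Gr l (a • wd B e1 f1 + a • wd B e2 f2) 0, B f2 (Y e1) = 0
    · refine lowP C H ha hh 1 0 0 (Or.inl one_ne_zero) fun Y hY => ⟨B f1 (Y e1), 0, ?_, by simp⟩
      have h1 := (ent Y hY).1
      rw [hδ Y hY, zero_smul, add_zero] at h1
      simp only [one_smul, zero_smul, add_zero, sub_zero]
      exact h1
    · push Not at hδ
      obtain ⟨Y0, hY0, hr0⟩ := hδ
      have hδ0 : B f1 (Y0 e2) - B f2 (Y0 e1) ≠ 0 := by
        intro h
        exact hr0 (hz Y0 hY0 (by linarith)).2.2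
      have hD0 := hD Y0 hY0
      generalize hp0 : B f1 (Y0 e1) - B f2 (Y0 e2) = p0 at *
      generalize hq0 : B f1 (Y0 e2) = q0 at *
      generalize hr0' : B f2 (Y0 e1) = r0 at *
      have hs : Real.sqrt (-(p0 ^ 2 + 4 * q0 * r0)) ^ 2 = -(p0 ^ 2 + 4 * q0 * r0) :=
        Real.sq_sqrt (by linarith)
      generalize Real.sqrt (-(p0 ^ 2 + 4 * q0 * r0)) = s at hs
      refine lowP C H ha hh (p0 / 2) (s / 2) r0 (Or.inr (Or.inr hr0)) fun Y hY => ?_
      -- proportionality
      obtain ⟨κ, k1, k2, k3⟩ : ∃ κ : ℝ, B f1 (Y e1) - B f2 (Y e2) = κ * p0 ∧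
          B f1 (Y e2) = κ * q0 ∧ B f2 (Y e1) = κ * r0 := by
        refine ⟨(B f1 (Y e2) - B f2 (Y e1)) / (q0 - r0), ?_⟩
        generalize hκ : (B f1 (Y e2) - B f2 (Y e1)) / (q0 - r0) = κ
        have hκ' : B f1 (Y e2) - B f2 (Y e1) = κ * (q0 - r0) := by
          rw [← hκ, div_mul_cancel₀ _ hδ0]
        have hmem : Y - κ • Y0 ∈ Gr l (a • wd B e1 f1 + a • wd B e2 f2) 0 := by
          refine ⟨l.sub_mem hY.1 (l.smul_mem _ hY0.1), ?_⟩
          have h1 := hY.2
          have h2 := hY0.2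
          rw [zero_smul] at h1 h2 ⊢
          rw [mul_sub, sub_mul, mul_smul_comm, smul_mul_assoc]
          have : (a • wd B e1 f1 + a • wd B e2 f2) * Y - κ • ((a • wd B e1 f1 + a • wd B e2 f2) * Y0)
              - (Y * (a • wd B e1 f1 + a • wd B e2 f2) -
                κ • (Y0 * (a • wd B e1 f1 + a • wd B e2 f2))) =
              ((a • wd B e1 f1 + a • wd B e2 f2) * Y - Y * (a • wd B e1 f1 + a • wd B e2 f2)) -
              κ • ((a • wd B e1 f1 + a • wd B e2 f2) * Y0 -
                Y0 * (a • wd B e1 f1 + a • wd B e2 f2)) := by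
            rw [smul_sub]; abel
          rw [this, h1, h2, smul_zero, sub_zero]
        have h3 := hz _ hmem (by
          simp only [LinearMap.sub_apply, LinearMap.smul_apply, map_sub, map_smul, smul_eq_mul,
            hq0, hr0']
          linarith)
        simp only [LinearMap.sub_apply, LinearMap.smul_apply, map_sub, map_smul, smul_eq_mul,
          hq0, hr0'] at h3
        obtain ⟨g1, g2, g3⟩ := h3
        refine ⟨?_, by linarith, by linarith⟩
        rw [← hp0]
        linarith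
      obtain ⟨q1, q2⟩ := ent Y hY
      rw [k3] at q1
      rw [k2] at q2
      have k1' : B f1 (Y e1) = B f2 (Y e2) + κ * p0 := by linarith
      rw [k1'] at q1
      generalize B f2 (Y e2) = y22 at q1 q2
      refine ⟨y22 + κ * p0 / 2, κ * s / 2, ?_, ?_⟩
      · rw [map_add, map_smul, map_smul, q1, q2]
        match_scalars
        · linear_combination (κ / 4) * hs
        · ring
      · rw [map_smul, q1]
        match_scalars
        · ring
        · ring

end Claim2B

/-- Main abstract theorem. -/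
theorem main [FiniteDimensional ℝ V] (C : Ctx B l) {h : Module.End ℝ V} (hh : h ∈ l) (h0 : h ≠ 0)
    (htop : ⨆ μ : ℝ, Module.End.eigenspace h μ = ⊤) : ∀ x y, wd B x y ∈ l := by
  have sk := C.skew h hh
  obtain ⟨a, e1, f1, ha, he1, hf1, e11, f11, ef11⟩ := extract C.symm C.nondeg sk htop h0
  have fe11 : B f1 e1 = 1 := by rw [C.symm, ef11]
  have t1 := diag_sub C.symm sk htop he1 hf1 e11 f11 ef11
  have sk1 := skew_sub C.symm sk a e1 f1
  have k1 : (h - a • wd B e1 f1) e1 = 0 := by simp [he1, fe11, e11]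
  have k2 : (h - a • wd B e1 f1) f1 = 0 := by simp [hf1, ef11, f11]
  by_cases hz1 : h - a • wd B e1 f1 = 0
  · have h1 : wd B e1 f1 ∈ l := by
      rw [sub_eq_zero] at hz1
      have := l.smul_mem a⁻¹ hh
      rwa [hz1, smul_smul, inv_mul_cancel₀ ha.ne', one_smul] at this
    exact claim1 C e11 f11 ef11 h1
  obtain ⟨b, e2, f2, hb, he2, hf2, e22, f22, ef22⟩ := extract C.symm C.nondeg sk1 t1 hz1
  have aux : ∀ (x y : V) (c : ℝ), c ≠ 0 → (h - a • wd B e1 f1) x = 0 → (h - a • wd B e1 f1) y = c • y →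
      B x y = 0 := by
    intro x y c hc hx hy
    have := sk1 x y
    rw [hx, hy] at this
    simp only [map_zero, LinearMap.zero_apply, map_smul, smul_eq_mul] at this
    have h5 : c * B x y = 0 := by linarith
    exact (mul_eq_zero.1 h5).resolve_left hc
  have e12 := aux _ _ _ hb.ne' k1 he2
  have ef12 := aux _ _ _ (neg_ne_zero.2 hb.ne') k1 hf2
  have fe12 := aux _ _ _ hb.ne' k2 he2
  have f12 := aux _ _ _ (neg_ne_zero.2 hb.ne') k2 hf2
  have H : H4 B e1 e2 f1 f2 :=
    ⟨e11, e12, by rw [C.symm, e12], e22, f11, f12, by rw [C.symm, f12], f22, ef11, ef12,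
      by rw [C.symm, fe12], ef22, fe11, fe12, by rw [C.symm, ef12], by rw [C.symm, ef22]⟩
  have t2 := diag_sub C.symm sk1 t1 he2 hf2 e22 f22 ef22
  have sk2 := skew_sub C.symm sk1 b e2 f2
  have hz2 := zero_of_top C H sk2 t2
    (by rw [LinearMap.sub_apply, k1]; simp [H.fe21, H.e21])
    (by rw [LinearMap.sub_apply, he2]; simp [H.fe22, H.e22])
    (by rw [LinearMap.sub_apply, k2]; simp [H.f21, H.ef21])
    (by rw [LinearMap.sub_apply, hf2]; simp [H.f22, H.ef22])
  have hsum : h = a • wd B e1 f1 + b • wd B e2 f2 := by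
    rw [sub_sub, sub_eq_zero] at hz2
    exact hz2
  rw [hsum] at hh
  rcases lt_trichotomy a b with hlt | heq | hgt
  · exact claim2a C H.flip ha hlt (by rw [add_comm]; exact hh)
  · subst heq
    exact claim2b C H ha hh
  · exact claim2a C H hb hgt hh

end Pool.Agent.K3D.K7x
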