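import Pool.Agent.K3D.Stmts
import Pool.Agent.K3D.K7x

/-!
# K7: the classification, for matrices.
-/

open scoped BigOperators
open Matrix

namespace Pool.Agent.K3D

namespace K7w

open K7x Module

variable {n : ℕ} {q : Fin n → ℝ} {l : Submodule ℝ (Matrix (Fin n) (Fin n) ℝ)}

/-- The bilinear form. -/
noncomputable def Bq (q : Fin n → ℝ) : (Fin n → ℝ) →ₗ[ℝ] (Fin n → ℝ) →ₗ[ℝ] ℝ :=
  LinearMap.mk₂ ℝ (fun x y => ∑ i, q i * x i * y i)
    (by intro x x' y; simp only [Pi.add_apply, mul_add, add_mul, Finset.sum_add_distrib])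
    (by
      intro c x y
      simp only [Pi.smul_apply, smul_eq_mul, Finset.mul_sum]
      exact Finset.sum_congr rfl fun i _ => by ring)
    (by intro x y y'; simp only [Pi.add_apply, mul_add, Finset.sum_add_distrib])
    (by
      intro c x y
      simp only [Pi.smul_apply, smul_eq_mul, Finset.mul_sum]
      exact Finset.sum_congr rfl fun i _ => by ring)

@[simp] theorem Bq_apply (x y : Fin n → ℝ) : Bq q x y = ∑ i, q i * x i * y i := rfl

theorem Bq_eq (x y : Fin n → ℝ) : Bq q x y = x ⬝ᵥ (Matrix.diagonal q *ᵥ y) := by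
  rw [Bq_apply]
  simp only [dotProduct, Matrix.mulVec_diagonal]
  exact Finset.sum_congr rfl fun i _ => by ring

theorem Bq_single_left (i : Fin n) (y : Fin n → ℝ) : Bq q (Pi.single i 1) y = q i * y i := by
  rw [Bq_apply, Finset.sum_eq_single i]
  · simp
  · intro j _ hj; simp [Pi.single_eq_of_ne hj]
  · simp

theorem Bq_symm (x y : Fin n → ℝ) : Bq q x y = Bq q y x := by
  rw [Bq_apply, Bq_apply]
  exact Finset.sum_congr rfl fun i _ => by ring

theorem Bq_skew {a : Matrix (Fin n) (Fin n) ℝ}
    (ha : aᵀ * Matrix.diagonal q + Matrix.diagonal q * a = 0) (x y : Fin n → ℝ) :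
    Bq q (Matrix.toLin' a x) y = - Bq q x (Matrix.toLin' a y) := by
  rw [Bq_eq, Bq_eq, Matrix.toLin'_apply, Matrix.toLin'_apply]
  have h1 : (a *ᵥ x) ⬝ᵥ (Matrix.diagonal q *ᵥ y) = x ⬝ᵥ ((aᵀ * Matrix.diagonal q) *ᵥ y) := by
    rw [← Matrix.mulVec_mulVec, Matrix.dotProduct_mulVec x, Matrix.vecMul_transpose]
  rw [h1, Matrix.mulVec_mulVec, ← dotProduct_neg, ← Matrix.neg_mulVec]
  congr 2
  exact eq_neg_of_add_eq_zero_left ha

theorem skew_of {Y : Module.End ℝ (Fin n → ℝ)}
    (hY : ∀ x y, Bq q (Y x) y = - Bq q x (Y y)) (hq : ∀ i, q i ≠ 0) :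
    Y ∈ Submodule.span ℝ {Z | ∃ x y, Z = wd (Bq q) x y} := by
  have h1 : Y = ∑ i, (1 / (2 * q i)) • wd (Bq q) (Y (Pi.single i 1)) (Pi.single i 1) := by
    refine LinearMap.ext fun v => ?_
    have hv : v = ∑ i, v i • (Pi.single i (1 : ℝ) : Fin n → ℝ) := by
      ext j
      simp [Finset.sum_apply, Pi.single_apply]
    rw [LinearMap.sum_apply]
    have h2 : ∀ i, ((1 / (2 * q i)) • wd (Bq q) (Y (Pi.single i 1)) (Pi.single i 1)) v =
        (1 / 2 : ℝ) • (v i • Y (Pi.single i 1)) + (1 / 2 : ℝ) • ((Y v) i • Pi.single i (1 : ℝ)) := by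
      intro i
      rw [LinearMap.smul_apply, wd_apply, hY, Bq_single_left, Bq_single_left]
      have := hq i
      match_scalars <;> field_simp
    rw [Finset.sum_congr rfl fun i _ => h2 i, Finset.sum_add_distrib, ← Finset.smul_sum,
      ← Finset.smul_sum]
    have h3 : ∑ i, v i • Y (Pi.single i 1) = Y v := by
      conv_rhs => rw [hv, map_sum]
      exact Finset.sum_congr rfl fun i _ => by rw [map_smul]
    have h4 : ∑ i, (Y v) i • (Pi.single i (1 : ℝ) : Fin n → ℝ) = Y v := by
      ext j
      simp [Finset.sum_apply, Pi.single_apply]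
    rw [h3, h4]
    module
  rw [h1]
  exact Submodule.sum_mem _ fun i _ => Submodule.smul_mem _ _ (Submodule.subset_span ⟨_, _, rfl⟩)

/-- The space of endomorphisms. -/
noncomputable def lE (l : Submodule ℝ (Matrix (Fin n) (Fin n) ℝ)) :
    Submodule ℝ (Module.End ℝ (Fin n → ℝ)) :=
  l.map (Matrix.toLin' : Matrix (Fin n) (Fin n) ℝ ≃ₗ[ℝ] _).toLinearMap

theorem mem_lE {Y : Module.End ℝ (Fin n → ℝ)} : Y ∈ lE l ↔ ∃ a ∈ l, Matrix.toLin' a = Y := by
  rw [lE, Submodule.mem_map]
  rfl

theorem toLin'_mem_lE {a : Matrix (Fin n) (Fin n) ℝ} : Matrix.toLin' a ∈ lE l ↔ a ∈ l := by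
  rw [mem_lE]
  constructor
  · rintro ⟨b, hb, h⟩
    rwa [← Matrix.toLin'.injective h]
  · intro h
    exact ⟨a, h, rfl⟩

/-- complex vectors as pairs of real ones -/
def mk2 (v : Fin n → ℂ) : (Fin n → ℝ) × (Fin n → ℝ) := (fun i => (v i).re, fun i => (v i).im)

theorem re_mulVec (a : Matrix (Fin n) (Fin n) ℝ) (v : Fin n → ℂ) (i : Fin n) :
    ((a.map Complex.ofReal *ᵥ v) i).re = (a *ᵥ (fun i => (v i).re)) i := by
  simp only [Matrix.mulVec, dotProduct, Complex.re_sum, Matrix.map_apply]
  exact Finset.sum_congr rfl fun j _ => by simp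

theorem im_mulVec (a : Matrix (Fin n) (Fin n) ℝ) (v : Fin n → ℂ) (i : Fin n) :
    ((a.map Complex.ofReal *ᵥ v) i).im = (a *ᵥ (fun i => (v i).im)) i := by
  simp only [Matrix.mulVec, dotProduct, Complex.im_sum, Matrix.map_apply]
  exact Finset.sum_congr rfl fun j _ => by simp

theorem ctx (L : LHyp n q l) : Ctx (Bq q) (lE l) := by
  have hq : ∀ i, q i ≠ 0 := by
    intro i
    rcases lt_or_ge (i : ℕ) 2 with h | h
    · exact (L.qpos i h).ne'
    · exact (L.qneg i h).ne
  have h6 := L.n6
  refine ⟨Bq_symm, ?_, ?_, ?_, ?_, ?_, ?_, ?_, ?_⟩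
  · -- signature
    intro v hv
    let i0 : Fin n := ⟨0, by omega⟩
    let i1 : Fin n := ⟨1, by omega⟩
    let φ : (Fin 3 → ℝ) →ₗ[ℝ] (Fin 2 → ℝ) :=
      LinearMap.pi ![∑ j, v j i0 • LinearMap.proj j, ∑ j, v j i1 • LinearMap.proj j]
    have hk : LinearMap.ker φ ≠ ⊥ := by
      apply LinearMap.ker_ne_bot_of_finrank_lt
      rw [Module.finrank_fin_fun, Module.finrank_fin_fun]
      norm_num
    obtain ⟨c, hc, hc0⟩ := Submodule.exists_mem_ne_zero_of_ne_bot hk
    rw [LinearMap.mem_ker] at hc
    have h0 := congrFun hc 0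
    have h1 := congrFun hc 1
    refine ⟨c, ?_⟩
    have w0 : (∑ j, c j • v j) i0 = 0 := by
      have h2 : φ c 0 = ∑ j, v j i0 * c j := by simp [φ, LinearMap.sum_apply]
      rw [h2] at h0
      rw [Finset.sum_apply]
      simpa [mul_comm] using h0
    have w1 : (∑ j, c j • v j) i1 = 0 := by
      have h2 : φ c 1 = ∑ j, v j i1 * c j := by simp [φ, LinearMap.sum_apply]
      rw [h2] at h1
      rw [Finset.sum_apply]
      simpa [mul_comm] using h1
    have wne : (∑ j, c j • v j) ≠ 0 := by
      intro h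
      rw [Fintype.linearIndependent_iff] at hv
      exact hc0 (funext (hv c h))
    obtain ⟨i, hi⟩ : ∃ i, (∑ j, c j • v j) i ≠ 0 := by
      by_contra hcon
      push Not at hcon
      exact wne (funext hcon)
    generalize (∑ j, c j • v j) = w at *
    rw [Bq_apply]
    have hle : ∀ j ∈ (Finset.univ : Finset (Fin n)), q j * w j * w j ≤ 0 := by
      intro j _
      rcases lt_or_ge (j : ℕ) 2 with h | h
      · have : w j = 0 := by
          have h' : (j : ℕ) = 0 ∨ (j : ℕ) = 1 := by omega
          rcases h' with h' | h'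
          · have : j = i0 := Fin.ext h'
            rw [this]; exact w0
          · have : j = i1 := Fin.ext h'
            rw [this]; exact w1
        rw [this]; simp
      · have := L.qneg j h
        rw [mul_assoc]
        exact mul_nonpos_of_nonpos_of_nonneg this.le (mul_self_nonneg _)
    refine lt_of_le_of_ne (Finset.sum_nonpos hle) ?_
    intro h
    have := (Finset.sum_eq_zero_iff_of_nonpos hle).1 h i (Finset.mem_univ i)
    rcases mul_eq_zero.1 this with h | h
    · rcases mul_eq_zero.1 h with h | h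
      · exact hq i h
      · exact hi h
    · exact hi h
  · -- nondegenerate
    intro x hx
    ext i
    have := hx (Pi.single i 1)
    rw [Bq_symm, Bq_single_left] at this
    exact (mul_eq_zero.1 this).resolve_left (hq i)
  · rw [Module.finrank_fin_fun]; exact Or.inr h6
  · -- skew
    intro Y hY x y
    obtain ⟨a, ha, rfl⟩ := mem_lE.1 hY
    exact Bq_skew (L.skew a ha) x y
  · -- brackets
    intro X hX Y hY
    obtain ⟨a, ha, rfl⟩ := mem_lE.1 hX
    obtain ⟨b, hb, rfl⟩ := mem_lE.1 hY
    have : Matrix.toLin' a * Matrix.toLin' b - Matrix.toLin' b * Matrix.toLin' a =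
        Matrix.toLin' (a * b - b * a) := by
      rw [map_sub, Matrix.toLin'_mul, Matrix.toLin'_mul]; rfl
    rw [this]
    exact toLin'_mem_lE.2 (L.brk a ha b hb)
  · -- irreducible
    intro W hJ hW
    let WC : Submodule ℂ (Fin n → ℂ) :=
      { carrier := {v | mk2 v ∈ W}
        zero_mem' := by
          show mk2 0 ∈ W
          have : mk2 (0 : Fin n → ℂ) = 0 := by ext <;> simp [mk2]
          rw [this]; exact W.zero_mem
        add_mem' := by
          intro v w hv hw
          show mk2 (v + w) ∈ W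
          have : mk2 (v + w) = mk2 v + mk2 w := by ext <;> simp [mk2]
          rw [this]; exact W.add_mem hv hw
        smul_mem' := by
          intro c v hv
          show mk2 (c • v) ∈ W
          have : mk2 (c • v) = c.re • mk2 v + c.im • (-(mk2 v).2, (mk2 v).1) := by
            ext i
            · simp [mk2]; ring
            · simp [mk2]
          rw [this]; exact W.add_mem (W.smul_mem _ hv) (W.smul_mem _ (hJ _ hv)) }
    have hWC : ∀ v, v ∈ WC ↔ mk2 v ∈ W := fun v => Iff.rfl
    rcases L.irr WC (by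
      intro a ha v hv
      rw [hWC] at hv ⊢
      have := hW _ (toLin'_mem_lE.2 ha) _ hv
      convert this using 1
      ext i
      · exact re_mulVec a v i
      · exact im_mulVec a v i) with h | h
    · left
      rw [eq_bot_iff]
      rintro ⟨x, y⟩ hxy
      have h1 : (fun i => (⟨x i, y i⟩ : ℂ)) ∈ WC := (hWC _).2 hxy
      rw [h, Submodule.mem_bot] at h1
      rw [Submodule.mem_bot]
      ext i
      · have := congrArg Complex.re (congrFun h1 i); simpa using this
      · have := congrArg Complex.im (congrFun h1 i); simpa using this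
    · right
      rw [eq_top_iff]
      rintro ⟨x, y⟩ -
      have h1 : (fun i => (⟨x i, y i⟩ : ℂ)) ∈ WC := by rw [h]; exact Submodule.mem_top
      exact (hWC _).1 h1
  · -- hyperbolic closure
    intro Y hY
    obtain ⟨a, ha, rfl⟩ := mem_lE.1 hY
    obtain ⟨h, hh, hyp⟩ := L.hyp a ha
    refine ⟨Matrix.toLin' h, toLin'_mem_lE.2 hh, ?_, ?_⟩
    · set S : Submodule ℝ (Fin n → ℝ) := ⨆ μ : ℝ, Module.End.eigenspace (Matrix.toLin' h) μ with hS
      have key : ∀ v : Fin n → ℂ, (fun i => (v i).re) ∈ S ∧ (fun i => (v i).im) ∈ S := by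
        intro v
        have hv : v ∈ ⨆ β : ℂ, Module.End.maxGenEigenspace
            (Matrix.toLin' (a.map Complex.ofReal)) β := by
          rw [Module.End.iSup_maxGenEigenspace_eq_top]; exact Submodule.mem_top
        refine Submodule.iSup_induction _ (motive := fun v => (fun i => (v i).re) ∈ S ∧
          (fun i => (v i).im) ∈ S) hv ?_ ?_ ?_
        · intro β v hv
          rw [Module.End.mem_maxGenEigenspace] at hv
          obtain ⟨k, hk⟩ := hv
          have h1 : (a.map Complex.ofReal - β • (1 : Matrix (Fin n) (Fin n) ℂ)) ^ k *ᵥ v = 0 := by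
            have : Matrix.toLin' ((a.map Complex.ofReal - β • (1 : Matrix (Fin n) (Fin n) ℂ)) ^ k) =
                (Matrix.toLin' (a.map Complex.ofReal) - β • 1) ^ k := by
              rw [Matrix.toLin'_pow, map_sub, map_smul, Matrix.toLin'_one]; rfl
            rw [← Matrix.toLin'_apply, this]
            exact hk
          have h2 := hyp β v ⟨k, h1⟩
          constructor
          · refine Submodule.mem_iSup_of_mem β.re ?_
            rw [Module.End.mem_eigenspace_iff, Matrix.toLin'_apply]
            ext i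
            rw [← re_mulVec, h2]
            simp
          · refine Submodule.mem_iSup_of_mem β.re ?_
            rw [Module.End.mem_eigenspace_iff, Matrix.toLin'_apply]
            ext i
            rw [← im_mulVec, h2]
            simp
        · simp only [Pi.zero_apply, Complex.zero_re, Complex.zero_im]
          exact ⟨S.zero_mem, S.zero_mem⟩
        · intro v w hv hw
          simp only [Pi.add_apply, Complex.add_re, Complex.add_im]
          exact ⟨S.add_mem hv.1 hw.1, S.add_mem hv.2 hw.2⟩
      rw [eq_top_iff]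
      rintro x -
      have := (key fun i => (x i : ℂ)).1
      simpa using this
    · intro c v hv
      have h1 := hyp (c : ℂ) (fun i => (v i : ℂ)) ⟨1, by
        rw [pow_one, Matrix.sub_mulVec, sub_eq_zero]
        rw [Matrix.toLin'_apply] at hv
        ext i
        have h2 := congrFun hv i
        have h3 : ((a.map Complex.ofReal *ᵥ fun i => (v i : ℂ)) i) = ((a *ᵥ v) i : ℂ) := by
          apply Complex.ext
          · rw [re_mulVec]; simp
          · rw [im_mulVec]
            simp only [Complex.ofReal_im]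
            have : (fun _ : Fin n => (0 : ℝ)) = 0 := rfl
            rw [this, Matrix.mulVec_zero]; simp
        rw [h3, h2, Matrix.smul_mulVec, Matrix.one_mulVec]
        simp⟩
      rw [Matrix.toLin'_apply]
      ext i
      have h4 := congrArg Complex.re (congrFun h1 i)
      rw [re_mulVec] at h4
      simpa using h4
  · -- span
    intro Y hY
    exact skew_of hY hq

theorem fin_all (L : LHyp n q l) (h : ∀ x y, wd (Bq q) x y ∈ lE l) :
    ∀ a, aᵀ * Matrix.diagonal q + Matrix.diagonal q * a = 0 → a ∈ l := by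
  intro a ha
  rw [← toLin'_mem_lE]
  have h1 := (ctx L).span (Matrix.toLin' a) (Bq_skew ha)
  refine Submodule.span_le.2 ?_ h1
  rintro Z ⟨x, y, rfl⟩
  exact h x y

end K7w

open K7w K7x

theorem K7i_proof : Stmt_K7i := by
  intro n q l L e f hee hff hef h hh hv
  refine fin_all L (claim1 (ctx L) (e := e) (f := f) hee hff hef ?_)
  have : wd (Bq q) e f = Matrix.toLin' h := by
    refine LinearMap.ext fun v => ?_
    rw [Matrix.toLin'_apply, hv v]
    rfl
  rw [this]
  exact toLin'_mem_lE.2 hh

theorem K7_proof : Stmt_K7 := by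
  rintro n q l L ⟨h, hh, h0, S, d, hS⟩
  refine fin_all L (main (ctx L) (h := Matrix.toLin' h) (toLin'_mem_lE.2 hh) ?_ ?_)
  · intro h1
    apply h0
    have : Matrix.toLin' h = Matrix.toLin' (0 : Matrix (Fin n) (Fin n) ℝ) := by rw [h1, map_zero]
    exact Matrix.toLin'.injective this
  · rw [eq_top_iff]
    rintro x -
    have h1 : x = ∑ j, ((S⁻¹).val *ᵥ x) j • (S.val *ᵥ Pi.single j (1 : ℝ)) := by
      have h2 : x = S.val *ᵥ ((S⁻¹).val *ᵥ x) := by
        rw [Matrix.mulVec_mulVec, Units.mul_inv, Matrix.one_mulVec]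
      conv_lhs => rw [h2]
      generalize (S⁻¹).val *ᵥ x = y
      have h3 : y = ∑ j, y j • (Pi.single j (1 : ℝ) : Fin n → ℝ) := by
        ext j
        simp [Finset.sum_apply, Pi.single_apply]
      conv_lhs => rw [h3]
      rw [Matrix.mulVec_sum]
      exact Finset.sum_congr rfl fun j _ => by rw [Matrix.mulVec_smul]
    rw [h1]
    refine Submodule.sum_mem _ fun j _ => Submodule.smul_mem _ _ ?_
    refine Submodule.mem_iSup_of_mem (d j) ?_
    rw [Module.End.mem_eigenspace_iff, Matrix.toLin'_apply, hS, Matrix.mulVec_mulVec, mul_assoc,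
      Units.inv_mul, mul_one, ← Matrix.mulVec_mulVec, ← Matrix.mulVec_smul]
    congr 1
    ext i
    rw [Matrix.mulVec_diagonal, Pi.smul_apply, smul_eq_mul]
    by_cases hij : i = j
    · subst hij; simp
    · simp [Pi.single_eq_of_ne hij]

end Pool.Agent.K3D
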