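import Pool.Agent.K3D.K8a

/-!
# K8b: the Lie algebra of `Γ` acts on `T` by the full orthogonal Lie algebra
-/

open scoped BigOperators Matrix Topology
open Matrix

namespace Pool.Agent.K3D

open Pool.Agent.DRB

noncomputable section

namespace K8Y

open K8X

/-! ## Exponentials and generalized eigenvectors -/

section expo

attribute [local instance] Matrix.linftyOpNormedAddCommGroup Matrix.linftyOpNormedRing
  Matrix.linftyOpNormedAlgebra

theorem exp_sub_one {n : ℕ} (b : Matrix (Fin n) (Fin n) ℂ) :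
    ∃ u : Matrix (Fin n) (Fin n) ℂ, Commute u b ∧ NormedSpace.exp b - 1 = u * b := by
  let P : Submodule ℂ (Matrix (Fin n) (Fin n) ℂ) :=
    Submodule.map (Rm b) (Subalgebra.toSubmodule (Algebra.adjoin ℂ {b}))
  have hclosed : IsClosed (P : Set (Matrix (Fin n) (Fin n) ℂ)) := P.closed_of_finiteDimensional
  have hs : HasSum (fun m : ℕ => ((m.factorial : ℂ)⁻¹) • b ^ m) (NormedSpace.exp b) :=
    NormedSpace.exp_series_hasSum_exp' (𝕂 := ℂ) b
  have hs' := (hasSum_nat_add_iff' 1).2 hs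
  have h0 : ∑ i ∈ Finset.range 1, ((i.factorial : ℂ)⁻¹) • b ^ i = 1 := by simp
  rw [h0] at hs'
  have hmem : NormedSpace.exp b - 1 ∈ P := by
    refine hclosed.mem_of_tendsto hs'.tendsto_sum_nat (Filter.Eventually.of_forall fun N => ?_)
    refine P.sum_mem fun i _ => P.smul_mem _ ?_
    refine ⟨b ^ i, ?_, ?_⟩
    · exact (Algebra.adjoin ℂ {b}).pow_mem (Algebra.subset_adjoin rfl) i
    · rw [Rm_apply, ← pow_succ]
  obtain ⟨u, hu, hub⟩ := hmem
  refine ⟨u, ?_, hub.symm⟩
  have : ∀ w ∈ Algebra.adjoin ℂ {b}, Commute w b := by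
    intro w hw
    induction hw using Algebra.adjoin_induction with
    | mem x hx => rw [Set.mem_singleton_iff.1 hx]
    | algebraMap r => exact Algebra.commutes r b
    | add x y _ _ hx hy => exact hx.add_left hy
    | mul x y _ _ hx hy => exact hx.mul_left hy
  exact this u hu

theorem exp_gen {n : ℕ} (a : Matrix (Fin n) (Fin n) ℂ) (β : ℂ) (k : ℕ) (v : Fin n → ℂ)
    (h : ((a - β • (1 : Matrix (Fin n) (Fin n) ℂ)) ^ k) *ᵥ v = 0) :
    ((NormedSpace.exp a - Complex.exp β • (1 : Matrix (Fin n) (Fin n) ℂ)) ^ k) *ᵥ v = 0 := by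
  set b := a - β • (1 : Matrix (Fin n) (Fin n) ℂ) with hb
  obtain ⟨u, hu, he⟩ := exp_sub_one b
  have h1 : a = β • (1 : Matrix (Fin n) (Fin n) ℂ) + b := by rw [hb]; abel
  have hcomm : Commute (β • (1 : Matrix (Fin n) (Fin n) ℂ)) b := (Commute.one_left b).smul_left β
  have h2 : NormedSpace.exp (β • (1 : Matrix (Fin n) (Fin n) ℂ)) = Complex.exp β • 1 := by
    have h3 : β • (1 : Matrix (Fin n) (Fin n) ℂ) = Matrix.diagonal fun _ => β := by
      rw [← Matrix.diagonal_one, ← Matrix.diagonal_smul]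
      congr 1
      funext i
      simp
    rw [h3, Matrix.exp_diagonal]
    ext i j
    rw [Matrix.smul_apply, Matrix.one_apply, Matrix.diagonal_apply]
    split_ifs with h
    · rw [Pi.coe_exp]
      simp [Complex.exp_eq_exp_ℂ]
    · simp
  have h4 : NormedSpace.exp a - Complex.exp β • (1 : Matrix (Fin n) (Fin n) ℂ) =
      (Complex.exp β • u) * b := by
    conv_lhs => rw [h1]
    rw [Matrix.exp_add_of_commute _ _ hcomm, h2, smul_mul_assoc, one_mul, smul_mul_assoc, ← he,
      smul_sub]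
  have h5 : Commute (Complex.exp β • u) b := hu.smul_left _
  rw [h4, h5.mul_pow, ← Matrix.mulVec_mulVec, h, Matrix.mulVec_zero]

end expo

/-! ## Diagonalization over the real numbers -/

theorem diag_real {n : ℕ} (x h : Matrix (Fin n) (Fin n) ℝ) (hh : IsHypLog x h) :
    ∃ (S : GL (Fin n) ℝ) (d : Fin n → ℝ), h = S.val * Matrix.diagonal d * (S⁻¹).val := by
  classical
  let E : Set (Fin n → ℝ) := {y | ∃ μ : ℝ, h *ᵥ y = μ • y}
  have h1 : ∀ v : Fin n → ℂ, (fun i => (v i).re) ∈ Submodule.span ℝ E := by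
    intro v
    have hv : v ∈ ⨆ β : ℂ, Module.End.maxGenEigenspace (Matrix.toLin' (x.map Complex.ofReal)) β := by
      rw [Module.End.iSup_maxGenEigenspace_eq_top]
      trivial
    induction hv using Submodule.iSup_induction' with
    | mem β w hw =>
      rw [Module.End.mem_maxGenEigenspace] at hw
      obtain ⟨k, hk⟩ := hw
      have h2 : ((x.map Complex.ofReal - β • (1 : Matrix (Fin n) (Fin n) ℂ)) ^ k) *ᵥ w = 0 := by
        have h3 : (Matrix.toLin' (x.map Complex.ofReal) - β • (1 : Module.End ℂ (Fin n → ℂ))) ^ k =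
            Matrix.toLin' ((x.map Complex.ofReal - β • (1 : Matrix (Fin n) (Fin n) ℂ)) ^ k) := by
          rw [Matrix.toLin'_pow, map_sub, map_smul, Matrix.toLin'_one]
          rfl
        rw [h3, Matrix.toLin'_apply] at hk
        exact hk
      have h4 := hh β w ⟨k, h2⟩
      refine Submodule.subset_span ⟨Real.log ‖β‖, ?_⟩
      funext i
      have h5 := congrArg Complex.re (congrFun h4 i)
      simp only [Matrix.mulVec, dotProduct, Matrix.map_apply, Pi.smul_apply, smul_eq_mul,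
        Complex.re_sum, Complex.re_ofReal_mul] at h5 ⊢
      exact h5
    | zero =>
      have : (fun i : Fin n => ((0 : Fin n → ℂ) i).re) = 0 := by funext i; simp
      rw [this]
      exact Submodule.zero_mem _
    | add w w' _ _ hw hw' =>
      have : (fun i : Fin n => ((w + w') i).re) = (fun i => (w i).re) + fun i => (w' i).re := by
        funext i; simp
      rw [this]
      exact Submodule.add_mem _ hw hw'
  have hspan : ⊤ ≤ Submodule.span ℝ E := by
    intro y _
    have h2 := h1 fun i => (y i : ℂ)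
    simpa using h2
  let b0 := Module.Basis.ofSpan hspan
  let e0 := b0.indexEquiv (Pi.basisFun ℝ (Fin n))
  let b := b0.reindex e0
  have hb : ∀ j, ∃ μ : ℝ, h *ᵥ (b j) = μ • (b j) := by
    intro j
    have h2 : b j ∈ E := by
      apply Module.Basis.ofSpan_subset hspan
      exact ⟨e0.symm j, by simp [b, b0]⟩
    exact h2
  choose d hd using hb
  let P := (Pi.basisFun ℝ (Fin n)).toMatrix b
  let Q := b.toMatrix (Pi.basisFun ℝ (Fin n))
  have hPQ : P * Q = 1 := Module.Basis.toMatrix_mul_toMatrix_flip _ _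
  have hQP : Q * P = 1 := Module.Basis.toMatrix_mul_toMatrix_flip _ _
  have hP : ∀ i j, P i j = b j i := fun i j => rfl
  refine ⟨⟨P, Q, hPQ, hQP⟩, d, ?_⟩
  show h = P * Matrix.diagonal d * Q
  have h3 : h * P = P * Matrix.diagonal d := by
    ext i j
    rw [Matrix.mul_diagonal, hP]
    have h4 := congrFun (hd j) i
    rw [Pi.smul_apply, smul_eq_mul] at h4
    rw [mul_comm, ← h4]
    rfl
  rw [← h3, mul_assoc, hPQ, mul_one]

/-! ## The Lie algebra -/

section lie

variable {g n : ℕ} {A : AbVar g} (K : KSat A n)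

theorem cl_add (v w : Fin n → ℂ) : K.cl (v + w) = K.cl v + K.cl w := (clL K).map_add v w

theorem cl_sub (v w : Fin n → ℂ) : K.cl (v - w) = K.cl v - K.cl w := (clL K).map_sub v w

theorem cl_smul (c : ℂ) (v : Fin n → ℂ) : K.cl (c • v) = c • K.cl v := (clL K).map_smul c v

theorem cl_zero : K.cl 0 = 0 := (clL K).map_zero

theorem lie_lin (hK2a : Stmt_K2a) {a b : Matrix (Fin n) (Fin n) ℝ} (c : ℝ) (ha : K.lie a)
    (hb : K.lie b) : K.lie (a + c • b) := by
  obtain ⟨X, ξ, hX, hXa⟩ := ha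
  obtain ⟨Y, η, hY, hYb⟩ := hb
  refine ⟨X + (c : ℂ) • Y, ξ + c * η, (hK2a (Idx g) (Gam A)).1 X Y ξ η c hX hY, fun v => ?_⟩
  have h1 : ((a + c • b).map Complex.ofReal) *ᵥ v =
      (a.map Complex.ofReal) *ᵥ v + (c : ℂ) • ((b.map Complex.ofReal) *ᵥ v) := by
    have h2 : (a + c • b).map Complex.ofReal =
        a.map Complex.ofReal + (c : ℂ) • b.map Complex.ofReal := by
      ext i j; simp
    rw [h2, Matrix.add_mulVec, Matrix.smul_mulVec]
  rw [h1, cl_add, cl_smul, ← hXa, ← hYb]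
  simp only [add_mul, mul_add, smul_mul_assoc, mul_smul_comm, smul_sub]
  abel

theorem lie_zero (hK2a : Stmt_K2a) : K.lie 0 := by
  refine ⟨0, 0, (hK2a (Idx g) (Gam A)).2.1, fun v => ?_⟩
  have h1 : ((0 : Matrix (Fin n) (Fin n) ℝ).map Complex.ofReal) *ᵥ v = 0 := by
    have : ((0 : Matrix (Fin n) (Fin n) ℝ).map Complex.ofReal) = 0 := by ext i j; simp
    rw [this, Matrix.zero_mulVec]
  rw [h1, cl_zero, zero_mul, mul_zero, sub_zero]

/-- The real Lie algebra as a subspace. -/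
def lieSub (hK2a : Stmt_K2a) : Submodule ℝ (Matrix (Fin n) (Fin n) ℝ) where
  carrier := {a | K.lie a}
  add_mem' := by
    intro a b ha hb
    have := lie_lin K hK2a 1 ha hb
    rwa [one_smul] at this
  zero_mem' := lie_zero K hK2a
  smul_mem' := by
    intro c a ha
    have := lie_lin K hK2a c (lie_zero K hK2a) ha
    rwa [zero_add] at this

theorem mem_lieSub (hK2a : Stmt_K2a) (a : Matrix (Fin n) (Fin n) ℝ) :
    a ∈ lieSub K hK2a ↔ K.lie a := Iff.rfl

theorem lie_brk (hK2a : Stmt_K2a) {a b : Matrix (Fin n) (Fin n) ℝ} (ha : K.lie a)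
    (hb : K.lie b) : K.lie (a * b - b * a) := by
  obtain ⟨X, ξ, hX, hXa⟩ := ha
  obtain ⟨Y, η, hY, hYb⟩ := hb
  refine ⟨X * Y - Y * X, 0, (hK2a (Idx g) (Gam A)).2.2.1 X Y ξ η hX hY, fun v => ?_⟩
  have h2 : (a * b - b * a).map Complex.ofReal =
      a.map Complex.ofReal * b.map Complex.ofReal - b.map Complex.ofReal * a.map Complex.ofReal := by
    have h3 : (a * b).map Complex.ofReal = a.map Complex.ofReal * b.map Complex.ofReal :=
      Matrix.map_mul (f := Complex.ofRealHom)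
    have h4 : (b * a).map Complex.ofReal = b.map Complex.ofReal * a.map Complex.ofReal :=
      Matrix.map_mul (f := Complex.ofRealHom)
    rw [← h3, ← h4]
    ext i j; simp
  rw [h2, Matrix.sub_mulVec, ← Matrix.mulVec_mulVec, ← Matrix.mulVec_mulVec, cl_sub, ← hXa, ← hYb,
    ← hYb, ← hXa]
  noncomm_ring

theorem lie_bil (hK5a : Stmt_K5a) {a : Matrix (Fin n) (Fin n) ℝ} (ha : K.lie a)
    (v w : Fin n → ℂ) :
    K.bil ((a.map Complex.ofReal) *ᵥ v) w + K.bil v ((a.map Complex.ofReal) *ᵥ w) = 0 := by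
  obtain ⟨X, ξ, hX, hXa⟩ := ha
  have hr := (hK5a g A n K).1
  have h1 := hr v w
  have h2 := hr ((a.map Complex.ofReal) *ᵥ v) w
  have h3 := hr v ((a.map Complex.ofReal) *ᵥ w)
  have h4 : X * (K.cl v * K.cl w + K.cl w * K.cl v) - (K.cl v * K.cl w + K.cl w * K.cl v) * X = 0 := by
    rw [h1]
    simp
  have h5 : X * (K.cl v * K.cl w + K.cl w * K.cl v) - (K.cl v * K.cl w + K.cl w * K.cl v) * X =
      (K.cl ((a.map Complex.ofReal) *ᵥ v) * K.cl w + K.cl w * K.cl ((a.map Complex.ofReal) *ᵥ v)) +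
      (K.cl v * K.cl ((a.map Complex.ofReal) *ᵥ w) +
        K.cl ((a.map Complex.ofReal) *ᵥ w) * K.cl v) := by
    rw [← hXa, ← hXa]
    noncomm_ring
  rw [h5, h2, h3, ← add_smul] at h4
  have hg : Nonempty (Idx g) := ⟨Sum.inl ⟨0, K.pos⟩⟩
  obtain ⟨i⟩ := hg
  have h6 := congrFun (congrFun h4 i) i
  rw [Matrix.smul_apply, Matrix.one_apply_eq, smul_eq_mul, mul_one, Matrix.zero_apply] at h6
  have h7 : (2 : ℂ) * (K.bil ((a.map Complex.ofReal) *ᵥ v) w +
      K.bil v ((a.map Complex.ofReal) *ᵥ w)) = 0 := by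
    rw [mul_add]; exact h6
  rcases mul_eq_zero.1 h7 with h | h
  · exact absurd h two_ne_zero
  · exact h

theorem lie_skew (hK5a : Stmt_K5a) {a : Matrix (Fin n) (Fin n) ℝ} (ha : K.lie a) :
    aᵀ * Matrix.diagonal (fun i => (K.q i : ℝ)) + Matrix.diagonal (fun i => (K.q i : ℝ)) * a = 0 := by
  ext i j
  have h1 := lie_bil K hK5a ha (Pi.single i 1) (Pi.single j 1)
  unfold KSat.bil at h1
  rw [Matrix.mulVec_single_one, Matrix.mulVec_single_one] at h1
  rw [Finset.sum_eq_single j, Finset.sum_eq_single i] at h1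
  · simp only [Pi.single_eq_same, mul_one, Matrix.col_apply, Matrix.map_apply] at h1
    rw [Matrix.add_apply, Matrix.mul_diagonal, Matrix.diagonal_mul, Matrix.transpose_apply,
      Matrix.zero_apply]
    have h2 : (((K.q j : ℝ) * a j i + (K.q i : ℝ) * a i j : ℝ) : ℂ) = 0 := by
      push_cast
      exact h1
    have h3 : (K.q j : ℝ) * a j i + (K.q i : ℝ) * a i j = 0 := by exact_mod_cast h2
    linarith
  · intro k _ hk
    rw [Pi.single_eq_of_ne hk]
    ring
  · intro h; exact absurd (Finset.mem_univ _) h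
  · intro k _ hk
    rw [Pi.single_eq_of_ne hk]
    ring
  · intro h; exact absurd (Finset.mem_univ _) h

/-- Complex conjugation. -/
def cc0 : ℂ ≃ₐ[ℚ] ℂ := Complex.conjAe.restrictScalars ℚ

theorem cc0_apply (z : ℂ) : cc0 z = (starRingEnd ℂ) z := rfl

theorem cl_conj (v : Fin n → ℂ) : (K.cl v).map cc0 = K.cl fun i => (starRingEnd ℂ) (v i) := by
  ext r s
  simp only [KSat.cl, Matrix.map_apply, Matrix.sum_apply, Matrix.smul_apply, smul_eq_mul, map_sum,
    map_mul, cc0_apply]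
  refine Finset.sum_congr rfl fun j _ => ?_
  congr 1
  simp [AbVar.toC]

theorem lie_irr (hK2a : Stmt_K2a) (hK2b : Stmt_K2b) (hG4 : Stmt_Gb4) (hK2d : Stmt_K2d)
    (hK5d : Stmt_K5d) (hn : 3 ≤ n) (W : Submodule ℂ (Fin n → ℂ))
    (hW : ∀ a, K.lie a → ∀ v ∈ W, (a.map Complex.ofReal) *ᵥ v ∈ W) : W = ⊥ ∨ W = ⊤ := by
  refine hK5d g A n K hn W fun X ξ hX v hv => ?_
  obtain ⟨b, hb⟩ := exists_mat K X ((hK2d g A n K).2 X ξ hX)
  have hXc : InLie (Gam A) (X.map cc0) (cc0 ξ) :=
    hK2b (Idx g) (Gam A) (fun σ p hp q h1 h2 => hG4 g A σ p hp q h1 h2) cc0 X ξ hX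
  have hbc : ∀ w, X.map cc0 * K.cl w - K.cl w * X.map cc0 = K.cl (cj b *ᵥ w) := by
    intro w
    have h1 := hb fun i => (starRingEnd ℂ) (w i)
    have h2 : (X * (K.cl fun i => (starRingEnd ℂ) (w i)) -
        (K.cl fun i => (starRingEnd ℂ) (w i)) * X).map cc0 =
        (K.cl (b *ᵥ fun i => (starRingEnd ℂ) (w i))).map cc0 :=
      congrArg (fun Z : Matrix (Idx g) (Idx g) ℂ => Z.map cc0) h1
    have h3 : ∀ Z Z' : Matrix (Idx g) (Idx g) ℂ, (Z * Z').map cc0 = Z.map cc0 * Z'.map cc0 :=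
      fun Z Z' => Matrix.map_mul (f := (cc0 : ℂ →+* ℂ))
    have h4 : (X * (K.cl fun i => (starRingEnd ℂ) (w i)) -
        (K.cl fun i => (starRingEnd ℂ) (w i)) * X).map cc0 =
        X.map cc0 * (K.cl fun i => (starRingEnd ℂ) (w i)).map cc0 -
        (K.cl fun i => (starRingEnd ℂ) (w i)).map cc0 * X.map cc0 := by
      rw [← h3, ← h3]
      ext i j
      rw [Matrix.map_apply, Matrix.sub_apply, map_sub, Matrix.sub_apply, Matrix.map_apply,
        Matrix.map_apply]
    rw [h4, cl_conj, cl_conj, ← cj_mulVec] at h2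
    simpa using h2
  -- real and imaginary parts
  have hre : K.lie (b.map Complex.re) := by
    refine ⟨0 + (1 / 2 : ℂ) • (X + (1 : ℂ) • X.map cc0), 0 + (1 / 2) * (ξ + 1 * cc0 ξ),
      (hK2a (Idx g) (Gam A)).1 _ _ _ _ _ (hK2a (Idx g) (Gam A)).2.1
        ((hK2a (Idx g) (Gam A)).1 _ _ _ _ _ hX hXc), fun w => ?_⟩
    have h1 : (b.map Complex.re).map Complex.ofReal = (1 / 2 : ℂ) • (b + cj b) := by
      ext i j
      simp only [Matrix.map_apply, Matrix.smul_apply, Matrix.add_apply, cj_apply, smul_eq_mul]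
      rw [Complex.re_eq_add_conj]
      ring
    rw [h1, Matrix.smul_mulVec, Matrix.add_mulVec, cl_smul, cl_add, ← hb, ← hbc]
    simp only [zero_add, one_smul, add_mul, mul_add, smul_mul_assoc, mul_smul_comm, smul_sub,
      smul_add]
    abel
  have him : K.lie (b.map Complex.im) := by
    refine ⟨0 + (1 / (2 * Complex.I) : ℂ) • (X + (-1 : ℂ) • X.map cc0),
      0 + (1 / (2 * Complex.I)) * (ξ + (-1) * cc0 ξ),
      (hK2a (Idx g) (Gam A)).1 _ _ _ _ _ (hK2a (Idx g) (Gam A)).2.1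
        ((hK2a (Idx g) (Gam A)).1 _ _ _ _ _ hX hXc), fun w => ?_⟩
    have h1 : (b.map Complex.im).map Complex.ofReal = (1 / (2 * Complex.I) : ℂ) • (b - cj b) := by
      ext i j
      simp only [Matrix.map_apply, Matrix.smul_apply, Matrix.sub_apply, cj_apply, smul_eq_mul]
      rw [Complex.im_eq_sub_conj]
      ring
    rw [h1, Matrix.smul_mulVec, Matrix.sub_mulVec, cl_smul, cl_sub, ← hb, ← hbc]
    simp only [zero_add, add_mul, mul_add, smul_mul_assoc, mul_smul_comm, smul_sub,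
      smul_add, neg_smul, one_smul, neg_mul, mul_neg, smul_neg]
    abel
  refine ⟨b *ᵥ v, ?_, hb v⟩
  have h1 : b = (b.map Complex.re).map Complex.ofReal +
      Complex.I • (b.map Complex.im).map Complex.ofReal := by
    ext i j
    simp only [Matrix.add_apply, Matrix.smul_apply, Matrix.map_apply, smul_eq_mul]
    rw [mul_comm]
    exact (Complex.re_add_im _).symm
  rw [h1, Matrix.add_mulVec, Matrix.smul_mulVec]
  exact W.add_mem (hW _ hre v hv) (W.smul_mem _ (hW _ him v hv))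

theorem lie_hyp (hK8a : Stmt_K8a) {a : Matrix (Fin n) (Fin n) ℝ} (ha : K.lie a) :
    ∃ h, K.lie h ∧ IsHypPart a h := by
  obtain ⟨h, hh, hlog⟩ := hK8a g A n K [a] (by
    intro b hb
    rw [List.mem_singleton.1 hb]
    exact ha)
  rw [List.map_cons, List.map_nil, List.prod_cons, List.prod_nil, mul_one] at hlog
  refine ⟨h, hh, ?_⟩
  rintro β v ⟨k, hk⟩
  have h1 := exp_gen (a.map Complex.ofReal) β k v hk
  rw [← exp_ofReal] at h1
  have h2 := hlog (Complex.exp β) v ⟨k, h1⟩
  rw [Complex.norm_exp, Real.log_exp] at h2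
  exact h2

end lie

end K8Y

open K8Y in
/-- K8B. -/
theorem K8b_proof (hK2a : Stmt_K2a) (hK2b : Stmt_K2b) (hG4 : Stmt_Gb4) (hK2d : Stmt_K2d)
    (hK5a : Stmt_K5a) (hK5d : Stmt_K5d) (hK6 : Stmt_K6) (hK7 : Stmt_K7) (hK8a : Stmt_K8a) :
    Stmt_K8b := by
  intro g A n K hn a ha
  set qR : Fin n → ℝ := fun i => (K.q i : ℝ) with hqR
  let l := lieSub K hK2a
  have hskew : ∀ a ∈ l, aᵀ * Matrix.diagonal qR + Matrix.diagonal qR * a = 0 :=
    fun a ha => lie_skew K hK5a ha
  have hirr : ∀ W : Submodule ℂ (Fin n → ℂ),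
      (∀ a ∈ l, ∀ v ∈ W, (a.map Complex.ofReal) *ᵥ v ∈ W) → W = ⊥ ∨ W = ⊤ :=
    fun W hW => lie_irr K hK2a hK2b hG4 hK2d hK5d (by omega) W hW
  have hbrk : ∀ a ∈ l, ∀ b ∈ l, a * b - b * a ∈ l := fun a ha b hb => lie_brk K hK2a ha hb
  have hhyp : ∀ a ∈ l, ∃ h ∈ l, IsHypPart a h := by
    intro a ha
    obtain ⟨h, h1, h2⟩ := lie_hyp K hK8a ha
    exact ⟨h, h1, h2⟩
  have hq0 : ∀ i, qR i ≠ 0 := by
    intro i
    have := K.q_ne i
    simp only [hqR]
    exact_mod_cast this
  let i0 : Fin n := ⟨0, by omega⟩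
  let i2 : Fin n := ⟨2, by omega⟩
  have hcast : ∀ i, (0 < qR i ↔ 0 < K.q i) ∧ (qR i < 0 ↔ K.q i < 0) := by
    intro i
    simp only [hqR]
    constructor
    · exact_mod_cast Iff.rfl
    · exact_mod_cast Iff.rfl
  have hpn : (∃ i, 0 < qR i) ∧ ∃ i, qR i < 0 := by
    rcases K.sig with hs | hs
    · refine ⟨⟨i0, ?_⟩, ⟨i2, ?_⟩⟩
      · rw [(hcast i0).1, hs]; simp [i0]
      · have h1 : ¬ 0 < K.q i2 := by rw [hs]; simp [i2]
        rw [(hcast i2).2]
        exact lt_of_le_of_ne (not_lt.1 h1) (K.q_ne i2)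
    · refine ⟨⟨i2, ?_⟩, ⟨i0, ?_⟩⟩
      · have h1 : ¬ K.q i2 < 0 := by rw [hs]; simp [i2]
        rw [(hcast i2).1]
        exact lt_of_le_of_ne (not_lt.1 h1) (K.q_ne i2).symm
      · rw [(hcast i0).2, hs]; simp [i0]
  obtain ⟨as, has, β, v, hv, hβ, hg⟩ := hK6 n qR l hq0 hpn.1 hpn.2 hskew hirr
  obtain ⟨h, hh, hlog⟩ := hK8a g A n K as (fun a ha => has a ha)
  -- β is not zero
  have hβ0 : β ≠ 0 := by
    rintro rfl
    rw [zero_smul] at hg
    have hunit : ∀ as : List (Matrix (Fin n) (Fin n) ℝ),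
        IsUnit (as.map fun a => NormedSpace.exp a).prod := by
      intro as
      induction as with
      | nil => simp
      | cons a as ih =>
        rw [List.map_cons, List.prod_cons]
        exact (Matrix.isUnit_exp a).mul ih
    have hu : IsUnit ((as.map fun a => NormedSpace.exp a).prod.map Complex.ofReal) := by
      have := (hunit as).map (Complex.ofRealHom.mapMatrix :
        Matrix (Fin n) (Fin n) ℝ →+* Matrix (Fin n) (Fin n) ℂ)
      exact this
    obtain ⟨y, hy⟩ := hu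
    apply hv
    have h1 : (y⁻¹ : (Matrix (Fin n) (Fin n) ℂ)ˣ).val *ᵥ (y.val *ᵥ v) = v := by
      rw [Matrix.mulVec_mulVec, ← Units.val_mul]
      simp
    rw [hy, hg, Matrix.mulVec_zero] at h1
    exact h1.symm
  have hlogne : Real.log ‖β‖ ≠ 0 := by
    intro h0
    have h1 : 0 < ‖β‖ := norm_pos_iff.2 hβ0
    rcases Real.log_eq_zero.1 h0 with h2 | h2 | h2
    · linarith
    · exact hβ h2
    · linarith
  have hne : h ≠ 0 := by
    rintro rfl
    have h1 := hlog β v ⟨1, by
      rw [pow_one, Matrix.sub_mulVec, Matrix.smul_mulVec, Matrix.one_mulVec, hg, sub_self]⟩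
    have h2 : ((0 : Matrix (Fin n) (Fin n) ℝ).map Complex.ofReal) *ᵥ v = 0 := by
      have : ((0 : Matrix (Fin n) (Fin n) ℝ).map Complex.ofReal) = 0 := by ext i j; simp
      rw [this, Matrix.zero_mulVec]
    rw [h2] at h1
    have h3 := smul_eq_zero.1 h1.symm
    rcases h3 with h3 | h3
    · exact hlogne (by exact_mod_cast h3)
    · exact hv h3
  have hdiag := diag_real _ _ hlog
  have hex : ∃ h ∈ l, h ≠ 0 ∧ ∃ (S : GL (Fin n) ℝ) (d : Fin n → ℝ),
      h = S.val * Matrix.diagonal d * (S⁻¹).val := ⟨h, hh, hne, hdiag⟩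
  rcases K.sig with hs | hs
  · have hL : LHyp n qR l :=
      { n6 := hn
        qpos := fun i hi => by rw [(hcast i).1, hs]; exact hi
        qneg := fun i hi => by
          have h1 : ¬ 0 < K.q i := by rw [hs]; omega
          rw [(hcast i).2]
          exact lt_of_le_of_ne (not_lt.1 h1) (K.q_ne i)
        skew := hskew
        brk := hbrk
        irr := hirr
        hyp := hhyp }
    exact hK7 n qR l hL hex a ha
  · have hneg : ∀ a : Matrix (Fin n) (Fin n) ℝ,
        aᵀ * Matrix.diagonal qR + Matrix.diagonal qR * a = 0 →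
        aᵀ * Matrix.diagonal (fun i => - qR i) + Matrix.diagonal (fun i => - qR i) * a = 0 := by
      intro a ha
      have h1 : Matrix.diagonal (fun i => - qR i) = - Matrix.diagonal qR := by
        rw [← Matrix.diagonal_neg]
      rw [h1, Matrix.mul_neg, Matrix.neg_mul, ← neg_add, ha, neg_zero]
    have hL : LHyp n (fun i => - qR i) l :=
      { n6 := hn
        qpos := fun i hi => by
          have h1 : qR i < 0 := by rw [(hcast i).2, hs]; exact hi
          linarith
        qneg := fun i hi => by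
          have h1 : ¬ K.q i < 0 := by rw [hs]; omega
          have h2 : 0 < qR i := by
            rw [(hcast i).1]
            exact lt_of_le_of_ne (not_lt.1 h1) (K.q_ne i).symm
          linarith
        skew := fun a ha => hneg a (hskew a ha)
        brk := hbrk
        irr := hirr
        hyp := hhyp }
    exact hK7 n _ l hL hex a (hneg a ha)

end

end Pool.Agent.K3D
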