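import Pool.Agent.DRB.Assembly3
import Pool.Agent.K3D.K10
import Pool.Agent.K3D.K1
import Pool.Agent.K3D.K2
import Pool.Agent.K3D.K2c
import Pool.Agent.K3D.K3
import Pool.Agent.K3D.K4
import Pool.Agent.K3D.K5a
import Pool.Agent.K3D.K5b
import Pool.Agent.K3D.K5c
import Pool.Agent.K3D.K5d
import Pool.Agent.K3D.K6
import Pool.Agent.K3D.K7
import Pool.Agent.K3D.K8a
import Pool.Agent.K3D.K8b
import Pool.Agent.K3D.K9

/-!
# De Rham-Betti conjecture for Kuga-Satake varieties: assembly
-/

namespace Pool.Agent.K3D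

open Pool.Agent.DRB

theorem k2aC : Stmt_K2a := k2a_proof adj_proof

theorem k2cC : Stmt_K2c := k2c_proof k2aC gb2_proof (rev_proof leg_proof)

theorem k2dC : Stmt_K2d := k2d_proof k2aC gb1C gb2_proof (rev_proof leg_proof) leg_proof

theorem k1C : Stmt_K1 := K1_proof adj_proof

theorem k4C : Stmt_K4 :=
  k4_proof k1C k2aC k2b_proof homx_proof (ldp_proof aut2_proof descaC) descqC finC gb4_proof

theorem tauC : Stmt_TAU := tau_proof aut2_proof lind_proof

theorem piC : Stmt_PI := pi_proof leg_proof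

theorem k5bC : Stmt_K5b := K5b_proof K5a_proof k2dC descqC (gb3_proof descaC) t1eC finC

theorem k5cC : Stmt_K5c := K5c_proof k2dC k4C K5a_proof

theorem k5dC : Stmt_K5d := K5d_proof gb4_proof k2aC k2b_proof k2cC k2dC k4C K5a_proof k5bC k5cC

theorem k8bC : Stmt_K8b :=
  K8b_proof k2aC k2b_proof gb4_proof k2dC K5a_proof k5dC K6_proof K7_proof
    (K8a_proof k1C k2dC k3_proof K5a_proof)

/-- The main theorem without real multiplication. -/
theorem mainK3 : MainK3 :=
  k9_proof k1C homx_proof tauC piC leg_proof gb2_proof k2aC k2cC k2dC K5a_proof k8bC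

end Pool.Agent.K3D
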