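import Pool.Agent.DRB.Stmts3
import Pool.Agent.DRB.Defs5

/-!
# De Rham-Betti conjecture: Kuga-Satake abelian varieties and K3 surfaces, definitions

`KSat A n`: the abelian variety `A` is of Kuga-Satake type for a quadratic space `T` of dimension `n` and
signature `(2, n - 2)` (up to sign) over the rational numbers: the Clifford algebra of `T` acts on `H_1(A, ℚ)`,
its even part is the commutant of `End(A) ⊗ ℚ`, and `T`, acting on `H_1(A)`, is a de Rham-Betti subobject and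
a sub-Hodge structure of `End(H_1(A))`.
-/

open scoped BigOperators
open Matrix

namespace Pool.Agent.K3D

open Pool.Agent.DRB

noncomputable section

/-- A Kuga-Satake structure on the abelian variety `A`. -/
structure KSat {g : ℕ} (A : AbVar g) (n : ℕ) where
  pos : 0 < g
  /-- an orthogonal basis of `T`, acting on `H_1(A, ℚ)` -/
  t : Fin n → Matrix (Idx g) (Idx g) ℚ
  /-- the values of the quadratic form of `T` on the basis -/
  q : Fin n → ℚ
  sq : ∀ i, t i * t i = q i • (1 : Matrix (Idx g) (Idx g) ℚ)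
  anti : ∀ i j, i ≠ j → t i * t j = -(t j * t i)
  q_ne : ∀ i, q i ≠ 0
  /-- the signature is `(2, n - 2)` or `(n - 2, 2)` -/
  sig : (∀ i, 0 < q i ↔ (i : ℕ) < 2) ∨ (∀ i, q i < 0 ↔ (i : ℕ) < 2)
  /-- the commutant of `End(A) ⊗ ℚ` is the even Clifford algebra -/
  comm : ∀ X : Matrix (Idx g) (Idx g) ℚ, (∀ α, A.IsEnd α → X * α = α * X) ↔
    X ∈ Algebra.adjoin ℚ (Set.range fun p : Fin n × Fin n => t p.1 * t p.2)
  /-- `T` is a de Rham-Betti subobject of `End(H_1(A))` -/
  drb : ∀ i, A.per * AbVar.toC (t i) * A.per⁻¹ ∈ Submodule.span ℂ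
    {Y : Matrix (Idx g) (Idx g) ℂ | (∀ r s, IsAlgebraic ℚ (Y r s)) ∧
      A.per⁻¹ * Y * A.per ∈ Submodule.span ℂ (Set.range fun j => AbVar.toC (t j))}
  /-- `T` is a sub-Hodge structure of `End(H_1(A))` -/
  hdg : ∀ (z : ℂˣ) (x : GL (Idx g) ℂ), A.IsMu z x → ∀ i,
    x.val * AbVar.toC (t i) * (x⁻¹).val ∈ Submodule.span ℂ (Set.range fun j => AbVar.toC (t j))

namespace KSat

variable {g n : ℕ} {A : AbVar g} (K : KSat A n)

/-- The complexification of `T`. -/
def TC : Submodule ℂ (Matrix (Idx g) (Idx g) ℂ) :=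
  Submodule.span ℂ (Set.range fun j => AbVar.toC (K.t j))

/-- The Clifford map. -/
def cl (v : Fin n → ℂ) : Matrix (Idx g) (Idx g) ℂ := ∑ j, v j • AbVar.toC (K.t j)

/-- The bilinear form of `T`. -/
def bil (v w : Fin n → ℂ) : ℂ := ∑ j, (K.q j : ℂ) * v j * w j

end KSat

/-- The subspace `D` of a tensor space is stable under the group `Γ`. -/
def StabG {ι : Type} [Fintype ι] [DecidableEq ι] (Γ : Subgroup (GL ι ℂ × ℂˣ)) (t : TData)
    (D : Submodule ℂ (TIdx t ι → ℂ)) : Prop :=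
  ∀ p ∈ Γ, D.map (TAct t p.1.val p.2.val) ≤ D

/-- `(X, ξ)` belongs to the Lie algebra of the Zariski closure of `Γ`: it preserves all stable subspaces of
all tensor spaces. -/
def InLie {ι : Type} [Fintype ι] [DecidableEq ι] (Γ : Subgroup (GL ι ℂ × ℂˣ)) (X : Matrix ι ι ℂ)
    (ξ : ℂ) : Prop :=
  ∀ (t : TData) (D : Submodule ℂ (TIdx t ι → ℂ)), StabG Γ t D → D.map (DAct t X ξ) ≤ D

/-- `(x, ν)` belongs to the (Zariski closure of the) group `Γ`. -/
def InG {ι : Type} [Fintype ι] [DecidableEq ι] (Γ : Subgroup (GL ι ℂ × ℂˣ)) (x : Matrix ι ι ℂ)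
    (ν : ℂ) : Prop :=
  ∀ (t : TData) (D : Submodule ℂ (TIdx t ι → ℂ)), StabG Γ t D → D.map (TAct t x ν) ≤ D

/-- The de Rham-Betti conjecture for Kuga-Satake varieties: de Rham-Betti subobjects of tensor spaces are
sub-Hodge structures. -/
def MainK3 : Prop :=
  ∀ (g : ℕ) (A : AbVar g) (n : ℕ), 6 ≤ n → Nonempty (KSat A n) →
    ∀ (t : TData) (D : Submodule ℂ (TIdx t (Idx g) → ℂ)), IsDRB A t D → IsHodge A t D

end

end Pool.Agent.K3D
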