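import Pool.Agent.K3D.Stmts
import Mathlib.RingTheory.SimpleModule.IsAlgClosed

/-!
# K6, first part: Burnside's theorem
-/

open scoped BigOperators Matrix
open Matrix

namespace Pool.Agent.K3D.K6X

noncomputable section

/-- Burnside's theorem for algebras of endomorphisms. -/
theorem burnside_end {M : Type} [AddCommGroup M] [Module ℂ M] [FiniteDimensional ℂ M] [Nontrivial M]
    (S : Subalgebra ℂ (Module.End ℂ M))
    (hirr : ∀ W : Submodule ℂ M, (∀ g ∈ S, ∀ w ∈ W, g w ∈ W) → W = ⊥ ∨ W = ⊤) : S = ⊤ := by
  classical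
  have hsimple : IsSimpleModule S M := by
    rw [isSimpleModule_iff]
    refine { eq_bot_or_eq_top := fun N => ?_ }
    let W : Submodule ℂ M :=
      { carrier := N
        add_mem' := fun ha hb => N.add_mem ha hb
        zero_mem' := N.zero_mem
        smul_mem' := by
          intro c x hx
          have h1 : (algebraMap ℂ (Module.End ℂ M) c) ∈ S := S.algebraMap_mem c
          have h2 := N.smul_mem (⟨_, h1⟩ : S) hx
          have h3 : (⟨algebraMap ℂ (Module.End ℂ M) c, h1⟩ : S) • x = c • x := by
            show (algebraMap ℂ (Module.End ℂ M) c) x = c • x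
            rw [Module.algebraMap_end_apply]
          rw [h3] at h2
          exact h2 }
    have hW := hirr W (by
      intro g hg w hw
      exact N.smul_mem (⟨g, hg⟩ : S) hw)
    rcases hW with h | h
    · left
      ext x
      have h5 : x ∈ W ↔ x ∈ (⊥ : Submodule ℂ M) := by rw [h]
      rw [Submodule.mem_bot] at h5
      rw [Submodule.mem_bot]
      exact h5
    · right
      ext x
      have h5 : x ∈ W := by rw [h]; exact Submodule.mem_top
      exact ⟨fun _ => Submodule.mem_top, fun _ => h5⟩
  -- Schur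
  have schur : ∀ φ : Module.End S M, ∃ c : ℂ, ∀ m, φ m = c • m := by
    intro φ
    let φC : M →ₗ[ℂ] M :=
      { toFun := φ
        map_add' := fun a b => map_add φ a b
        map_smul' := by
          intro c x
          have h1 : (algebraMap ℂ (Module.End ℂ M) c) ∈ S := S.algebraMap_mem c
          have h2 := φ.map_smul (⟨_, h1⟩ : S) x
          exact h2 }
    obtain ⟨c, hc⟩ := Module.End.exists_eigenvalue φC
    obtain ⟨v, hv⟩ := hc.exists_hasEigenvector
    have hv1 : φ v = c • v := hv.apply_eq_smul
    have hcS : (algebraMap ℂ (Module.End ℂ M) c) ∈ S := S.algebraMap_mem c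
    let ψ : M →ₗ[S] M :=
      { toFun := fun m => φ m - c • m
        map_add' := by
          intro a b
          rw [map_add, smul_add]
          abel
        map_smul' := by
          intro s x
          rw [φ.map_smul]
          show s • φ x - c • (s.val x) = s.val (φ x - c • x)
          rw [map_sub, map_smul]
          rfl }
    rcases LinearMap.bijective_or_eq_zero ψ with h | h
    · exfalso
      have h0 : ψ v = ψ 0 := by
        rw [map_zero]
        show φ v - c • v = 0
        rw [hv1, sub_self]
      exact hv.2 (h.1 h0)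
    · refine ⟨c, fun m => ?_⟩
      have : ψ m = 0 := by rw [h]; rfl
      have h2 : φ m - c • m = 0 := this
      exact sub_eq_zero.1 h2
  rw [eq_top_iff]
  intro f _
  let F : Module.End (Module.End S M) M :=
    { toFun := f
      map_add' := fun a b => map_add f a b
      map_smul' := by
        intro φ m
        obtain ⟨c, hc⟩ := schur φ
        show f (φ m) = φ (f m)
        rw [hc, hc, map_smul] }
  let b := Module.finBasis ℂ M
  obtain ⟨r, hr⟩ := jacobson_density (R := S) (M := M) F (Finset.univ.image b)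
  have : f = r.val := by
    refine b.ext fun i => ?_
    exact hr (b i) (Finset.mem_image_of_mem _ (Finset.mem_univ i))
  rw [this]
  exact r.2

/-- Burnside's theorem for matrices. -/
theorem burnside {n : ℕ} (hn : 0 < n) (G : Submonoid (Matrix (Fin n) (Fin n) ℂ))
    (hirr : ∀ W : Submodule ℂ (Fin n → ℂ), (∀ g ∈ G, ∀ w ∈ W, g *ᵥ w ∈ W) → W = ⊥ ∨ W = ⊤) :
    Submodule.span ℂ (G : Set (Matrix (Fin n) (Fin n) ℂ)) = ⊤ := by
  classical
  have : Nonempty (Fin n) := ⟨⟨0, hn⟩⟩
  let e : Matrix (Fin n) (Fin n) ℂ ≃ₐ[ℂ] Module.End ℂ (Fin n → ℂ) := Matrix.toLinAlgEquiv'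
  let A := Algebra.adjoin ℂ (G : Set (Matrix (Fin n) (Fin n) ℂ))
  have hA : Subalgebra.toSubmodule A = Submodule.span ℂ (G : Set (Matrix (Fin n) (Fin n) ℂ)) := by
    rw [Algebra.adjoin_eq_span, Submonoid.closure_eq]
  have h1 : A.map (e : Matrix (Fin n) (Fin n) ℂ →ₐ[ℂ] Module.End ℂ (Fin n → ℂ)) = ⊤ := by
    refine burnside_end _ fun W hW => hirr W fun g hg w hw => ?_
    have h2 := hW (e g) ⟨g, Algebra.subset_adjoin hg, rfl⟩ w hw
    simpa [e] using h2
  rw [← hA, eq_top_iff]
  intro x _
  have h3 : e x ∈ A.map (e : Matrix (Fin n) (Fin n) ℂ →ₐ[ℂ] Module.End ℂ (Fin n → ℂ)) := by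
    rw [h1]; trivial
  obtain ⟨y, hy, hyx⟩ := h3
  have : y = x := e.injective hyx
  rw [← this]
  exact hy

end

end Pool.Agent.K3D.K6X
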