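import Pool.Agent.K3D.Defs

/-!
# De Rham-Betti conjecture for K3 surfaces: exact statements of the modules
Recipes: /team-store/MP_470b79_K3D.md
-/

open scoped BigOperators
open Matrix

namespace Pool.Agent.K3D

open Pool.Agent.DRB

noncomputable section

/-! ## Generic part: Lie algebra of a group of matrices -/

/-- K1. Jordan decomposition and stable subspaces of tensor spaces. -/
def Stmt_K1 : Prop :=
  ∀ (ι : Type) [Fintype ι] [DecidableEq ι] (x : GL ι ℂ),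
    ∃ (S : GL ι ℂ) (α : ι → ℂˣ) (N M : Matrix ι ι ℂ), IsNilpotent N ∧
      Matrix.diagonal (fun i => (α i).val) * N = N * Matrix.diagonal (fun i => (α i).val) ∧
      x.val = S.val * Matrix.diagonal (fun i => (α i).val) * (1 + N) * (S⁻¹).val ∧
      (∀ Y : Matrix ι ι ℂ, Y * M = M * Y → Y * N = N * Y) ∧
      ∀ (ν : ℂˣ) (t : TData) (D : Submodule ℂ (TIdx t ι → ℂ)), D.map (TAct t x.val ν.val) ≤ D →
        (∀ L : Additive ℂˣ →+ ℂ,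
          D.map (DAct t (S.val * Matrix.diagonal (fun i => L (Additive.ofMul (α i))) * (S⁻¹).val)
            (L (Additive.ofMul ν))) ≤ D) ∧
        D.map (DAct t (S.val * M * (S⁻¹).val) 0) ≤ D

/-- K2A. The Lie algebra: subspace, brackets, conjugation. -/
def Stmt_K2a : Prop :=
  ∀ (ι : Type) [Fintype ι] [DecidableEq ι] (Γ : Subgroup (GL ι ℂ × ℂˣ)),
    (∀ X Y ξ η (c : ℂ), InLie Γ X ξ → InLie Γ Y η → InLie Γ (X + c • Y) (ξ + c * η)) ∧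
    InLie Γ 0 0 ∧
    (∀ X Y ξ η, InLie Γ X ξ → InLie Γ Y η → InLie Γ (X * Y - Y * X) 0) ∧
    (∀ X ξ, InLie Γ X ξ → ∀ p ∈ Γ, InLie Γ (p.1.val * X * (p.1⁻¹).val) ξ)

/-- K2B. The Lie algebra is stable under automorphisms of `ℂ` if the group is. -/
def Stmt_K2b : Prop :=
  ∀ (ι : Type) [Fintype ι] [DecidableEq ι] (Γ : Subgroup (GL ι ℂ × ℂˣ)),
    (∀ (σ : ℂ ≃ₐ[ℚ] ℂ), ∀ p ∈ Γ, ∀ q : GL ι ℂ × ℂˣ, q.1.val = p.1.val.map σ →
      q.2.val = σ p.2.val → q ∈ Γ) →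
    ∀ (σ : ℂ ≃ₐ[ℚ] ℂ) X ξ, InLie Γ X ξ → InLie Γ (X.map σ) (σ ξ)

/-- K2C. Elements of the Lie algebra commute with the endomorphisms and are infinitesimal similitudes. -/
def Stmt_K2c : Prop :=
  ∀ (g : ℕ) (A : AbVar g) X ξ, InLie (Gam A) X ξ →
    (∀ α, A.IsEnd α → X * AbVar.toC α = AbVar.toC α * X) ∧ Xᵀ * A.riem + A.riem * X = ξ • A.riem

/-- K2D. The group and its Lie algebra preserve `T`. -/
def Stmt_K2d : Prop :=
  ∀ (g : ℕ) (A : AbVar g) (n : ℕ) (K : KSat A n),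
    (∀ p ∈ Gam A, ∀ Y ∈ K.TC, p.1.val * Y * (p.1⁻¹).val ∈ K.TC) ∧
    (∀ X ξ, InLie (Gam A) X ξ → ∀ Y ∈ K.TC, X * Y - Y * X ∈ K.TC)

/-- K3. Exponentials. -/
def Stmt_K3 : Prop :=
  ∀ (ι : Type) [Fintype ι] [DecidableEq ι] (t : TData) (X : Matrix ι ι ℂ) (ξ : ℂ)
    (D : Submodule ℂ (TIdx t ι → ℂ)), D.map (DAct t X ξ) ≤ D →
      D.map (TAct t (NormedSpace.exp X) (Complex.exp ξ)) ≤ D

/-- K4. Matrices commuting with the Lie algebra are combinations of endomorphisms. -/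
def Stmt_K4 : Prop :=
  ∀ (g : ℕ) (A : AbVar g) (Y : Matrix (Idx g) (Idx g) ℂ),
    (∀ X ξ, InLie (Gam A) X ξ → X * Y = Y * X) →
    Y ∈ Submodule.span ℂ {Z | ∃ α ∈ A.EndQ, Z = AbVar.toC α}

/-! ## Clifford algebra -/

/-- K5A. The Clifford relations, the lift of skew maps, and scalars. -/
def Stmt_K5a : Prop :=
  ∀ (g : ℕ) (A : AbVar g) (n : ℕ) (K : KSat A n),
    (∀ v w, K.cl v * K.cl w + K.cl w * K.cl v = (2 * K.bil v w) • (1 : Matrix (Idx g) (Idx g) ℂ)) ∧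
    (∀ v, K.cl v = 0 → v = 0) ∧
    (∀ a : Matrix (Fin n) (Fin n) ℂ, (∀ v w, K.bil (a *ᵥ v) w + K.bil v (a *ᵥ w) = 0) →
      ∀ v, (∑ i, ((4 * (K.q i : ℂ))⁻¹) • (K.cl (a *ᵥ Pi.single i 1) * K.cl (Pi.single i 1))) * K.cl v -
        K.cl v * (∑ i, ((4 * (K.q i : ℂ))⁻¹) • (K.cl (a *ᵥ Pi.single i 1) * K.cl (Pi.single i 1))) =
          K.cl (a *ᵥ v)) ∧
    (∀ Y : Matrix (Idx g) (Idx g) ℂ, (∀ α, A.IsEnd α → Y * AbVar.toC α = AbVar.toC α * Y) →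
      (∀ v, Y * K.cl v = K.cl v * Y) → ∃ c : ℂ, Y = c • 1) ∧
    (∀ Y ∈ Submodule.span ℂ {Z | ∃ α ∈ A.EndQ, Z = AbVar.toC α}, ∀ v w,
      Y * (K.cl v * K.cl w) = K.cl v * K.cl w * Y)

/-- K5B. A rational stable subspace of `T` is trivial. -/
def Stmt_K5b : Prop :=
  ∀ (g : ℕ) (A : AbVar g) (n : ℕ) (K : KSat A n), 3 ≤ n → ∀ W : Submodule ℂ (Fin n → ℂ),
    (∀ (σ : ℂ ≃ₐ[ℚ] ℂ), ∀ v ∈ W, (fun i => σ (v i)) ∈ W) →
    (∀ p ∈ Gam A, ∀ v ∈ W, ∃ w ∈ W, p.1.val * K.cl v * (p.1⁻¹).val = K.cl w) →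
    W = ⊥ ∨ W = ⊤

/-- K5C. A nondegenerate subspace stable under the Lie algebra is trivial. -/
def Stmt_K5c : Prop :=
  ∀ (g : ℕ) (A : AbVar g) (n : ℕ) (K : KSat A n), 3 ≤ n → ∀ W : Submodule ℂ (Fin n → ℂ),
    (∀ X ξ, InLie (Gam A) X ξ → ∀ v ∈ W, ∃ w ∈ W, X * K.cl v - K.cl v * X = K.cl w) →
    (∀ v ∈ W, (∀ w ∈ W, K.bil v w = 0) → v = 0) →
    W = ⊥ ∨ W = ⊤

/-- K5D. `T` is irreducible under the Lie algebra. -/
def Stmt_K5d : Prop :=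
  ∀ (g : ℕ) (A : AbVar g) (n : ℕ) (K : KSat A n), 3 ≤ n → ∀ W : Submodule ℂ (Fin n → ℂ),
    (∀ X ξ, InLie (Gam A) X ξ → ∀ v ∈ W, ∃ w ∈ W, X * K.cl v - K.cl v * X = K.cl w) →
    W = ⊥ ∨ W = ⊤

/-! ## Real linear algebra -/

/-- K6. A complex irreducible Lie algebra of an indefinite orthogonal group: the group generated by the
exponentials contains an element with an eigenvalue of absolute value different from one. -/
def Stmt_K6 : Prop :=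
  ∀ (n : ℕ) (q : Fin n → ℝ) (l : Submodule ℝ (Matrix (Fin n) (Fin n) ℝ)),
    (∀ i, q i ≠ 0) → (∃ i, 0 < q i) → (∃ i, q i < 0) →
    (∀ a ∈ l, aᵀ * Matrix.diagonal q + Matrix.diagonal q * a = 0) →
    (∀ W : Submodule ℂ (Fin n → ℂ), (∀ a ∈ l, ∀ v ∈ W, (a.map Complex.ofReal) *ᵥ v ∈ W) →
      W = ⊥ ∨ W = ⊤) →
    ∃ as : List (Matrix (Fin n) (Fin n) ℝ), (∀ a ∈ as, a ∈ l) ∧
      ∃ (β : ℂ) (v : Fin n → ℂ), v ≠ 0 ∧ ‖β‖ ≠ 1 ∧
        ((as.map fun a => NormedSpace.exp a).prod.map Complex.ofReal) *ᵥ v = β • v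

/-- `h` is the hyperbolic part of `a` (additive form). -/
def IsHypPart {n : ℕ} (a h : Matrix (Fin n) (Fin n) ℝ) : Prop :=
  ∀ (β : ℂ) (v : Fin n → ℂ),
    (∃ k : ℕ, ((a.map Complex.ofReal - β • (1 : Matrix (Fin n) (Fin n) ℂ)) ^ k) *ᵥ v = 0) →
    (h.map Complex.ofReal) *ᵥ v = (β.re : ℂ) • v

/-- `h` is the hyperbolic logarithm of `x` (multiplicative form). -/
def IsHypLog {n : ℕ} (x h : Matrix (Fin n) (Fin n) ℝ) : Prop :=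
  ∀ (β : ℂ) (v : Fin n → ℂ),
    (∃ k : ℕ, ((x.map Complex.ofReal - β • (1 : Matrix (Fin n) (Fin n) ℂ)) ^ k) *ᵥ v = 0) →
    (h.map Complex.ofReal) *ᵥ v = (Real.log ‖β‖ : ℂ) • v

/-- The hypotheses on the real Lie algebra. -/
structure LHyp (n : ℕ) (q : Fin n → ℝ) (l : Submodule ℝ (Matrix (Fin n) (Fin n) ℝ)) : Prop where
  n6 : 6 ≤ n
  qpos : ∀ i : Fin n, (i : ℕ) < 2 → 0 < q i
  qneg : ∀ i : Fin n, 2 ≤ (i : ℕ) → q i < 0
  skew : ∀ a ∈ l, aᵀ * Matrix.diagonal q + Matrix.diagonal q * a = 0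
  brk : ∀ a ∈ l, ∀ b ∈ l, a * b - b * a ∈ l
  irr : ∀ W : Submodule ℂ (Fin n → ℂ), (∀ a ∈ l, ∀ v ∈ W, (a.map Complex.ofReal) *ᵥ v ∈ W) →
      W = ⊥ ∨ W = ⊤
  hyp : ∀ a ∈ l, ∃ h ∈ l, IsHypPart a h

/-- K7I. If `l` contains an element `e ∧ f` with `e, f` isotropic, `B(e, f) = 1`, then `l` is everything. -/
def Stmt_K7i : Prop :=
  ∀ (n : ℕ) (q : Fin n → ℝ) (l : Submodule ℝ (Matrix (Fin n) (Fin n) ℝ)), LHyp n q l →
    ∀ e f : Fin n → ℝ, (∑ i, q i * e i * e i) = 0 → (∑ i, q i * f i * f i) = 0 →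
      (∑ i, q i * e i * f i) = 1 →
      ∀ h ∈ l, (∀ v, h *ᵥ v = (∑ i, q i * f i * v i) • e - (∑ i, q i * e i * v i) • f) →
      ∀ a, aᵀ * Matrix.diagonal q + Matrix.diagonal q * a = 0 → a ∈ l

/-- K7. The classification. -/
def Stmt_K7 : Prop :=
  ∀ (n : ℕ) (q : Fin n → ℝ) (l : Submodule ℝ (Matrix (Fin n) (Fin n) ℝ)), LHyp n q l →
    (∃ h ∈ l, h ≠ 0 ∧ ∃ (S : GL (Fin n) ℝ) (d : Fin n → ℝ),
      h = S.val * Matrix.diagonal d * (S⁻¹).val) →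
    ∀ a, aᵀ * Matrix.diagonal q + Matrix.diagonal q * a = 0 → a ∈ l

/-! ## Assembly -/

/-- The real Lie algebra acting on `T`. -/
def KSat.lie {g n : ℕ} {A : AbVar g} (K : KSat A n) (a : Matrix (Fin n) (Fin n) ℝ) : Prop :=
  ∃ (X : Matrix (Idx g) (Idx g) ℂ) (ξ : ℂ), InLie (Gam A) X ξ ∧
    ∀ v, X * K.cl v - K.cl v * X = K.cl ((a.map Complex.ofReal) *ᵥ v)

/-- K8A. Products of exponentials of elements of `K.lie` have their hyperbolic logarithm in `K.lie`. -/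
def Stmt_K8a : Prop :=
  ∀ (g : ℕ) (A : AbVar g) (n : ℕ) (K : KSat A n) (as : List (Matrix (Fin n) (Fin n) ℝ)),
    (∀ a ∈ as, K.lie a) → ∃ h, K.lie h ∧ IsHypLog (as.map fun a => NormedSpace.exp a).prod h

/-- K8B. The Lie algebra is everything. -/
def Stmt_K8b : Prop :=
  ∀ (g : ℕ) (A : AbVar g) (n : ℕ) (K : KSat A n), 6 ≤ n →
    ∀ a : Matrix (Fin n) (Fin n) ℝ,
      aᵀ * Matrix.diagonal (fun i => (K.q i : ℝ)) + Matrix.diagonal (fun i => (K.q i : ℝ)) * a = 0 →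
      K.lie a

/-- K9. The generator of the Hodge structure belongs to the Lie algebra, and the conclusion. -/
def Stmt_K9 : Prop := MainK3

end

end Pool.Agent.K3D
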